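import Pool.Agent.SMin.FCore

set_option autoImplicit false
open Finset Filter

namespace Pool.Agent.SMin

lemma fn_mulVec {n : ℕ} (z : ℂ) (A : Fin n → Fin n → Bool) (x : Fin n → ℂ) (i : Fin n) :
    (Matrix.mulVec (Mz z A) x) i = L z (toN A) x i := by
  unfold Mz L toN
  rw [Matrix.sub_mulVec, Matrix.smul_mulVec, Matrix.one_mulVec]
  simp only [Pi.sub_apply, Pi.smul_apply, smul_eq_mul]
  congr 1
  unfold Matrix.mulVec dotProduct
  apply sum_congr rfl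
  intro j _
  simp only [Matrix.of_apply]
  split_ifs <;> simp

lemma fn_vecMul {n : ℕ} (z : ℂ) (A : Fin n → Fin n → Bool) (y : Fin n → ℂ) (i : Fin n) :
    (Matrix.vecMul y (Mz z A)) i = L z (tr (toN A)) y i := by
  unfold Mz L tr toN
  rw [Matrix.vecMul_sub, Matrix.vecMul_smul, Matrix.vecMul_one]
  simp only [Pi.sub_apply, Pi.smul_apply, smul_eq_mul]
  congr 1
  unfold Matrix.vecMul dotProduct
  apply sum_congr rfl
  intro j _
  simp only [Matrix.of_apply]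
  split_ifs <;> simp

/-- the right and left vectors -/
noncomputable def fn_w {n : ℕ} (z : ℂ) (A : Fin n → Fin n → Bool) (j j' : Fin n) : Fin n → ℂ :=
  fun i => (Mz z A)⁻¹ i j - (Mz z A)⁻¹ i j'

noncomputable def fn_y {n : ℕ} (z : ℂ) (A : Fin n → Fin n → Bool) (j j' : Fin n) : Fin n → ℂ :=
  fun i => (Mz z A)⁻¹ j i - (Mz z A)⁻¹ j' i

lemma fn_w_eq {n : ℕ} (z : ℂ) (A : Fin n → Fin n → Bool) (hA : (Mz z A).det ≠ 0) (j j' i : Fin n) :
    L z (toN A) (fn_w z A j j') i = (if i = j then 1 else 0) - (if i = j' then 1 else 0) := by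
  rw [← fn_mulVec]
  have hu : IsUnit (Mz z A).det := isUnit_iff_ne_zero.2 hA
  have h := Matrix.mul_nonsing_inv (Mz z A) hu
  have h1 : ∀ j, ∑ k, (Mz z A) i k * (Mz z A)⁻¹ k j = if i = j then 1 else 0 := by
    intro j
    have := congrFun (congrFun h i) j
    rw [Matrix.mul_apply, Matrix.one_apply] at this
    exact this
  unfold Matrix.mulVec dotProduct fn_w
  rw [← h1 j, ← h1 j', ← sum_sub_distrib]
  apply sum_congr rfl; intro k _; ring

lemma fn_y_eq {n : ℕ} (z : ℂ) (A : Fin n → Fin n → Bool) (hA : (Mz z A).det ≠ 0) (j j' i : Fin n) :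
    L z (tr (toN A)) (fn_y z A j j') i = (if i = j then 1 else 0) - (if i = j' then 1 else 0) := by
  rw [← fn_vecMul]
  have hu : IsUnit (Mz z A).det := isUnit_iff_ne_zero.2 hA
  have h := Matrix.nonsing_inv_mul (Mz z A) hu
  have h1 : ∀ j, ∑ k, (Mz z A)⁻¹ j k * (Mz z A) k i = if i = j then 1 else 0 := by
    intro j
    have := congrFun (congrFun h j) i
    rw [Matrix.mul_apply, Matrix.one_apply] at this
    rw [this]
    by_cases h : j = i
    · rw [if_pos h, if_pos h.symm]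
    · rw [if_neg h, if_neg (Ne.symm h)]
  unfold Matrix.vecMul dotProduct fn_y
  rw [← h1 j, ← h1 j', ← sum_sub_distrib]
  apply sum_congr rfl; intro k _; ring

/-- the rectangle identity -/
lemma fn_rect {n : ℕ} (z : ℂ) (A : Fin n → Fin n → Bool) (i i' j j' : Fin n) :
    Nij z A i j - Nij z A i' j - Nij z A i j' + Nij z A i' j' =
      -z * ((fn_w z A j j' i + fn_y z A j j' i) - (fn_w z A j j' i' + fn_y z A j j' i')) := by
  unfold Nij fn_w fn_y
  ring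

lemma fn_close {n : ℕ} (z : ℂ) (hz0 : z ≠ 0) (A : Fin n → Fin n → Bool) (i i' j j' : Fin n) (T : ℝ)
    (h1 : ‖Nij z A i j‖ ≤ T) (h2 : ‖Nij z A i' j‖ ≤ T) (h3 : ‖Nij z A i j'‖ ≤ T)
    (h4 : ‖Nij z A i' j'‖ ≤ T) :
    ‖(fn_w z A j j' i + fn_y z A j j' i) - (fn_w z A j j' i' + fn_y z A j j' i')‖ ≤ 4 * T / ‖z‖ := by
  have hz : 0 < ‖z‖ := norm_pos_iff.2 hz0
  rw [le_div_iff₀ hz]
  have h := fn_rect z A i i' j j'
  have h5 : ‖-z * ((fn_w z A j j' i + fn_y z A j j' i) - (fn_w z A j j' i' + fn_y z A j j' i'))‖ ≤ 4 * T := by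
    rw [← h]
    calc _ ≤ ‖Nij z A i j - Nij z A i' j - Nij z A i j'‖ + ‖Nij z A i' j'‖ := norm_add_le _ _
      _ ≤ ‖Nij z A i j - Nij z A i' j‖ + ‖Nij z A i j'‖ + ‖Nij z A i' j'‖ := by
          gcongr; exact norm_sub_le _ _
      _ ≤ ‖Nij z A i j‖ + ‖Nij z A i' j‖ + ‖Nij z A i j'‖ + ‖Nij z A i' j'‖ := by
          gcongr; exact norm_sub_le _ _
      _ ≤ 4 * T := by linarith
  rw [norm_mul, norm_neg] at h5
  linarith

/-- crude upper bound: one entry of the image bounds the norm from below -/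
lemma fn_w_lower {n : ℕ} (z : ℂ) (d : ℕ) (A : Fin n → Fin n → Bool) (hAr : A ∈ Reg n d)
    (v : Fin n → ℂ) (j : Fin n) (hv : L z (toN A) v j = 1) :
    1 / (d + ‖z‖) ≤ Real.sqrt (∑ k, ‖v k‖ ^ 2) := by
  classical
  set N := Real.sqrt (∑ k, ‖v k‖ ^ 2) with hN
  have hN0 : 0 ≤ N := Real.sqrt_nonneg _
  have h1 : ‖L z (toN A) v j‖ ≤ (d + ‖z‖) * N := by
    unfold L
    refine (norm_sub_le _ _).trans ?_
    have h2 : ‖∑ k, ((toN A j k : ℕ) : ℂ) * v k‖ ≤ d * N := by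
      refine (norm_sum_le _ _).trans ?_
      have h3 : ∀ k ∈ (univ : Finset (Fin n)), ‖((toN A j k : ℕ) : ℂ) * v k‖ ≤ if A j k = true then N else 0 := by
        intro k _
        unfold toN
        split_ifs
        · simpa using fc_norm_le v k
        · simp
      refine (sum_le_sum h3).trans ?_
      rw [← sum_filter, sum_const, nsmul_eq_mul, (mem_Reg.1 hAr).1 j]
    have h4 : ‖z * v j‖ ≤ ‖z‖ * N := by
      rw [norm_mul]; exact mul_le_mul_of_nonneg_left (fc_norm_le v j) (norm_nonneg _)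
    linarith
  rw [hv, norm_one] at h1
  have hpos : 0 < (d + ‖z‖ : ℝ) := by
    by_contra h
    have : (d + ‖z‖ : ℝ) = 0 := le_antisymm (not_lt.1 h) (by positivity)
    rw [this] at h1; linarith
  rw [div_le_iff₀ hpos]; linarith

/-- the left vector is large when the near-kernel vector separates `j` and `j'` -/
lemma fn_y_lower {n : ℕ} (z : ℂ) (A : Fin n → Fin n → Bool) (hA : (Mz z A).det ≠ 0) (j j' : Fin n)
    (v : Fin n → ℂ) (e : ℝ) (he : 0 ≤ e)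
    (hv : ∑ k, ‖(Matrix.mulVec (Mz z A) v) k‖ ^ 2 ≤ e ^ 2) :
    ‖v j - v j'‖ ≤ Real.sqrt (∑ k, ‖fn_y z A j j' k‖ ^ 2) * e := by
  set y := fn_y z A j j' with hy
  have h1 : v j - v j' = ∑ k, y k * (Matrix.mulVec (Mz z A) v) k := by
    have h2 : Matrix.vecMul y (Mz z A) = fun i => (if i = j then 1 else 0) - (if i = j' then 1 else 0) := by
      funext i; rw [fn_vecMul, hy, fn_y_eq z A hA]
    have h3 : dotProduct y (Matrix.mulVec (Mz z A) v) = dotProduct (Matrix.vecMul y (Mz z A)) v :=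
      Matrix.dotProduct_mulVec _ _ _
    have h4 : dotProduct (Matrix.vecMul y (Mz z A)) v = v j - v j' := by
      rw [h2]; unfold dotProduct
      simp [sub_mul, sum_sub_distrib]
    rw [← h4, ← h3]; rfl
  rw [h1]
  calc ‖∑ k, y k * (Matrix.mulVec (Mz z A) v) k‖ ≤ ∑ k, ‖y k‖ * ‖(Matrix.mulVec (Mz z A) v) k‖ := by
        refine (norm_sum_le _ _).trans (le_of_eq ?_)
        apply sum_congr rfl; intro k _; rw [norm_mul]
    _ ≤ Real.sqrt (∑ k, ‖y k‖ ^ 2) * Real.sqrt (∑ k, ‖(Matrix.mulVec (Mz z A) v) k‖ ^ 2) :=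
        Real.sum_mul_le_sqrt_mul_sqrt _ _ _
    _ ≤ Real.sqrt (∑ k, ‖y k‖ ^ 2) * e := by
        apply mul_le_mul_of_nonneg_left _ (Real.sqrt_nonneg _)
        rw [Real.sqrt_le_left he]; exact hv

/-- from a rectangle set to the `F_core` event -/
lemma fn_incl {n : ℕ} (z : ℂ) (hz0 : z ≠ 0) (A : Fin n → Fin n → Bool)
    (hA : (Mz z A).det ≠ 0) (j j' : Fin n) (T r κ : ℝ) (hκn : 0 < κ * n) (hr : 0 ≤ r)
    (I : Finset (Fin n)) (hI : κ * n ≤ (I.card : ℝ))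
    (hN : ∀ i ∈ I, ‖Nij z A i j‖ ≤ T ∧ ‖Nij z A i j'‖ ≤ T)
    (hT : j ≠ j' → 4 * T / ‖z‖ ≤ r * Real.sqrt (max (∑ k, ‖fn_w z A j j' k‖ ^ 2) (∑ k, ‖fn_y z A j j' k‖ ^ 2))) :
    ∃ w y : Fin n → ℂ, ∃ a : ℂ,
        (∀ i, L z (toN A) w i = (if i = j then 1 else 0) - (if i = j' then 1 else 0)) ∧
        (∀ i, L z (tr (toN A)) y i = (if i = j then 1 else 0) - (if i = j' then 1 else 0)) ∧
        κ * n ≤ (bc (fun i => w i + y i) univ a
          (r * Real.sqrt (max (∑ k, ‖w k‖ ^ 2) (∑ k, ‖y k‖ ^ 2))) : ℝ) := by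
  classical
  have hIc : 0 < I.card := by
    have : (0:ℝ) < (I.card : ℝ) := lt_of_lt_of_le hκn hI
    exact_mod_cast this
  obtain ⟨i', hi'⟩ := card_pos.1 hIc
  refine ⟨fn_w z A j j', fn_y z A j j', fn_w z A j j' i' + fn_y z A j j' i',
    fn_w_eq z A hA j j', fn_y_eq z A hA j j', hI.trans ?_⟩
  have : I.card ≤ bc (fun i => fn_w z A j j' i + fn_y z A j j' i) univ
      (fn_w z A j j' i' + fn_y z A j j' i')
      (r * Real.sqrt (max (∑ k, ‖fn_w z A j j' k‖ ^ 2) (∑ k, ‖fn_y z A j j' k‖ ^ 2))) := by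
    unfold bc
    apply card_le_card
    intro i hi
    rw [mem_filter]
    refine ⟨mem_univ _, ?_⟩
    by_cases hjj : j = j'
    · subst hjj
      have h1 : ∀ i, fn_w z A j j i = 0 := fun i => by unfold fn_w; ring
      have h2 : ∀ i, fn_y z A j j i = 0 := fun i => by unfold fn_y; ring
      simp only [h1, h2, add_zero, sub_self, norm_zero]
      positivity
    · exact (fn_close z hz0 A i i' j j' T (hN i hi).1 (hN i' hi').1 (hN i hi).2 (hN i' hi').2).trans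
        (hT hjj)
  exact_mod_cast this

/-- fibrewise bound over the last coordinate -/
lemma fn_fib {α : Type*} (S : Finset α) (n : ℕ) (P : α → Fin n → Fin n → Prop) (θ : ℝ)
    (hθ : 0 ≤ θ) (h : ∀ A ∈ S, ∀ j, ∀ [DecidablePred (P A j)],
      ((univ.filter (fun j' => P A j j')).card : ℝ) ≤ θ * n) :
    fr (S ×ˢ (univ : Finset (Fin n × Fin n))) (fun t => P t.1 t.2.1 t.2.2) ≤ θ := by
  classical
  rw [fr_def]
  rcases (S ×ˢ (univ : Finset (Fin n × Fin n))).eq_empty_or_nonempty with he | he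
  · rw [he]; simpa using hθ
  have hpos : (0:ℝ) < ((S ×ˢ (univ : Finset (Fin n × Fin n))).card : ℝ) := by exact_mod_cast he.card_pos
  rw [div_le_iff₀ hpos]
  have h1 : ((S ×ˢ (univ : Finset (Fin n × Fin n))).filter (fun t => P t.1 t.2.1 t.2.2)).card ≤
      ∑ A ∈ S, ∑ j : Fin n, (univ.filter (fun j' => P A j j')).card := by
    have : ((S ×ˢ (univ : Finset (Fin n × Fin n))).filter (fun t => P t.1 t.2.1 t.2.2)) ⊆
        S.biUnion (fun A => univ.biUnion (fun j => (univ.filter (fun j' => P A j j')).image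
          (fun j' => (A, (j, j'))))) := by
      rintro ⟨A, j, j'⟩ hab
      simp only [mem_filter, mem_product, mem_univ, and_true] at hab
      simp only [mem_biUnion, mem_image, mem_filter, mem_univ, true_and]
      exact ⟨A, hab.1, j, j', hab.2, rfl⟩
    refine (card_le_card this).trans (card_biUnion_le.trans ?_)
    apply sum_le_sum; intro A _
    refine card_biUnion_le.trans ?_
    apply sum_le_sum; intro j _
    exact card_image_le
  have h2 : ((((S ×ˢ (univ : Finset (Fin n × Fin n))).filter (fun t => P t.1 t.2.1 t.2.2)).card : ℕ) : ℝ) ≤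
      ∑ A ∈ S, ∑ j : Fin n, ((univ.filter (fun j' => P A j j')).card : ℝ) := by exact_mod_cast h1
  refine h2.trans ?_
  calc _ ≤ ∑ A ∈ S, ∑ _j : Fin n, θ * n := by
        apply sum_le_sum; intro A hA
        apply sum_le_sum; intro j _
        exact h A hA j
    _ = θ * ((S ×ˢ (univ : Finset (Fin n × Fin n))).card : ℝ) := by
        rw [sum_const, sum_const, card_univ, Fintype.card_fin, nsmul_eq_mul, nsmul_eq_mul, card_product,
          card_univ, Fintype.card_prod, Fintype.card_fin]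
        push_cast; ring

/-- second term: small `N` -/
lemma fn_second (d : ℕ) (hd3 : 3 ≤ d) (z : ℂ) (hz0 : z ≠ 0) (hzd : z ≠ d)
    (hinv : ∀ n : ℕ, ∀ A : Fin n → Fin n → Bool, (Mz z A).det ≠ 0) (ε : ℝ) (hε : 0 < ε)
    (κ : ℝ) (hκ : 0 < κ) : ∀ᶠ n : ℕ in atTop,
      fr (Reg n d ×ˢ (univ : Finset (Fin n × Fin n)))
        (fun s => ‖Nij z s.1 s.2.1 s.2.2‖ ≤ 1 / Real.exp (ε / 2 * n)) ≤ κ := by
  classical
  have hF := F_core d hd3 z hz0 hzd (κ ^ 2 / 2) (ε / 4) (by positivity) (by positivity)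
    (κ ^ 2 / 4) (by positivity)
  have hz : 0 < ‖z‖ := norm_pos_iff.2 hz0
  have hdz : (0:ℝ) < d + ‖z‖ := by positivity
  have hsc : ∀ᶠ n : ℕ in atTop, 4 / ‖z‖ * Real.exp (-(ε / 2 * n)) <
      1 / (d + ‖z‖) * Real.exp (-(ε / 4 * n)) :=
    ct_scale _ (ε / 2) (ε / 4) (1 / (d + ‖z‖)) (by positivity) (by linarith)
  filter_upwards [hF, hsc, eventually_gt_atTop 0] with n hF hsc hn
  have hn0 : (0:ℝ) < n := by exact_mod_cast hn
  by_contra hlt
  push Not at hlt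
  have hr := rect hn (Reg n d) (fun A i j => ‖Nij z A i j‖ ≤ 1 / Real.exp (ε / 2 * n)) κ hκ.le hlt.le
  have hincl : fr (Reg n d ×ˢ (univ : Finset (Fin n × Fin n))) (fun t =>
      κ ^ 2 / 2 * n ≤ ((univ.filter (fun i => ‖Nij z t.1 i t.2.1‖ ≤ 1 / Real.exp (ε / 2 * n) ∧
        ‖Nij z t.1 i t.2.2‖ ≤ 1 / Real.exp (ε / 2 * n))).card : ℝ)) ≤
      fr (Reg n d ×ˢ (univ : Finset (Fin n × Fin n))) (fun t => ∃ w y : Fin n → ℂ, ∃ a : ℂ,
        (∀ i, L z (toN t.1) w i = (if i = t.2.1 then 1 else 0) - (if i = t.2.2 then 1 else 0)) ∧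
        (∀ i, L z (tr (toN t.1)) y i = (if i = t.2.1 then 1 else 0) - (if i = t.2.2 then 1 else 0)) ∧
        κ ^ 2 / 2 * n ≤ (bc (fun i => w i + y i) univ a
          (Real.exp (-(ε / 4 * n)) * Real.sqrt (max (∑ k, ‖w k‖ ^ 2) (∑ k, ‖y k‖ ^ 2))) : ℝ)) := by
    apply fr_mono
    rintro ⟨A, j, j'⟩ hmem hI
    rw [mem_product] at hmem
    simp only at hI ⊢
    refine fn_incl z hz0 A (hinv n A) j j' (1 / Real.exp (ε / 2 * n)) (Real.exp (-(ε / 4 * n)))
      (κ ^ 2 / 2) (by positivity) (Real.exp_pos _).le _ hI ?_ ?_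
    · intro i hi
      exact (mem_filter.1 hi).2
    · intro hjj
      have h1 := fn_w_lower z d A hmem.1 (fn_w z A j j') j (by
        rw [fn_w_eq z A (hinv n A), if_pos rfl, if_neg hjj, sub_zero])
      have h2 : Real.sqrt (∑ k, ‖fn_w z A j j' k‖ ^ 2) ≤
          Real.sqrt (max (∑ k, ‖fn_w z A j j' k‖ ^ 2) (∑ k, ‖fn_y z A j j' k‖ ^ 2)) :=
        Real.sqrt_le_sqrt (le_max_left _ _)
      have h3 : 1 / Real.exp (ε / 2 * n) = Real.exp (-(ε / 2 * n)) := by rw [Real.exp_neg, one_div]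
      rw [h3]
      calc 4 * Real.exp (-(ε / 2 * n)) / ‖z‖ = 4 / ‖z‖ * Real.exp (-(ε / 2 * n)) := by ring
        _ ≤ 1 / (d + ‖z‖) * Real.exp (-(ε / 4 * n)) := hsc.le
        _ = Real.exp (-(ε / 4 * n)) * (1 / (d + ‖z‖)) := by ring
        _ ≤ Real.exp (-(ε / 4 * n)) * Real.sqrt (max (∑ k, ‖fn_w z A j j' k‖ ^ 2)
            (∑ k, ‖fn_y z A j j' k‖ ^ 2)) :=
          mul_le_mul_of_nonneg_left (h1.trans h2) (Real.exp_pos _).le
  have hk : 0 < κ ^ 2 := by positivity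
  have hr' : κ ^ 2 / 2 ≤ fr (Reg n d ×ˢ (univ : Finset (Fin n × Fin n))) (fun t =>
      κ ^ 2 / 2 * n ≤ ((univ.filter (fun i => ‖Nij z t.1 i t.2.1‖ ≤ 1 / Real.exp (ε / 2 * n) ∧
        ‖Nij z t.1 i t.2.2‖ ≤ 1 / Real.exp (ε / 2 * n))).card : ℝ)) := by
    convert hr
  linarith

/-- first term: near-singular and `N` not large -/
lemma fn_first (d : ℕ) (hd3 : 3 ≤ d) (z : ℂ) (hz0 : z ≠ 0) (hzd : z ≠ d)
    (hinv : ∀ n : ℕ, ∀ A : Fin n → Fin n → Bool, (Mz z A).det ≠ 0) (ε : ℝ) (hε : 0 < ε)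
    (κ : ℝ) (hκ : 0 < κ) : ∀ᶠ n : ℕ in atTop,
      fr (Reg n d ×ˢ (univ : Finset (Fin n × Fin n)))
        (fun s => (∃ x : Fin n → ℂ, (∑ k, ‖x k‖ ^ 2 = 1) ∧
          ∑ k, ‖(Matrix.mulVec (Mz z s.1) x) k‖ ^ 2 ≤ Real.exp (-(ε * (n : ℝ))) ^ 2) ∧
          ‖Nij z s.1 s.2.1 s.2.2‖ ≤ Real.exp (ε / 2 * n)) ≤ κ := by
  classical
  set q : ℝ := κ ^ 2 / 2 with hq
  have hq0 : 0 < q := by positivity
  have hF := F_core d hd3 z hz0 hzd q (ε / 4) hq0 (by positivity) (q / 5) (by positivity)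
  have hS := S_main d hd3 z hz0 hzd (q / 5) (ε / 8) (by positivity) (by positivity) (q / 5) (by positivity)
  have hz : 0 < ‖z‖ := norm_pos_iff.2 hz0
  have hsc : ∀ᶠ n : ℕ in atTop, 4 / ‖z‖ * Real.exp (-(-(ε / 2) * n)) <
      1 * Real.exp (-(-(5 * ε / 8) * n)) :=
    ct_scale _ (-(ε / 2)) (-(5 * ε / 8)) 1 one_pos (by linarith)
  filter_upwards [hF, hS, hsc, eventually_gt_atTop 0] with n hF hS hsc hn
  have hn0 : (0:ℝ) < n := by exact_mod_cast hn
  by_contra hlt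
  push Not at hlt
  set Z : (Fin n → Fin n → Bool) → Prop := fun A => ∃ x : Fin n → ℂ, (∑ k, ‖x k‖ ^ 2 = 1) ∧
          ∑ k, ‖(Matrix.mulVec (Mz z A) x) k‖ ^ 2 ≤ Real.exp (-(ε * (n : ℝ))) ^ 2 with hZ
  have hr := rect hn (Reg n d) (fun A i j => Z A ∧ ‖Nij z A i j‖ ≤ Real.exp (ε / 2 * n)) κ hκ.le hlt.le
  -- the chosen near-kernel vector
  set v : (Fin n → Fin n → Bool) → Fin n → ℂ := fun A => if h : Z A then h.choose else 0 with hv
  have hv1 : ∀ A, Z A → (∑ k, ‖v A k‖ ^ 2 = 1) ∧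
          ∑ k, ‖(Matrix.mulVec (Mz z A) (v A)) k‖ ^ 2 ≤ Real.exp (-(ε * (n : ℝ))) ^ 2 := by
    intro A h
    have : v A = h.choose := by simp only [hv, dif_pos h]
    rw [this]; exact h.choose_spec
  set SB : (Fin n → Fin n → Bool) × (Fin n × Fin n) → Prop := fun t => ∃ x : Fin n → ℂ,
        (∑ k, ‖x k‖ ^ 2 = 1) ∧
        (∀ i, i ≠ t.2.1 → i ≠ t.2.2 → ‖L z (toN t.1) x i‖ ≤ Real.exp (-(ε / 8 * n))) ∧
        ∃ a : ℂ, q / 5 * n ≤ (bc x univ a (Real.exp (-(ε / 8 * n))) : ℝ) with hSB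
  set CL : (Fin n → Fin n → Bool) → Fin n → Fin n → Prop := fun A j j' =>
    (∀ b : ℂ, (bc (v A) univ b (Real.exp (-(ε / 8 * n))) : ℝ) < q / 5 * n) ∧
      ‖v A j - v A j'‖ ≤ Real.exp (-(ε / 8 * n)) with hCL
  set FC : (Fin n → Fin n → Bool) × (Fin n × Fin n) → Prop := fun t => ∃ w y : Fin n → ℂ, ∃ a : ℂ,
        (∀ i, L z (toN t.1) w i = (if i = t.2.1 then 1 else 0) - (if i = t.2.2 then 1 else 0)) ∧
        (∀ i, L z (tr (toN t.1)) y i = (if i = t.2.1 then 1 else 0) - (if i = t.2.2 then 1 else 0)) ∧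
        q * n ≤ (bc (fun i => w i + y i) univ a
          (Real.exp (-(ε / 4 * n)) * Real.sqrt (max (∑ k, ‖w k‖ ^ 2) (∑ k, ‖y k‖ ^ 2))) : ℝ) with hFC
  have hcl : fr (Reg n d ×ˢ (univ : Finset (Fin n × Fin n))) (fun t => CL t.1 t.2.1 t.2.2) ≤ q / 5 := by
    apply fn_fib _ _ _ _ (by positivity)
    intro A _ j _
    by_cases hb : ∀ b : ℂ, (bc (v A) univ b (Real.exp (-(ε / 8 * n))) : ℝ) < q / 5 * n
    · refine le_trans ?_ (hb (v A j)).le
      have : (univ.filter (fun j' => CL A j j')).card ≤ bc (v A) univ (v A j) (Real.exp (-(ε / 8 * n))) := by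
        unfold bc
        apply card_le_card
        intro k hk
        rw [mem_filter] at hk ⊢
        refine ⟨mem_univ _, ?_⟩
        rw [norm_sub_rev]; exact hk.2.2
      exact_mod_cast this
    · have : (univ.filter (fun j' => CL A j j')) = ∅ := by
        rw [filter_eq_empty_iff]
        intro k _ hk
        exact hb hk.1
      rw [this]; simp; positivity
  have hincl : fr (Reg n d ×ˢ (univ : Finset (Fin n × Fin n))) (fun t =>
      κ ^ 2 / 2 * n ≤ ((univ.filter (fun i => (Z t.1 ∧ ‖Nij z t.1 i t.2.1‖ ≤ Real.exp (ε / 2 * n)) ∧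
        (Z t.1 ∧ ‖Nij z t.1 i t.2.2‖ ≤ Real.exp (ε / 2 * n)))).card : ℝ)) ≤
      fr (Reg n d ×ˢ (univ : Finset (Fin n × Fin n))) (fun t => (SB t ∨ CL t.1 t.2.1 t.2.2) ∨ FC t) := by
    apply fr_mono
    rintro ⟨A, j, j'⟩ hmem hI
    rw [mem_product] at hmem
    simp only at hI ⊢
    by_cases hsb : SB (A, (j, j'))
    · left; left; exact hsb
    by_cases hc : CL A j j'
    · left; right; exact hc
    right
    -- `Z A` holds
    have hIc : 0 < (univ.filter (fun i => (Z A ∧ ‖Nij z A i j‖ ≤ Real.exp (ε / 2 * n)) ∧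
        (Z A ∧ ‖Nij z A i j'‖ ≤ Real.exp (ε / 2 * n)))).card := by
      have : (0:ℝ) < ((univ.filter (fun i => (Z A ∧ ‖Nij z A i j‖ ≤ Real.exp (ε / 2 * n)) ∧
        (Z A ∧ ‖Nij z A i j'‖ ≤ Real.exp (ε / 2 * n)))).card : ℝ) :=
        lt_of_lt_of_le (by positivity) hI
      exact_mod_cast this
    obtain ⟨i0, hi0⟩ := card_pos.1 hIc
    have hZA : Z A := (mem_filter.1 hi0).2.1.1
    obtain ⟨hv2, hv3⟩ := hv1 A hZA
    have hlev : ∀ b : ℂ, (bc (v A) univ b (Real.exp (-(ε / 8 * n))) : ℝ) < q / 5 * n := by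
      intro b
      by_contra hb
      push Not at hb
      apply hsb
      refine ⟨v A, hv2, ?_, b, hb⟩
      intro i _ _
      simp only
      rw [← fn_mulVec]
      refine (fc_norm_le _ i).trans ?_
      rw [Real.sqrt_le_left (Real.exp_pos _).le]
      refine hv3.trans ?_
      apply pow_le_pow_left₀ (Real.exp_pos _).le
      rw [Real.exp_le_exp]
      have : ε / 8 * n ≤ ε * n := mul_le_mul_of_nonneg_right (by linarith) hn0.le
      linarith
    have hfar : Real.exp (-(ε / 8 * n)) < ‖v A j - v A j'‖ := by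
      by_contra h
      exact hc ⟨hlev, not_lt.1 h⟩
    refine fn_incl z hz0 A (hinv n A) j j' (Real.exp (ε / 2 * n)) (Real.exp (-(ε / 4 * n)))
      q (by positivity) (Real.exp_pos _).le _ hI ?_ ?_
    · intro i hi
      have := (mem_filter.1 hi).2
      exact ⟨this.1.2, this.2.2⟩
    · intro _
      have h1 := fn_y_lower z A (hinv n A) j j' (v A) (Real.exp (-(ε * n))) (Real.exp_pos _).le hv3
      have h2 : Real.sqrt (∑ k, ‖fn_y z A j j' k‖ ^ 2) ≤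
          Real.sqrt (max (∑ k, ‖fn_w z A j j' k‖ ^ 2) (∑ k, ‖fn_y z A j j' k‖ ^ 2)) :=
        Real.sqrt_le_sqrt (le_max_right _ _)
      have h3 : Real.exp (7 * ε / 8 * n) ≤ Real.sqrt (∑ k, ‖fn_y z A j j' k‖ ^ 2) := by
        have h4 : Real.exp (-(ε / 8 * n)) ≤ Real.sqrt (∑ k, ‖fn_y z A j j' k‖ ^ 2) * Real.exp (-(ε * n)) :=
          hfar.le.trans h1
        have h5 : Real.exp (-(ε / 8 * n)) = Real.exp (7 * ε / 8 * n) * Real.exp (-(ε * n)) := by
          rw [← Real.exp_add]; congr 1; ring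
        rw [h5] at h4
        exact le_of_mul_le_mul_right h4 (Real.exp_pos _)
      calc 4 * Real.exp (ε / 2 * n) / ‖z‖ = 4 / ‖z‖ * Real.exp (-(-(ε / 2) * n)) := by
            rw [show -(-(ε / 2) * (n:ℝ)) = ε / 2 * n by ring]; ring
        _ ≤ 1 * Real.exp (-(-(5 * ε / 8) * n)) := hsc.le
        _ = Real.exp (-(ε / 4 * n)) * Real.exp (7 * ε / 8 * n) := by
            rw [one_mul, ← Real.exp_add]; congr 1; ring
        _ ≤ Real.exp (-(ε / 4 * n)) * Real.sqrt (max (∑ k, ‖fn_w z A j j' k‖ ^ 2)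
            (∑ k, ‖fn_y z A j j' k‖ ^ 2)) :=
          mul_le_mul_of_nonneg_left (h3.trans h2) (Real.exp_pos _).le
  have hr' : κ ^ 2 / 2 ≤ fr (Reg n d ×ˢ (univ : Finset (Fin n × Fin n))) (fun t =>
      κ ^ 2 / 2 * n ≤ ((univ.filter (fun i => (Z t.1 ∧ ‖Nij z t.1 i t.2.1‖ ≤ Real.exp (ε / 2 * n)) ∧
        (Z t.1 ∧ ‖Nij z t.1 i t.2.2‖ ≤ Real.exp (ε / 2 * n)))).card : ℝ)) := by
    convert hr
  have e1 := fr_or_le (Reg n d ×ˢ (univ : Finset (Fin n × Fin n)))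
    (fun t => SB t ∨ CL t.1 t.2.1 t.2.2) FC
  have e2 := fr_or_le (Reg n d ×ˢ (univ : Finset (Fin n × Fin n))) SB (fun t => CL t.1 t.2.1 t.2.2)
  have e3 : fr (Reg n d ×ˢ (univ : Finset (Fin n × Fin n))) SB ≤ q / 5 := hS
  have e4 : fr (Reg n d ×ˢ (univ : Finset (Fin n × Fin n))) FC ≤ q / 5 := hF
  have e5 : κ ^ 2 / 2 = q := rfl
  linarith

theorem final (d : ℕ) (hd3 : 3 ≤ d) (z : ℂ) (hz0 : z ≠ 0) (hzd : z ≠ d)
    (hinv : ∀ n : ℕ, ∀ A : Fin n → Fin n → Bool, (Mz z A).det ≠ 0) (ε : ℝ) (hε : 0 < ε)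
    (η : ℝ) (hη : 0 < η) : ∀ᶠ n : ℕ in atTop,
      fr (Reg n d) (fun A => ∃ x : Fin n → ℂ, (∑ k, ‖x k‖ ^ 2 = 1) ∧
        ∑ k, ‖(Matrix.mulVec (Mz z A) x) k‖ ^ 2 ≤ Real.exp (-(ε * (n : ℝ))) ^ 2) ≤ η := by
  classical
  filter_upwards [fn_first d hd3 z hz0 hzd hinv ε hε (η / 2) (by positivity),
    fn_second d hd3 z hz0 hzd hinv ε hε (η / 2) (by positivity), eventually_gt_atTop 0] with n h1 h2 hn
  have h3 := smin_le_two d z hz0 n (fun A _ => hinv n A) (fun A => ∃ x : Fin n → ℂ,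
    (∑ k, ‖x k‖ ^ 2 = 1) ∧
        ∑ k, ‖(Matrix.mulVec (Mz z A) x) k‖ ^ 2 ≤ Real.exp (-(ε * (n : ℝ))) ^ 2) hn
        (Real.exp (ε / 2 * n)) (Real.exp_pos _)
  linarith

end Pool.Agent.SMin
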