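import Mathlib

set_option autoImplicit false
open Finset

namespace Pool.Agent.SMin

open Classical in
/-- fraction of the elements of `S` which satisfy `P` -/
noncomputable def fr {α : Type*} (S : Finset α) (P : α → Prop) : ℝ :=
  ((S.filter P).card : ℝ) / (S.card : ℝ)

/-- a configuration: a bijection out-stubs -> in-stubs -/
abbrev Cfg (n d : ℕ) := Equiv.Perm (Fin n × Fin d)

/-- head (column) of the out-stub `(i,k)` -/
def hd {n d : ℕ} (σ : Cfg n d) (i : Fin n) (k : Fin d) : Fin n := (σ (i, k)).1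

/-- multiplicity matrix of a configuration -/
def mult {n d : ℕ} (σ : Cfg n d) (i j : Fin n) : ℕ :=
  (univ.filter (fun k : Fin d => hd σ i k = j)).card

/-- transposed matrix -/
def tr {n : ℕ} (m : Fin n → Fin n → ℕ) (i j : Fin n) : ℕ := m j i

/-- row functional of the matrix `m - z` -/
noncomputable def L {n : ℕ} (z : ℂ) (m : Fin n → Fin n → ℕ) (x : Fin n → ℂ) (i : Fin n) : ℂ :=
  ∑ j, (m i j : ℂ) * x j - z * x i

/-- the d-regular 0/1 matrices -/
def Reg (n d : ℕ) : Finset (Fin n → Fin n → Bool) :=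
  univ.filter (fun A => (∀ i, (univ.filter (fun j => A i j = true)).card = d) ∧
    (∀ j, (univ.filter (fun i => A i j = true)).card = d))

/-- the natural number matrix of a Boolean matrix -/
def toN {n : ℕ} (A : Fin n → Fin n → Bool) (i j : Fin n) : ℕ := if A i j = true then 1 else 0

/-- row `i` touches the set of columns `V` -/
def Touch {n d : ℕ} (σ : Cfg n d) (V : Finset (Fin n)) (i : Fin n) : Prop := ∃ k, hd σ i k ∈ V

/-- approximate solution: norm at most one, equations hold up to `η` for the rows off `E` -/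
def Sol {n : ℕ} (z : ℂ) (m : Fin n → Fin n → ℕ) (E : Finset (Fin n)) (η : ℝ) (x : Fin n → ℂ) : Prop :=
  (∑ k, ‖x k‖ ^ 2 ≤ 1) ∧ ∀ i, i ∉ E → ‖L z m x i‖ ≤ η

open Classical in
/-- number of coordinates in `V` with value in the closed ball of radius `r` around `b` -/
noncomputable def bc {n : ℕ} (x : Fin n → ℂ) (V : Finset (Fin n)) (b : ℂ) (r : ℝ) : ℕ :=
  (V.filter (fun k => ‖x k - b‖ ≤ r)).card

/-- `x` has a covering by disjoint level sets: each of size at least `ρ n` and diameter at most `r`,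
covering at least `(1-β) n` coordinates -/
def Cov {n : ℕ} (x : Fin n → ℂ) (ρ r β : ℝ) : Prop :=
  ∃ 𝒜 : Finset (Finset (Fin n)),
    (∀ P ∈ 𝒜, ρ * n ≤ (P.card : ℝ)) ∧
    (∀ P ∈ 𝒜, ∀ k ∈ P, ∀ l ∈ P, ‖x k - x l‖ ≤ r) ∧
    (∀ P ∈ 𝒜, ∀ Q ∈ 𝒜, P ≠ Q → Disjoint P Q) ∧
    ((1 - β) * n ≤ ((𝒜.biUnion id).card : ℝ))

/-- a colouring by separated level sets; `none` means uncoloured -/
def Coloured {n : ℕ} (x : Fin n → ℂ) (ρ β rm rp : ℝ) (s : ℕ) (col : Fin n → Option (Fin s)) : Prop :=
  (∀ c : Fin s, ρ * n ≤ ((univ.filter (fun k => col k = some c)).card : ℝ)) ∧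
  (∀ k l : Fin n, ∀ c : Fin s, col k = some c → col l = some c → ‖x k - x l‖ ≤ rm) ∧
  (∀ k l : Fin n, ∀ c c' : Fin s, c ≠ c' → col k = some c → col l = some c' → rp < ‖x k - x l‖) ∧
  (((univ.filter (fun k => col k = none)).card : ℝ) ≤ β * n) ∧
  (∀ b : ℂ, (bc x (univ.filter (fun k => col k = none)) b rp : ℝ) < ρ * n)

/-! ### basic lemmas -/

section fr
variable {α : Type*} (S : Finset α)

lemma fr_def (P : α → Prop) [DecidablePred P] : fr S P = ((S.filter P).card : ℝ) / (S.card : ℝ) := by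
  unfold fr; congr!

lemma fr_nonneg (P : α → Prop) : 0 ≤ fr S P := by
  classical
  rw [fr_def]; positivity

lemma fr_le_one (P : α → Prop) : fr S P ≤ 1 := by
  classical
  rw [fr_def]
  rcases S.eq_empty_or_nonempty with h | h
  · rw [h]; simp
  · rw [div_le_one (by exact_mod_cast h.card_pos)]
    exact_mod_cast card_filter_le _ _

lemma fr_mono {P Q : α → Prop} (h : ∀ a ∈ S, P a → Q a) : fr S P ≤ fr S Q := by
  classical
  rw [fr_def, fr_def]
  gcongr ?_ / _
  have : S.filter P ⊆ S.filter Q := by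
    intro a
    simp only [mem_filter]
    exact fun ⟨h1, h2⟩ => ⟨h1, h a h1 h2⟩
  exact_mod_cast card_le_card this

lemma fr_or_le (P Q : α → Prop) : fr S (fun a => P a ∨ Q a) ≤ fr S P + fr S Q := by
  classical
  rw [fr_def, fr_def, fr_def, ← add_div]
  gcongr ?_ / _
  have : (S.filter (fun a => P a ∨ Q a)).card ≤ (S.filter P).card + (S.filter Q).card := by
    rw [filter_or]; exact card_union_le _ _
  exact_mod_cast this

lemma fr_exists_le {ι : Type*} (I : Finset ι) (P : ι → α → Prop) :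
    fr S (fun a => ∃ i ∈ I, P i a) ≤ ∑ i ∈ I, fr S (P i) := by
  classical
  rw [fr_def]
  simp_rw [fr_def]
  rw [← sum_div]
  gcongr ?_ / _
  have h1 : (S.filter (fun a => ∃ i ∈ I, P i a)) ⊆ I.biUnion (fun i => S.filter (P i)) := by
    intro a; simp only [mem_filter, mem_biUnion]
    rintro ⟨h1, i, hi, h2⟩
    exact ⟨i, hi, h1, h2⟩
  have h2 : (S.filter (fun a => ∃ i ∈ I, P i a)).card ≤ ∑ i ∈ I, (S.filter (P i)).card :=
    (card_le_card h1).trans card_biUnion_le
  exact_mod_cast h2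

lemma fr_exists_le_card {ι : Type*} (I : Finset ι) (P : ι → α → Prop) (b : ℝ)
    (hb : ∀ i ∈ I, fr S (P i) ≤ b) :
    fr S (fun a => ∃ i ∈ I, P i a) ≤ I.card * b := by
  refine (fr_exists_le S I P).trans ?_
  calc ∑ i ∈ I, fr S (P i) ≤ ∑ _i ∈ I, b := sum_le_sum hb
    _ = _ := by rw [sum_const, nsmul_eq_mul]

lemma fr_congr {P Q : α → Prop} (h : ∀ a ∈ S, P a ↔ Q a) : fr S P = fr S Q :=
  le_antisymm (fr_mono S fun a ha => (h a ha).1) (fr_mono S fun a ha => (h a ha).2)

lemma card_filter_eq_fr_mul (P : α → Prop) [DecidablePred P] :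
    ((S.filter P).card : ℝ) = fr S P * S.card := by
  rw [fr_def]
  rcases S.eq_empty_or_nonempty with h | h
  · rw [h]; simp
  · have : (S.card : ℝ) ≠ 0 := by exact_mod_cast h.card_pos.ne'
    rw [div_mul_cancel₀ _ this]

/-- an injective transport: if `f` maps `{a ∈ S | P a}` injectively into `{a ∈ S | Q a}` -/
lemma fr_le_of_injOn {P Q : α → Prop} (f : α → α) (hf : ∀ a ∈ S, P a → f a ∈ S ∧ Q (f a))
    (hinj : ∀ a ∈ S, ∀ b ∈ S, f a = f b → a = b) : fr S P ≤ fr S Q := by
  classical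
  rw [fr_def, fr_def]
  gcongr ?_ / _
  have : (S.filter P).card ≤ (S.filter Q).card := by
    apply card_le_card_of_injOn f
    · intro a ha
      have ha' := mem_filter.1 (mem_coe.1 ha)
      exact mem_coe.2 (mem_filter.2 (hf a ha'.1 ha'.2))
    · intro a ha b hb hab
      have ha' := mem_filter.1 (mem_coe.1 ha)
      have hb' := mem_filter.1 (mem_coe.1 hb)
      exact hinj a ha'.1 b hb'.1 hab
  exact_mod_cast this

end fr

lemma mem_Reg {n d : ℕ} {A : Fin n → Fin n → Bool} :
    A ∈ Reg n d ↔ (∀ i, (univ.filter (fun j => A i j = true)).card = d) ∧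
      (∀ j, (univ.filter (fun i => A i j = true)).card = d) := by
  simp [Reg]

lemma sum_mult {n d : ℕ} (σ : Cfg n d) (x : Fin n → ℂ) (i : Fin n) :
    ∑ j, (mult σ i j : ℂ) * x j = ∑ k, x (hd σ i k) := by
  classical
  unfold mult
  simp_rw [card_eq_sum_ones, Nat.cast_sum, sum_mul, sum_filter]
  rw [sum_comm' (t' := univ) (s' := fun _ => univ) (by simp)]
  simp

lemma L_mult {n d : ℕ} (z : ℂ) (σ : Cfg n d) (x : Fin n → ℂ) (i : Fin n) :
    L z (mult σ) x i = ∑ k, x (hd σ i k) - z * x i := by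
  unfold L; rw [sum_mult]

/-- the transposed configuration -/
lemma mult_symm {n d : ℕ} (σ : Cfg n d) : mult σ.symm = tr (mult σ) := by
  classical
  funext i j
  unfold tr mult hd
  -- both count the pairs `(k,l)` with `σ (j,k) = (i,l)`
  have h1 : (univ.filter (fun k : Fin d => (σ.symm (i, k)).1 = j)).card
      = (univ.filter (fun p : Fin n × Fin d => p.1 = j ∧ (σ p).1 = i)).card := by
    apply card_bij (fun k _ => σ.symm (i, k))
    · intro k hk; simpa using hk
    · intro k _ k' _ h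
      have := σ.symm.injective h
      simpa using this
    · intro p hp
      simp only [mem_filter, mem_univ, true_and] at hp
      refine ⟨(σ p).2, ?_, ?_⟩
      · simp only [mem_filter, mem_univ, true_and]
        rw [← hp.2, Prod.mk.eta, Equiv.symm_apply_apply, hp.1]
      · rw [← hp.2, Prod.mk.eta, Equiv.symm_apply_apply]
  have h2 : (univ.filter (fun k : Fin d => (σ (j, k)).1 = i)).card
      = (univ.filter (fun p : Fin n × Fin d => p.1 = j ∧ (σ p).1 = i)).card := by
    apply card_bij (fun k _ => (j, k))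
    · intro k hk; simpa using hk
    · intro k _ k' _ h
      simpa using h
    · intro p hp
      simp only [mem_filter, mem_univ, true_and] at hp
      refine ⟨p.2, ?_, ?_⟩
      · simp only [mem_filter, mem_univ, true_and]
        rw [← hp.1, Prod.mk.eta]; exact hp.2
      · rw [← hp.1]
  rw [h1, h2]

lemma bc_mono {n : ℕ} (x : Fin n → ℂ) {V W : Finset (Fin n)} (h : V ⊆ W) (b : ℂ) {r r' : ℝ}
    (hr : r ≤ r') : bc x V b r ≤ bc x W b r' := by
  classical
  unfold bc
  apply card_le_card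
  intro k
  simp only [mem_filter]
  exact fun ⟨h1, h2⟩ => ⟨h h1, h2.trans hr⟩

lemma bc_le {n : ℕ} (x : Fin n → ℂ) (V : Finset (Fin n)) (b : ℂ) (r : ℝ) : bc x V b r ≤ V.card := by
  classical
  unfold bc
  exact card_filter_le _ _

end Pool.Agent.SMin
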