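import Pool.Agent.SMin.OneStep

set_option autoImplicit false
open Finset

namespace Pool.Agent.SMin

/-- exposure bound: `Ω0` is a union of cells given by the values on `S`, and `s ∉ S` -/
theorem cell_bound {X : Type*} [Fintype X] [DecidableEq X] (Ω0 : Finset (Equiv.Perm X)) (S : Finset X)
    (s : X) (hs : s ∉ S)
    (hΩ : ∀ σ ∈ Ω0, ∀ σ' : Equiv.Perm X, (∀ q ∈ S, σ' q = σ q) → σ' ∈ Ω0)
    (B : Equiv.Perm X → Finset X)
    (hB : ∀ σ σ' : Equiv.Perm X, (∀ q ∈ S, σ' q = σ q) → B σ' = B σ) (b : ℕ)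
    (hb : ∀ σ ∈ Ω0, (B σ).card ≤ b) :
    (Ω0.filter (fun σ => σ s ∈ B σ)).card * (Fintype.card X - S.card) ≤ b * Ω0.card := by
  classical
  let f : Equiv.Perm X → (S → X) := fun σ q => σ q
  have hf : ∀ σ σ' : Equiv.Perm X, f σ' = f σ ↔ ∀ q ∈ S, σ' q = σ q := by
    intro σ σ'
    constructor
    · intro h q hq
      exact congrFun h ⟨q, hq⟩
    · intro h
      funext q
      exact h q.1 q.2
  have key : ∀ τ ∈ Ω0.image f,
      ((Ω0.filter (fun σ => σ s ∈ B σ)).filter (fun σ => f σ = τ)).card *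
        (Fintype.card X - S.card) ≤ b * (Ω0.filter (fun σ => f σ = τ)).card := by
    intro τ hτ
    obtain ⟨σ1, hσ1, rfl⟩ := mem_image.1 hτ
    have h := one_step (Ω0.filter (fun σ => f σ = f σ1)) s (univ \ (S.image σ1)) ?_ ?_ (B σ1)
    · have hcard : (univ \ (S.image σ1)).card = Fintype.card X - S.card := by
        rw [card_univ_sdiff, card_image_of_injective _ σ1.injective]
      rw [hcard] at h
      have h3 : ((Ω0.filter (fun σ => σ s ∈ B σ)).filter (fun σ => f σ = f σ1)) =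
          ((Ω0.filter (fun σ => f σ = f σ1)).filter (fun σ => σ s ∈ B σ1)) := by
        ext σ
        simp only [mem_filter]
        constructor
        · rintro ⟨⟨h1, h2⟩, h3⟩
          refine ⟨⟨h1, h3⟩, ?_⟩
          rw [hB σ1 σ ((hf _ _).1 h3)] at h2
          exact h2
        · rintro ⟨⟨h1, h3⟩, h2⟩
          refine ⟨⟨h1, ?_⟩, h3⟩
          rw [hB σ1 σ ((hf _ _).1 h3)]
          exact h2
      rw [h3, h]
      exact Nat.mul_le_mul_right _ ((card_le_card inter_subset_left).trans (hb σ1 hσ1))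
    · intro σ hσ
      have hσ' := (hf _ _).1 (mem_filter.1 hσ).2
      rw [Finset.mem_sdiff]
      refine ⟨mem_univ _, ?_⟩
      intro hc
      obtain ⟨q, hq, hq2⟩ := mem_image.1 hc
      rw [← hσ' q hq] at hq2
      rw [σ.injective hq2] at hq
      exact hs hq
    · intro σ hσ u hu
      have hσ1' := mem_filter.1 hσ
      have hσ' := (hf _ _).1 hσ1'.2
      have hu' := (Finset.mem_sdiff.1 hu).2
      have hq : ∀ q ∈ S, (Equiv.swap (σ s) u * σ) q = σ q := by
        intro q hq
        rw [Equiv.Perm.mul_apply, Equiv.swap_apply_of_ne_of_ne]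
        · intro hc
          rw [σ.injective hc] at hq
          exact hs hq
        · intro hc
          apply hu'
          rw [mem_image]
          exact ⟨q, hq, by rw [← hσ' q hq]; exact hc⟩
      rw [mem_filter]
      refine ⟨hΩ σ hσ1'.1 _ hq, ?_⟩
      rw [hf]
      intro q hq2
      rw [hq q hq2, hσ' q hq2]
  have e1 : (Ω0.filter (fun σ => σ s ∈ B σ)).card =
      ∑ τ ∈ Ω0.image f, ((Ω0.filter (fun σ => σ s ∈ B σ)).filter (fun σ => f σ = τ)).card := by
    apply card_eq_sum_card_fiberwise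
    intro σ hσ
    exact mem_coe.2 (mem_image_of_mem _ (mem_filter.1 (mem_coe.1 hσ)).1)
  have e2 : Ω0.card = ∑ τ ∈ Ω0.image f, (Ω0.filter (fun σ => f σ = τ)).card :=
    card_eq_sum_card_image f Ω0
  rw [e1, sum_mul]
  calc _ ≤ ∑ τ ∈ Ω0.image f, b * (Ω0.filter (fun σ => f σ = τ)).card := sum_le_sum key
    _ = _ := by rw [← mul_sum, ← e2]

end Pool.Agent.SMin
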