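import Pool.Agent.SMin.Base

set_option autoImplicit false
open Finset Filter

namespace Pool.Agent.SMin

lemma viol_lin_le_exp (c κ : ℝ) (hκ : 0 < κ) :
    ∀ᶠ n : ℕ in atTop, c * n ≤ Real.exp (κ * n) := by
  filter_upwards [eventually_ge_atTop (⌈2 * c / κ ^ 2⌉₊)] with n hn
  have h1 : 2 * c / κ ^ 2 ≤ n := (Nat.le_ceil _).trans (by exact_mod_cast hn)
  have h2 : 2 * c ≤ n * κ ^ 2 := by rwa [div_le_iff₀ (by positivity)] at h1
  have h3 := Real.quadratic_le_exp_of_nonneg (x := κ * n) (by positivity)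
  have h4 : (0:ℝ) ≤ n := Nat.cast_nonneg n
  nlinarith [mul_nonneg hκ.le h4]

/-- asymptotic form of the numerical hypothesis `hV` of `redundancy` -/
theorem viol_bound (a : ℕ) (B X C δm δp τ : ℝ) (hB : 0 < B) (hX : 0 < X) (hC : 0 < C)
    (hδm : 0 < δm) (hδp : 0 < δp) (hτ : 0 < τ) (hτ4 : τ ≤ 1 / 4) (hδ : δp ≤ τ * δm) :
    ∀ᶠ n : ℕ in atTop, ∀ D T : ℕ, D ≤ a * n → T ≤ a * n →
      ((D : ℝ) + T * B / (C * Real.exp (-(δm * n))) ^ 2) ^ D <
        (1 + (Real.exp (-(δp * n)) / C) ^ 2 / ((C * Real.exp (-(δm * n))) ^ 2 * (X + T))) ^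
          (⌊(1 + 2 * τ) * D⌋₊ + 1) := by
  have hκ : 0 < τ * δm / 4 := by positivity
  filter_upwards [viol_lin_le_exp (C ^ 4 * (X + a)) _ hκ, viol_lin_le_exp (a + a * (B / C ^ 2)) _ hκ,
    eventually_ge_atTop 1] with n h1 h2 hn1 D T hD hT
  have hn : (1:ℝ) ≤ n := by exact_mod_cast hn1
  have hn0 : (0:ℝ) < n := by linarith
  have hDr : (D : ℝ) ≤ a * n := by exact_mod_cast hD
  have hTr : (T : ℝ) ≤ a * n := by exact_mod_cast hT
  have hD0 : (0:ℝ) ≤ D := Nat.cast_nonneg D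
  have hT0 : (0:ℝ) ≤ T := Nat.cast_nonneg T
  have ha0 : (0:ℝ) ≤ a := Nat.cast_nonneg a
  have e1 : (C * Real.exp (-(δm * n))) ^ 2 = C ^ 2 / Real.exp (2 * δm * n) := by
    rw [mul_pow, ← Real.exp_nat_mul, div_eq_mul_inv, ← Real.exp_neg]
    congr 2
    push_cast; ring
  have e2 : (Real.exp (-(δp * n)) / C) ^ 2 = Real.exp (-(2 * δp * n)) / C ^ 2 := by
    rw [div_pow, ← Real.exp_nat_mul]
    congr 2
    push_cast; ring
  rw [e1, e2]
  have hE : 0 < Real.exp (2 * δm * n) := Real.exp_pos _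
  have hE1 : 1 ≤ Real.exp (2 * δm * n) := Real.one_le_exp (by positivity)
  -- left base
  have hL : (D : ℝ) + T * B / (C ^ 2 / Real.exp (2 * δm * n))
      ≤ Real.exp ((2 * δm + τ * δm / 4) * n) := by
    have : (D : ℝ) + T * B / (C ^ 2 / Real.exp (2 * δm * n))
        = D + T * (B / C ^ 2) * Real.exp (2 * δm * n) := by
      field_simp
    rw [this]
    have h3 : (D : ℝ) ≤ a * n * Real.exp (2 * δm * n) := by
      have : a * n * 1 ≤ a * n * Real.exp (2 * δm * n) := by gcongr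
      linarith
    have h4 : T * (B / C ^ 2) * Real.exp (2 * δm * n)
        ≤ (a * n) * (B / C ^ 2) * Real.exp (2 * δm * n) := by gcongr
    have h5 : (a + a * (B / C ^ 2)) * n * Real.exp (2 * δm * n)
        ≤ Real.exp (τ * δm / 4 * n) * Real.exp (2 * δm * n) := by gcongr
    rw [← Real.exp_add] at h5
    have h6 : τ * δm / 4 * n + 2 * δm * n = (2 * δm + τ * δm / 4) * n := by ring
    rw [h6] at h5
    nlinarith
  -- right base
  have hR : Real.exp ((2 * (1 - τ) * δm - τ * δm / 4) * n)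
      ≤ 1 + Real.exp (-(2 * δp * n)) / C ^ 2 / (C ^ 2 / Real.exp (2 * δm * n) * (X + T)) := by
    have hXT : 0 < X + T := by linarith
    have : Real.exp (-(2 * δp * n)) / C ^ 2 / (C ^ 2 / Real.exp (2 * δm * n) * (X + T))
        = Real.exp (-(2 * δp * n)) * Real.exp (2 * δm * n) / (C ^ 4 * (X + T)) := by
      field_simp
    rw [this, ← Real.exp_add]
    have h3 : C ^ 4 * (X + T) ≤ Real.exp (τ * δm / 4 * n) := by
      refine le_trans ?_ h1
      have : X + T ≤ (X + a) * n := by nlinarith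
      calc C ^ 4 * (X + T) ≤ C ^ 4 * ((X + a) * n) := by gcongr
        _ = _ := by ring
    have h4 : Real.exp ((2 * (1 - τ) * δm - τ * δm / 4) * n)
        ≤ Real.exp (-(2 * δp * n) + 2 * δm * n) / (C ^ 4 * (X + T)) := by
      rw [le_div_iff₀ (by positivity)]
      calc Real.exp ((2 * (1 - τ) * δm - τ * δm / 4) * n) * (C ^ 4 * (X + T))
          ≤ Real.exp ((2 * (1 - τ) * δm - τ * δm / 4) * n) * Real.exp (τ * δm / 4 * n) := by
            gcongr
        _ = Real.exp (2 * (1 - τ) * δm * n) := by rw [← Real.exp_add]; congr 1; ring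
        _ ≤ _ := by
            apply Real.exp_le_exp.2
            have : δp * n ≤ τ * δm * n := by gcongr
            linarith
    linarith
  have hb : 0 < 2 * (1 - τ) * δm - τ * δm / 4 := by nlinarith
  have hN : (1 + 2 * τ) * D < ((⌊(1 + 2 * τ) * D⌋₊ + 1 : ℕ) : ℝ) := by
    push_cast
    exact Nat.lt_floor_add_one _
  calc ((D : ℝ) + T * B / (C ^ 2 / Real.exp (2 * δm * n))) ^ D
      ≤ (Real.exp ((2 * δm + τ * δm / 4) * n)) ^ D := by
        apply pow_le_pow_left₀ _ hL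
        positivity
    _ = Real.exp (D * ((2 * δm + τ * δm / 4) * n)) := by rw [← Real.exp_nat_mul]
    _ < Real.exp (((⌊(1 + 2 * τ) * D⌋₊ + 1 : ℕ) : ℝ) * ((2 * (1 - τ) * δm - τ * δm / 4) * n)) := by
        apply Real.exp_lt_exp.2
        have h3 : (1 + 2 * τ) * D * ((2 * (1 - τ) * δm - τ * δm / 4) * n)
            < ((⌊(1 + 2 * τ) * D⌋₊ + 1 : ℕ) : ℝ) * ((2 * (1 - τ) * δm - τ * δm / 4) * n) :=
          mul_lt_mul_of_pos_right hN (by positivity)
        refine lt_of_le_of_lt ?_ h3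
        have h4 : 2 * δm + τ * δm / 4 ≤ (1 + 2 * τ) * (2 * (1 - τ) * δm - τ * δm / 4) := by
          have h5 : 0 ≤ τ * δm := by positivity
          have h6 : 0 ≤ τ * δm * (1 / 4 - τ) := mul_nonneg h5 (by linarith)
          nlinarith
        calc (D:ℝ) * ((2 * δm + τ * δm / 4) * n)
            ≤ D * (((1 + 2 * τ) * (2 * (1 - τ) * δm - τ * δm / 4)) * n) := by gcongr
          _ = _ := by ring
    _ = (Real.exp ((2 * (1 - τ) * δm - τ * δm / 4) * n)) ^ (⌊(1 + 2 * τ) * D⌋₊ + 1) := by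
        rw [← Real.exp_nat_mul]
    _ ≤ _ := by
        apply pow_le_pow_left₀ (by positivity) hR

end Pool.Agent.SMin
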