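import Pool.Agent.SMin.Redund
import Pool.Agent.SMin.Viol
import Pool.Agent.SMin.Cell

set_option autoImplicit false
open Finset Filter

namespace Pool.Agent.SMin

/-! ## Module C1 (CFirst.lean) -/

/-- the index type of the collapsed vector -/
abbrev C1ι {n s : ℕ} (typ : Fin n → Fin s ⊕ Bool) :=
  Fin s ⊕ {k : Fin n // typ k = Sum.inr false ∨ typ k = Sum.inr true}

theorem c1_pi {n s : ℕ} (typ : Fin n → Fin s ⊕ Bool) :
    ∃ π : Fin n → C1ι typ, (∀ k c, typ k = Sum.inl c → π k = Sum.inl c) ∧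
      (∀ k (h : typ k = Sum.inr false ∨ typ k = Sum.inr true), π k = Sum.inr ⟨k, h⟩) := by
  have h : ∀ k : Fin n, ∃ j : C1ι typ, (∀ c, typ k = Sum.inl c → j = Sum.inl c) ∧
      (∀ h : typ k = Sum.inr false ∨ typ k = Sum.inr true, j = Sum.inr ⟨k, h⟩) := by
    intro k
    by_cases hk : typ k = Sum.inr false ∨ typ k = Sum.inr true
    · refine ⟨Sum.inr ⟨k, hk⟩, ?_, fun _ => rfl⟩
      intro c hc
      rw [hc] at hk
      simp at hk
    · have h2 : ∃ c, typ k = Sum.inl c := by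
        rcases hk2 : typ k with c | b
        · exact ⟨c, rfl⟩
        · rw [hk2] at hk
          cases b <;> simp at hk
      obtain ⟨c, hc⟩ := h2
      refine ⟨Sum.inl c, ?_, fun h => absurd h hk⟩
      intro c' hc'
      rw [hc, Sum.inl.injEq] at hc'
      rw [hc']
  choose π hπ using h
  exact ⟨π, fun k => (hπ k).1, fun k => (hπ k).2⟩

theorem c1_collapse {n s : ℕ} (typ : Fin n → Fin s ⊕ Bool) (π : Fin n → C1ι typ)
    (hπ1 : ∀ k c, typ k = Sum.inl c → π k = Sum.inl c)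
    (hπ2 : ∀ k (h : typ k = Sum.inr false ∨ typ k = Sum.inr true), π k = Sum.inr ⟨k, h⟩)
    (x : Fin n → ℂ) (η : ℝ) (hη : 0 ≤ η) (hx : ∑ k, ‖x k‖ ^ 2 ≤ 1)
    (hdiam : ∀ k l : Fin n, ∀ c : Fin s, typ k = Sum.inl c → typ l = Sum.inl c →
                ‖x k - x l‖ ≤ η) :
    ∃ y : C1ι typ → ℂ, (∀ k, ‖y (π k) - x k‖ ≤ η) ∧
      (∀ k, (typ k = Sum.inr false ∨ typ k = Sum.inr true) → y (π k) = x k) ∧
      ∑ j, ‖y j‖ ^ 2 ≤ s + 1 := by
  classical
  let y : C1ι typ → ℂ := Sum.elim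
    (fun c => if h : ∃ k, typ k = Sum.inl c then x h.choose else 0) (fun k => x k.1)
  have h2 : ∀ k, (typ k = Sum.inr false ∨ typ k = Sum.inr true) → y (π k) = x k := by
    intro k hk
    rw [hπ2 k hk]
    rfl
  refine ⟨y, ?_, h2, ?_⟩
  · intro k
    rcases hk : typ k with c | b
    · rw [hπ1 k c hk]
      have hex : ∃ k, typ k = Sum.inl c := ⟨k, hk⟩
      have : y (Sum.inl c) = x hex.choose := by
        show (if h : ∃ k, typ k = Sum.inl c then x h.choose else 0) = _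
        rw [dif_pos hex]
      rw [this]
      exact hdiam _ _ c hex.choose_spec hk
    · rw [h2 k (by rw [hk]; cases b <;> simp)]
      simpa using hη
  · have hxk : ∀ k, ‖x k‖ ^ 2 ≤ 1 := fun k =>
      (single_le_sum (f := fun k => ‖x k‖ ^ 2) (fun i _ => by positivity) (mem_univ k)).trans hx
    rw [Fintype.sum_sum_type]
    have a1 : ∑ c : Fin s, ‖y (Sum.inl c)‖ ^ 2 ≤ s := by
      calc ∑ c : Fin s, ‖y (Sum.inl c)‖ ^ 2 ≤ ∑ _c : Fin s, (1 : ℝ) := by
            apply sum_le_sum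
            intro c _
            show ‖(if h : ∃ k, typ k = Sum.inl c then x h.choose else 0)‖ ^ 2 ≤ 1
            split_ifs with h
            · exact hxk _
            · simp
        _ = s := by simp
    have a2 : ∑ k : {k : Fin n // typ k = Sum.inr false ∨ typ k = Sum.inr true},
        ‖y (Sum.inr k)‖ ^ 2 ≤ 1 := by
      refine le_trans ?_ hx
      have : ∑ k : {k : Fin n // typ k = Sum.inr false ∨ typ k = Sum.inr true},
          ‖y (Sum.inr k)‖ ^ 2 = ∑ k ∈ univ.filter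
            (fun k => typ k = Sum.inr false ∨ typ k = Sum.inr true), ‖x k‖ ^ 2 := by
        rw [← sum_subtype_eq_sum_filter]
        simp [y]
      rw [this]
      exact sum_le_sum_of_subset_of_nonneg (filter_subset _ _) (fun _ _ _ => by positivity)
    linarith

open Classical in
/-- the collapsed row functional -/
noncomputable def c1v {n d s : ℕ} (z : ℂ) (E : Finset (Fin n)) (typ : Fin n → Fin s ⊕ Bool)
    (π : Fin n → C1ι typ) (t : ℕ) (σ : Cfg n d) (j : C1ι typ) : ℂ :=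
  if h : t < n then
    (if (⟨t, h⟩ : Fin n) ∈ E then 0 else
      (∑ k : Fin d, if π (hd σ ⟨t, h⟩ k) = j then (1 : ℂ) else 0) - (if π ⟨t, h⟩ = j then z else 0))
  else 0

theorem c1v_dot {n d s : ℕ} (z : ℂ) (E : Finset (Fin n)) (typ : Fin n → Fin s ⊕ Bool)
    (π : Fin n → C1ι typ) (t : ℕ) (σ : Cfg n d) (ht : t < n) (hE : (⟨t, ht⟩ : Fin n) ∉ E)
    (y : C1ι typ → ℂ) :
    ∑ j, c1v z E typ π t σ j * y j =
      ∑ k, y (π (hd σ ⟨t, ht⟩ k)) - z * y (π ⟨t, ht⟩) := by
  classical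
  simp only [c1v, dif_pos ht, if_neg hE, sub_mul, sum_sub_distrib, sum_mul]
  congr 1
  · rw [sum_comm]
    apply sum_congr rfl
    intro k _
    simp
  · simp

theorem c1v_norm {n d s : ℕ} (z : ℂ) (E : Finset (Fin n)) (typ : Fin n → Fin s ⊕ Bool)
    (π : Fin n → C1ι typ) (t : ℕ) (σ : Cfg n d) :
    ∑ j, ‖c1v z E typ π t σ j‖ ^ 2 ≤ (d + ‖z‖) ^ 2 := by
  classical
  by_cases ht : t < n
  · by_cases hE : (⟨t, ht⟩ : Fin n) ∈ E
    · simp only [c1v, dif_pos ht, if_pos hE]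
      simp
      positivity
    · set a : C1ι typ → ℝ := fun j => (∑ k : Fin d, if π (hd σ ⟨t, ht⟩ k) = j then (1 : ℝ) else 0) +
        (if π ⟨t, ht⟩ = j then ‖z‖ else 0) with ha
      have ha0 : ∀ j, 0 ≤ a j := by
        intro j
        rw [ha]
        have h1 : 0 ≤ (∑ k : Fin d, if π (hd σ ⟨t, ht⟩ k) = j then (1 : ℝ) else 0) :=
          sum_nonneg fun k _ => by split_ifs <;> norm_num
        have h2 : 0 ≤ (if π ⟨t, ht⟩ = j then ‖z‖ else 0) := by
          split_ifs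
          · exact norm_nonneg _
          · exact le_refl _
        exact add_nonneg h1 h2
      have hsum : ∑ j, a j = d + ‖z‖ := by
        rw [ha]
        simp only [sum_add_distrib]
        rw [sum_comm]
        simp
      have hva : ∀ j, ‖c1v z E typ π t σ j‖ ≤ a j := by
        intro j
        simp only [c1v, dif_pos ht, if_neg hE]
        refine (norm_sub_le _ _).trans ?_
        rw [ha]
        apply add_le_add
        · refine (norm_sum_le _ _).trans (sum_le_sum fun k _ => ?_)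
          split_ifs <;> simp
        · split_ifs <;> simp
      calc ∑ j, ‖c1v z E typ π t σ j‖ ^ 2 ≤ ∑ j, a j * (∑ j, a j) := by
            apply sum_le_sum
            intro j _
            rw [sq]
            apply mul_le_mul (hva j) ((hva j).trans ?_) (norm_nonneg _) (ha0 j)
            exact single_le_sum (fun i _ => ha0 i) (mem_univ j)
        _ = (d + ‖z‖) ^ 2 := by rw [← sum_mul, hsum]; ring
  · simp only [c1v, dif_neg ht]
    simp
    positivity

/-- the histories: rows `< t` of the configuration -/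
def c1H {n d : ℕ} (t : ℕ) (σ : Cfg n d) (q : Fin n × Fin d) : Option (Fin n × Fin d) :=
  if (q.1 : ℕ) < t then some (σ q) else none

theorem c1H_iff {n d : ℕ} (t : ℕ) (σ σ' : Cfg n d) :
    c1H t σ = c1H t σ' ↔ ∀ q : Fin n × Fin d, (q.1 : ℕ) < t → σ q = σ' q := by
  constructor
  · intro h q hq
    have := congrFun h q
    simpa [c1H, hq] using this
  · intro h
    funext q
    unfold c1H
    split_ifs with hq
    · rw [h q hq]
    · rfl

theorem c1_hd_eq {n d : ℕ} (t : ℕ) (ht : t < n) (σ σ' : Cfg n d)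
    (h : c1H (t + 1) σ = c1H (t + 1) σ') (k : Fin d) : hd σ ⟨t, ht⟩ k = hd σ' ⟨t, ht⟩ k := by
  unfold hd
  rw [(c1H_iff (t + 1) σ σ').1 h (⟨t, ht⟩, k) (Nat.lt_succ_self t)]

/-- the events -/
def c1E {n d s : ℕ} (E : Finset (Fin n)) (typ : Fin n → Fin s ⊕ Bool) (t : ℕ) (σ : Cfg n d) : Prop :=
  ∃ h : t < n, (⟨t, h⟩ : Fin n) ∉ E ∧
    Touch σ (univ.filter (fun k => typ k = Sum.inr false)) ⟨t, h⟩

theorem c1_cardS {n d : ℕ} (t : ℕ) (k0 : Fin d) :
    (univ.filter (fun q : Fin n × Fin d => (q.1 : ℕ) < t ∨ ((q.1 : ℕ) = t ∧ q.2 ≠ k0))).card ≤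
      (t + 1) * d := by
  have h1 : (univ.filter (fun q : Fin n × Fin d => (q.1 : ℕ) < t ∨ ((q.1 : ℕ) = t ∧ q.2 ≠ k0))) ⊆
      (univ.filter (fun i : Fin n => (i : ℕ) < t + 1)) ×ˢ (univ : Finset (Fin d)) := by
    intro q hq
    simp only [mem_filter, mem_univ, true_and, mem_product, and_true] at hq ⊢
    omega
  refine (card_le_card h1).trans ?_
  rw [card_product, card_univ, Fintype.card_fin]
  apply Nat.mul_le_mul_right
  calc (univ.filter (fun i : Fin n => (i : ℕ) < t + 1)).card ≤ (range (t + 1)).card := by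
        apply card_le_card_of_injOn (fun i : Fin n => (i : ℕ))
        · intro i hi
          have := (mem_filter.1 (mem_coe.1 hi)).2
          exact mem_coe.2 (mem_range.2 this)
        · intro i _ j _ h
          exact Fin.ext h
    _ = t + 1 := card_range _

open Classical in
theorem c1_cond {n d s : ℕ} (z : ℂ) (E : Finset (Fin n)) (typ : Fin n → Fin s ⊕ Bool)
    (π : Fin n → C1ι typ) (t : ℕ) (ht : t < n) (σ0 : Cfg n d) (y : C1ι typ → ℂ) (R r : ℝ)
    (hrR : r ≤ R) (m : ℕ)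
    (hball : ∀ b : ℂ, (univ.filter (fun k : Fin n => typ k = Sum.inr false ∧
      ‖y (π k) - b‖ ≤ R)).card ≤ m) :
    (univ.filter (fun σ' : Cfg n d => c1H t σ' = c1H t σ0 ∧ c1E E typ t σ' ∧
      ‖∑ j, c1v z E typ π t σ' j * y j‖ < r)).card * ((n - t - 1) * d) ≤
      d * (m * d) * (univ.filter (fun σ' : Cfg n d => c1H t σ' = c1H t σ0)).card := by
  set Ω0 : Finset (Cfg n d) := univ.filter (fun σ' : Cfg n d => c1H t σ' = c1H t σ0) with hΩ0
  set B : Fin d → Cfg n d → Finset (Fin n × Fin d) := fun k0 σ =>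
    univ.filter (fun q => typ q.1 = Sum.inr false ∧
      ‖y (π q.1) - (z * y (π ⟨t, ht⟩) - ∑ k ∈ univ.erase k0, y (π (hd σ ⟨t, ht⟩ k)))‖ ≤ R) with hB
  have hBcard : ∀ k0 σ, (B k0 σ).card ≤ m * d := by
    intro k0 σ
    have h1 : B k0 σ ⊆ (univ.filter (fun k : Fin n => typ k = Sum.inr false ∧
      ‖y (π k) - (z * y (π ⟨t, ht⟩) - ∑ k ∈ univ.erase k0, y (π (hd σ ⟨t, ht⟩ k)))‖ ≤ R)) ×ˢ
        (univ : Finset (Fin d)) := by
      intro q hq
      simp only [hB, mem_filter, mem_univ, true_and, mem_product, and_true] at hq ⊢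
      exact hq
    refine (card_le_card h1).trans ?_
    rw [card_product, card_univ, Fintype.card_fin]
    exact Nat.mul_le_mul_right _ (hball _)
  have hk : ∀ k0 : Fin d, (Ω0.filter (fun σ => σ (⟨t, ht⟩, k0) ∈ B k0 σ)).card * ((n - t - 1) * d) ≤
      m * d * Ω0.card := by
    intro k0
    set S := univ.filter (fun q : Fin n × Fin d => (q.1 : ℕ) < t ∨ ((q.1 : ℕ) = t ∧ q.2 ≠ k0)) with hS
    have h := cell_bound Ω0 S (⟨t, ht⟩, k0) (by simp [hS]) ?_ (B k0) ?_ (m * d)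
      (fun σ _ => hBcard k0 σ)
    · refine le_trans (Nat.mul_le_mul_left _ ?_) h
      have h2 : Fintype.card (Fin n × Fin d) = n * d := by simp
      rw [h2]
      have h3 := c1_cardS (n := n) t k0
      rw [← hS] at h3
      have h4 : (n - t - 1) * d = n * d - (t + 1) * d := by
        rw [Nat.sub_sub, Nat.sub_mul]
      rw [h4]
      exact Nat.sub_le_sub_left h3 _
    · intro σ hσ σ' hσ'
      rw [hΩ0, mem_filter] at hσ ⊢
      refine ⟨mem_univ _, ?_⟩
      rw [← hσ.2, c1H_iff]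
      intro q hq
      apply hσ'
      simp [hS, hq]
    · intro σ σ' hσ'
      have h5 : ∑ k ∈ univ.erase k0, y (π (hd σ' ⟨t, ht⟩ k)) =
          ∑ k ∈ univ.erase k0, y (π (hd σ ⟨t, ht⟩ k)) := by
        apply sum_congr rfl
        intro k hk
        have hk' := (mem_erase.1 hk).1
        unfold hd
        rw [hσ' (⟨t, ht⟩, k) (by simp [hS, hk'])]
      simp only [hB]
      rw [h5]
  have hsub : (univ.filter (fun σ' : Cfg n d => c1H t σ' = c1H t σ0 ∧ c1E E typ t σ' ∧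
      ‖∑ j, c1v z E typ π t σ' j * y j‖ < r)) ⊆
      (univ : Finset (Fin d)).biUnion (fun k0 => Ω0.filter (fun σ => σ (⟨t, ht⟩, k0) ∈ B k0 σ)) := by
    intro σ hσ
    obtain ⟨h1, ⟨_, hE, k0, hk0⟩, h3⟩ := (mem_filter.1 hσ).2
    rw [mem_biUnion]
    refine ⟨k0, mem_univ _, ?_⟩
    rw [mem_filter]
    refine ⟨by rw [hΩ0, mem_filter]; exact ⟨mem_univ _, h1⟩, ?_⟩
    simp only [hB, mem_filter, mem_univ, true_and]
    refine ⟨(mem_filter.1 hk0).2, ?_⟩
    rw [c1v_dot z E typ π t σ ht hE y, ← add_sum_erase _ _ (mem_univ k0)] at h3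
    have h4 : y (π (σ (⟨t, ht⟩, k0)).1) -
        (z * y (π ⟨t, ht⟩) - ∑ k ∈ univ.erase k0, y (π (hd σ ⟨t, ht⟩ k))) =
        y (π (hd σ ⟨t, ht⟩ k0)) + ∑ k ∈ univ.erase k0, y (π (hd σ ⟨t, ht⟩ k)) -
          z * y (π ⟨t, ht⟩) := by
      unfold hd
      ring
    rw [h4]
    exact h3.le.trans hrR
  calc _ ≤ (∑ k0 : Fin d, (Ω0.filter (fun σ => σ (⟨t, ht⟩, k0) ∈ B k0 σ)).card) *
        ((n - t - 1) * d) := Nat.mul_le_mul_right _ ((card_le_card hsub).trans card_biUnion_le)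
    _ = ∑ k0 : Fin d, (Ω0.filter (fun σ => σ (⟨t, ht⟩, k0) ∈ B k0 σ)).card * ((n - t - 1) * d) :=
        sum_mul _ _ _
    _ ≤ ∑ _k0 : Fin d, m * d * Ω0.card := sum_le_sum fun k0 _ => hk k0
    _ = _ := by rw [sum_const, card_univ, Fintype.card_fin, smul_eq_mul]; ring

open Classical in
theorem c1_fixed {n d s : ℕ} (hd1 : 1 ≤ d) (z : ℂ) (E : Finset (Fin n)) (typ : Fin n → Fin s ⊕ Bool)
    (δ0 R ρ' p C r : ℝ) (T V K : ℕ) (hT : T < n) (hδ0 : 0 < δ0) (hρ' : 0 ≤ ρ')
    (hC : 1 + d + ‖z‖ ≤ C) (hr : 0 < r) (hrR : r ≤ R) (hp0 : 0 ≤ p)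
    (hp : ∀ t < T, (d : ℝ) * (ρ' * n) ≤ p * ((n : ℝ) - t - 1))
    (hV : ((Fintype.card (C1ι typ) : ℝ) + T * (d + ‖z‖) ^ 2 / (C * δ0) ^ 2) ^
        (Fintype.card (C1ι typ)) < (1 + r ^ 2 / ((C * δ0) ^ 2 * (((s : ℝ) + 1) + T))) ^ (V + 1)) :
    fr (univ : Finset (Cfg n d)) (fun σ => ∃ x : Fin n → ℂ, Sol z (mult σ) E δ0 x ∧
       (∀ k l : Fin n, ∀ c : Fin s, typ k = Sum.inl c → typ l = Sum.inl c → ‖x k - x l‖ ≤ δ0) ∧
       (∀ b : ℂ, (bc x (univ.filter (fun k => typ k = Sum.inr false)) b R : ℝ) < ρ' * n) ∧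
       V + K ≤ ((range T).filter (fun t => c1E E typ t σ)).card) ≤ (T.choose K : ℝ) * p ^ K := by
  obtain ⟨π, hπ1, hπ2⟩ := c1_pi typ
  have hCpos : 0 < C := by
    have : (0 : ℝ) ≤ d := Nat.cast_nonneg d
    have := norm_nonneg z
    linarith
  set 𝒞 : Set (C1ι typ → ℂ) := {y | ∑ j, ‖y j‖ ^ 2 ≤ (s : ℝ) + 1 ∧
    ∀ b : ℂ, ((univ.filter (fun k : Fin n => typ k = Sum.inr false ∧
      ‖y (π k) - b‖ ≤ R)).card : ℝ) < ρ' * n} with h𝒞
  have hred := redundancy (univ : Finset (Cfg n d)) (fun t σ => c1H t σ) T ?_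
    (c1v z E typ π) (c1E E typ) ?_ ?_ 𝒞 (C * δ0) r ((d + ‖z‖) ^ 2) ((s : ℝ) + 1)
    (mul_pos hCpos hδ0) hr (by positivity) (by positivity) (fun y hy => hy.1)
    (fun t _ σ _ => c1v_norm z E typ π t σ) (fun _ => p) (fun _ => hp0) ?_ V K hV
  · refine le_trans (fr_mono _ ?_) (le_trans hred ?_)
    · rintro σ - ⟨x, ⟨hx1, hx2⟩, hdiam, hball, hcount⟩
      obtain ⟨y, hy1, hy2, hy3⟩ := c1_collapse typ π hπ1 hπ2 x δ0 hδ0.le hx1 hdiam
      refine ⟨y, ⟨hy3, ?_⟩, ?_, hcount⟩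
      · intro b
        have h1 : (univ.filter (fun k : Fin n => typ k = Sum.inr false ∧ ‖y (π k) - b‖ ≤ R)).card =
            bc x (univ.filter (fun k => typ k = Sum.inr false)) b R := by
          unfold bc
          rw [filter_filter]
          apply congrArg
          apply filter_congr
          intro k _
          constructor
          · rintro ⟨h1, h2⟩
            rw [hy2 k (Or.inl h1)] at h2
            exact ⟨h1, h2⟩
          · rintro ⟨h1, h2⟩
            rw [← hy2 k (Or.inl h1)] at h2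
            exact ⟨h1, h2⟩
        rw [h1]
        exact hball b
      · intro t ht
        have htn : t < n := ht.trans hT
        by_cases hE : (⟨t, htn⟩ : Fin n) ∈ E
        · have h0 : ∑ j, c1v z E typ π t σ j * y j = 0 := by
            apply sum_eq_zero
            intro j _
            simp [c1v, dif_pos htn, if_pos hE]
          rw [h0, norm_zero]
          positivity
        · rw [c1v_dot z E typ π t σ htn hE y]
          have h1 := hx2 ⟨t, htn⟩ hE
          rw [L_mult] at h1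
          have h2 : ∑ k, y (π (hd σ ⟨t, htn⟩ k)) - z * y (π ⟨t, htn⟩) =
              (∑ k, x (hd σ ⟨t, htn⟩ k) - z * x ⟨t, htn⟩) +
              (∑ k, (y (π (hd σ ⟨t, htn⟩ k)) - x (hd σ ⟨t, htn⟩ k)) -
                z * (y (π ⟨t, htn⟩) - x ⟨t, htn⟩)) := by
            rw [sum_sub_distrib]
            ring
          rw [h2]
          have h3 : ‖∑ k, (y (π (hd σ ⟨t, htn⟩ k)) - x (hd σ ⟨t, htn⟩ k))‖ ≤ d * δ0 := by
            refine (norm_sum_le _ _).trans ?_
            calc ∑ k : Fin d, ‖y (π (hd σ ⟨t, htn⟩ k)) - x (hd σ ⟨t, htn⟩ k)‖ ≤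
                ∑ _k : Fin d, δ0 := sum_le_sum fun k _ => hy1 _
              _ = d * δ0 := by rw [sum_const, card_univ, Fintype.card_fin, nsmul_eq_mul]
          have h4 : ‖z * (y (π ⟨t, htn⟩) - x ⟨t, htn⟩)‖ ≤ ‖z‖ * δ0 := by
            rw [norm_mul]
            exact mul_le_mul_of_nonneg_left (hy1 _) (norm_nonneg _)
          calc _ ≤ ‖∑ k, x (hd σ ⟨t, htn⟩ k) - z * x ⟨t, htn⟩‖ +
              (‖∑ k, (y (π (hd σ ⟨t, htn⟩ k)) - x (hd σ ⟨t, htn⟩ k))‖ +
                ‖z * (y (π ⟨t, htn⟩) - x ⟨t, htn⟩)‖) :=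
                (norm_add_le _ _).trans (add_le_add le_rfl (norm_sub_le _ _))
            _ ≤ δ0 + (d * δ0 + ‖z‖ * δ0) := add_le_add h1 (add_le_add h3 h4)
            _ = (1 + d + ‖z‖) * δ0 := by ring
            _ ≤ C * δ0 := mul_le_mul_of_nonneg_right hC hδ0.le
    · simp only [prod_const]
      rw [sum_congr rfl (g := fun _ => p ^ K)
        (fun T' hT' => by rw [(mem_powersetCard.1 hT').2]), sum_const,
        card_powersetCard, card_range, nsmul_eq_mul]
  · intro t _ σ _ σ' _ h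
    rw [c1H_iff] at h ⊢
    intro q hq
    exact h q (Nat.lt_succ_of_lt hq)
  · intro t ht σ _ σ' _ h
    funext j
    have htn : t < n := ht.trans hT
    unfold c1v
    rw [dif_pos htn, dif_pos htn]
    have : ∀ k, hd σ ⟨t, htn⟩ k = hd σ' ⟨t, htn⟩ k := fun k => c1_hd_eq t htn σ σ' h k
    simp only [this]
  · intro t ht σ _ σ' _ h
    have htn : t < n := ht.trans hT
    have : ∀ k, hd σ ⟨t, htn⟩ k = hd σ' ⟨t, htn⟩ k := fun k => c1_hd_eq t htn σ σ' h k
    unfold c1E Touch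
    constructor
    · rintro ⟨h1, h2, k, hk⟩
      exact ⟨h1, h2, k, by rw [← this k]; exact hk⟩
    · rintro ⟨h1, h2, k, hk⟩
      exact ⟨h1, h2, k, by rw [this k]; exact hk⟩
  · intro t ht σ0 _ y hy
    have htn : t < n := ht.trans hT
    have hm : ∀ b : ℂ, (univ.filter (fun k : Fin n => typ k = Sum.inr false ∧
      ‖y (π k) - b‖ ≤ R)).card ≤ ⌊ρ' * n⌋₊ := fun b => Nat.le_floor (hy.2 b).le
    have h := c1_cond z E typ π t htn σ0 y R r hrR ⌊ρ' * n⌋₊ hm
    set a := (univ.filter (fun σ' : Cfg n d => c1H t σ' = c1H t σ0 ∧ c1E E typ t σ' ∧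
      ‖∑ j, c1v z E typ π t σ' j * y j‖ < r)).card with ha
    set c := (univ.filter (fun σ' : Cfg n d => c1H t σ' = c1H t σ0)).card with hc
    have hcast : ((n - t - 1 : ℕ) : ℝ) = (n : ℝ) - t - 1 := by
      rw [Nat.cast_sub (by omega), Nat.cast_sub (by omega)]
      norm_num
    have h' : (a : ℝ) * (((n : ℝ) - t - 1) * d) ≤ d * ((⌊ρ' * n⌋₊ : ℝ) * d) * c := by
      rw [← hcast]
      exact_mod_cast h
    have hdpos : (0 : ℝ) < d := by exact_mod_cast hd1
    have hn1 : (0 : ℝ) < (n : ℝ) - t - 1 := by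
      rw [← hcast]
      exact_mod_cast (by omega : 0 < n - t - 1)
    have hfl : (⌊ρ' * n⌋₊ : ℝ) ≤ ρ' * n := Nat.floor_le (by positivity)
    have h2 : (a : ℝ) * ((n : ℝ) - t - 1) ≤ d * (⌊ρ' * n⌋₊ : ℝ) * c := by
      have : ((a : ℝ) * ((n : ℝ) - t - 1)) * d ≤ (d * (⌊ρ' * n⌋₊ : ℝ) * c) * d := by
        calc ((a : ℝ) * ((n : ℝ) - t - 1)) * d = (a : ℝ) * (((n : ℝ) - t - 1) * d) := by ring
          _ ≤ _ := h'
          _ = _ := by ring
      exact le_of_mul_le_mul_right this hdpos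
    have h3 : (a : ℝ) * ((n : ℝ) - t - 1) ≤ (p * c) * ((n : ℝ) - t - 1) := by
      calc (a : ℝ) * ((n : ℝ) - t - 1) ≤ d * (⌊ρ' * n⌋₊ : ℝ) * c := h2
        _ ≤ d * (ρ' * n) * c := by gcongr
        _ ≤ (p * ((n : ℝ) - t - 1)) * c := by
            apply mul_le_mul_of_nonneg_right (hp t ht) (Nat.cast_nonneg _)
        _ = _ := by ring
    have h5 : (a : ℝ) ≤ p * c := le_of_mul_le_mul_right h3 hn1
    refine le_trans (le_of_eq ?_) (h5.trans (le_of_eq ?_))
    · rw [ha]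
      congr!
    · rw [hc]
      congr!

open Classical in
theorem c1_touch_count {n d s : ℕ} (σ : Cfg n d) (typ : Fin n → Fin s ⊕ Bool) (E : Finset (Fin n))
    (hE : E.card ≤ 2) (T : ℕ) :
    (univ.filter (fun i => Touch σ (univ.filter (fun k => typ k = Sum.inr false)) i)).card ≤
      ((range T).filter (fun t => c1E E typ t σ)).card + 2 + (n - T) := by
  have hsub : (univ.filter (fun i => Touch σ (univ.filter (fun k => typ k = Sum.inr false)) i)) ⊆
      (univ.filter (fun i : Fin n => (i : ℕ) < T ∧ c1E E typ i σ) ∪ E) ∪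
        univ.filter (fun i : Fin n => T ≤ (i : ℕ)) := by
    intro i hi
    have hi' := (mem_filter.1 hi).2
    rw [mem_union, mem_union, mem_filter, mem_filter]
    by_cases h1 : i ∈ E
    · exact Or.inl (Or.inr h1)
    · by_cases h2 : (i : ℕ) < T
      · exact Or.inl (Or.inl ⟨mem_univ _, h2, i.2, h1, hi'⟩)
      · exact Or.inr ⟨mem_univ _, not_lt.1 h2⟩
  have h1 : (univ.filter (fun i : Fin n => (i : ℕ) < T ∧ c1E E typ i σ)).card ≤
      ((range T).filter (fun t => c1E E typ t σ)).card := by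
    apply card_le_card_of_injOn (fun i : Fin n => (i : ℕ))
    · intro i hi
      have := (mem_filter.1 (mem_coe.1 hi)).2
      exact mem_coe.2 (mem_filter.2 ⟨mem_range.2 this.1, this.2⟩)
    · intro i _ j _ h
      exact Fin.ext h
  have h2 : (univ.filter (fun i : Fin n => T ≤ (i : ℕ))).card ≤ n - T := by
    calc (univ.filter (fun i : Fin n => T ≤ (i : ℕ))).card ≤ (range (n - T)).card := by
          apply card_le_card_of_injOn (fun i : Fin n => (i : ℕ) - T)
          · intro i hi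
            have := (mem_filter.1 (mem_coe.1 hi)).2
            have := i.2
            exact mem_coe.2 (mem_range.2 (by show (i : ℕ) - T < n - T; omega))
          · intro i hi j hj h
            have h1 := (mem_filter.1 (mem_coe.1 hi)).2
            have h2 := (mem_filter.1 (mem_coe.1 hj)).2
            have h3 : (i : ℕ) - T = (j : ℕ) - T := h
            exact Fin.ext (by omega)
      _ = n - T := card_range _
  calc _ ≤ _ := card_le_card hsub
    _ ≤ _ := card_union_le _ _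
    _ ≤ _ := Nat.add_le_add_right (card_union_le _ _) _
    _ ≤ _ := by omega

theorem c1_cardι {n s : ℕ} (typ : Fin n → Fin s ⊕ Bool) :
    Fintype.card (C1ι typ) = s +
      (univ.filter (fun k => typ k = Sum.inr false ∨ typ k = Sum.inr true)).card := by
  rw [Fintype.card_sum, Fintype.card_fin, Fintype.card_subtype]

theorem c1_tail (p : ℝ) (hp : 0 < p) : ∀ᶠ n : ℕ in atTop,
    (1 / 2 : ℝ) ^ n / p ≤ Real.exp (-(1 / 2 * (n : ℝ))) := by
  have h1 : Real.exp (1 / 2) < 2 := by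
    have h2 : Real.exp (1 / 2) ^ 2 = Real.exp 1 := by
      rw [← Real.exp_nat_mul]; norm_num
    have h3 := Real.exp_one_lt_d9
    have h4 := Real.exp_pos (1 / 2 : ℝ)
    nlinarith
  have h2 : Real.exp (1 / 2) / 2 < 1 := by linarith
  have h3 := (tendsto_pow_atTop_nhds_zero_of_lt_one (by positivity) h2).eventually_le_const hp
  filter_upwards [h3] with n hn
  have h4 : Real.exp (-(1 / 2 * (n : ℝ))) = (Real.exp (1 / 2) ^ n)⁻¹ := by
    rw [Real.exp_neg, ← Real.exp_nat_mul]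
    ring_nf
  rw [h4, div_le_iff₀ hp]
  have h5 : (0 : ℝ) < Real.exp (1 / 2) ^ n := by positivity
  rw [div_pow] at hn
  have h6 : (1 / 2 : ℝ) ^ n = Real.exp (1 / 2) ^ n / 2 ^ n * (Real.exp (1 / 2) ^ n)⁻¹ := by
    rw [div_mul_eq_mul_div, mul_inv_cancel₀ h5.ne', div_pow, one_pow]
  rw [h6, mul_comm]
  exact mul_le_mul_of_nonneg_left hn (by positivity)

open Classical in
theorem C1 (d : ℕ) (hd1 : 1 ≤ d) (z : ℂ) (ε : ℝ) (hε : 0 < ε) (hε1 : ε < 1) :
    ∃ τ : ℝ, 0 < τ ∧ τ ≤ 1 / 4 ∧ ∀ s : ℕ, ∃ ρ' : ℝ, 0 < ρ' ∧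
      ∀ δm δp : ℝ, 0 < δm → 0 < δp → δp ≤ τ * δm → ∃ c : ℝ, 0 < c ∧
        ∀ᶠ n : ℕ in atTop, ∀ E : Finset (Fin n), E.card ≤ 2 →
          fr (univ : Finset (Cfg n d)) (fun σ => ∃ x : Fin n → ℂ,
            Sol z (mult σ) E (Real.exp (-(δm * n))) x ∧
            ∃ typ : Fin n → Fin s ⊕ Bool,
              (∀ k l : Fin n, ∀ c : Fin s, typ k = Sum.inl c → typ l = Sum.inl c →
                ‖x k - x l‖ ≤ Real.exp (-(δm * n))) ∧
              (∀ b : ℂ, (bc x (univ.filter (fun k => typ k = Sum.inr false)) b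
                (Real.exp (-(δp * n))) : ℝ) < ρ' * n) ∧
              ((univ.filter (fun k => typ k = Sum.inr false ∨ typ k = Sum.inr true)).card : ℝ) + ε * n <
                ((univ.filter (fun i => Touch σ
                  (univ.filter (fun k => typ k = Sum.inr false)) i)).card : ℝ))
            ≤ Real.exp (-(c * n)) := by
  have hdpos : (0 : ℝ) < d := by exact_mod_cast hd1
  set τ : ℝ := ε / 10 with hτ
  have hτ0 : 0 < τ := by positivity
  have hτ4 : τ ≤ 1 / 4 := by rw [hτ]; linarith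
  refine ⟨τ, hτ0, hτ4, ?_⟩
  intro s
  set p : ℝ := (1 / (4 * ((s : ℝ) + 2))) ^ (1 / τ) with hp
  have hbase0 : (0 : ℝ) < 1 / (4 * ((s : ℝ) + 2)) := by positivity
  have hbase1 : 1 / (4 * ((s : ℝ) + 2)) ≤ 1 := by
    rw [div_le_one (by positivity)]
    have : (0 : ℝ) ≤ s := Nat.cast_nonneg s
    linarith
  have hp0 : 0 < p := Real.rpow_pos_of_pos hbase0 _
  have hp1 : p ≤ 1 := Real.rpow_le_one hbase0.le hbase1 (by positivity)
  have hpτ : p ^ τ = 1 / (4 * ((s : ℝ) + 2)) := by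
    rw [hp, ← Real.rpow_mul hbase0.le, one_div_mul_cancel hτ0.ne', Real.rpow_one]
  set ρ' : ℝ := τ * p / (2 * d) with hρ'
  have hρ'0 : 0 < ρ' := by positivity
  refine ⟨ρ', hρ'0, ?_⟩
  intro δm δp hδm hδp hδ
  refine ⟨1 / 2, by norm_num, ?_⟩
  set C : ℝ := 1 + d + ‖z‖ with hC
  have hC1 : 1 ≤ C := by
    rw [hC]
    have := norm_nonneg z
    linarith
  have hCpos : 0 < C := lt_of_lt_of_le one_pos hC1
  have hviol := viol_bound (s + 1) ((d + ‖z‖) ^ 2) ((s : ℝ) + 1) C δm δp τ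
    (by have := norm_nonneg z; positivity) (by positivity) hCpos hδm hδp hτ0 hτ4 hδ
  have hlarge : ∀ᶠ n : ℕ in atTop, (2 + 2 * (s : ℝ)) / (ε / 10) ≤ (n : ℝ) :=
    tendsto_natCast_atTop_atTop.eventually_ge_atTop _
  filter_upwards [hviol, hlarge, c1_tail p hp0, eventually_ge_atTop 1] with n hv hn htail hn1
  intro E hE
  have hnpos : (0 : ℝ) < n := by exact_mod_cast hn1
  have hs0 : (0 : ℝ) ≤ s := Nat.cast_nonneg s
  have hn' : 2 + 2 * (s : ℝ) ≤ τ * n := by
    rw [div_le_iff₀ (by positivity)] at hn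
    calc 2 + 2 * (s : ℝ) ≤ n * (ε / 10) := hn
      _ = τ * n := by rw [hτ]; ring
  have hfl1 : (⌊τ * n⌋₊ : ℝ) ≤ τ * n := Nat.floor_le (by positivity)
  have hfl2 : τ * n < (⌊τ * n⌋₊ : ℝ) + 1 := Nat.lt_floor_add_one _
  have hτn : τ * n ≤ n := by
    have : τ ≤ 1 := by linarith
    nlinarith
  have hfln : ⌊τ * n⌋₊ ≤ n := by
    have : (⌊τ * n⌋₊ : ℝ) ≤ n := hfl1.trans hτn
    exact_mod_cast this
  have hfl0 : 1 ≤ ⌊τ * n⌋₊ := by
    apply Nat.le_floor
    push_cast
    linarith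
  set T := n - ⌊τ * n⌋₊ with hT
  have hTn : T < n := by omega
  have hTcast : (T : ℝ) = n - (⌊τ * n⌋₊ : ℝ) := by rw [hT, Nat.cast_sub hfln]
  -- fixed typ
  have hfix : ∀ typ ∈ (univ : Finset (Fin n → Fin s ⊕ Bool)),
      fr (univ : Finset (Cfg n d)) (fun σ => ∃ x : Fin n → ℂ,
        Sol z (mult σ) E (Real.exp (-(δm * n))) x ∧
        (∀ k l : Fin n, ∀ c : Fin s, typ k = Sum.inl c → typ l = Sum.inl c →
          ‖x k - x l‖ ≤ Real.exp (-(δm * n))) ∧
        (∀ b : ℂ, (bc x (univ.filter (fun k => typ k = Sum.inr false)) b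
          (Real.exp (-(δp * n))) : ℝ) < ρ' * n) ∧
        ⌊(1 + 2 * τ) * (Fintype.card (C1ι typ) : ℝ)⌋₊ + ⌊τ * n⌋₊ ≤
          ((range T).filter (fun t => c1E E typ t σ)).card) ≤
      (T.choose ⌊τ * n⌋₊ : ℝ) * p ^ ⌊τ * n⌋₊ := by
    intro typ _
    have hD : Fintype.card (C1ι typ) ≤ (s + 1) * n := by
      rw [c1_cardι]
      have h1 : (univ.filter (fun k => typ k = Sum.inr false ∨ typ k = Sum.inr true)).card ≤ n := by
        refine (card_filter_le _ _).trans ?_
        rw [card_univ, Fintype.card_fin]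
      nlinarith
    have hTle : T ≤ (s + 1) * n := by nlinarith
    refine c1_fixed hd1 z E typ _ _ ρ' p C (Real.exp (-(δp * n)) / C) T _ _ hTn (Real.exp_pos _)
      hρ'0.le le_rfl (by positivity) ?_ hp0.le ?_ (hv _ _ hD hTle)
    · exact div_le_self (Real.exp_pos _).le hC1
    · intro t ht
      have h1 : (t : ℝ) + 1 ≤ T := by exact_mod_cast ht
      have h2 : τ * n / 2 ≤ (n : ℝ) - t - 1 := by
        rw [hTcast] at h1
        linarith
      calc (d : ℝ) * (ρ' * n) = p * (τ * n / 2) := by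
            rw [hρ']
            field_simp
        _ ≤ p * ((n : ℝ) - t - 1) := mul_le_mul_of_nonneg_left h2 hp0.le
  have hunion := fr_exists_le_card (univ : Finset (Cfg n d))
    (univ : Finset (Fin n → Fin s ⊕ Bool)) _ _ hfix
  refine le_trans (fr_mono _ ?_) (le_trans hunion ?_)
  · rintro σ - ⟨x, hx, typ, h1, h2, h3⟩
    refine ⟨typ, mem_univ _, x, hx, h1, h2, ?_⟩
    have hcount := c1_touch_count σ typ E hE T
    have hcount' : ((univ.filter (fun i => Touch σ
        (univ.filter (fun k => typ k = Sum.inr false)) i)).card : ℝ) ≤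
        (((range T).filter (fun t => c1E E typ t σ)).card : ℝ) + 2 + (⌊τ * n⌋₊ : ℝ) := by
      have h4 : n - T = ⌊τ * n⌋₊ := by omega
      rw [h4] at hcount
      exact_mod_cast hcount
    have hinr : ((univ.filter (fun k => typ k = Sum.inr false ∨ typ k = Sum.inr true)).card : ℝ) ≤
        n := by
      have : (univ.filter (fun k => typ k = Sum.inr false ∨ typ k = Sum.inr true)).card ≤ n := by
        refine (card_filter_le _ _).trans ?_
        rw [card_univ, Fintype.card_fin]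
      exact_mod_cast this
    have hDc : (Fintype.card (C1ι typ) : ℝ) = s +
        ((univ.filter (fun k => typ k = Sum.inr false ∨ typ k = Sum.inr true)).card : ℝ) := by
      rw [c1_cardι]; push_cast; rfl
    have hVle : (⌊(1 + 2 * τ) * (Fintype.card (C1ι typ) : ℝ)⌋₊ : ℝ) ≤
        (1 + 2 * τ) * (Fintype.card (C1ι typ) : ℝ) := Nat.floor_le (by positivity)
    have hgoal : (⌊(1 + 2 * τ) * (Fintype.card (C1ι typ) : ℝ)⌋₊ : ℝ) + (⌊τ * n⌋₊ : ℝ) ≤
        (((range T).filter (fun t => c1E E typ t σ)).card : ℝ) := by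
      rw [hDc] at hVle ⊢
      have h5 : 2 * τ * (s + ((univ.filter
          (fun k => typ k = Sum.inr false ∨ typ k = Sum.inr true)).card : ℝ)) ≤
          2 * τ * (s + n) := by
        apply mul_le_mul_of_nonneg_left _ (by positivity)
        linarith
      have h6 : ε = 10 * τ := by rw [hτ]; ring
      rw [h6] at h3
      have h7 : 2 * τ * s ≤ s := by nlinarith
      nlinarith
    exact_mod_cast hgoal
  · rw [card_univ, Fintype.card_fun, Fintype.card_sum, Fintype.card_fin, Fintype.card_fin,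
      Fintype.card_bool]
    have h1 : (T.choose ⌊τ * n⌋₊ : ℝ) ≤ 2 ^ n := by
      have h2 : T.choose ⌊τ * n⌋₊ ≤ 2 ^ T := Nat.choose_le_two_pow T ⌊τ * n⌋₊
      calc (T.choose ⌊τ * n⌋₊ : ℝ) ≤ 2 ^ T := by exact_mod_cast h2
        _ ≤ 2 ^ n := pow_le_pow_right₀ (by norm_num) hTn.le
    have h2 : p ^ ⌊τ * n⌋₊ ≤ (1 / (4 * ((s : ℝ) + 2))) ^ n / p := by
      rw [le_div_iff₀ hp0, ← pow_succ, ← Real.rpow_natCast p]
      calc p ^ ((⌊τ * n⌋₊ + 1 : ℕ) : ℝ) ≤ p ^ (τ * n) := by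
            apply Real.rpow_le_rpow_of_exponent_ge hp0 hp1
            push_cast
            exact hfl2.le
        _ = (p ^ τ) ^ n := by rw [Real.rpow_mul hp0.le, Real.rpow_natCast]
        _ = _ := by rw [hpτ]
    refine le_trans ?_ htail
    calc (((s + 2) ^ n : ℕ) : ℝ) * ((T.choose ⌊τ * n⌋₊ : ℝ) * p ^ ⌊τ * n⌋₊) ≤
        (((s + 2) ^ n : ℕ) : ℝ) * (2 ^ n * ((1 / (4 * ((s : ℝ) + 2))) ^ n / p)) := by
          apply mul_le_mul_of_nonneg_left _ (by positivity)
          exact mul_le_mul h1 h2 (by positivity) (by positivity)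
      _ = (((s : ℝ) + 2) * 2 * (1 / (4 * ((s : ℝ) + 2)))) ^ n / p := by
          push_cast
          rw [mul_pow, mul_pow]
          ring
      _ = (1 / 2) ^ n / p := by
          congr 2
          field_simp
          norm_num

end Pool.Agent.SMin
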