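import Pool.Agent.SMin.CTwoDefs

set_option autoImplicit false
open Finset Filter

namespace Pool.Agent.SMin

namespace C2C

/-! ### factorial bounds -/

/-- `m! ≤ e (m+1) (m/e)^m` -/
lemma fact_le (m : ℕ) : ((m.factorial : ℕ) : ℝ) ≤
    Real.exp 1 * ((m : ℝ) + 1) * (((m : ℝ)) ^ m / Real.exp m) := by
  rcases Nat.eq_zero_or_pos m with h0 | hpos
  · subst h0
    simp
  · -- stronger bound with `m` in place of `m+1`
    have key : ∀ k : ℕ, (((k + 1).factorial : ℕ) : ℝ) ≤
        Real.exp 1 * ((k : ℝ) + 1) * ((((k : ℝ) + 1)) ^ (k + 1) / Real.exp ((k : ℝ) + 1)) := by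
      intro k
      induction k with
      | zero =>
        simp
      | succ k ih =>
        have hk : (0 : ℝ) < (k : ℝ) + 1 := by positivity
        have h2 : Real.exp 1 ≤ (((k : ℝ) + 2) / ((k : ℝ) + 1)) ^ (k + 2) := by
          have h3 : (1 : ℝ) ≤ ((k : ℝ) + 2) * Real.log (((k : ℝ) + 2) / ((k : ℝ) + 1)) := by
            have h4 := Real.one_sub_inv_le_log_of_pos
              (show (0 : ℝ) < ((k : ℝ) + 2) / ((k : ℝ) + 1) by positivity)
            have h5 : 1 - (((k : ℝ) + 2) / ((k : ℝ) + 1))⁻¹ = 1 / ((k : ℝ) + 2) := by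
              field_simp; ring
            rw [h5] at h4
            have h6 : (0 : ℝ) < (k : ℝ) + 2 := by positivity
            calc (1 : ℝ) = ((k : ℝ) + 2) * (1 / ((k : ℝ) + 2)) := by field_simp
              _ ≤ _ := by gcongr
          have h7 : (0 : ℝ) < (((k : ℝ) + 2) / ((k : ℝ) + 1)) ^ (k + 2) := by positivity
          rw [← Real.log_le_log_iff (Real.exp_pos 1) h7, Real.log_exp, Real.log_pow]
          push_cast
          linarith
        have e1 : (((k + 1 + 1).factorial : ℕ) : ℝ) = ((k : ℝ) + 2) * (((k + 1).factorial : ℕ) : ℝ) := by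
          rw [Nat.factorial_succ (k + 1)]; push_cast; ring
        rw [e1]
        push_cast
        have hE : Real.exp ((k : ℝ) + 1 + 1) = Real.exp ((k : ℝ) + 1) * Real.exp 1 := by
          rw [← Real.exp_add]
        rw [hE]
        calc ((k : ℝ) + 2) * (((k + 1).factorial : ℕ) : ℝ)
            ≤ ((k : ℝ) + 2) * (Real.exp 1 * ((k : ℝ) + 1) *
                ((((k : ℝ) + 1)) ^ (k + 1) / Real.exp ((k : ℝ) + 1))) := by gcongr
          _ = ((k : ℝ) + 2) * (Real.exp 1 * ((k : ℝ) + 1) ^ (k + 2) / Real.exp ((k : ℝ) + 1)) := by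
              ring
          _ ≤ ((k : ℝ) + 2) * ((((k : ℝ) + 2) / ((k : ℝ) + 1)) ^ (k + 2) * ((k : ℝ) + 1) ^ (k + 2)
                / Real.exp ((k : ℝ) + 1)) := by gcongr
          _ = ((k : ℝ) + 2) * (((k : ℝ) + 2) ^ (k + 2) / Real.exp ((k : ℝ) + 1)) := by
              rw [← mul_pow, div_mul_cancel₀ _ hk.ne']
          _ = Real.exp 1 * ((k : ℝ) + 1 + 1) *
                (((k : ℝ) + 1 + 1) ^ (k + 1 + 1) / (Real.exp ((k : ℝ) + 1) * Real.exp 1)) := by
              have : (k : ℝ) + 1 + 1 = (k : ℝ) + 2 := by ring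
              rw [this]
              have hx := Real.exp_pos 1
              have hy := Real.exp_pos ((k : ℝ) + 1)
              field_simp
    obtain ⟨k, rfl⟩ : ∃ k, m = k + 1 := ⟨m - 1, by omega⟩
    refine (key k).trans ?_
    push_cast
    gcongr
    linarith

lemma fact_ge (N : ℕ) : ((N : ℝ)) ^ N / Real.exp N ≤ ((N.factorial : ℕ) : ℝ) := by
  have h := Real.pow_div_factorial_le_exp (N : ℝ) (Nat.cast_nonneg N) N
  have h1 : (0 : ℝ) < ((N.factorial : ℕ) : ℝ) := by exact_mod_cast N.factorial_pos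
  rw [div_le_iff₀ h1] at h
  rw [div_le_iff₀ (Real.exp_pos _)]
  linarith

/-- the multinomial bound -/
lemma multinomial_bound {κ : Type*} [Fintype κ] (d n : ℕ) (hd : 1 ≤ d) (hn : 1 ≤ n) (N : κ → ℕ)
    (hN : ∑ c, N c = n) :
    (∏ c, (((d * N c).factorial : ℕ) : ℝ)) / (((d * n).factorial : ℕ) : ℝ) ≤
      (Real.exp 1 * (d * n + 1 : ℝ)) ^ (Fintype.card κ) *
        ∏ c, ((N c : ℝ) / n) ^ (d * N c) := by
  have hn0 : (0 : ℝ) < n := by exact_mod_cast hn
  have hd0 : (0 : ℝ) < d := by exact_mod_cast hd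
  have hNn : ∀ c, N c ≤ n := fun c => hN ▸ Finset.single_le_sum (f := N) (fun _ _ => Nat.zero_le _) (mem_univ c)
  have h1 : ∀ c, (((d * N c).factorial : ℕ) : ℝ) ≤
      (Real.exp 1 * (d * n + 1 : ℝ)) * (((d * N c : ℕ) : ℝ) ^ (d * N c) / Real.exp ((d * N c : ℕ) : ℝ)) := by
    intro c
    refine (fact_le (d * N c)).trans ?_
    have : ((N c : ℕ) : ℝ) ≤ n := by exact_mod_cast hNn c
    gcongr
    push_cast
    gcongr
  have h2 : (∏ c, (((d * N c).factorial : ℕ) : ℝ)) ≤
      (Real.exp 1 * (d * n + 1 : ℝ)) ^ (Fintype.card κ) *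
        ∏ c, (((d * N c : ℕ) : ℝ) ^ (d * N c) / Real.exp ((d * N c : ℕ) : ℝ)) := by
    refine (Finset.prod_le_prod (fun c _ => by positivity) (fun c _ => h1 c)).trans ?_
    rw [Finset.prod_mul_distrib, Finset.prod_const, card_univ]
  have hsum : ∑ c, (d * N c) = d * n := by rw [← Finset.mul_sum, hN]
  have h3 : ∏ c, (((d * N c : ℕ) : ℝ) ^ (d * N c) / Real.exp ((d * N c : ℕ) : ℝ)) =
      (∏ c, ((N c : ℝ) / n) ^ (d * N c)) * (((d * n : ℕ) : ℝ) ^ (d * n) / Real.exp ((d * n : ℕ) : ℝ)) := by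
    rw [Finset.prod_div_distrib, ← Real.exp_sum, ← Nat.cast_sum, hsum]
    have h4 : ∏ c, (((d * N c : ℕ) : ℝ) ^ (d * N c)) =
        (∏ c, ((N c : ℝ) / n) ^ (d * N c)) * ((d * n : ℕ) : ℝ) ^ (d * n) := by
      have h5 : ∀ c, (((d * N c : ℕ) : ℝ) ^ (d * N c)) =
          ((N c : ℝ) / n) ^ (d * N c) * ((d * n : ℕ) : ℝ) ^ (d * N c) := by
        intro c
        rw [← mul_pow]
        congr 1
        push_cast
        field_simp
      simp_rw [h5]
      rw [Finset.prod_mul_distrib, Finset.prod_pow_eq_pow_sum, hsum]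
    rw [h4]
    ring
  have h6 := fact_ge (d * n)
  have h7 : (0 : ℝ) < (((d * n).factorial : ℕ) : ℝ) := by exact_mod_cast (d * n).factorial_pos
  rw [div_le_iff₀ h7]
  calc (∏ c, (((d * N c).factorial : ℕ) : ℝ))
      ≤ (Real.exp 1 * (d * n + 1 : ℝ)) ^ (Fintype.card κ) *
        ∏ c, (((d * N c : ℕ) : ℝ) ^ (d * N c) / Real.exp ((d * N c : ℕ) : ℝ)) := h2
    _ = (Real.exp 1 * (d * n + 1 : ℝ)) ^ (Fintype.card κ) *
        ((∏ c, ((N c : ℝ) / n) ^ (d * N c)) * (((d * n : ℕ) : ℝ) ^ (d * n) / Real.exp ((d * n : ℕ) : ℝ))) := by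
        rw [h3]
    _ ≤ (Real.exp 1 * (d * n + 1 : ℝ)) ^ (Fintype.card κ) *
        ((∏ c, ((N c : ℝ) / n) ^ (d * N c)) * (((d * n).factorial : ℕ) : ℝ)) := by
        gcongr
    _ = _ := by ring

/-! ### the number of configurations with a given pattern -/

/-- class size -/
def csz {n s : ℕ} (col : Fin n → Option (Fin s)) (c : Option (Fin s)) : ℕ :=
  (univ.filter (fun k => col k = c)).card

lemma dens_eq {n s : ℕ} (col : Fin n → Option (Fin s)) (c : Option (Fin s)) :
    dens col c = (csz col c : ℝ) / n := rfl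

lemma sum_csz {n s : ℕ} (col : Fin n → Option (Fin s)) : ∑ c, csz col c = n := by
  classical
  unfold csz
  rw [← Finset.card_eq_sum_card_fiberwise (f := col) (s := univ) (t := univ) (by simp)]
  simp

lemma fiber_card {n d s : ℕ} (col : Fin n → Option (Fin s)) (c : Option (Fin s)) :
    (univ.filter (fun u : Fin n × Fin d => col u.1 = c)).card = d * csz col c := by
  classical
  have : (univ.filter (fun u : Fin n × Fin d => col u.1 = c)) =
      (univ.filter (fun k => col k = c)) ×ˢ (univ : Finset (Fin d)) := by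
    ext ⟨a, b⟩; simp
  rw [this, card_product, card_univ, Fintype.card_fin, mul_comm]
  rfl

lemma Pat_card {n d s : ℕ} (col : Fin n → Option (Fin s)) (pat : Fin n × Fin d → Option (Fin s))
    (h : (Pat col pat).Nonempty) :
    (Pat col pat).card = ∏ c, (d * csz col c).factorial := by
  classical
  obtain ⟨σ0, hσ0⟩ := h
  simp only [Pat, mem_filter, mem_univ, true_and] at hσ0
  set f : Fin n × Fin d → Option (Fin s) := fun u => col u.1 with hf
  have h1 := DomMulAct.stabilizer_card f
  have h2 : ∀ c, Fintype.card {a // f a = c} = d * csz col c := by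
    intro c
    rw [Fintype.card_subtype, ← fiber_card (d := d) col c]
  simp_rw [h2] at h1
  rw [← h1, Fintype.card_subtype]
  apply card_bij (fun σ _ => (σ * σ0⁻¹ : Equiv.Perm (Fin n × Fin d)))
  · intro σ hσ
    simp only [Pat, mem_filter, mem_univ, true_and] at hσ
    simp only [mem_filter, mem_univ, true_and]
    funext u
    simp only [Function.comp, hf, Equiv.Perm.mul_apply]
    rw [hσ (σ0⁻¹ u), ← hσ0 (σ0⁻¹ u)]
    simp
  · intro σ _ σ' _ h
    exact mul_right_cancel h
  · intro τ hτ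
    simp only [mem_filter, mem_univ, true_and] at hτ
    refine ⟨τ * σ0, ?_, by simp⟩
    simp only [Pat, mem_filter, mem_univ, true_and]
    intro st
    rw [← hσ0 st]
    exact congrFun hτ (σ0 st)

lemma pat_count {n d s : ℕ} (col : Fin n → Option (Fin s)) (pat : Fin n × Fin d → Option (Fin s))
    (h : (Pat col pat).Nonempty) (c : Option (Fin s)) :
    (univ.filter (fun st => pat st = c)).card = d * csz col c := by
  classical
  obtain ⟨σ0, hσ0⟩ := h
  simp only [Pat, mem_filter, mem_univ, true_and] at hσ0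
  rw [← fiber_card (d := d) col c]
  apply card_bij (fun st _ => σ0 st)
  · intro st hst
    simp only [mem_filter, mem_univ, true_and] at hst ⊢
    rw [hσ0 st, hst]
  · intro a _ b _ h
    exact σ0.injective h
  · intro u hu
    simp only [mem_filter, mem_univ, true_and] at hu
    refine ⟨σ0.symm u, ?_, by simp⟩
    simp only [mem_filter, mem_univ, true_and]
    rw [← hσ0]; simpa using hu

lemma Pat_ratio {n d s : ℕ} (hd : 1 ≤ d) (hn : 1 ≤ n) (col : Fin n → Option (Fin s))
    (pat : Fin n × Fin d → Option (Fin s)) :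
    ((Pat col pat).card : ℝ) / ((univ : Finset (Cfg n d)).card : ℝ) ≤
      (Real.exp 1 * (d * n + 1 : ℝ)) ^ (s + 1) * ∏ st, dens col (pat st) := by
  classical
  have hdens : ∀ c, 0 ≤ dens col c := fun c => by unfold dens; positivity
  rcases (Pat col pat).eq_empty_or_nonempty with h | h
  · rw [h]
    simp only [card_empty, Nat.cast_zero, zero_div]
    have := Finset.prod_nonneg (s := univ) (fun st (_ : st ∈ univ) => hdens (pat st))
    positivity
  · rw [Pat_card col pat h]
    have hc : ((univ : Finset (Cfg n d)).card : ℝ) = (((d * n).factorial : ℕ) : ℝ) := by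
      rw [card_univ, Fintype.card_perm, Fintype.card_prod, Fintype.card_fin, Fintype.card_fin,
        mul_comm]
    rw [hc]
    push_cast
    refine (multinomial_bound d n hd hn (csz col) (sum_csz col)).trans ?_
    rw [Fintype.card_option, Fintype.card_fin]
    apply le_of_eq
    congr 1
    rw [← Finset.prod_fiberwise_of_maps_to (s := univ) (t := univ) (g := pat) (by simp)]
    apply Finset.prod_congr rfl
    intro c _
    rw [← pat_count col pat h c, ← Finset.prod_const]
    apply Finset.prod_congr rfl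
    intro st hst
    rw [(mem_filter.1 hst).2, dens_eq]

/-! ### factorisation over rows -/

open Classical in
/-- row weight -/
noncomputable def rwt {n d s : ℕ} (E : Finset (Fin n)) (col : Fin n → Option (Fin s))
    (𝒯 : (Fin d → Fin s) → Option (Fin s)) (ρ : ℝ) (i : Fin n) (u : Fin d → Option (Fin s)) : ℝ :=
  if i ∈ E ∨ col i = none then 1 else
    if ∃ k, u k = none then ρ else
      if (∀ t : Fin d → Fin s, (∀ k, u k = some (t k)) → 𝒯 t = col i) then 1 else 0

lemma rwt_nonneg {n d s : ℕ} (E : Finset (Fin n)) (col : Fin n → Option (Fin s))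
    (𝒯 : (Fin d → Fin s) → Option (Fin s)) {ρ : ℝ} (hρ : 0 ≤ ρ) (i : Fin n)
    (u : Fin d → Option (Fin s)) : 0 ≤ rwt E col 𝒯 ρ i u := by
  unfold rwt
  split_ifs <;> simp [hρ]

lemma rb_eq {n d s : ℕ} (E : Finset (Fin n)) (col : Fin n → Option (Fin s))
    (𝒯 : (Fin d → Fin s) → Option (Fin s)) (ρ : ℝ) (pat : Fin n × Fin d → Option (Fin s))
    (h : Cons E col 𝒯 pat) :
    ρ ^ (Rb E col pat) = ∏ i, rwt E col 𝒯 ρ i (fun k => pat (i, k)) := by
  classical
  unfold Rb
  rw [← Finset.prod_const, Finset.prod_filter]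
  apply Finset.prod_congr rfl
  intro i _
  unfold rwt
  by_cases hE : i ∈ E
  · simp [hE]
  by_cases hc : col i = none
  · simp [hc]
  by_cases hk : ∃ k, pat (i, k) = none
  · simp [hE, hc, hk]
  · obtain ⟨c, hc'⟩ := Option.ne_none_iff_exists'.1 hc
    have h1 : ∀ t : Fin d → Fin s, (∀ k, pat (i, k) = some (t k)) → 𝒯 t = col i := by
      intro t ht
      rw [hc']
      exact h i hE c hc' t ht
    simp only [hE, hc, hk, or_self, if_false, and_false, if_pos h1]

open Classical in
lemma pat_sum_le {n d s : ℕ} (E : Finset (Fin n)) (col : Fin n → Option (Fin s))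
    (𝒯 : (Fin d → Fin s) → Option (Fin s)) {ρ : ℝ} (hρ : 0 ≤ ρ) (p : Option (Fin s) → ℝ)
    (hp : ∀ c, 0 ≤ p c) :
    ∑ pat ∈ univ.filter (fun pat : Fin n × Fin d → Option (Fin s) => Cons E col 𝒯 pat),
      (∏ st, p (pat st)) * ρ ^ (Rb E col pat) ≤
    ∏ i, ∑ u : Fin d → Option (Fin s), (∏ k, p (u k)) * rwt E col 𝒯 ρ i u := by
  have h1 : ∑ pat ∈ univ.filter (fun pat : Fin n × Fin d → Option (Fin s) => Cons E col 𝒯 pat),
      (∏ st, p (pat st)) * ρ ^ (Rb E col pat) ≤
      ∑ pat : Fin n × Fin d → Option (Fin s),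
        ∏ i, ((∏ k, p (pat (i, k))) * rwt E col 𝒯 ρ i (fun k => pat (i, k))) := by
    calc _ = ∑ pat ∈ univ.filter (fun pat : Fin n × Fin d → Option (Fin s) => Cons E col 𝒯 pat),
          ∏ i, ((∏ k, p (pat (i, k))) * rwt E col 𝒯 ρ i (fun k => pat (i, k))) := by
          apply Finset.sum_congr rfl
          intro pat hpat
          rw [rb_eq E col 𝒯 ρ pat (mem_filter.1 hpat).2, Finset.prod_mul_distrib,
            Fintype.prod_prod_type]
      _ ≤ _ := by
          apply Finset.sum_le_sum_of_subset_of_nonneg (filter_subset _ _)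
          intro pat _ _
          apply Finset.prod_nonneg
          intro i _
          exact mul_nonneg (Finset.prod_nonneg fun k _ => hp _) (rwt_nonneg E col 𝒯 hρ i _)
  refine h1.trans (le_of_eq ?_)
  rw [Finset.prod_univ_sum, Fintype.piFinset_univ]
  rw [← (Equiv.curry (Fin n) (Fin d) (Option (Fin s))).sum_comp]
  rfl

/-- the consistent mass of a colour -/
noncomputable def qm {d s : ℕ} (p : Option (Fin s) → ℝ) (𝒯 : (Fin d → Fin s) → Option (Fin s))
    (c : Fin s) : ℝ :=
  ∑ t ∈ univ.filter (fun t : Fin d → Fin s => 𝒯 t = some c), ∏ k, p (some (t k))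

lemma tuple_sum {d s : ℕ} (p : Option (Fin s) → ℝ) (hs : ∑ c, p c = 1) :
    ∑ u : Fin d → Option (Fin s), (∏ k, p (u k)) = 1 := by
  classical
  have := Fintype.sum_pow p d
  rw [← this, hs, one_pow]

lemma tuple_sum_none {d s : ℕ} (p : Option (Fin s) → ℝ) (hs : ∑ c, p c = 1) (k : Fin d) :
    ∑ u : Fin d → Option (Fin s), (if u k = none then ∏ j, p (u j) else 0) = p none := by
  classical
  have h1 : ∀ u : Fin d → Option (Fin s), (if u k = none then ∏ j, p (u j) else 0) =
      ∏ j, (if j = k then (if u j = none then p (u j) else 0) else p (u j)) := by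
    intro u
    by_cases hu : u k = none
    · rw [if_pos hu]
      apply Finset.prod_congr rfl
      intro j _
      by_cases hj : j = k
      · subst hj; simp [hu]
      · simp [hj]
    · rw [if_neg hu]
      symm
      apply Finset.prod_eq_zero (mem_univ k)
      simp [hu]
  simp_rw [h1]
  have h2 := Finset.prod_univ_sum (fun _ : Fin d => (univ : Finset (Option (Fin s))))
    (fun j x => (if j = k then (if x = none then p x else 0) else p x))
  rw [Fintype.piFinset_univ] at h2
  rw [← h2]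
  have h3 : ∀ j : Fin d, ∑ x : Option (Fin s), (if j = k then (if x = none then p x else 0) else p x)
      = if j = k then p none else 1 := by
    intro j
    by_cases hj : j = k
    · simp [hj]
    · simp only [hj, if_false]; exact hs
  simp_rw [h3]
  rw [Finset.prod_ite_eq' univ k]
  simp

lemma row_sum_one {n d s : ℕ} (E : Finset (Fin n)) (col : Fin n → Option (Fin s))
    (𝒯 : (Fin d → Fin s) → Option (Fin s)) (ρ : ℝ) (p : Option (Fin s) → ℝ)
    (hs : ∑ c, p c = 1) (i : Fin n) (hi : i ∈ E ∨ col i = none) :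
    ∑ u : Fin d → Option (Fin s), (∏ k, p (u k)) * rwt E col 𝒯 ρ i u = 1 := by
  have h1 : ∀ u : Fin d → Option (Fin s), rwt E col 𝒯 ρ i u = 1 := by
    intro u; unfold rwt; rw [if_pos hi]
  simp_rw [h1, mul_one]
  exact tuple_sum p hs

lemma row_sum_le {n d s : ℕ} (E : Finset (Fin n)) (col : Fin n → Option (Fin s))
    (𝒯 : (Fin d → Fin s) → Option (Fin s)) {ρ : ℝ} (hρ : 0 ≤ ρ) (p : Option (Fin s) → ℝ)
    (hp : ∀ c, 0 ≤ p c) (hs : ∑ c, p c = 1) (i : Fin n) (hi : i ∉ E) (c : Fin s)
    (hc : col i = some c) :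
    ∑ u : Fin d → Option (Fin s), (∏ k, p (u k)) * rwt E col 𝒯 ρ i u ≤
      qm p 𝒯 c + ρ * (d * p none) := by
  classical
  have hpp : ∀ u : Fin d → Option (Fin s), 0 ≤ ∏ k, p (u k) :=
    fun u => Finset.prod_nonneg fun k _ => hp _
  -- split
  have h1 : ∀ u : Fin d → Option (Fin s), (∏ k, p (u k)) * rwt E col 𝒯 ρ i u ≤
      (if (∃ t : Fin d → Fin s, 𝒯 t = some c ∧ u = fun k => some (t k)) then ∏ k, p (u k) else 0) +
        ρ * ∑ k, (if u k = none then ∏ j, p (u j) else 0) := by
    intro u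
    have hsum0 : 0 ≤ ∑ k, (if u k = none then ∏ j, p (u j) else 0) :=
      Finset.sum_nonneg fun k _ => by split_ifs; exacts [hpp u, le_rfl]
    have hfirst0 : 0 ≤ (if (∃ t : Fin d → Fin s, 𝒯 t = some c ∧ u = fun k => some (t k))
        then ∏ k, p (u k) else 0) := by split_ifs; exacts [hpp u, le_rfl]
    unfold rwt
    have hne : ¬ (i ∈ E ∨ col i = none) := by rw [hc]; simp [hi]
    rw [if_neg hne]
    by_cases hk : ∃ k, u k = none
    · rw [if_pos hk]
      obtain ⟨k, hk⟩ := hk
      have h2 : (∏ j, p (u j)) ≤ ∑ k, (if u k = none then ∏ j, p (u j) else 0) := by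
        have := Finset.single_le_sum (f := fun k => (if u k = none then ∏ j, p (u j) else 0))
          (fun k _ => by split_ifs; exacts [hpp u, le_rfl]) (mem_univ k)
        simpa [hk] using this
      have h3 : (∏ j, p (u j)) * ρ ≤ ρ * ∑ k, (if u k = none then ∏ j, p (u j) else 0) := by
        rw [mul_comm]; gcongr
      linarith
    · rw [if_neg hk]
      have hρs : 0 ≤ ρ * ∑ k, (if u k = none then ∏ j, p (u j) else 0) := mul_nonneg hρ hsum0
      push Not at hk
      have hk' : ∀ k, ∃ x, u k = some x := fun k => Option.ne_none_iff_exists'.1 (hk k)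
      choose t ht using hk'
      by_cases h4 : (∀ t : Fin d → Fin s, (∀ k, u k = some (t k)) → 𝒯 t = col i)
      · rw [if_pos h4, mul_one]
        have h5 : ∃ t : Fin d → Fin s, 𝒯 t = some c ∧ u = fun k => some (t k) :=
          ⟨t, by rw [← hc]; exact h4 t ht, funext ht⟩
        rw [if_pos h5]
        linarith
      · rw [if_neg h4, mul_zero]
        linarith
  refine (Finset.sum_le_sum fun u _ => h1 u).trans ?_
  rw [Finset.sum_add_distrib]
  apply add_le_add
  · unfold qm
    rw [← Finset.sum_filter]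
    apply le_of_eq
    symm
    apply Finset.sum_bij (fun t _ => fun k => some (t k))
    · intro t ht
      simp only [mem_filter, mem_univ, true_and] at ht ⊢
      exact ⟨t, ht, rfl⟩
    · intro t _ t' _ h
      funext k
      have := congrFun h k
      simpa using this
    · intro u hu
      simp only [mem_filter, mem_univ, true_and] at hu
      obtain ⟨t, ht, rfl⟩ := hu
      exact ⟨t, by simpa using ht, rfl⟩
    · intro t _
      rfl
  · rw [← Finset.mul_sum, Finset.sum_comm]
    gcongr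
    simp_rw [tuple_sum_none p hs]
    rw [Finset.sum_const, card_univ, Fintype.card_fin, nsmul_eq_mul]

lemma qm_nonneg {d s : ℕ} (p : Option (Fin s) → ℝ) (hp : ∀ c, 0 ≤ p c)
    (𝒯 : (Fin d → Fin s) → Option (Fin s)) (c : Fin s) : 0 ≤ qm p 𝒯 c :=
  Finset.sum_nonneg fun _ _ => Finset.prod_nonneg fun _ _ => hp _

lemma sum_qm_le {d s : ℕ} (p : Option (Fin s) → ℝ) (hp : ∀ c, 0 ≤ p c) (hs : ∑ c, p c = 1)
    (𝒯 : (Fin d → Fin s) → Option (Fin s)) : ∑ c, qm p 𝒯 c ≤ 1 := by
  classical
  unfold qm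
  have h1 : ∑ c : Fin s, ∑ t ∈ univ.filter (fun t : Fin d → Fin s => 𝒯 t = some c), ∏ k, p (some (t k))
      ≤ ∑ t : Fin d → Fin s, ∏ k, p (some (t k)) := by
    rw [← Finset.sum_biUnion]
    · apply Finset.sum_le_sum_of_subset_of_nonneg (subset_univ _)
      intro t _ _
      exact Finset.prod_nonneg fun _ _ => hp _
    · intro a _ b _ hab
      rw [Function.onFun, Finset.disjoint_left]
      intro t h1 h2
      simp only [mem_filter, mem_univ, true_and] at h1 h2
      exact hab (by rw [h1] at h2; exact Option.some.inj h2)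
  refine h1.trans ?_
  have h2 := Fintype.sum_pow (fun c : Fin s => p (some c)) d
  rw [← h2]
  have h3 : ∑ c : Fin s, p (some c) ≤ 1 := by
    rw [Fintype.sum_option] at hs
    linarith [hp none]
  exact pow_le_one₀ (Finset.sum_nonneg fun c _ => hp _) h3

/-! ### one colouring -/

/-- the majorant of the row factors -/
noncomputable def Fm {d s : ℕ} (p : Option (Fin s) → ℝ) (𝒯 : (Fin d → Fin s) → Option (Fin s))
    (b : ℝ) (c : Option (Fin s)) : ℝ :=
  match c with
  | none => 1
  | some c => qm p 𝒯 c + b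

lemma Fm_pos {d s : ℕ} (p : Option (Fin s) → ℝ) (hp : ∀ c, 0 ≤ p c)
    (𝒯 : (Fin d → Fin s) → Option (Fin s)) {b : ℝ} (hb : 0 < b) (c : Option (Fin s)) :
    0 < Fm p 𝒯 b c := by
  cases c with
  | none => simp [Fm]
  | some c => simp only [Fm]; linarith [qm_nonneg p hp 𝒯 c]

open Classical in
lemma one_col {n d s : ℕ} (hd : 1 ≤ d) (hn : 1 ≤ n) (E : Finset (Fin n)) (hE : E.card ≤ 2)
    (col : Fin n → Option (Fin s)) (𝒯 : (Fin d → Fin s) → Option (Fin s)) {ρ β : ℝ} (hρ : 0 < ρ)
    (hβ : 0 < β) (hcol : dens col none ≤ β) :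
    ∑ pat ∈ univ.filter (fun pat : Fin n × Fin d → Option (Fin s) => Cons E col 𝒯 pat),
      ((Pat col pat).card : ℝ) / ((univ : Finset (Cfg n d)).card : ℝ) * ρ ^ (Rb E col pat) ≤
    (Real.exp 1 * (d * n + 1 : ℝ)) ^ (s + 1) * ((1 + 1 / (ρ * (d * β))) ^ 2 *
      ∏ i, Fm (dens col) 𝒯 (ρ * (d * β)) (col i)) := by
  have hd0 : (0 : ℝ) < d := by exact_mod_cast hd
  have hn0 : (0 : ℝ) < n := by exact_mod_cast hn
  set b : ℝ := ρ * (d * β) with hb
  have hb0 : 0 < b := by positivity
  have hp : ∀ c, 0 ≤ dens col c := fun c => by unfold dens; positivity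
  have hs : ∑ c, dens col c = 1 := by
    simp_rw [dens_eq]
    rw [← Finset.sum_div, ← Nat.cast_sum, sum_csz]
    exact div_self hn0.ne'
  have h1 : ∑ pat ∈ univ.filter (fun pat : Fin n × Fin d → Option (Fin s) => Cons E col 𝒯 pat),
      ((Pat col pat).card : ℝ) / ((univ : Finset (Cfg n d)).card : ℝ) * ρ ^ (Rb E col pat) ≤
      (Real.exp 1 * (d * n + 1 : ℝ)) ^ (s + 1) *
      ∑ pat ∈ univ.filter (fun pat : Fin n × Fin d → Option (Fin s) => Cons E col 𝒯 pat),
        (∏ st, dens col (pat st)) * ρ ^ (Rb E col pat) := by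
    rw [Finset.mul_sum]
    apply Finset.sum_le_sum
    intro pat _
    rw [← mul_assoc]
    apply mul_le_mul_of_nonneg_right (Pat_ratio hd hn col pat) (by positivity)
  refine h1.trans ?_
  apply mul_le_mul_of_nonneg_left _ (by positivity)
  refine (pat_sum_le E col 𝒯 hρ.le (dens col) hp).trans ?_
  set M : ℝ := 1 + 1 / b with hM
  have hM1 : 1 ≤ M := by rw [hM]; have : 0 < 1 / b := by positivity
                         linarith
  have hMb : 1 ≤ M * b := by rw [hM, add_mul, one_div, inv_mul_cancel₀ hb0.ne']; linarith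
  have h2 : ∀ i, ∑ u : Fin d → Option (Fin s), (∏ k, dens col (u k)) * rwt E col 𝒯 ρ i u ≤
      (if i ∈ E then M else 1) * Fm (dens col) 𝒯 b (col i) := by
    intro i
    have hF := Fm_pos (dens col) hp 𝒯 hb0 (col i)
    by_cases hiE : i ∈ E
    · rw [row_sum_one E col 𝒯 ρ (dens col) hs i (Or.inl hiE), if_pos hiE]
      rcases hci : col i with _ | c
      · simp only [Fm]; linarith
      · simp only [Fm]
        have := qm_nonneg (dens col) hp 𝒯 c
        nlinarith
    · rw [if_neg hiE, one_mul]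
      rcases hci : col i with _ | c
      · rw [row_sum_one E col 𝒯 ρ (dens col) hs i (Or.inr hci)]
        simp [Fm]
      · refine (row_sum_le E col 𝒯 hρ.le (dens col) hp hs i hiE c hci).trans ?_
        simp only [Fm]
        have : ρ * (d * dens col none) ≤ b := by rw [hb]; gcongr
        linarith
  have h3 : ∏ i, ∑ u : Fin d → Option (Fin s), (∏ k, dens col (u k)) * rwt E col 𝒯 ρ i u ≤
      ∏ i, ((if i ∈ E then M else 1) * Fm (dens col) 𝒯 b (col i)) := by
    apply Finset.prod_le_prod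
    · intro i _
      apply Finset.sum_nonneg
      intro u _
      exact mul_nonneg (Finset.prod_nonneg fun k _ => hp _) (rwt_nonneg E col 𝒯 hρ.le i u)
    · intro i _; exact h2 i
  refine h3.trans ?_
  rw [Finset.prod_mul_distrib]
  have h4 : ∏ i, (if i ∈ E then M else (1 : ℝ)) = M ^ E.card := by
    rw [Finset.prod_ite_mem, univ_inter, Finset.prod_const]
  rw [h4]
  apply mul_le_mul_of_nonneg_right _ (Finset.prod_nonneg fun i _ => (Fm_pos (dens col) hp 𝒯 hb0 _).le)
  exact pow_le_pow_right₀ hM1 hE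

/-! ### the Chernoff step -/

lemma neg_mul_log_le {β : ℝ} (hβ : 0 < β) : -(β * Real.log β) ≤ 2 * Real.sqrt β := by
  have hs : 0 < Real.sqrt β := Real.sqrt_pos.2 hβ
  have h1 := Real.one_sub_inv_le_log_of_pos hs
  have h2 : Real.log β = 2 * Real.log (Real.sqrt β) := by
    rw [Real.log_sqrt hβ.le]; ring
  rw [h2]
  have h3 : β = Real.sqrt β * Real.sqrt β := (Real.mul_self_sqrt hβ.le).symm
  have h4 : β * (1 - (Real.sqrt β)⁻¹) = β - Real.sqrt β := by
    rw [mul_sub, mul_one]
    congr 1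
    nth_rewrite 1 [h3]
    rw [mul_assoc, mul_inv_cancel₀ hs.ne', mul_one]
  have h5 : β * (1 - (Real.sqrt β)⁻¹) ≤ β * Real.log (Real.sqrt β) := by gcongr
  linarith

open Classical in
lemma chernoff {n d s : ℕ} (hd : 1 ≤ d) (hn : 1 ≤ n) (g : ℝ) (hg : 0 < g) (hg1 : g ≤ 1)
    (β : ℝ) (hβ : 0 < β) (hβ1 : β ≤ 1) (hβg : (2 * d + 3) * Real.sqrt β ≤ g ^ 2 / 16)
    (ρ : ℝ) (hρ : 0 < ρ) (hsρ : s * ρ ≤ 1) (c0 : Fin s)
    (𝒯 : (Fin d → Fin s) → Option (Fin s)) (N : Option (Fin s) → ℕ) (p : Option (Fin s) → ℝ)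
    (hpN : ∀ c, p c = (N c : ℝ) / n) (hpn : p none ≤ β) (hq : qm p 𝒯 c0 ≤ p (some c0) - g)
    (hs : ∑ c, p c = 1) :
    ∑ col ∈ univ.filter (fun col : Fin n → Option (Fin s) => ∀ c, csz col c = N c),
      ∏ i, Fm p 𝒯 (ρ * (d * β)) (col i) ≤ Real.exp (-(3 * g ^ 2 / 16 * n)) := by
  have hd0 : (1 : ℝ) ≤ d := by exact_mod_cast hd
  have hn0 : (0 : ℝ) < n := by exact_mod_cast hn
  have hp : ∀ c, 0 ≤ p c := fun c => by rw [hpN]; positivity
  set b : ℝ := ρ * (d * β) with hb
  have hb0 : 0 < b := by positivity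
  have hs1 : (1 : ℝ) ≤ s := by
    have : 1 ≤ s := by have := c0.2; omega
    exact_mod_cast this
  have hρ1 : ρ ≤ 1 := by nlinarith
  have hbd : b ≤ d * β := by
    rw [hb]
    have : 0 < (d : ℝ) * β := by positivity
    nlinarith
  have hsb : s * b ≤ d * β := by
    have h0 : 0 < (d : ℝ) * β := by positivity
    calc s * b = (s * ρ) * (d * β) := by rw [hb]; ring
      _ ≤ 1 * (d * β) := by gcongr
      _ = d * β := one_mul _
  set t : ℝ := g / 2 with ht
  have ht0 : 0 < t := by positivity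
  have ht1 : t ≤ 1 / 2 := by rw [ht]; linarith
  set lam : ℝ := p (some c0) with hlam
  -- tilting weights
  set w : Option (Fin s) → ℝ := fun c => if c = none then β else if c = some c0 then Real.exp t else 1
    with hw
  have hw0 : ∀ c, 0 < w c := by
    intro c; rw [hw]; dsimp only; split_ifs
    exacts [hβ, Real.exp_pos _, one_pos]
  have hF : ∀ c, 0 < Fm p 𝒯 b c := Fm_pos p hp 𝒯 hb0
  have h1 : ∀ col ∈ univ.filter (fun col : Fin n → Option (Fin s) => ∀ c, csz col c = N c),
      ∏ i, Fm p 𝒯 b (col i) ≤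
        Real.exp (-(t * lam * n)) * Real.exp (-(β * Real.log β) * n) *
          ∏ i, (Fm p 𝒯 b (col i) * w (col i)) := by
    intro col hcol
    have hcol' := (mem_filter.1 hcol).2
    have h2 : ∏ i, w (col i) = ∏ c, w c ^ N c := by
      rw [← Finset.prod_fiberwise_of_maps_to (s := univ) (t := univ) (g := col) (by simp)]
      apply Finset.prod_congr rfl
      intro c _
      rw [← hcol' c, csz, ← Finset.prod_const]
      apply Finset.prod_congr rfl
      intro i hi
      rw [(mem_filter.1 hi).2]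
    have h3 : ∏ c, w c ^ N c = β ^ N none * Real.exp t ^ N (some c0) := by
      rw [Fintype.prod_option]
      congr 1
      · rw [← Finset.prod_erase_mul univ _ (mem_univ c0)]
        have h4 : ∏ x ∈ univ.erase c0, w (some x) ^ N (some x) = 1 := by
          apply Finset.prod_eq_one
          intro x hx
          have hx' := (mem_erase.1 hx).1
          simp [hw, hx']
        rw [h4, one_mul]
        simp [hw]
    have hNn : (N none : ℝ) ≤ β * n := by
      have := hpN none
      rw [this, div_le_iff₀ hn0] at hpn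
      exact hpn
    have hNc : (N (some c0) : ℝ) = lam * n := by
      rw [hlam, hpN (some c0)]; field_simp
    have hlog : Real.log β ≤ 0 := Real.log_nonpos hβ.le hβ1
    have h5 : β ^ N none = Real.exp (Real.log β * N none) := by
      rw [mul_comm, Real.exp_nat_mul, Real.exp_log hβ]
    have h6 : Real.exp t ^ N (some c0) = Real.exp (t * lam * n) := by
      rw [← Real.exp_nat_mul, hNc]; congr 1; ring
    have h7 : 1 ≤ Real.exp (-(t * lam * n)) * Real.exp (-(β * Real.log β) * n) * ∏ i, w (col i) := by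
      rw [h2, h3, h5, h6, ← Real.exp_add, ← Real.exp_add, ← Real.exp_add]
      apply Real.one_le_exp
      nlinarith
    rw [Finset.prod_mul_distrib]
    have h8 : 0 ≤ ∏ i, Fm p 𝒯 b (col i) := Finset.prod_nonneg fun i _ => (hF _).le
    calc ∏ i, Fm p 𝒯 b (col i) = 1 * ∏ i, Fm p 𝒯 b (col i) := (one_mul _).symm
      _ ≤ (Real.exp (-(t * lam * n)) * Real.exp (-(β * Real.log β) * n) * ∏ i, w (col i)) *
            ∏ i, Fm p 𝒯 b (col i) := by gcongr
      _ = _ := by ring
  refine (Finset.sum_le_sum h1).trans ?_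
  rw [← Finset.mul_sum]
  have h9 : ∑ col ∈ univ.filter (fun col : Fin n → Option (Fin s) => ∀ c, csz col c = N c),
      ∏ i, (Fm p 𝒯 b (col i) * w (col i)) ≤ (∑ c, Fm p 𝒯 b c * w c) ^ n := by
    rw [Fintype.sum_pow]
    apply Finset.sum_le_sum_of_subset_of_nonneg (filter_subset _ _)
    intro col _ _
    exact Finset.prod_nonneg fun i _ => mul_nonneg (hF _).le (hw0 _).le
  have h10 : ∑ c, Fm p 𝒯 b c * w c ≤ 1 + ((d + 1) * β + (Real.exp t - 1) * (lam - g + d * β)) := by
    rw [Fintype.sum_option]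
    have e1 : Fm p 𝒯 b none * w none = β := by simp [Fm, hw]
    have e2 : ∀ c : Fin s, Fm p 𝒯 b (some c) * w (some c) =
        (qm p 𝒯 c + b) + (if c = c0 then (Real.exp t - 1) * (qm p 𝒯 c0 + b) else 0) := by
      intro c
      by_cases hc : c = c0
      · subst hc; simp [Fm, hw]; ring
      · simp [Fm, hw, hc]
    rw [e1]
    simp_rw [e2]
    rw [Finset.sum_add_distrib, Finset.sum_add_distrib, Finset.sum_ite_eq' univ c0]
    simp only [mem_univ, if_true, Finset.sum_const, card_univ, Fintype.card_fin, nsmul_eq_mul]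
    have h11 := sum_qm_le p hp hs 𝒯
    have h12 : (Real.exp t - 1) * (qm p 𝒯 c0 + b) ≤ (Real.exp t - 1) * (lam - g + d * β) := by
      have : 0 ≤ Real.exp t - 1 := by linarith [Real.add_one_le_exp t]
      gcongr
    linarith
  have hlamg : 0 ≤ lam - g := le_trans (qm_nonneg p hp 𝒯 c0) hq
  have hlam1 : lam ≤ 1 := by
    rw [← hs]; exact Finset.single_le_sum (f := p) (fun c _ => hp c) (mem_univ _)
  have hexp : Real.exp t - 1 ≤ t + t ^ 2 := by
    have := Real.abs_exp_sub_one_sub_id_le (x := t) (by rw [abs_of_pos ht0]; linarith)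
    have := (abs_le.1 this).2
    linarith
  have hexp0 : 0 ≤ Real.exp t - 1 := by linarith [Real.add_one_le_exp t]
  have h13 : (d + 1) * β + (Real.exp t - 1) * (lam - g + d * β) ≤
      t * lam - g ^ 2 / 4 + (2 * d + 1) * β := by
    have h14 : (Real.exp t - 1) * (lam - g + d * β) ≤ (t + t ^ 2) * (lam - g + d * β) := by
      have : 0 ≤ lam - g + d * β := by positivity
      gcongr
    have h15 : t ^ 2 * (lam - g) ≤ t ^ 2 := by
      have : lam - g ≤ 1 := by linarith
      nlinarith [sq_nonneg t]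
    have h16 : (t + t ^ 2) * (d * β) ≤ d * β := by
      have : t + t ^ 2 ≤ 1 := by nlinarith
      have h0 : 0 ≤ (d : ℝ) * β := by positivity
      nlinarith
    have h17 : t * g = g ^ 2 / 2 := by rw [ht]; ring
    have h18 : t ^ 2 = g ^ 2 / 4 := by rw [ht]; ring
    nlinarith
  have h19 : (∑ c, Fm p 𝒯 b c * w c) ^ n ≤ Real.exp ((t * lam - g ^ 2 / 4 + (2 * d + 1) * β) * n) := by
    have h20 : 0 ≤ ∑ c, Fm p 𝒯 b c * w c :=
      Finset.sum_nonneg fun c _ => mul_nonneg (hF _).le (hw0 _).le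
    have h21 : ∑ c, Fm p 𝒯 b c * w c ≤ Real.exp (t * lam - g ^ 2 / 4 + (2 * d + 1) * β) := by
      refine h10.trans ?_
      refine le_trans ?_ (Real.add_one_le_exp _)
      linarith
    calc (∑ c, Fm p 𝒯 b c * w c) ^ n ≤ (Real.exp (t * lam - g ^ 2 / 4 + (2 * d + 1) * β)) ^ n := by
          gcongr
      _ = _ := by rw [← Real.exp_nat_mul]; congr 1; ring
  calc Real.exp (-(t * lam * n)) * Real.exp (-(β * Real.log β) * n) *
        ∑ col ∈ univ.filter (fun col : Fin n → Option (Fin s) => ∀ c, csz col c = N c),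
          ∏ i, (Fm p 𝒯 b (col i) * w (col i))
      ≤ Real.exp (-(t * lam * n)) * Real.exp (-(β * Real.log β) * n) *
          Real.exp ((t * lam - g ^ 2 / 4 + (2 * d + 1) * β) * n) := by
        gcongr
        exact h9.trans h19
    _ = Real.exp ((-(β * Real.log β) - g ^ 2 / 4 + (2 * d + 1) * β) * n) := by
        rw [← Real.exp_add, ← Real.exp_add]; congr 1; ring
    _ ≤ Real.exp (-(3 * g ^ 2 / 16 * n)) := by
        apply Real.exp_le_exp.2
        have h22 := neg_mul_log_le hβ
        have h23 : β ≤ Real.sqrt β := by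
          rw [Real.le_sqrt hβ.le hβ.le]; nlinarith
        have h24 : -(β * Real.log β) - g ^ 2 / 4 + (2 * d + 1) * β ≤ -(3 * g ^ 2 / 16) := by
          have : (2 * (d : ℝ) + 1) * β ≤ (2 * d + 1) * Real.sqrt β := by gcongr
          nlinarith
        nlinarith

/-! ### conclusion -/

lemma poly_exp (s d : ℕ) (M b : ℝ) (hb : 0 < b) (hM : 0 ≤ M) : ∀ᶠ n : ℕ in atTop,
    ((n : ℝ) + 1) ^ (s + 1) * ((Real.exp 1 * (d * n + 1 : ℝ)) ^ (s + 1) * M) ≤ Real.exp (b * n) := by
  set C : ℝ := 2 ^ (s + 1) * ((Real.exp 1 * (d + 1)) ^ (s + 1) * M) + 1 with hC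
  have hC0 : 0 < C := by
    have h0 : 0 ≤ (2 : ℝ) ^ (s + 1) * ((Real.exp 1 * (d + 1)) ^ (s + 1) * M) := by positivity
    linarith
  have h1 := (isLittleO_pow_exp_pos_mul_atTop (k := 2 * (s + 1)) hb).bound
    (show (0 : ℝ) < 1 / C by positivity)
  have h2 := (tendsto_natCast_atTop_atTop (R := ℝ)).eventually h1
  filter_upwards [h2, eventually_ge_atTop 1] with n hn hn1
  have hn0 : (1 : ℝ) ≤ n := by exact_mod_cast hn1
  rw [Real.norm_eq_abs, Real.norm_eq_abs, abs_of_nonneg (by positivity), abs_of_pos (Real.exp_pos _)]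
    at hn
  have h3 : ((n : ℝ) + 1) ^ (s + 1) * ((Real.exp 1 * (d * n + 1 : ℝ)) ^ (s + 1) * M) ≤
      C * (n : ℝ) ^ (2 * (s + 1)) := by
    calc ((n : ℝ) + 1) ^ (s + 1) * ((Real.exp 1 * (d * n + 1 : ℝ)) ^ (s + 1) * M)
        ≤ (2 * n : ℝ) ^ (s + 1) * ((Real.exp 1 * ((d + 1) * n : ℝ)) ^ (s + 1) * M) := by
          gcongr
          · linarith
          · linarith
      _ = (2 ^ (s + 1) * ((Real.exp 1 * (d + 1)) ^ (s + 1) * M)) * (n : ℝ) ^ (2 * (s + 1)) := by
          rw [two_mul (s + 1), pow_add, mul_pow (2 : ℝ), ← mul_assoc (Real.exp 1),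
            mul_pow (Real.exp 1 * (d + 1) : ℝ)]
          ring
      _ ≤ C * (n : ℝ) ^ (2 * (s + 1)) := by
          gcongr
          rw [hC]; linarith
  refine h3.trans ?_
  calc C * (n : ℝ) ^ (2 * (s + 1)) ≤ C * (1 / C * Real.exp (b * n)) := by gcongr
    _ = Real.exp (b * n) := by field_simp

end C2C

open C2C

open Classical in
theorem C2_count (d : ℕ) (hd1 : 1 ≤ d) (g : ℝ) (hg : 0 < g) (hg1 : g ≤ 1) :
    ∃ β0 : ℝ, 0 < β0 ∧ ∀ β : ℝ, 0 < β → β ≤ β0 → ∀ ρ : ℝ, 0 < ρ → ρ < 1 → ∀ s : ℕ, s * ρ ≤ 1 →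
      ∀ᶠ n : ℕ in atTop, ∀ E : Finset (Fin n), E.card ≤ 2 → ∀ (c0 : Fin s)
        (𝒯 : (Fin d → Fin s) → Option (Fin s)),
        ∑ col ∈ univ.filter (fun col : Fin n → Option (Fin s) => dens col none ≤ β ∧
            ∑ t ∈ univ.filter (fun t : Fin d → Fin s => 𝒯 t = some c0), ∏ k, dens col (some (t k)) ≤
              dens col (some c0) - g),
          ∑ pat ∈ univ.filter (fun pat : Fin n × Fin d → Option (Fin s) => Cons E col 𝒯 pat),
            ((Pat col pat).card : ℝ) / ((univ : Finset (Cfg n d)).card : ℝ) *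
              ρ ^ (Rb E col pat) ≤
        Real.exp (-(g ^ 2 / 16 * n)) := by
  have hd0 : (1 : ℝ) ≤ d := by exact_mod_cast hd1
  refine ⟨(g ^ 2 / (16 * (2 * d + 3))) ^ 2, by positivity, ?_⟩
  intro β hβ hβ0 ρ hρ hρ1 s hsρ
  have hsq : Real.sqrt β ≤ g ^ 2 / (16 * (2 * d + 3)) := by
    calc Real.sqrt β ≤ Real.sqrt ((g ^ 2 / (16 * (2 * d + 3))) ^ 2) := Real.sqrt_le_sqrt hβ0
      _ = _ := Real.sqrt_sq (by positivity)
  have hβg : (2 * d + 3) * Real.sqrt β ≤ g ^ 2 / 16 := by
    calc (2 * d + 3) * Real.sqrt β ≤ (2 * d + 3) * (g ^ 2 / (16 * (2 * d + 3))) := by gcongr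
      _ = _ := by field_simp
  have hβ1 : β ≤ 1 := by
    have h1 : g ^ 2 / (16 * (2 * d + 3)) ≤ 1 := by
      rw [div_le_one (by positivity)]
      nlinarith
    calc β ≤ (g ^ 2 / (16 * (2 * d + 3))) ^ 2 := hβ0
      _ ≤ 1 := pow_le_one₀ (by positivity) h1
  have hev := poly_exp s d ((1 + 1 / (ρ * (d * β))) ^ 2) (g ^ 2 / 8) (by positivity) (by positivity)
  filter_upwards [hev, eventually_ge_atTop 1] with n hn hn1
  intro E hE c0 𝒯
  have hn0 : (0 : ℝ) < n := by exact_mod_cast hn1
  set good : (Fin n → Option (Fin s)) → Prop := fun col => dens col none ≤ β ∧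
            ∑ t ∈ univ.filter (fun t : Fin d → Fin s => 𝒯 t = some c0), ∏ k, dens col (some (t k)) ≤
              dens col (some c0) - g with hgood
  set K : ℝ := (Real.exp 1 * (d * n + 1 : ℝ)) ^ (s + 1) * (1 + 1 / (ρ * (d * β))) ^ 2 with hK
  have hK0 : 0 ≤ K := by rw [hK]; positivity
  set S : Finset (Option (Fin s) → ℕ) := Fintype.piFinset (fun _ => range (n + 1)) with hS
  have hcardS : (S.card : ℝ) = ((n : ℝ) + 1) ^ (s + 1) := by
    rw [hS, Fintype.card_piFinset]
    simp
  have hmaps : ∀ col ∈ univ.filter (fun col : Fin n → Option (Fin s) => good col), csz col ∈ S := by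
    intro col _
    rw [hS, Fintype.mem_piFinset]
    intro c
    rw [mem_range]
    have : csz col c ≤ n := by
      unfold csz
      refine (card_filter_le _ _).trans ?_
      simp
    omega
  rw [← Finset.sum_fiberwise_of_maps_to hmaps]
  have hmain : ∀ N ∈ S, ∑ col ∈ (univ.filter (fun col : Fin n → Option (Fin s) => good col)).filter
      (fun col => csz col = N),
      ∑ pat ∈ univ.filter (fun pat : Fin n × Fin d → Option (Fin s) => Cons E col 𝒯 pat),
            ((Pat col pat).card : ℝ) / ((univ : Finset (Cfg n d)).card : ℝ) *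
              ρ ^ (Rb E col pat) ≤ K * Real.exp (-(3 * g ^ 2 / 16 * n)) := by
    intro N _
    rcases ((univ.filter (fun col : Fin n → Option (Fin s) => good col)).filter
      (fun col => csz col = N)).eq_empty_or_nonempty with he | ⟨col1, hcol1⟩
    · rw [he, sum_empty]
      positivity
    · simp only [mem_filter, mem_univ, true_and] at hcol1
      obtain ⟨hg1', hN1⟩ := hcol1
      have hdens : ∀ col : Fin n → Option (Fin s), csz col = N → dens col = dens col1 := by
        intro col hcol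
        funext c
        rw [dens_eq, dens_eq, hcol, hN1]
      have hs1 : ∑ c, dens col1 c = 1 := by
        simp_rw [dens_eq]
        rw [← Finset.sum_div, ← Nat.cast_sum, sum_csz]
        exact div_self hn0.ne'
      calc ∑ col ∈ (univ.filter (fun col : Fin n → Option (Fin s) => good col)).filter
              (fun col => csz col = N),
            ∑ pat ∈ univ.filter (fun pat : Fin n × Fin d → Option (Fin s) => Cons E col 𝒯 pat),
            ((Pat col pat).card : ℝ) / ((univ : Finset (Cfg n d)).card : ℝ) *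
              ρ ^ (Rb E col pat)
          ≤ ∑ col ∈ (univ.filter (fun col : Fin n → Option (Fin s) => good col)).filter
              (fun col => csz col = N), K * ∏ i, Fm (dens col1) 𝒯 (ρ * (d * β)) (col i) := by
            apply Finset.sum_le_sum
            intro col hcol
            simp only [mem_filter, mem_univ, true_and] at hcol
            refine (one_col hd1 hn1 E hE col 𝒯 hρ hβ hcol.1.1).trans (le_of_eq ?_)
            rw [hdens col hcol.2, hK]
            ring
        _ ≤ ∑ col ∈ univ.filter (fun col : Fin n → Option (Fin s) => ∀ c, csz col c = N c),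
              K * ∏ i, Fm (dens col1) 𝒯 (ρ * (d * β)) (col i) := by
            apply Finset.sum_le_sum_of_subset_of_nonneg
            · intro col hcol
              simp only [mem_filter, mem_univ, true_and] at hcol ⊢
              intro c; rw [hcol.2]
            · intro col _ _
              apply mul_nonneg hK0
              exact Finset.prod_nonneg fun i _ => (Fm_pos (dens col1)
                (fun c => by unfold dens; positivity) 𝒯 (by positivity) _).le
        _ = K * ∑ col ∈ univ.filter (fun col : Fin n → Option (Fin s) => ∀ c, csz col c = N c),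
              ∏ i, Fm (dens col1) 𝒯 (ρ * (d * β)) (col i) := by
            rw [Finset.mul_sum]
        _ ≤ K * Real.exp (-(3 * g ^ 2 / 16 * n)) := by
            apply mul_le_mul_of_nonneg_left _ hK0
            apply chernoff hd1 hn1 g hg hg1 β hβ hβ1 hβg ρ hρ hsρ c0 𝒯 N (dens col1)
            · intro c; rw [dens_eq, hN1]
            · exact hg1'.1
            · exact hg1'.2
            · exact hs1
  refine (Finset.sum_le_sum hmain).trans ?_
  rw [Finset.sum_const, nsmul_eq_mul, hcardS]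
  calc ((n : ℝ) + 1) ^ (s + 1) * (K * Real.exp (-(3 * g ^ 2 / 16 * n)))
      = (((n : ℝ) + 1) ^ (s + 1) * ((Real.exp 1 * (d * n + 1 : ℝ)) ^ (s + 1) *
          (1 + 1 / (ρ * (d * β))) ^ 2)) * Real.exp (-(3 * g ^ 2 / 16 * n)) := by rw [hK]; ring
    _ ≤ Real.exp (g ^ 2 / 8 * n) * Real.exp (-(3 * g ^ 2 / 16 * n)) := by gcongr
    _ = Real.exp (-(g ^ 2 / 16 * n)) := by rw [← Real.exp_add]; congr 1; ring

end Pool.Agent.SMin
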