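import Pool.Agent.SMin.CTwoPatternAux

set_option autoImplicit false
open Finset Filter

namespace Pool.Agent.SMin

/-- row functional in the unknowns -/
noncomputable def vrow {n d s : ℕ} (z : ℂ) (E : Finset (Fin n)) (col : Fin n → Option (Fin s))
    (pat : Fin n × Fin d → Option (Fin s)) (i : Fin n) (σ : Cfg n d) : Idx E col pat → ℂ :=
  fun j => ∑ k, Xf z E col pat (hd σ i k) j - z * Xf z E col pat i j

lemma vrow_dot {n d s : ℕ} (z : ℂ) (E : Finset (Fin n)) (col : Fin n → Option (Fin s))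
    (pat : Fin n × Fin d → Option (Fin s)) (i : Fin n) (σ : Cfg n d) (y : Idx E col pat → ℂ) :
    ∑ j, vrow z E col pat i σ j * y j =
      ∑ k, (∑ j, Xf z E col pat (hd σ i k) j * y j) - z * ∑ j, Xf z E col pat i j * y j := by
  unfold vrow
  simp_rw [sub_mul, sum_sub_distrib, sum_mul]
  rw [sum_comm, mul_sum]
  congr 1
  apply sum_congr rfl
  intro j _
  ring

lemma c2p_sq_le {ι : Type*} (S : Finset ι) (a : ι → ℝ) (ha : ∀ j ∈ S, 0 ≤ a j) :
    ∑ j ∈ S, a j ^ 2 ≤ (∑ j ∈ S, a j) ^ 2 := by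
  rw [sq (∑ j ∈ S, a j), sum_mul]
  apply sum_le_sum
  intro j hj
  rw [sq]
  exact mul_le_mul_of_nonneg_left (single_le_sum ha hj) (ha j hj)

lemma vrow_l2 {n d s : ℕ} (z : ℂ) (E : Finset (Fin n)) (col : Fin n → Option (Fin s))
    (pat : Fin n × Fin d → Option (Fin s)) (i : Fin n) (σ : Cfg n d) :
    ∑ j, ‖vrow z E col pat i σ j‖ ^ 2 ≤ ((d + ‖z‖) * (2 + d * ‖z⁻¹‖)) ^ 2 := by
  refine (c2p_sq_le univ _ (fun j _ => norm_nonneg _)).trans ?_
  have h : ∑ j, ‖vrow z E col pat i σ j‖ ≤ (d + ‖z‖) * (2 + d * ‖z⁻¹‖) := by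
    calc ∑ j, ‖vrow z E col pat i σ j‖
        ≤ ∑ j, (∑ k, ‖Xf z E col pat (hd σ i k) j‖ + ‖z‖ * ‖Xf z E col pat i j‖) := by
          apply sum_le_sum
          intro j _
          unfold vrow
          refine (norm_sub_le _ _).trans ?_
          rw [norm_mul]
          gcongr
          exact norm_sum_le _ _
      _ = ∑ k, (∑ j, ‖Xf z E col pat (hd σ i k) j‖) + ‖z‖ * ∑ j, ‖Xf z E col pat i j‖ := by
          rw [sum_add_distrib, sum_comm, mul_sum]
      _ ≤ ∑ _k : Fin d, (2 + d * ‖z⁻¹‖) + ‖z‖ * (2 + d * ‖z⁻¹‖) := by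
          gcongr with k _
          · exact Xf_l1 z E col pat _
          · exact Xf_l1 z E col pat _
      _ = _ := by rw [sum_const, card_univ, Fintype.card_fin, nsmul_eq_mul]; ring
  have h0 : 0 ≤ ∑ j, ‖vrow z E col pat i σ j‖ := sum_nonneg (fun j _ => norm_nonneg _)
  exact pow_le_pow_left₀ h0 h 2

lemma c2p_enum {n : ℕ} (hn : 0 < n) (S : Finset (Fin n)) :
    ∃ (rk : Fin n → ℕ) (row : ℕ → Fin n), (∀ i ∈ S, rk i < S.card ∧ row (rk i) = i) ∧
      (∀ t < S.card, row t ∈ S ∧ rk (row t) = t) := by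
  classical
  refine ⟨fun i => if h : i ∈ S then (S.equivFin ⟨i, h⟩ : ℕ) else S.card,
    fun t => if h : t < S.card then (S.equivFin.symm ⟨t, h⟩ : Fin n) else ⟨0, hn⟩, ?_, ?_⟩
  · intro i hi
    simp [hi]
  · intro t ht
    simp [ht]

/-- history: the stubs of the rows of rank `< t` are revealed -/
def Hst {n d : ℕ} (rk : Fin n → ℕ) (t : ℕ) (σ : Cfg n d) :
    Fin n × Fin d → Option (Fin n × Fin d) :=
  fun p => if rk p.1 < t then some (σ p) else none

/-- finer history: in addition all stubs of the row `i` but the stub `k0` -/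
def Fst {n d : ℕ} (rk : Fin n → ℕ) (t : ℕ) (i : Fin n) (k0 : Fin d) (σ : Cfg n d) :
    Fin n × Fin d → Option (Fin n × Fin d) :=
  fun p => if rk p.1 < t ∨ (p.1 = i ∧ p.2 ≠ k0) then some (σ p) else none

lemma Fst_eq_iff {n d : ℕ} (rk : Fin n → ℕ) (t : ℕ) (i : Fin n) (k0 : Fin d) (σ τ : Cfg n d) :
    Fst rk t i k0 σ = Fst rk t i k0 τ ↔
      ∀ p : Fin n × Fin d, (rk p.1 < t ∨ (p.1 = i ∧ p.2 ≠ k0)) → σ p = τ p := by
  constructor
  · intro h p hp
    have := congrFun h p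
    simpa [Fst, hp] using this
  · intro h
    funext p
    unfold Fst
    by_cases hp : rk p.1 < t ∨ (p.1 = i ∧ p.2 ≠ k0)
    · rw [if_pos hp, if_pos hp, h p hp]
    · rw [if_neg hp, if_neg hp]

lemma Hst_eq_iff {n d : ℕ} (rk : Fin n → ℕ) (t : ℕ) (σ τ : Cfg n d) :
    Hst rk t σ = Hst rk t τ ↔ ∀ p : Fin n × Fin d, rk p.1 < t → σ p = τ p := by
  constructor
  · intro h p hp
    have := congrFun h p
    simpa [Hst, hp] using this
  · intro h
    funext p
    unfold Hst
    by_cases hp : rk p.1 < t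
    · rw [if_pos hp, if_pos hp, h p hp]
    · rw [if_neg hp, if_neg hp]

lemma c2p_cond {n d s : ℕ} (z : ℂ) (E : Finset (Fin n)) (col : Fin n → Option (Fin s))
    (pat : Fin n × Fin d → Option (Fin s)) (rk : Fin n → ℕ) (row : ℕ → Fin n) (kk : Fin n → Fin d)
    (T : ℕ) (hrow : ∀ t < T, row t ∈ SSet E pat ∧ rk (row t) = t)
    (hkk : ∀ i ∈ SSet E pat, pat (i, kk i) = none) (t : ℕ) (ht : t < T)
    (y : Idx E col pat → ℂ) (x : Fin n → ℂ) (r r1 rp ρ : ℝ)
    (happ : ∀ k, ‖∑ j, Xf z E col pat k j * y j - x k‖ ≤ r1) (hr : r + r1 ≤ rp)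
    (hbc : ∀ b, (bc x (univ.filter (fun k => col k = none)) b rp : ℝ) < ρ * n)
    (τ : Cfg n d) :
    (((Pat col pat).filter (fun σ' => Hst rk t σ' = Hst rk t τ ∧
        ‖∑ j, vrow z E col pat (row t) σ' j * y j‖ < r)).card : ℝ) ≤
      (d * ρ * n / ((T : ℝ) - t)) *
        (((Pat col pat).filter (fun σ' => Hst rk t σ' = Hst rk t τ)).card : ℝ) := by
  classical
  set i := row t with hi
  set k0 := kk i with hk0
  have hiS := (hrow t ht).1
  have hrki : rk i = t := (hrow t ht).2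
  have hs0 : pat (i, k0) = none := hkk i hiS
  apply c2p_refine (Pat col pat) (Hst rk t) (Fst rk t i k0)
  · intro ω _ ω' _ h
    rw [Fst_eq_iff] at h
    rw [Hst_eq_iff]
    exact fun p hp => h p (Or.inl hp)
  intro τ hτ
  have hτp : ∀ st, col (τ st).1 = pat st := (mem_filter.1 hτ).2
  set Ω' := (Pat col pat).filter (fun σ' => Fst rk t i k0 σ' = Fst rk t i k0 τ) with hΩ'
  set Av : Finset (Fin n × Fin d) := univ.filter (fun u => col u.1 = none ∧
    ∀ p : Fin n × Fin d, (rk p.1 < t ∨ (p.1 = i ∧ p.2 ≠ k0)) → τ p ≠ u) with hAv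
  set w : ℂ := ∑ k ∈ univ.erase k0, (∑ j, Xf z E col pat (hd τ i k) j * y j) -
    z * ∑ j, Xf z E col pat i j * y j with hw
  set B : Finset (Fin n × Fin d) := univ.filter (fun u => col u.1 = none ∧
    ‖(∑ j, Xf z E col pat u.1 j * y j) + w‖ < r) with hB
  have hns : ¬ (rk i < t ∨ (i = i ∧ k0 ≠ k0)) := by
    rintro (h | ⟨_, h⟩)
    · omega
    · exact h rfl
  have hcell : ∀ σ', σ' ∈ Ω' ↔ (∀ st, col (σ' st).1 = pat st) ∧
      ∀ p : Fin n × Fin d, (rk p.1 < t ∨ (p.1 = i ∧ p.2 ≠ k0)) → σ' p = τ p := by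
    intro σ'
    rw [hΩ', mem_filter, Fst_eq_iff, Pat, mem_filter]
    simp
  have h1 : ∀ σ' ∈ Ω', σ' (i, k0) ∈ Av := by
    intro σ' hσ'
    rw [hcell] at hσ'
    rw [hAv, mem_filter]
    refine ⟨mem_univ _, (hσ'.1 (i, k0)).trans hs0, ?_⟩
    intro p hp h
    rw [← hσ'.2 p hp] at h
    have := σ'.injective h
    rw [this] at hp
    exact hns hp
  have h2 : ∀ σ' ∈ Ω', ∀ u ∈ Av, Equiv.swap (σ' (i, k0)) u * σ' ∈ Ω' := by
    intro σ' hσ' u hu
    rw [hcell] at hσ' ⊢
    have hu' := (mem_filter.1 hu).2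
    constructor
    · intro st
      rw [Equiv.Perm.mul_apply]
      by_cases h3 : σ' st = σ' (i, k0)
      · rw [h3, Equiv.swap_apply_left, hu'.1]
        have := σ'.injective h3
        rw [this, hs0]
      · by_cases h4 : σ' st = u
        · rw [h4, Equiv.swap_apply_right, hσ'.1, hs0, ← hσ'.1 st, h4, hu'.1]
        · rw [Equiv.swap_apply_of_ne_of_ne h3 h4, hσ'.1]
    · intro p hp
      rw [Equiv.Perm.mul_apply]
      have h3 : σ' p ≠ σ' (i, k0) := by
        intro h
        have := σ'.injective h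
        rw [this] at hp
        exact hns hp
      have h4 : σ' p ≠ u := by
        rw [hσ'.2 p hp]
        exact hu'.2 p hp
      rw [Equiv.swap_apply_of_ne_of_ne h3 h4, hσ'.2 p hp]
  have hone := one_step Ω' (i, k0) Av h1 h2 B
  -- the number of available stubs
  have hAvc : T - t ≤ Av.card := by
    rw [← Nat.card_Ico]
    apply card_le_card_of_injOn (fun t' => τ (row t', kk (row t')))
    · intro t' ht'
      have ht'' := mem_Ico.1 (mem_coe.1 ht')
      have hr' := hrow t' ht''.2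
      apply mem_coe.2
      rw [hAv, mem_filter]
      refine ⟨mem_univ _, ?_, ?_⟩
      · rw [hτp, hkk _ hr'.1]
      · intro p hp h
        have := τ.injective h
        rw [this] at hp
        rcases hp with hp | ⟨hp1, hp2⟩
        · simp only [hr'.2] at hp; omega
        · simp only at hp1 hp2
          rw [hp1] at hp2
          exact hp2 rfl
    · intro t' ht' t'' ht'' h
      have h1' := mem_Ico.1 (mem_coe.1 ht')
      have h2' := mem_Ico.1 (mem_coe.1 ht'')
      have := τ.injective h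
      have h3 : row t' = row t'' := (Prod.ext_iff.1 this).1
      rw [← (hrow t' h1'.2).2, ← (hrow t'' h2'.2).2, h3]
  -- the number of bad stubs
  have hBc : ((B ∩ Av).card : ℝ) ≤ d * ρ * n := by
    have hb1 : B ⊆ (((univ.filter (fun k => col k = none)).filter
        (fun k => ‖x k - (-w)‖ ≤ rp)) ×ˢ (univ : Finset (Fin d))) := by
      intro u hu
      rw [hB, mem_filter] at hu
      rw [mem_product, mem_filter, mem_filter]
      refine ⟨⟨⟨mem_univ _, hu.2.1⟩, ?_⟩, mem_univ _⟩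
      have h3 : x u.1 - (-w) = ((∑ j, Xf z E col pat u.1 j * y j) + w) -
        ((∑ j, Xf z E col pat u.1 j * y j) - x u.1) := by ring
      rw [h3]
      refine (norm_sub_le _ _).trans ?_
      linarith [hu.2.2, happ u.1]
    have hb2 : (B ∩ Av).card ≤ bc x (univ.filter (fun k => col k = none)) (-w) rp * d := by
      refine (card_le_card (inter_subset_left.trans hb1)).trans ?_
      rw [card_product, card_univ, Fintype.card_fin]
      unfold bc
      apply le_of_eq
      congr!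
    have hb3 := hbc (-w)
    calc ((B ∩ Av).card : ℝ) ≤ ((bc x (univ.filter (fun k => col k = none)) (-w) rp * d : ℕ) : ℝ) := by
          exact_mod_cast hb2
      _ = (bc x (univ.filter (fun k => col k = none)) (-w) rp : ℝ) * d := by push_cast; ring
      _ ≤ (ρ * n) * d := by gcongr
      _ = d * ρ * n := by ring
  -- comparison of the bad event
  have hsub : (Pat col pat).filter (fun σ' => Fst rk t i k0 σ' = Fst rk t i k0 τ ∧
      ‖∑ j, vrow z E col pat i σ' j * y j‖ < r) ⊆ Ω'.filter (fun σ' => σ' (i, k0) ∈ B) := by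
    intro σ' hσ'
    rw [mem_filter] at hσ'
    obtain ⟨ha, hb, hc⟩ := hσ'
    have hmem : σ' ∈ Ω' := by rw [hΩ', mem_filter]; exact ⟨ha, hb⟩
    rw [mem_filter]
    refine ⟨hmem, ?_⟩
    rw [hcell] at hmem
    rw [hB, mem_filter]
    refine ⟨mem_univ _, (hmem.1 (i, k0)).trans hs0, ?_⟩
    rw [vrow_dot] at hc
    rw [← add_sum_erase univ _ (mem_univ k0)] at hc
    have h5 : ∑ k ∈ univ.erase k0, (∑ j, Xf z E col pat (hd σ' i k) j * y j) =
        ∑ k ∈ univ.erase k0, (∑ j, Xf z E col pat (hd τ i k) j * y j) := by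
      apply sum_congr rfl
      intro k hk
      have hk' := (mem_erase.1 hk).1
      have : hd σ' i k = hd τ i k := by
        unfold hd
        rw [hmem.2 (i, k) (Or.inr ⟨rfl, hk'⟩)]
      rw [this]
    rw [h5, add_sub_assoc] at hc
    exact hc
  have hcard : (((Pat col pat).filter (fun σ' => Fst rk t i k0 σ' = Fst rk t i k0 τ ∧
      ‖∑ j, vrow z E col pat i σ' j * y j‖ < r)).card : ℝ) ≤
      ((Ω'.filter (fun σ' => σ' (i, k0) ∈ B)).card : ℝ) := by
    exact_mod_cast card_le_card hsub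
  refine hcard.trans ?_
  have hTt : (0 : ℝ) < (T : ℝ) - t := by
    have : (t : ℝ) < T := by exact_mod_cast ht
    linarith
  have hTt2 : (T : ℝ) - t ≤ Av.card := by
    have : ((T - t : ℕ) : ℝ) ≤ Av.card := by exact_mod_cast hAvc
    rwa [Nat.cast_sub ht.le] at this
  have hone' : ((Ω'.filter (fun σ' => σ' (i, k0) ∈ B)).card : ℝ) * Av.card =
      ((B ∩ Av).card : ℝ) * Ω'.card := by exact_mod_cast hone
  rw [div_mul_eq_mul_div, le_div_iff₀ hTt]
  calc ((Ω'.filter (fun σ' => σ' (i, k0) ∈ B)).card : ℝ) * ((T : ℝ) - t)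
      ≤ ((Ω'.filter (fun σ' => σ' (i, k0) ∈ B)).card : ℝ) * Av.card := by gcongr
    _ = ((B ∩ Av).card : ℝ) * Ω'.card := hone'
    _ ≤ (d * ρ * n) * Ω'.card := by gcongr

end Pool.Agent.SMin
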