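import Pool.Agent.SMin.Base

set_option autoImplicit false
open Finset Filter

namespace Pool.Agent.SMin

/-! ## Module OS (OneStep.lean) -/

/-- the fibres of `σ ↦ σ s` over the available values have the same cardinality -/
lemma os_fiber {X : Type*} [Fintype X] [DecidableEq X] (Ω : Finset (Equiv.Perm X)) (s : X)
    (Av : Finset X) (h2 : ∀ σ ∈ Ω, ∀ u ∈ Av, Equiv.swap (σ s) u * σ ∈ Ω) (u v : X) (hv : v ∈ Av) :
    (Ω.filter (fun σ => σ s = u)).card ≤ (Ω.filter (fun σ => σ s = v)).card := by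
  apply card_le_card_of_injOn (fun σ => Equiv.swap u v * σ)
  · intro σ hσ
    have h := mem_filter.1 (mem_coe.1 hσ)
    refine mem_coe.2 (mem_filter.2 ⟨?_, ?_⟩)
    · have := h2 σ h.1 v hv
      rwa [h.2] at this
    · simp [h.2]
  · intro σ _ τ _ h
    exact mul_left_cancel h

/-- one-step exposure: the value of a uniform element of `Ω` at `s` is uniform on `Av` -/
theorem one_step {X : Type*} [Fintype X] [DecidableEq X] (Ω : Finset (Equiv.Perm X)) (s : X)
    (Av : Finset X) (h1 : ∀ σ ∈ Ω, σ s ∈ Av)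
    (h2 : ∀ σ ∈ Ω, ∀ u ∈ Av, Equiv.swap (σ s) u * σ ∈ Ω) (B : Finset X) :
    (Ω.filter (fun σ => σ s ∈ B)).card * Av.card = (B ∩ Av).card * Ω.card := by
  have key : ∀ u ∈ Av, ∀ v ∈ Av, (Ω.filter (fun σ => σ s = u)).card =
      (Ω.filter (fun σ => σ s = v)).card := fun u hu v hv =>
    le_antisymm (os_fiber Ω s Av h2 u v hv) (os_fiber Ω s Av h2 v u hu)
  have hΩ : Ω.card = ∑ u ∈ Av, (Ω.filter (fun σ => σ s = u)).card := by
    rw [← card_biUnion]
    · congr 1
      ext σ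
      simp only [mem_biUnion, mem_filter]
      exact ⟨fun h => ⟨σ s, h1 σ h, h, rfl⟩, fun ⟨_, _, h, _⟩ => h⟩
    · intro u _ v _ huv
      rw [Function.onFun, disjoint_filter]
      intro σ _ h1 h2
      exact huv (h1 ▸ h2)
  have hB : (Ω.filter (fun σ => σ s ∈ B)).card =
      ∑ u ∈ B ∩ Av, (Ω.filter (fun σ => σ s = u)).card := by
    rw [← card_biUnion]
    · congr 1
      ext σ
      simp only [mem_biUnion, mem_filter, mem_inter]
      exact ⟨fun h => ⟨σ s, ⟨h.2, h1 σ h.1⟩, h.1, rfl⟩, fun ⟨u, hu, h, h'⟩ => ⟨h, h' ▸ hu.1⟩⟩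
    · intro u _ v _ huv
      rw [Function.onFun, disjoint_filter]
      intro σ _ h1 h2
      exact huv (h1 ▸ h2)
  rcases Av.eq_empty_or_nonempty with h | ⟨v, hv⟩
  · subst h; simp
  have e1 : Ω.card = Av.card * (Ω.filter (fun σ => σ s = v)).card := by
    rw [hΩ, sum_congr rfl (fun u hu => key u hu v hv), sum_const, smul_eq_mul]
  have e2 : (Ω.filter (fun σ => σ s ∈ B)).card =
      (B ∩ Av).card * (Ω.filter (fun σ => σ s = v)).card := by
    rw [hB, sum_congr rfl (fun u hu => key u (mem_inter.1 hu).2 v hv), sum_const, smul_eq_mul]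
  rw [e1, e2]; ring

end Pool.Agent.SMin
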