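import Pool.Agent.SMin.Potential

set_option autoImplicit false
open Finset Filter

namespace Pool.Agent.SMin

/-! ## Module B2 (Redund.lean) -/

open Classical in
/-- one step of the adaptive product bound -/
theorem rd_step {α β : Type*} (Ω : Finset α) (H : α → β) (P E : α → Prop) (p : ℝ)
    (hP : ∀ ω ∈ Ω, ∀ ω' ∈ Ω, H ω = H ω' → (P ω ↔ P ω'))
    (hp : ∀ ω ∈ Ω, ((Ω.filter (fun ω' => H ω' = H ω ∧ E ω')).card : ℝ) ≤
      p * ((Ω.filter (fun ω' => H ω' = H ω)).card : ℝ)) :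
    ((Ω.filter (fun ω => P ω ∧ E ω)).card : ℝ) ≤ p * ((Ω.filter P).card : ℝ) := by
  set I := (Ω.filter P).image H with hI
  have h1 : (Ω.filter P).card = ∑ b ∈ I, ((Ω.filter P).filter (fun ω => H ω = b)).card :=
    card_eq_sum_card_fiberwise (fun ω hω => mem_image_of_mem H hω)
  have h2 : (Ω.filter (fun ω => P ω ∧ E ω)).card =
      ∑ b ∈ I, ((Ω.filter (fun ω => P ω ∧ E ω)).filter (fun ω => H ω = b)).card := by
    refine card_eq_sum_card_fiberwise (fun ω hω => ?_)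
    have hω' := mem_filter.1 (mem_coe.1 hω)
    exact mem_image_of_mem H (mem_filter.2 ⟨hω'.1, hω'.2.1⟩)
  rw [h1, h2, Nat.cast_sum, Nat.cast_sum, mul_sum]
  refine sum_le_sum (fun b hb => ?_)
  rw [hI, mem_image] at hb
  obtain ⟨ω, hω, rfl⟩ := hb
  rw [mem_filter] at hω
  have h3 : ((Ω.filter (fun ω => P ω ∧ E ω)).filter (fun ω' => H ω' = H ω)) ⊆
      Ω.filter (fun ω' => H ω' = H ω ∧ E ω') := by
    intro ω'
    simp only [mem_filter]
    rintro ⟨⟨h4, h5, h6⟩, h7⟩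
    exact ⟨h4, h7, h6⟩
  have h4 : (Ω.filter (fun ω' => H ω' = H ω)) ⊆ ((Ω.filter P).filter (fun ω' => H ω' = H ω)) := by
    intro ω'
    simp only [mem_filter]
    rintro ⟨h5, h6⟩
    exact ⟨⟨h5, (hP ω' h5 ω hω.1 h6).2 hω.2⟩, h6⟩
  have h5 : (Ω.filter (fun ω' => H ω' = H ω)) = ((Ω.filter P).filter (fun ω' => H ω' = H ω)) := by
    refine Subset.antisymm h4 ?_
    intro ω'
    simp only [mem_filter]
    rintro ⟨⟨h5, _⟩, h6⟩
    exact ⟨h5, h6⟩
  rw [← h5]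
  refine le_trans ?_ (hp ω hω.1)
  exact_mod_cast card_le_card h3

open Classical in
/-- the adaptive product bound for a fixed set of times -/
theorem rd_prod {α β : Type*} (Ω : Finset α) (H : ℕ → α → β) (T : ℕ)
    (hH : ∀ t < T, ∀ ω ∈ Ω, ∀ ω' ∈ Ω, H (t + 1) ω = H (t + 1) ω' → H t ω = H t ω')
    (E : ℕ → α → Prop)
    (hEH : ∀ t < T, ∀ ω ∈ Ω, ∀ ω' ∈ Ω, H (t + 1) ω = H (t + 1) ω' → (E t ω ↔ E t ω'))
    (p : ℕ → ℝ) (hp0 : ∀ t, 0 ≤ p t)
    (hp : ∀ t < T, ∀ ω ∈ Ω, ((Ω.filter (fun ω' => H t ω' = H t ω ∧ E t ω')).card : ℝ) ≤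
      p t * ((Ω.filter (fun ω' => H t ω' = H t ω)).card : ℝ)) :
    ∀ T' : Finset ℕ, T' ⊆ range T →
      ((Ω.filter (fun ω => ∀ t ∈ T', E t ω)).card : ℝ) ≤ (∏ t ∈ T', p t) * Ω.card := by
  have hmono : ∀ t s : ℕ, s ≤ t → t ≤ T → ∀ ω ∈ Ω, ∀ ω' ∈ Ω, H t ω = H t ω' → H s ω = H s ω' := by
    intro t s hst
    induction t, hst using Nat.le_induction with
    | base => exact fun _ _ _ _ _ h => h
    | succ t _ ih =>
      intro htT ω hω ω' hω' h
      exact ih (by omega) ω hω ω' hω' (hH t (by omega) ω hω ω' hω' h)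
  intro T'
  induction T' using Finset.induction_on_max with
  | empty => intro _; simp
  | insert t S hS ih =>
    intro hsub
    have htT : t < T := mem_range.1 (hsub (mem_insert_self t S))
    have htS : t ∉ S := fun h => lt_irrefl t (hS t h)
    have h1 := rd_step Ω (H t) (fun ω => ∀ s ∈ S, E s ω) (E t) (p t) (by
      intro ω hω ω' hω' h
      refine forall₂_congr (fun s hs => ?_)
      have hst := hS s hs
      exact hEH s (by omega) ω hω ω' hω' (hmono t (s + 1) (by omega) htT.le ω hω ω' hω' h))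
      (hp t htT)
    have h2 : (Ω.filter (fun ω => ∀ s ∈ insert t S, E s ω)) =
        Ω.filter (fun ω => (∀ s ∈ S, E s ω) ∧ E t ω) := by
      refine filter_congr (fun ω _ => ?_)
      rw [forall_mem_insert, and_comm]
    have h3 := ih (fun s hs => hsub (mem_insert_of_mem hs))
    have h4 : ((Ω.filter (fun ω => (∀ s ∈ S, E s ω) ∧ E t ω)).card : ℝ) ≤
        p t * ((Ω.filter (fun ω => ∀ s ∈ S, E s ω)).card : ℝ) := by
      refine le_of_eq_of_le ?_ (h1.trans_eq ?_) <;> congr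
    rw [h2, prod_insert htS, mul_assoc]
    exact h4.trans (mul_le_mul_of_nonneg_left h3 (hp0 t))

/-- adaptive product bound: if each event `E t` (known at time `t+1`) has conditional probability
at most `p t`, then at least `K` of them occur with probability at most the elementary symmetric sum -/
theorem adaptive {α β : Type*} (Ω : Finset α) (H : ℕ → α → β) (T : ℕ)
    (hH : ∀ t < T, ∀ ω ∈ Ω, ∀ ω' ∈ Ω, H (t + 1) ω = H (t + 1) ω' → H t ω = H t ω')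
    (E : ℕ → α → Prop)
    (hEH : ∀ t < T, ∀ ω ∈ Ω, ∀ ω' ∈ Ω, H (t + 1) ω = H (t + 1) ω' → (E t ω ↔ E t ω'))
    (p : ℕ → ℝ) (hp0 : ∀ t, 0 ≤ p t)
    (hp : ∀ t < T, ∀ ω ∈ Ω,
      fr Ω (fun ω' => H t ω' = H t ω ∧ E t ω') ≤ p t * fr Ω (fun ω' => H t ω' = H t ω))
    (K : ℕ) :
    fr Ω (fun ω => ∃ T' ⊆ range T, T'.card = K ∧ ∀ t ∈ T', E t ω) ≤
      ∑ T' ∈ powersetCard K (range T), ∏ t ∈ T', p t := by
  classical
  have hp' : ∀ t < T, ∀ ω ∈ Ω, ((Ω.filter (fun ω' => H t ω' = H t ω ∧ E t ω')).card : ℝ) ≤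
      p t * ((Ω.filter (fun ω' => H t ω' = H t ω)).card : ℝ) := by
    intro t ht ω hω
    rw [card_filter_eq_fr_mul, card_filter_eq_fr_mul, ← mul_assoc]
    exact mul_le_mul_of_nonneg_right (hp t ht ω hω) (Nat.cast_nonneg _)
  have h1 := rd_prod Ω H T hH E hEH p hp0 hp'
  have h2 : fr Ω (fun ω => ∃ T' ⊆ range T, T'.card = K ∧ ∀ t ∈ T', E t ω) =
      fr Ω (fun ω => ∃ T' ∈ powersetCard K (range T), ∀ t ∈ T', E t ω) := by
    refine fr_congr Ω (fun ω _ => ?_)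
    constructor
    · rintro ⟨T', h3, h4, h5⟩
      exact ⟨T', mem_powersetCard.2 ⟨h3, h4⟩, h5⟩
    · rintro ⟨T', h3, h5⟩
      rw [mem_powersetCard] at h3
      exact ⟨T', h3.1, h3.2, h5⟩
  rw [h2]
  refine (fr_exists_le Ω _ _).trans (sum_le_sum (fun T' hT' => ?_))
  rw [mem_powersetCard] at hT'
  rw [fr_def]
  rcases Ω.eq_empty_or_nonempty with h | h
  · rw [h]
    simp only [filter_empty, card_empty, Nat.cast_zero, div_zero]
    exact prod_nonneg (fun t _ => hp0 t)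
  · rw [div_le_iff₀ (by exact_mod_cast h.card_pos)]
    exact h1 T' hT'.1

open Classical in
theorem redundancy {α β : Type*} (Ω : Finset α) (H : ℕ → α → β) (T : ℕ)
    (hH : ∀ t < T, ∀ ω ∈ Ω, ∀ ω' ∈ Ω, H (t + 1) ω = H (t + 1) ω' → H t ω = H t ω')
    {ι : Type*} [Fintype ι] (v : ℕ → α → ι → ℂ) (E : ℕ → α → Prop)
    (hvH : ∀ t < T, ∀ ω ∈ Ω, ∀ ω' ∈ Ω, H (t + 1) ω = H (t + 1) ω' → v t ω = v t ω')
    (hEH : ∀ t < T, ∀ ω ∈ Ω, ∀ ω' ∈ Ω, H (t + 1) ω = H (t + 1) ω' → (E t ω ↔ E t ω'))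
    (𝒞 : Set (ι → ℂ)) (η r B X : ℝ) (hη : 0 < η) (hr : 0 < r) (hB0 : 0 ≤ B) (hX0 : 0 ≤ X)
    (h𝒞 : ∀ x ∈ 𝒞, ∑ k, ‖x k‖ ^ 2 ≤ X) (hB : ∀ t < T, ∀ ω ∈ Ω, ∑ k, ‖v t ω k‖ ^ 2 ≤ B)
    (p : ℕ → ℝ) (hp0 : ∀ t, 0 ≤ p t)
    (hp : ∀ t < T, ∀ ω ∈ Ω, ∀ x ∈ 𝒞,
      ((Ω.filter (fun ω' => H t ω' = H t ω ∧ E t ω' ∧ ‖∑ k, v t ω' k * x k‖ < r)).card : ℝ) ≤
        p t * ((Ω.filter (fun ω' => H t ω' = H t ω)).card : ℝ))
    (V K : ℕ)
    (hV : ((Fintype.card ι : ℝ) + T * B / η ^ 2) ^ (Fintype.card ι) <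
      (1 + r ^ 2 / (η ^ 2 * (X + T))) ^ (V + 1)) :
    fr Ω (fun ω => ∃ x ∈ 𝒞, (∀ t < T, ‖∑ k, v t ω k * x k‖ ≤ η) ∧
        V + K ≤ ((range T).filter (fun t => E t ω)).card) ≤
      ∑ T' ∈ powersetCard K (range T), ∏ t ∈ T', p t := by
  have hmono : ∀ t s : ℕ, s ≤ t → t ≤ T → ∀ ω ∈ Ω, ∀ ω' ∈ Ω, H t ω = H t ω' → H s ω = H s ω' := by
    intro t s hst
    induction t, hst using Nat.le_induction with
    | base => exact fun _ _ _ _ _ h => h
    | succ t _ ih =>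
      intro htT ω hω ω' hω' h
      exact ih (by omega) ω hω ω' hω' (hH t (by omega) ω hω ω' hω' h)
  -- the admissible vectors at time `t`
  set Q : ℕ → α → (ι → ℂ) → Prop := fun t ω x => x ∈ 𝒞 ∧ ∀ s < t, ‖∑ k, v s ω k * x k‖ ≤ η with hQ
  have hQH : ∀ t ≤ T, ∀ ω ∈ Ω, ∀ ω' ∈ Ω, H t ω = H t ω' → Q t ω = Q t ω' := by
    intro t ht ω hω ω' hω' h
    funext x
    refine propext (and_congr_right (fun _ => forall₂_congr (fun s hs => ?_)))
    rw [hvH s (by omega) ω hω ω' hω' (hmono t (s + 1) (by omega) ht ω hω ω' hω' h)]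
  set X' : ℕ → α → ι → ℂ := fun t ω => Classical.epsilon (Q t ω) with hX'
  set E' : ℕ → α → Prop := fun t ω =>
    E t ω ∧ (∃ x, Q t ω x) ∧ ‖∑ k, v t ω k * X' t ω k‖ < r with hE'
  have hE'H : ∀ t < T, ∀ ω ∈ Ω, ∀ ω' ∈ Ω, H (t + 1) ω = H (t + 1) ω' → (E' t ω ↔ E' t ω') := by
    intro t ht ω hω ω' hω' h
    have h1 := hQH t ht.le ω hω ω' hω' (hH t ht ω hω ω' hω' h)
    have h2 := hvH t ht ω hω ω' hω' h
    have h3 := hEH t ht ω hω ω' hω' h
    simp only [hE', hX', h1, h2, h3]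
  have hp' : ∀ t < T, ∀ ω ∈ Ω,
      fr Ω (fun ω' => H t ω' = H t ω ∧ E' t ω') ≤ p t * fr Ω (fun ω' => H t ω' = H t ω) := by
    intro t ht ω hω
    rw [fr_def, fr_def, ← mul_div_assoc]
    refine div_le_div_of_nonneg_right ?_ (Nat.cast_nonneg _)
    by_cases hex : ∃ x, Q t ω x
    · have h1 : Q t ω (X' t ω) := Classical.epsilon_spec hex
      refine le_trans ?_ (hp t ht ω hω (X' t ω) h1.1)
      have h2 : Ω.filter (fun ω' => H t ω' = H t ω ∧ E' t ω') ⊆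
          Ω.filter (fun ω' => H t ω' = H t ω ∧ E t ω' ∧ ‖∑ k, v t ω' k * X' t ω k‖ < r) := by
        intro ω'
        simp only [mem_filter]
        rintro ⟨h3, h4, h5, _, h6⟩
        refine ⟨h3, h4, h5, ?_⟩
        have h7 : X' t ω' = X' t ω := by
          simp only [hX', hQH t ht.le ω' h3 ω hω h4]
        rw [← h7]
        exact h6
      exact_mod_cast card_le_card h2
    · have h2 : Ω.filter (fun ω' => H t ω' = H t ω ∧ E' t ω') = ∅ := by
        rw [filter_eq_empty_iff]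
        rintro ω' hω' ⟨h4, _, h5, _⟩
        rw [hQH t ht.le ω' hω' ω hω h4] at h5
        exact hex h5
      rw [h2, card_empty, Nat.cast_zero]
      exact mul_nonneg (hp0 t) (Nat.cast_nonneg _)
  refine le_trans (fr_mono Ω ?_) (adaptive Ω H T hH E' hE'H p hp0 hp' K)
  rintro ω hω ⟨x, hx, hsol, hcard⟩
  have hQx : ∀ t ≤ T, Q t ω x := fun t ht => ⟨hx, fun s hs => hsol s (by omega)⟩
  have hQX : ∀ t ≤ T, Q t ω (X' t ω) := fun t ht => Classical.epsilon_spec ⟨x, hQx t ht⟩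
  have hpot := potential T (fun t => v t ω) (fun t => X' t ω) η r B X hη hr hB0 hX0
    (fun t ht => hB t ht ω hω) (fun t ht => h𝒞 _ (hQX t ht.le).1)
    (fun t ht s hs => (hQX t ht.le).2 s hs)
  set Vi := (range T).filter (fun t => r ≤ ‖∑ k, v t ω k * X' t ω k‖) with hVi
  have hVcard : Vi.card ≤ V := by
    by_contra hlt
    push Not at hlt
    have hbase : (1 : ℝ) ≤ 1 + r ^ 2 / (η ^ 2 * (X + T)) := by
      have : 0 ≤ r ^ 2 / (η ^ 2 * (X + T)) := by positivity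
      linarith
    have h3 := pow_le_pow_right₀ hbase (show V + 1 ≤ Vi.card by omega)
    exact absurd (h3.trans hpot) (not_le.2 hV)
  have hsub : (range T).filter (fun t => E t ω) ⊆
      (range T).filter (fun t => E' t ω) ∪ Vi := by
    intro t
    simp only [mem_union, mem_filter, hVi]
    rintro ⟨h1, h2⟩
    by_cases h3 : r ≤ ‖∑ k, v t ω k * X' t ω k‖
    · exact Or.inr ⟨h1, h3⟩
    · push Not at h3
      exact Or.inl ⟨h1, h2, ⟨x, hQx t (mem_range.1 h1).le⟩, h3⟩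
  have hK : K ≤ ((range T).filter (fun t => E' t ω)).card := by
    have h1 := (card_le_card hsub).trans (card_union_le _ _)
    omega
  obtain ⟨T', hT', hT'c⟩ := exists_subset_card_eq hK
  refine ⟨T', fun t ht => (mem_filter.1 (hT' ht)).1, hT'c, fun t ht => (mem_filter.1 (hT' ht)).2⟩

end Pool.Agent.SMin
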