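import Pool.Agent.SMin.Base

set_option autoImplicit false
open Finset Filter

namespace Pool.Agent.SMin

/-! ## Module C2P (CTwoPattern.lean) -/

/-- the configurations with colour pattern `pat` (colour of the head of every out-stub) -/
def Pat {n d s : ℕ} (col : Fin n → Option (Fin s)) (pat : Fin n × Fin d → Option (Fin s)) :
    Finset (Cfg n d) :=
  univ.filter (fun σ => ∀ st, col (σ st).1 = pat st)

open Classical in
/-- number of coloured rows off `E` which have an uncoloured head -/
noncomputable def Rb {n d s : ℕ} (E : Finset (Fin n)) (col : Fin n → Option (Fin s))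
    (pat : Fin n × Fin d → Option (Fin s)) : ℕ :=
  (univ.filter (fun i : Fin n => i ∉ E ∧ col i ≠ none ∧ ∃ k, pat (i, k) = none)).card

/-! ## Module C2C (CTwoCount.lean) -/

/-- rows off `E` whose index and all of whose heads are coloured are consistent with `𝒯` -/
def Cons {n d s : ℕ} (E : Finset (Fin n)) (col : Fin n → Option (Fin s))
    (𝒯 : (Fin d → Fin s) → Option (Fin s)) (pat : Fin n × Fin d → Option (Fin s)) : Prop :=
  ∀ i, i ∉ E → ∀ c, col i = some c → ∀ t : Fin d → Fin s, (∀ k, pat (i, k) = some (t k)) →
    𝒯 t = some c

/-- density of a class -/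
noncomputable def dens {n s : ℕ} (col : Fin n → Option (Fin s)) (c : Option (Fin s)) : ℝ :=
  ((univ.filter (fun k => col k = c)).card : ℝ) / n

end Pool.Agent.SMin
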