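import Pool.Agent.SMin.CTwoDefs
import Pool.Agent.SMin.OneStep

set_option autoImplicit false
open Finset Filter

namespace Pool.Agent.SMin

/-! ### conditional bounds can be checked on finer cells -/

lemma c2p_refine {α β γ : Type*} [DecidableEq β] [DecidableEq γ] (Ω : Finset α) (H : α → β)
    (F : α → γ) (P : α → Prop) [DecidablePred P] (p : ℝ)
    (hFH : ∀ ω ∈ Ω, ∀ ω' ∈ Ω, F ω = F ω' → H ω = H ω')
    (h : ∀ ω ∈ Ω, ((Ω.filter (fun ω' => F ω' = F ω ∧ P ω')).card : ℝ) ≤
      p * ((Ω.filter (fun ω' => F ω' = F ω)).card : ℝ))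
    (ω : α) :
    ((Ω.filter (fun ω' => H ω' = H ω ∧ P ω')).card : ℝ) ≤
      p * ((Ω.filter (fun ω' => H ω' = H ω)).card : ℝ) := by
  classical
  set S := Ω.filter (fun ω' => H ω' = H ω) with hS
  have h1 : Ω.filter (fun ω' => H ω' = H ω ∧ P ω') = S.filter P := by
    rw [hS, filter_filter]
  rw [h1]
  have e1 : (S.filter P).card = ∑ j ∈ S.image F, ((S.filter P).filter (fun ω' => F ω' = j)).card := by
    apply card_eq_sum_card_fiberwise
    intro ω' hω'
    exact mem_coe.2 (mem_image_of_mem F (mem_filter.1 (mem_coe.1 hω')).1)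
  have e2 : S.card = ∑ j ∈ S.image F, (S.filter (fun ω' => F ω' = j)).card := by
    apply card_eq_sum_card_fiberwise
    intro ω' hω'
    exact mem_coe.2 (mem_image_of_mem F (mem_coe.1 hω'))
  rw [e1, e2]
  push_cast
  rw [mul_sum]
  apply sum_le_sum
  intro j hj
  obtain ⟨ω0, hω0, rfl⟩ := mem_image.1 hj
  have hω0' := mem_filter.1 hω0
  have h2 : S.filter (fun ω' => F ω' = F ω0) = Ω.filter (fun ω' => F ω' = F ω0) := by
    ext ω'
    simp only [hS, mem_filter]
    constructor
    · rintro ⟨⟨a, _⟩, b⟩; exact ⟨a, b⟩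
    · rintro ⟨a, b⟩
      exact ⟨⟨a, (hFH ω' a ω0 hω0'.1 b).trans hω0'.2⟩, b⟩
  have h3 : (S.filter P).filter (fun ω' => F ω' = F ω0) =
      Ω.filter (fun ω' => F ω' = F ω0 ∧ P ω') := by
    rw [filter_filter]
    ext ω'
    simp only [hS, mem_filter]
    constructor
    · rintro ⟨⟨a, _⟩, b, c⟩; exact ⟨a, c, b⟩
    · rintro ⟨a, b, c⟩
      exact ⟨⟨a, (hFH ω' a ω0 hω0'.1 b).trans hω0'.2⟩, c, b⟩
  rw [h2, h3]
  exact h ω0 hω0'.1

/-! ### elementary symmetric functions of `a / (T - t)` -/

lemma c2p_factorial_le_prod (S : Finset ℕ) (h : ∀ x ∈ S, 1 ≤ x) :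
    S.card.factorial ≤ ∏ x ∈ S, x := by
  induction S using Finset.induction_on_max with
  | empty => simp
  | insert a s hs ih =>
    have ha : a ∉ s := fun h => lt_irrefl a (hs a h)
    rw [card_insert_of_notMem ha, prod_insert ha, Nat.factorial_succ]
    have h1 : s.card + 1 ≤ a := by
      have hsub : insert a s ⊆ Icc 1 a := by
        intro x hx
        rw [mem_Icc]
        refine ⟨h x hx, ?_⟩
        rcases mem_insert.1 hx with rfl | hx
        · exact le_refl _
        · exact (hs x hx).le
      have := card_le_card hsub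
      rw [card_insert_of_notMem ha, Nat.card_Icc] at this
      omega
    exact Nat.mul_le_mul h1 (ih (fun x hx => h x (mem_insert_of_mem hx)))

lemma c2p_esymm (T K : ℕ) (a : ℝ) (ha : 0 ≤ a) :
    ∑ T' ∈ powersetCard K (range T), ∏ t ∈ T', (a / ((T : ℝ) - t)) ≤
      2 ^ T * (a ^ K / K.factorial) := by
  have h1 : ∀ T' ∈ powersetCard K (range T), ∏ t ∈ T', (a / ((T : ℝ) - t)) ≤
      a ^ K / K.factorial := by
    intro T' hT'
    rw [mem_powersetCard] at hT'
    obtain ⟨hsub, hcard⟩ := hT'
    rw [prod_div_distrib, prod_const, hcard]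
    have h2 : ∏ t ∈ T', ((T : ℝ) - t) = ((∏ t ∈ T', (T - t) : ℕ) : ℝ) := by
      push_cast
      apply prod_congr rfl
      intro t ht
      have := mem_range.1 (hsub ht)
      rw [Nat.cast_sub this.le]
    have h3 : ∏ t ∈ T', (T - t) = ∏ x ∈ T'.image (fun t => T - t), x := by
      rw [prod_image]
      intro t ht t' ht' h
      have := mem_range.1 (hsub ht)
      have := mem_range.1 (hsub ht')
      simp only at h
      omega
    have h4 : (T'.image (fun t => T - t)).card = K := by
      rw [card_image_of_injOn, hcard]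
      intro t ht t' ht' h
      have := mem_range.1 (hsub ht)
      have := mem_range.1 (hsub ht')
      simp only at h
      omega
    have h5 : K.factorial ≤ ∏ t ∈ T', (T - t) := by
      rw [h3, ← h4]
      apply c2p_factorial_le_prod
      intro x hx
      obtain ⟨t, ht, rfl⟩ := mem_image.1 hx
      have := mem_range.1 (hsub ht)
      omega
    rw [h2]
    have h6 : (K.factorial : ℝ) ≤ ((∏ t ∈ T', (T - t) : ℕ) : ℝ) := by exact_mod_cast h5
    have h7 : (0 : ℝ) < K.factorial := by exact_mod_cast K.factorial_pos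
    gcongr
  calc ∑ T' ∈ powersetCard K (range T), ∏ t ∈ T', (a / ((T : ℝ) - t))
      ≤ ∑ _T' ∈ powersetCard K (range T), a ^ K / K.factorial := sum_le_sum h1
    _ = (T.choose K : ℝ) * (a ^ K / K.factorial) := by
        rw [sum_const, card_powersetCard, card_range, nsmul_eq_mul]
    _ ≤ 2 ^ T * (a ^ K / K.factorial) := by
        have h2 : (T.choose K : ℝ) ≤ 2 ^ T := by exact_mod_cast Nat.choose_le_two_pow T K
        have h3 : 0 ≤ a ^ K / K.factorial := by positivity
        gcongr

/-! ### the special rows and the unknowns -/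

/-- rows off `E` with an uncoloured head -/
def SSet {n d s : ℕ} (E : Finset (Fin n)) (pat : Fin n × Fin d → Option (Fin s)) :
    Finset (Fin n) :=
  univ.filter (fun i => i ∉ E ∧ ∃ k, pat (i, k) = none)

/-- index set of the unknowns -/
abbrev Idx {n d s : ℕ} (E : Finset (Fin n)) (col : Fin n → Option (Fin s))
    (pat : Fin n × Fin d → Option (Fin s)) : Type :=
  Fin s ⊕ {k : Fin n // col k = none ∧ (k ∈ SSet E pat ∨ k ∈ E)}

/-- the functional expressing the value at `k` by the unknowns -/
noncomputable def Xf {n d s : ℕ} (z : ℂ) (E : Finset (Fin n)) (col : Fin n → Option (Fin s))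
    (pat : Fin n × Fin d → Option (Fin s)) (k : Fin n) : Idx E col pat → ℂ
  | Sum.inl c => if col k = some c then 1 else
      if col k = none ∧ ¬ (k ∈ SSet E pat ∨ k ∈ E) then
        z⁻¹ * ((univ.filter (fun k' : Fin d => pat (k, k') = some c)).card : ℂ) else 0
  | Sum.inr m => if m.1 = k then 1 else 0

/-- representatives of the unknowns -/
def phi {n d s : ℕ} (E : Finset (Fin n)) (col : Fin n → Option (Fin s))
    (pat : Fin n × Fin d → Option (Fin s)) (rep : Fin s → Fin n) : Idx E col pat → Fin n
  | Sum.inl c => rep c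
  | Sum.inr m => m.1

lemma phi_injective {n d s : ℕ} (E : Finset (Fin n)) (col : Fin n → Option (Fin s))
    (pat : Fin n × Fin d → Option (Fin s)) (rep : Fin s → Fin n)
    (hrep : ∀ c, col (rep c) = some c) : Function.Injective (phi E col pat rep) := by
  rintro (c | m) (c' | m') h
  · simp only [phi] at h
    have h1 := hrep c
    rw [h, hrep c'] at h1
    simp only [Option.some.injEq] at h1
    rw [h1]
  · simp only [phi] at h
    have h1 := hrep c
    rw [h, m'.2.1] at h1
    exact absurd h1 (by simp)
  · simp only [phi] at h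
    have h1 := hrep c'
    rw [← h, m.2.1] at h1
    exact absurd h1 (by simp)
  · simp only [phi] at h
    rw [Subtype.ext h]

lemma c2p_sum_cnt {n d s : ℕ} (pat : Fin n × Fin d → Option (Fin s)) (k : Fin n) :
    ∑ c : Fin s, (univ.filter (fun k' : Fin d => pat (k, k') = some c)).card ≤ d := by
  classical
  have h1 : ∑ c : Fin s, (univ.filter (fun k' : Fin d => pat (k, k') = some c)).card =
      (univ.biUnion (fun c : Fin s => univ.filter (fun k' : Fin d => pat (k, k') = some c))).card := by
    rw [card_biUnion]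
    intro c _ c' _ hcc'
    rw [Function.onFun, disjoint_left]
    intro k' hk hk'
    have h1 := (mem_filter.1 hk).2
    have h2 := (mem_filter.1 hk').2
    rw [h1] at h2
    exact hcc' (by simpa using h2)
  rw [h1]
  calc _ ≤ (univ : Finset (Fin d)).card := card_le_card (subset_univ _)
    _ = d := by simp

lemma Xf_l1 {n d s : ℕ} (z : ℂ) (E : Finset (Fin n)) (col : Fin n → Option (Fin s))
    (pat : Fin n × Fin d → Option (Fin s)) (k : Fin n) :
    ∑ j, ‖Xf z E col pat k j‖ ≤ 2 + d * ‖z⁻¹‖ := by
  classical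
  rw [Fintype.sum_sum_type]
  have h1 : ∑ c : Fin s, ‖Xf z E col pat k (Sum.inl c)‖ ≤ 1 + d * ‖z⁻¹‖ := by
    calc ∑ c : Fin s, ‖Xf z E col pat k (Sum.inl c)‖
        ≤ ∑ c : Fin s, ((if col k = some c then (1 : ℝ) else 0) +
          ((univ.filter (fun k' : Fin d => pat (k, k') = some c)).card : ℝ) * ‖z⁻¹‖) := by
          apply sum_le_sum
          intro c _
          simp only [Xf]
          by_cases h : col k = some c
          · simp only [h, if_true, norm_one]
            have : 0 ≤ ((univ.filter (fun k' : Fin d => pat (k, k') = some c)).card : ℝ) * ‖z⁻¹‖ := by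
              positivity
            linarith
          · simp only [h, if_false]
            split_ifs
            · rw [norm_mul, Complex.norm_natCast]; linarith [mul_comm (‖z⁻¹‖) ((univ.filter (fun k' : Fin d => pat (k, k') = some c)).card : ℝ)]
            · rw [norm_zero]; positivity
      _ ≤ 1 + d * ‖z⁻¹‖ := by
          rw [sum_add_distrib, ← sum_mul]
          have h2 : ∑ c : Fin s, (if col k = some c then (1 : ℝ) else 0) ≤ 1 := by
            cases hk : col k with
            | none => simp
            | some c0 =>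
              simp only [Option.some.injEq]
              rw [sum_ite_eq]
              simp
          have h3 : ∑ c : Fin s, ((univ.filter (fun k' : Fin d => pat (k, k') = some c)).card : ℝ) ≤ d := by
            exact_mod_cast c2p_sum_cnt pat k
          gcongr
  have h2 : ∑ m : {k : Fin n // col k = none ∧ (k ∈ SSet E pat ∨ k ∈ E)},
      ‖Xf z E col pat k (Sum.inr m)‖ ≤ 1 := by
    simp only [Xf]
    by_cases h : col k = none ∧ (k ∈ SSet E pat ∨ k ∈ E)
    · rw [Fintype.sum_eq_single (⟨k, h⟩ : {k : Fin n // col k = none ∧ (k ∈ SSet E pat ∨ k ∈ E)})]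
      · simp
      · intro m hm
        have : m.1 ≠ k := fun h' => hm (Subtype.ext h')
        simp [this]
    · rw [sum_eq_zero]
      · exact zero_le_one
      · intro m _
        have : m.1 ≠ k := fun h' => h (h' ▸ m.2)
        simp [this]
  linarith

lemma Xf_dot {n d s : ℕ} (z : ℂ) (E : Finset (Fin n)) (col : Fin n → Option (Fin s))
    (pat : Fin n × Fin d → Option (Fin s)) (rep : Fin s → Fin n) (x : Fin n → ℂ) (k : Fin n) :
    ∑ j, Xf z E col pat k j * x (phi E col pat rep j) =
      match col k with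
      | some c => x (rep c)
      | none => if (k ∈ SSet E pat ∨ k ∈ E) then x k else
          z⁻¹ * ∑ c : Fin s, ((univ.filter (fun k' : Fin d => pat (k, k') = some c)).card : ℂ) *
            x (rep c) := by
  classical
  rw [Fintype.sum_sum_type]
  cases hk : col k with
  | some c =>
    simp only [Xf, phi, hk, Option.some.injEq]
    have h1 : ∀ m : {k : Fin n // col k = none ∧ (k ∈ SSet E pat ∨ k ∈ E)}, m.1 ≠ k := by
      intro m hm
      have := m.2.1
      rw [hm, hk] at this
      exact absurd this (by simp)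
    simp [h1]
  | none =>
    by_cases h : k ∈ SSet E pat ∨ k ∈ E
    · simp only [Xf, phi, hk, h, not_true, and_false, if_false, if_true, reduceCtorEq, zero_mul,
        sum_const_zero, zero_add]
      rw [Fintype.sum_eq_single (⟨k, hk, h⟩ : {k : Fin n // col k = none ∧ (k ∈ SSet E pat ∨ k ∈ E)})]
      · simp
      · intro m hm
        have : m.1 ≠ k := fun h' => hm (Subtype.ext h')
        simp [this]
    · simp only [Xf, phi, hk, h, not_false_eq_true, and_true, if_false, if_true, reduceCtorEq]
      have h1 : ∀ m : {k : Fin n // col k = none ∧ (k ∈ SSet E pat ∨ k ∈ E)}, m.1 ≠ k := by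
        intro m hm
        exact h (hm ▸ m.2.2)
      simp only [h1, if_false, zero_mul, sum_const_zero, add_zero]
      rw [mul_sum]
      apply sum_congr rfl
      intro c _
      ring

lemma c2p_sum_some {n d s : ℕ} (pat : Fin n × Fin d → Option (Fin s)) (k : Fin n)
    (h : ∀ k', pat (k, k') ≠ none) (y : Fin s → ℂ) (g : Fin d → ℂ)
    (hg : ∀ k' c, pat (k, k') = some c → g k' = y c) :
    ∑ c : Fin s, ((univ.filter (fun k' : Fin d => pat (k, k') = some c)).card : ℂ) * y c =
      ∑ k', g k' := by
  classical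
  have h1 : ∀ k', g k' = ∑ c : Fin s, if pat (k, k') = some c then y c else 0 := by
    intro k'
    cases hp : pat (k, k') with
    | none => exact absurd hp (h k')
    | some c0 =>
      simp only [Option.some.injEq]
      rw [sum_ite_eq]
      simp [hg k' c0 hp]
  simp_rw [h1]
  rw [sum_comm]
  apply sum_congr rfl
  intro c _
  rw [← sum_filter, sum_const, nsmul_eq_mul]

/-- approximation of `x k` by the unknowns -/
lemma c2p_approx {n d s : ℕ} (z : ℂ) (hz0 : z ≠ 0) (E : Finset (Fin n))
    (col : Fin n → Option (Fin s))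
    (pat : Fin n × Fin d → Option (Fin s)) (rep : Fin s → Fin n)
    (hrep : ∀ c, col (rep c) = some c) (x : Fin n → ℂ) (σ : Cfg n d) (hσ : σ ∈ Pat col pat)
    (rm : ℝ) (hrm : 0 ≤ rm) (hsol : Sol z (mult σ) E rm x)
    (hdiam : ∀ k l : Fin n, ∀ c : Fin s, col k = some c → col l = some c → ‖x k - x l‖ ≤ rm)
    (k : Fin n) :
    ‖∑ j, Xf z E col pat k j * x (phi E col pat rep j) - x k‖ ≤ (1 + (1 + d) * ‖z⁻¹‖) * rm := by
  classical
  rw [Xf_dot]
  have hbig : rm ≤ (1 + (1 + d) * ‖z⁻¹‖) * rm := by
    have : 0 ≤ (1 + (d : ℝ)) * ‖z⁻¹‖ * rm := by positivity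
    linarith
  have hpat : ∀ st, col (σ st).1 = pat st := (mem_filter.1 hσ).2
  cases hk : col k with
  | some c =>
    exact (hdiam (rep c) k c (hrep c) hk).trans hbig
  | none =>
    simp only
    by_cases h : k ∈ SSet E pat ∨ k ∈ E
    · rw [if_pos h, sub_self, norm_zero]
      exact hrm.trans hbig
    · rw [if_neg h]
      rw [not_or] at h
      obtain ⟨h1, h2⟩ := h
      have h3 : ∀ k', pat (k, k') ≠ none := by
        intro k' h4
        exact h1 (mem_filter.2 ⟨mem_univ _, h2, k', h4⟩)
      -- heads
      have h5 := hsol.2 k h2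
      rw [L_mult] at h5
      choose g hg using fun k' => Option.ne_none_iff_exists'.1 (h3 k')
      have h6 : ∑ c : Fin s, ((univ.filter (fun k' : Fin d => pat (k, k') = some c)).card : ℂ) *
            x (rep c) = ∑ k', x (rep (g k')) := by
        apply c2p_sum_some pat k h3
        intro k' c hc
        rw [hg k'] at hc
        simp only [Option.some.injEq] at hc
        rw [hc]
      rw [h6]
      have h7 : ‖∑ k', x (rep (g k')) - ∑ k', x (hd σ k k')‖ ≤ d * rm := by
        rw [← sum_sub_distrib]
        calc _ ≤ ∑ k' : Fin d, ‖x (rep (g k')) - x (hd σ k k')‖ := norm_sum_le _ _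
          _ ≤ ∑ _k' : Fin d, rm := by
              apply sum_le_sum
              intro k' _
              apply hdiam _ _ (g k') (hrep _)
              rw [← hg k', ← hpat]; rfl
          _ = d * rm := by simp
      have h8 : z⁻¹ * ∑ k', x (rep (g k')) - x k =
          z⁻¹ * ((∑ k', x (rep (g k')) - ∑ k', x (hd σ k k')) + (∑ k', x (hd σ k k') - z * x k)) := by
        field_simp
        ring
      rw [h8, norm_mul]
      calc ‖z⁻¹‖ * ‖(∑ k', x (rep (g k')) - ∑ k', x (hd σ k k')) + (∑ k', x (hd σ k k') - z * x k)‖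
          ≤ ‖z⁻¹‖ * (d * rm + rm) := by
            gcongr
            exact (norm_add_le _ _).trans (add_le_add h7 h5)
        _ ≤ (1 + (1 + d) * ‖z⁻¹‖) * rm := by nlinarith [norm_nonneg z⁻¹]

end Pool.Agent.SMin
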