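import Pool.Agent.SMin.Base

set_option autoImplicit false
open Finset Filter

namespace Pool.Agent.SMin

/-! ## Module E (Expand.lean) -/

section perm
variable {α : Type*} [Fintype α] [DecidableEq α]

/-- number of permutations `σ` with `σ⁻¹ B ⊆ A` -/
def eCnt (A B : Finset α) : ℕ :=
  (univ.filter (fun σ : Equiv.Perm α => ∀ a, σ a ∈ B → a ∈ A)).card

lemma eCnt_congr (A B B' : Finset α) (h : B.card = B'.card) : eCnt A B = eCnt A B' := by
  have e : {x // x ∈ B} ≃ {x // x ∈ B'} := Finset.equivOfCardEq h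
  set π : Equiv.Perm α := e.extendSubtype with hπ
  have hmem : ∀ x, π x ∈ B' ↔ x ∈ B := by
    intro x
    constructor
    · intro hx
      by_contra hx'
      exact e.extendSubtype_not_mem x hx' hx
    · intro hx
      exact e.extendSubtype_mem x hx
  unfold eCnt
  refine card_bij' (fun σ _ => σ.trans π) (fun σ _ => σ.trans π.symm) ?_ ?_ ?_ ?_
  · intro σ hσ
    simp only [mem_filter, mem_univ, true_and, Equiv.trans_apply, hmem] at hσ ⊢
    exact hσ
  · intro σ hσ
    simp only [mem_filter, mem_univ, true_and, Equiv.trans_apply] at hσ ⊢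
    intro a ha
    apply hσ
    rw [← hmem, Equiv.apply_symm_apply] at ha
    exact ha
  · intro σ _
    ext a
    simp
  · intro σ _
    ext a
    simp

lemma eCnt_mul (A B : Finset α) :
    eCnt A B * (Fintype.card α).choose B.card = (Fintype.card α).factorial * A.card.choose B.card := by
  have h1 : ∑ B' ∈ powersetCard B.card (univ : Finset α), eCnt A B'
      = (Fintype.card α).choose B.card * eCnt A B := by
    rw [sum_congr rfl (fun B' hB' => eCnt_congr A B' B (mem_powersetCard.1 hB').2), sum_const,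
      card_powersetCard, card_univ, smul_eq_mul]
  have h2 : ∑ B' ∈ powersetCard B.card (univ : Finset α), eCnt A B'
      = ∑ σ : Equiv.Perm α, A.card.choose B.card := by
    unfold eCnt
    simp_rw [card_filter]
    rw [sum_comm]
    apply sum_congr rfl
    intro σ _
    rw [← card_filter]
    have : (powersetCard B.card (univ : Finset α)).filter (fun B' => ∀ a, σ a ∈ B' → a ∈ A)
        = powersetCard B.card (A.map σ.toEmbedding) := by
      ext B'
      simp only [mem_filter, mem_powersetCard, subset_univ, true_and]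
      rw [and_comm]
      apply and_congr_left
      intro _
      constructor
      · intro h b hb
        rw [mem_map_equiv]
        apply h
        rw [Equiv.apply_symm_apply]
        exact hb
      · intro h a ha
        have := h ha
        rw [mem_map_equiv, Equiv.symm_apply_apply] at this
        exact this
    rw [this, card_powersetCard, card_map]
  rw [mul_comm, ← h1, h2, sum_const, card_univ, Fintype.card_perm, smul_eq_mul]

lemma e_fr (A B : Finset α) :
    fr (univ : Finset (Equiv.Perm α)) (fun σ => ∀ a, σ a ∈ B → a ∈ A)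
      = (A.card.choose B.card : ℝ) / ((Fintype.card α).choose B.card : ℝ) := by
  rw [fr_def]
  have h1 : (univ.filter (fun σ : Equiv.Perm α => ∀ a, σ a ∈ B → a ∈ A)).card = eCnt A B := rfl
  rw [h1, card_univ, Fintype.card_perm]
  have h2 := eCnt_mul A B
  have h3 : (0 : ℝ) < (Fintype.card α).choose B.card := by
    have : 0 < (Fintype.card α).choose B.card := Nat.choose_pos (card_le_univ B)
    exact_mod_cast this
  have h4 : (0 : ℝ) < (Fintype.card α).factorial := by
    exact_mod_cast Nat.factorial_pos _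
  rw [div_eq_div_iff h4.ne' h3.ne']
  have h5 : (eCnt A B : ℝ) * ((Fintype.card α).choose B.card : ℝ)
      = ((Fintype.card α).factorial : ℝ) * (A.card.choose B.card : ℝ) := by
    exact_mod_cast h2
  rw [h5]
  ring

end perm

/-! ### binomial estimates -/

lemma e_vander (n m : ℕ) : ∀ d : ℕ, (n.choose m) ^ d ≤ (d * n).choose (d * m)
  | 0 => by simp
  | d + 1 => by
    have h := e_vander n m d
    have h1 : (d * n + n).choose (d * m + m)
        = ∑ ij ∈ antidiagonal (d * m + m), (d * n).choose ij.1 * n.choose ij.2 :=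
      Nat.add_choose_eq _ _ _
    have h2 : (d * n).choose (d * m) * n.choose m
        ≤ ∑ ij ∈ antidiagonal (d * m + m), (d * n).choose ij.1 * n.choose ij.2 := by
      have : (d * m, m) ∈ antidiagonal (d * m + m) := by simp
      exact single_le_sum (f := fun ij : ℕ × ℕ => (d * n).choose ij.1 * n.choose ij.2)
        (fun _ _ => Nat.zero_le _) this
    calc (n.choose m) ^ (d + 1) = (n.choose m) ^ d * n.choose m := pow_succ _ _
      _ ≤ (d * n).choose (d * m) * n.choose m := Nat.mul_le_mul_right _ h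
      _ ≤ (d * n + n).choose (d * m + m) := by rw [h1]; exact h2
      _ = ((d + 1) * n).choose ((d + 1) * m) := by congr 1 <;> ring

/-- `C(N,K) ≤ x^{-K} e^{xN}` -/
lemma e_choose_exp (N K : ℕ) (x : ℝ) (hx : 0 < x) :
    (N.choose K : ℝ) * x ^ K ≤ Real.exp (x * N) := by
  rcases Nat.lt_or_ge N K with h | h
  · rw [Nat.choose_eq_zero_of_lt h]
    simp only [Nat.cast_zero, zero_mul]
    positivity
  have h1 : (x + 1) ^ N = ∑ k ∈ range (N + 1), x ^ k * 1 ^ (N - k) * (N.choose k : ℝ) :=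
    add_pow _ _ _
  have h2 : x ^ K * 1 ^ (N - K) * (N.choose K : ℝ)
      ≤ ∑ k ∈ range (N + 1), x ^ k * 1 ^ (N - k) * (N.choose k : ℝ) :=
    single_le_sum (f := fun k => x ^ k * 1 ^ (N - k) * (N.choose k : ℝ))
      (fun _ _ => by positivity) (mem_range.2 (by omega))
  calc (N.choose K : ℝ) * x ^ K = x ^ K * 1 ^ (N - K) * (N.choose K : ℝ) := by rw [one_pow]; ring
    _ ≤ (x + 1) ^ N := by rw [h1]; exact h2
    _ ≤ (Real.exp x) ^ N := by gcongr; exact Real.add_one_le_exp x
    _ = Real.exp (x * N) := by rw [← Real.exp_nat_mul]; ring_nf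

/-- `C(n,m+a) ≤ C(n,m) β^{-a}` -/
lemma e_ratio (n m : ℕ) (β : ℝ) (hβ : 0 < β) (hm : β * n ≤ m) :
    ∀ a : ℕ, (n.choose (m + a) : ℝ) * β ^ a ≤ n.choose m
  | 0 => by simp
  | a + 1 => by
    have h := e_ratio n m β hβ hm a
    have h1 : (n.choose (m + a + 1) : ℝ) * ((m + a + 1 : ℕ) : ℝ)
        = (n.choose (m + a) : ℝ) * ((n - (m + a) : ℕ) : ℝ) := by
      have := Nat.choose_succ_right_eq n (m + a)
      exact_mod_cast this
    have h2 : ((n - (m + a) : ℕ) : ℝ) ≤ n := by
      exact_mod_cast Nat.sub_le _ _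
    have h3 : (n : ℝ) * β ≤ ((m + a + 1 : ℕ) : ℝ) := by
      push_cast
      have : (0 : ℝ) ≤ a := Nat.cast_nonneg a
      linarith
    have h4 : (0 : ℝ) < ((m + a + 1 : ℕ) : ℝ) := by positivity
    have h5 : (n.choose (m + a + 1) : ℝ) * β ≤ n.choose (m + a) := by
      have h6 : (n.choose (m + a + 1) : ℝ) * β * ((m + a + 1 : ℕ) : ℝ)
          ≤ (n.choose (m + a) : ℝ) * ((m + a + 1 : ℕ) : ℝ) := by
        calc (n.choose (m + a + 1) : ℝ) * β * ((m + a + 1 : ℕ) : ℝ)
            = (n.choose (m + a + 1) : ℝ) * ((m + a + 1 : ℕ) : ℝ) * β := by ring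
          _ = (n.choose (m + a) : ℝ) * ((n - (m + a) : ℕ) : ℝ) * β := by rw [h1]
          _ ≤ (n.choose (m + a) : ℝ) * (n : ℝ) * β := by gcongr
          _ = (n.choose (m + a) : ℝ) * ((n : ℝ) * β) := by ring
          _ ≤ _ := by gcongr
      exact le_of_mul_le_mul_right h6 h4
    calc (n.choose (m + (a + 1)) : ℝ) * β ^ (a + 1)
        = ((n.choose (m + a + 1) : ℝ) * β) * β ^ a := by
          rw [← add_assoc, pow_succ]; ring
      _ ≤ (n.choose (m + a) : ℝ) * β ^ a := by gcongr
      _ ≤ _ := h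

/-- `(n/m)^m ≤ C(n,m)` -/
lemma e_lower : ∀ m n : ℕ, m ≤ n → (n : ℝ) ^ m ≤ (m : ℝ) ^ m * n.choose m
  | 0, n, _ => by simp
  | m + 1, 0, h => by omega
  | m + 1, n + 1, h => by
    have hmn : m ≤ n := by omega
    have ih := e_lower m n hmn
    have h1 : ((n + 1 : ℕ) : ℝ) * (n.choose m : ℝ)
        = ((n + 1).choose (m + 1) : ℝ) * ((m + 1 : ℕ) : ℝ) := by
      exact_mod_cast Nat.add_one_mul_choose_eq n m
    -- (n+1)^m m^m <= (m+1)^m n^m
    have h2 : ((n + 1 : ℕ) : ℝ) ^ m * (m : ℝ) ^ m ≤ ((m + 1 : ℕ) : ℝ) ^ m * (n : ℝ) ^ m := by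
      rw [← mul_pow, ← mul_pow]
      apply pow_le_pow_left₀ (by positivity)
      push_cast
      have : (m : ℝ) ≤ n := by exact_mod_cast hmn
      nlinarith
    rcases Nat.eq_zero_or_pos m with rfl | hm
    · simp
    have hmp : (0 : ℝ) < (m : ℝ) ^ m := by positivity
    have h3 : ((n + 1 : ℕ) : ℝ) ^ m ≤ ((m + 1 : ℕ) : ℝ) ^ m * n.choose m := by
      have h4 : ((n + 1 : ℕ) : ℝ) ^ m * (m : ℝ) ^ m
          ≤ (((m + 1 : ℕ) : ℝ) ^ m * n.choose m) * (m : ℝ) ^ m := by
        calc ((n + 1 : ℕ) : ℝ) ^ m * (m : ℝ) ^ m ≤ ((m + 1 : ℕ) : ℝ) ^ m * (n : ℝ) ^ m := h2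
          _ ≤ ((m + 1 : ℕ) : ℝ) ^ m * ((m : ℝ) ^ m * n.choose m) := by gcongr
          _ = _ := by ring
      exact le_of_mul_le_mul_right h4 hmp
    calc ((n + 1 : ℕ) : ℝ) ^ (m + 1) = ((n + 1 : ℕ) : ℝ) ^ m * ((n + 1 : ℕ) : ℝ) := pow_succ _ _
      _ ≤ (((m + 1 : ℕ) : ℝ) ^ m * n.choose m) * ((n + 1 : ℕ) : ℝ) := by gcongr
      _ = ((m + 1 : ℕ) : ℝ) ^ m * (((n + 1 : ℕ) : ℝ) * (n.choose m : ℝ)) := by ring
      _ = ((m + 1 : ℕ) : ℝ) ^ (m + 1) * ((n + 1).choose (m + 1) : ℝ) := by
        rw [h1, pow_succ]; ring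

/-- the main numerical estimate for one pair of sizes -/
lemma e_term (d n m a : ℕ) (hd3 : 3 ≤ d) (β c1 : ℝ) (hβ : 0 < β) (hβ1 : β < 1) (hc1 : 0 < c1)
    (hc1' : c1 < 1)
    (hm : β * n ≤ m) (hm2 : (m : ℝ) ≤ (1 - β) * n) (ha : (a : ℝ) ≤ c1 * n) (hman : m + a ≤ n)
    (hn : 0 < n) :
    (n.choose m : ℝ) * (n.choose (m + a) : ℝ) *
      (((d * (m + a)).choose (d * m) : ℝ) / ((d * n).choose (d * m) : ℝ)) ≤
    Real.exp (c1 * Real.log (1 / β) * n + d * c1 * (1 + Real.log (1 / c1)) * n
      - β * Real.log (1 / (1 - β)) * n) := by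
  have hmn : m ≤ n := by omega
  have hC : (0 : ℝ) < n.choose m := by exact_mod_cast Nat.choose_pos hmn
  have hC1 : (1 : ℝ) ≤ n.choose m := by
    have : 1 ≤ n.choose m := Nat.choose_pos hmn
    exact_mod_cast this
  have hnr : (0 : ℝ) < n := by exact_mod_cast hn
  -- (i) C(n,m+a)
  have h1 : (n.choose (m + a) : ℝ) ≤ n.choose m * Real.exp (c1 * Real.log (1 / β) * n) := by
    have h := e_ratio n m β hβ hm a
    have h2 : (1 : ℝ) ≤ β ^ a * Real.exp (c1 * Real.log (1 / β) * n) := by
      have h3 : β ^ a = Real.exp (-(Real.log (1 / β) * a)) := by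
        rw [one_div, Real.log_inv, neg_mul, neg_neg, mul_comm, Real.exp_nat_mul, Real.exp_log hβ]
      rw [h3, ← Real.exp_add]
      apply Real.one_le_exp
      have h4 : 0 ≤ Real.log (1 / β) := Real.log_nonneg (by rw [le_div_iff₀ hβ]; linarith)
      nlinarith
    calc (n.choose (m + a) : ℝ) = (n.choose (m + a) : ℝ) * 1 := (mul_one _).symm
      _ ≤ (n.choose (m + a) : ℝ) * (β ^ a * Real.exp (c1 * Real.log (1 / β) * n)) := by gcongr
      _ = ((n.choose (m + a) : ℝ) * β ^ a) * Real.exp (c1 * Real.log (1 / β) * n) := by ring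
      _ ≤ _ := by gcongr
  -- (ii) C(d(m+a),dm)
  have h2 : ((d * (m + a)).choose (d * m) : ℝ) ≤
      Real.exp (d * c1 * (1 + Real.log (1 / c1)) * n) := by
    have h3 : (d * (m + a)).choose (d * m) = (d * (m + a)).choose (d * a) := by
      rw [← Nat.choose_symm_of_eq_add]
      ring
    rw [h3]
    have h4 := e_choose_exp (d * (m + a)) (d * a) c1 hc1
    have h5 : (1 : ℝ) ≤ c1 ^ (d * a) * Real.exp (d * c1 * Real.log (1 / c1) * n) := by
      have h6 : c1 ^ (d * a) = Real.exp (-(Real.log (1 / c1) * (d * a))) := by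
        have : Real.exp (((d * a : ℕ) : ℝ) * Real.log c1) = c1 ^ (d * a) := by
          rw [Real.exp_nat_mul, Real.exp_log hc1]
        rw [← this]
        congr 1
        rw [one_div, Real.log_inv]
        push_cast
        ring
      rw [h6, ← Real.exp_add]
      apply Real.one_le_exp
      have h7 : 0 ≤ Real.log (1 / c1) := Real.log_nonneg (by rw [le_div_iff₀ hc1]; linarith)
      have h8 : (0 : ℝ) ≤ d := Nat.cast_nonneg d
      have h9 : 0 ≤ (d : ℝ) * Real.log (1 / c1) := mul_nonneg h8 h7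
      nlinarith [mul_nonneg h9 (sub_nonneg.2 ha)]
    have h10 : Real.exp (c1 * ((d * (m + a) : ℕ) : ℝ)) ≤ Real.exp (d * c1 * n) := by
      apply Real.exp_le_exp.2
      push_cast
      have : ((m : ℝ) + a) ≤ n := by exact_mod_cast hman
      have h8 : (0 : ℝ) ≤ d * c1 := by positivity
      nlinarith [mul_nonneg h8 (sub_nonneg.2 this)]
    calc ((d * (m + a)).choose (d * a) : ℝ)
        = ((d * (m + a)).choose (d * a) : ℝ) * 1 := (mul_one _).symm
      _ ≤ ((d * (m + a)).choose (d * a) : ℝ) *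
          (c1 ^ (d * a) * Real.exp (d * c1 * Real.log (1 / c1) * n)) := by gcongr
      _ = (((d * (m + a)).choose (d * a) : ℝ) * c1 ^ (d * a)) *
          Real.exp (d * c1 * Real.log (1 / c1) * n) := by ring
      _ ≤ Real.exp (c1 * ((d * (m + a) : ℕ) : ℝ)) * Real.exp (d * c1 * Real.log (1 / c1) * n) := by
          gcongr
      _ ≤ Real.exp (d * c1 * n) * Real.exp (d * c1 * Real.log (1 / c1) * n) := by gcongr
      _ = _ := by rw [← Real.exp_add]; congr 1; ring
  -- (iii) denominators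
  have h3 : (n.choose m : ℝ) ^ 3 ≤ ((d * n).choose (d * m) : ℝ) := by
    have h4 : (n.choose m : ℝ) ^ d ≤ ((d * n).choose (d * m) : ℝ) := by
      exact_mod_cast e_vander n m d
    exact (pow_le_pow_right₀ hC1 hd3).trans h4
  -- (iv) lower bound
  have h4 : Real.exp (β * Real.log (1 / (1 - β)) * n) ≤ n.choose m := by
    have h5 := e_lower m n hmn
    have hm0 : 0 < m := by
      rcases Nat.eq_zero_or_pos m with h | h
      · exfalso
        rw [h] at hm
        have : 0 < β * n := by positivity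
        simp only [Nat.cast_zero] at hm
        linarith
      · exact h
    have hmr : (0 : ℝ) < m := by exact_mod_cast hm0
    have h1β : 0 < 1 - β := by linarith
    have h6 : ((1 / (1 - β)) : ℝ) ^ m ≤ n.choose m := by
      have h7 : (1 / (1 - β) : ℝ) ^ m * (m : ℝ) ^ m ≤ n.choose m * (m : ℝ) ^ m := by
        calc (1 / (1 - β) : ℝ) ^ m * (m : ℝ) ^ m = (1 / (1 - β) * m) ^ m := by rw [mul_pow]
          _ ≤ (n : ℝ) ^ m := by
            gcongr
            rw [one_div, inv_mul_le_iff₀ h1β]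
            exact hm2
          _ ≤ (m : ℝ) ^ m * n.choose m := h5
          _ = _ := by ring
      exact le_of_mul_le_mul_right h7 (by positivity)
    refine le_trans ?_ h6
    have h8 : ((1 / (1 - β)) : ℝ) ^ m = Real.exp (m * Real.log (1 / (1 - β))) := by
      rw [Real.exp_nat_mul, Real.exp_log (by positivity)]
    rw [h8]
    apply Real.exp_le_exp.2
    have h9 : 0 ≤ Real.log (1 / (1 - β)) := Real.log_nonneg (by rw [le_div_iff₀ h1β]; linarith)
    nlinarith [mul_nonneg h9 (sub_nonneg.2 hm)]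
  have hD : (0 : ℝ) < ((d * n).choose (d * m) : ℝ) := lt_of_lt_of_le (by positivity) h3
  rw [mul_div_assoc', div_le_iff₀ hD]
  set E1 := Real.exp (c1 * Real.log (1 / β) * n)
  set E2 := Real.exp (d * c1 * (1 + Real.log (1 / c1)) * n)
  set E3 := Real.exp (β * Real.log (1 / (1 - β)) * n) with hE3
  have hE : Real.exp (c1 * Real.log (1 / β) * n + d * c1 * (1 + Real.log (1 / c1)) * n
      - β * Real.log (1 / (1 - β)) * n) = E1 * E2 / E3 := by
    rw [Real.exp_sub, Real.exp_add]
  rw [hE]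
  have hE1 : 0 < E1 := Real.exp_pos _
  have hE2 : 0 < E2 := Real.exp_pos _
  have hE3' : 0 < E3 := Real.exp_pos _
  rw [div_mul_eq_mul_div, le_div_iff₀ hE3']
  calc (n.choose m : ℝ) * (n.choose (m + a) : ℝ) * ((d * (m + a)).choose (d * m) : ℝ) * E3
      ≤ (n.choose m : ℝ) * (n.choose m * E1) * E2 * n.choose m := by gcongr
    _ = E1 * E2 * (n.choose m : ℝ) ^ 3 := by ring
    _ ≤ _ := by gcongr

/-- choice of `c1` -/
lemma e_const (d : ℕ) (β : ℝ) (hβ : 0 < β) (hβ1 : β < 1) :
    ∃ c1 : ℝ, 0 < c1 ∧ c1 < β ∧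
      c1 * Real.log (1 / β) + d * c1 * (1 + Real.log (1 / c1))
        < β * Real.log (1 / (1 - β)) / 2 := by
  have hκ : 0 < β * Real.log (1 / (1 - β)) / 2 := by
    have : 0 < Real.log (1 / (1 - β)) := by
      apply Real.log_pos
      rw [lt_div_iff₀ (by linarith)]
      linarith
    positivity
  set F : ℝ → ℝ := fun c => c * Real.log (1 / β) + d * c + d * Real.negMulLog c with hF
  have hcont : Continuous F := by
    have := Real.continuous_negMulLog
    fun_prop
  have h0 : F 0 = 0 := by simp [hF]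
  have h1 : ∀ᶠ c in nhds (0 : ℝ), F c < β * Real.log (1 / (1 - β)) / 2 := by
    have := hcont.tendsto 0
    rw [h0] at this
    exact this.eventually (eventually_lt_nhds hκ)
  have h2 : ∀ᶠ c in nhdsWithin (0 : ℝ) (Set.Ioi 0), F c < β * Real.log (1 / (1 - β)) / 2 :=
    h1.filter_mono nhdsWithin_le_nhds
  have h3 : ∀ᶠ c in nhdsWithin (0 : ℝ) (Set.Ioi 0), c < β :=
    (eventually_lt_nhds hβ).filter_mono nhdsWithin_le_nhds
  have h4 : ∀ᶠ c in nhdsWithin (0 : ℝ) (Set.Ioi 0), 0 < c := eventually_mem_nhdsWithin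
  obtain ⟨c, hc1, hc2, hc3⟩ := (h2.and (h3.and h4)).exists
  refine ⟨c, hc3, hc2, ?_⟩
  have h5 : c * Real.log (1 / β) + d * c * (1 + Real.log (1 / c)) = F c := by
    simp only [hF, Real.negMulLog, one_div, Real.log_inv]
    ring
  rw [h5]
  exact hc1

open Classical in
theorem expansion (d : ℕ) (hd3 : 3 ≤ d) (β : ℝ) (hβ : 0 < β) (hβ2 : β < 1 / 2) :
    ∃ c1 : ℝ, 0 < c1 ∧ ∃ c : ℝ, 0 < c ∧ ∀ᶠ n : ℕ in atTop,
      fr (univ : Finset (Cfg n d)) (fun σ => ∃ V : Finset (Fin n),
        β * n ≤ (V.card : ℝ) ∧ (V.card : ℝ) ≤ (1 - β) * n ∧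
        ((univ.filter (fun i => Touch σ V i)).card : ℝ) ≤ V.card + c1 * n) ≤
          Real.exp (-(c * n)) := by
  obtain ⟨c1, hc1, hc1β, hc⟩ := e_const d β hβ (by linarith)
  have hκ : 0 < β * Real.log (1 / (1 - β)) := by
    have : 0 < Real.log (1 / (1 - β)) := by
      apply Real.log_pos
      rw [lt_div_iff₀ (by linarith)]
      linarith
    positivity
  set κ := β * Real.log (1 / (1 - β)) with hκd
  refine ⟨c1, hc1, κ / 4, by positivity, ?_⟩
  -- polynomial factor
  have hpoly : ∀ᶠ n : ℕ in atTop, ((n : ℝ) + 1) ≤ Real.exp (κ / 4 * n) := by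
    have h1 : Tendsto (fun x : ℝ => x ^ 2) atTop atTop := tendsto_pow_atTop (by norm_num)
    have h2 : ∀ᶠ x : ℝ in atTop, x + 1 ≤ Real.exp (κ / 4 * x) := by
      have h3 : ∀ᶠ x : ℝ in atTop, 2 / (κ / 4) ^ 2 * 2 ≤ x := eventually_ge_atTop _
      filter_upwards [h3, eventually_ge_atTop (0 : ℝ)] with x hx hx0
      have hy : 0 ≤ κ / 4 * x := by positivity
      have h4 := Real.quadratic_le_exp_of_nonneg hy
      have h5 : x ≤ (κ / 4 * x) ^ 2 / 2 := by
        have h6 : 2 / (κ / 4) ^ 2 ≤ x := by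
          refine le_trans ?_ hx
          have : 0 ≤ 2 / (κ / 4) ^ 2 := by positivity
          linarith
        rw [div_le_iff₀ (by positivity)] at h6
        nlinarith
      linarith
    exact tendsto_natCast_atTop_atTop.eventually h2
  filter_upwards [hpoly, eventually_gt_atTop 0] with n hpn hn
  set a : ℕ := ⌊c1 * n⌋₊ with ha
  have hac : (a : ℝ) ≤ c1 * n := Nat.floor_le (by positivity)
  -- union bound
  set M : Finset ℕ := (range (n + 1)).filter
    (fun m : ℕ => β * n ≤ (m : ℝ) ∧ (m : ℝ) ≤ (1 - β) * n) with hM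
  have hma : ∀ m ∈ M, m + a ≤ n := by
    intro m hm
    rw [hM, mem_filter] at hm
    have h1 : ((m + a : ℕ) : ℝ) ≤ n := by
      push_cast
      nlinarith [hm.2.2]
    exact_mod_cast h1
  have hsub : fr (univ : Finset (Cfg n d)) (fun σ => ∃ V : Finset (Fin n),
        β * n ≤ (V.card : ℝ) ∧ (V.card : ℝ) ≤ (1 - β) * n ∧
        ((univ.filter (fun i => Touch σ V i)).card : ℝ) ≤ V.card + c1 * n) ≤
      fr (univ : Finset (Cfg n d)) (fun σ => ∃ m ∈ M, ∃ V ∈ powersetCard m (univ : Finset (Fin n)),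
        ∃ R ∈ powersetCard (m + a) (univ : Finset (Fin n)),
        ∀ p : Fin n × Fin d, σ p ∈ V ×ˢ (univ : Finset (Fin d)) → p ∈ R ×ˢ (univ : Finset (Fin d))) := by
    apply fr_mono
    rintro σ - ⟨V, hV1, hV2, hV3⟩
    have hVn : V.card ≤ n := by simpa using card_le_univ V
    have hmM : V.card ∈ M := by
      rw [hM, mem_filter, mem_range]
      exact ⟨by omega, hV1, hV2⟩
    refine ⟨V.card, hmM, V, by simp [mem_powersetCard], ?_⟩
    set Tt : Finset (Fin n) := univ.filter (fun i => Touch σ V i) with hTt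
    have hTc : Tt.card ≤ V.card + a := by
      have h1 : ((Tt.card - V.card : ℕ) : ℝ) ≤ c1 * n := by
        rcases le_total Tt.card V.card with h | h
        · rw [Nat.sub_eq_zero_of_le h]
          simp only [Nat.cast_zero]
          positivity
        · rw [Nat.cast_sub h]
          linarith
      have h2 : Tt.card - V.card ≤ a := Nat.le_floor h1
      omega
    obtain ⟨R, hR1, hR2⟩ := exists_superset_card_eq hTc
      (by simpa using hma _ hmM)
    refine ⟨R, by simp [mem_powersetCard, hR2], ?_⟩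
    intro p hp
    rw [mem_product] at hp ⊢
    refine ⟨hR1 ?_, mem_univ _⟩
    rw [hTt, mem_filter]
    refine ⟨mem_univ _, p.2, ?_⟩
    unfold hd
    exact hp.1
  refine hsub.trans ?_
  refine (fr_exists_le _ M _).trans ?_
  have hterm : ∀ m ∈ M, fr (univ : Finset (Cfg n d)) (fun σ =>
        ∃ V ∈ powersetCard m (univ : Finset (Fin n)),
        ∃ R ∈ powersetCard (m + a) (univ : Finset (Fin n)),
        ∀ p : Fin n × Fin d, σ p ∈ V ×ˢ (univ : Finset (Fin d)) → p ∈ R ×ˢ (univ : Finset (Fin d)))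
      ≤ Real.exp (-(κ / 2 * n)) := by
    intro m hm
    have hm' := hm
    rw [hM, mem_filter, mem_range] at hm'
    have h1 : ∀ V ∈ powersetCard m (univ : Finset (Fin n)),
        fr (univ : Finset (Cfg n d)) (fun σ =>
        ∃ R ∈ powersetCard (m + a) (univ : Finset (Fin n)),
        ∀ p : Fin n × Fin d, σ p ∈ V ×ˢ (univ : Finset (Fin d)) → p ∈ R ×ˢ (univ : Finset (Fin d)))
        ≤ (n.choose (m + a) : ℝ) *
          (((d * (m + a)).choose (d * m) : ℝ) / ((d * n).choose (d * m) : ℝ)) := by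
      intro V hV
      have h2 := fr_exists_le_card (univ : Finset (Cfg n d))
        (powersetCard (m + a) (univ : Finset (Fin n)))
        (fun R σ => ∀ p : Fin n × Fin d, σ p ∈ V ×ˢ (univ : Finset (Fin d)) →
          p ∈ R ×ˢ (univ : Finset (Fin d)))
        (((d * (m + a)).choose (d * m) : ℝ) / ((d * n).choose (d * m) : ℝ)) (by
          intro R hR
          rw [e_fr, card_product, card_product, (mem_powersetCard.1 hR).2,
            (mem_powersetCard.1 hV).2, card_univ, Fintype.card_fin, Fintype.card_prod,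
            Fintype.card_fin, Fintype.card_fin, mul_comm (m + a) d, mul_comm m d, mul_comm n d])
      rw [card_powersetCard, card_univ, Fintype.card_fin] at h2
      exact h2
    have h3 := fr_exists_le_card (univ : Finset (Cfg n d))
        (powersetCard m (univ : Finset (Fin n))) _ _ h1
    rw [card_powersetCard, card_univ, Fintype.card_fin, ← mul_assoc] at h3
    refine h3.trans ((e_term d n m a hd3 β c1 hβ (by linarith) hc1 (by linarith) hm'.2.1 hm'.2.2 hac
      (hma m hm) hn).trans ?_)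
    apply Real.exp_le_exp.2
    have hnr : (0 : ℝ) < n := by exact_mod_cast hn
    have h4 := mul_lt_mul_of_pos_right hc hnr
    rw [← hκd] at *
    nlinarith
  calc ∑ m ∈ M, _ ≤ ∑ _m ∈ M, Real.exp (-(κ / 2 * n)) := sum_le_sum hterm
    _ = (M.card : ℝ) * Real.exp (-(κ / 2 * n)) := by rw [sum_const, nsmul_eq_mul]
    _ ≤ ((n : ℝ) + 1) * Real.exp (-(κ / 2 * n)) := by
      gcongr
      have : M.card ≤ n + 1 := by
        rw [hM]
        exact (card_filter_le _ _).trans (by simp)
      exact_mod_cast this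
    _ ≤ Real.exp (κ / 4 * n) * Real.exp (-(κ / 2 * n)) := by gcongr
    _ = Real.exp (-(κ / 4 * n)) := by
      rw [← Real.exp_add]
      congr 1
      ring

end Pool.Agent.SMin
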