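import Pool.Agent.SMin.CFirst
import Pool.Agent.SMin.Expand

set_option autoImplicit false
open Finset Filter

namespace Pool.Agent.SMin

/-! ## Module COV (Cover.lean) : from C1 and E -/

/-- a disjoint family of large sets of small diameter -/
def cvF {n : ℕ} (x : Fin n → ℂ) (ρ r : ℝ) (𝒜 : Finset (Finset (Fin n))) : Prop :=
    (∀ P ∈ 𝒜, ρ * n ≤ (P.card : ℝ)) ∧
    (∀ P ∈ 𝒜, ∀ k ∈ P, ∀ l ∈ P, ‖x k - x l‖ ≤ r) ∧
    (∀ P ∈ 𝒜, ∀ Q ∈ 𝒜, P ≠ Q → Disjoint P Q)

lemma cv_card {n : ℕ} (hn : 0 < n) (x : Fin n → ℂ) (ρ r : ℝ) (hρ : 0 < ρ)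
    (𝒜 : Finset (Finset (Fin n))) (h : cvF x ρ r 𝒜) : 𝒜.card ≤ ⌊1 / ρ⌋₊ := by
  have hn' : (0 : ℝ) < n := by exact_mod_cast hn
  obtain ⟨h1, _, h3⟩ := h
  have hc : (𝒜.biUnion id).card = ∑ P ∈ 𝒜, P.card := by
    rw [card_biUnion]
    · rfl
    · intro P hP Q hQ hPQ
      exact h3 P hP Q hQ hPQ
  have h2 : ((𝒜.biUnion id).card : ℝ) ≤ n := by
    have := card_le_univ (𝒜.biUnion id)
    rw [Fintype.card_fin] at this
    exact_mod_cast this
  have h4 : (𝒜.card : ℝ) * (ρ * n) ≤ n := by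
    calc (𝒜.card : ℝ) * (ρ * n) = ∑ P ∈ 𝒜, (ρ * n) := by rw [sum_const, nsmul_eq_mul]
    _ ≤ ∑ P ∈ 𝒜, (P.card : ℝ) := sum_le_sum h1
    _ = ((𝒜.biUnion id).card : ℝ) := by rw [hc]; push_cast; rfl
    _ ≤ n := h2
  apply Nat.le_floor
  rw [le_div_iff₀ hρ]
  have : (𝒜.card : ℝ) * ρ * n ≤ 1 * n := by rw [mul_assoc]; linarith
  exact le_of_mul_le_mul_right this hn'

lemma cv_pigeon (N n : ℕ) (hN : 0 < N) (f : ℕ → ℕ) (hf : ∀ j, f j ≤ n) :
    ∃ j < N, (N : ℝ) * ((f (j + 1) : ℝ) - f j) ≤ n := by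
  by_contra hcon
  push Not at hcon
  have h1 : ∑ j ∈ range N, (n : ℝ) < ∑ j ∈ range N, (N : ℝ) * ((f (j + 1) : ℝ) - f j) := by
    apply sum_lt_sum_of_nonempty
    · exact ⟨0, mem_range.2 hN⟩
    · intro j hj
      exact hcon j (mem_range.1 hj)
  rw [← mul_sum, sum_range_sub (fun j => (f j : ℝ)), sum_const, card_range, nsmul_eq_mul] at h1
  have h2 : (f N : ℝ) ≤ n := by exact_mod_cast hf N
  have h3 : (0 : ℝ) ≤ f 0 := Nat.cast_nonneg _
  have hN' : (0 : ℝ) < N := by exact_mod_cast hN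
  nlinarith

open Classical in
lemma cv_det {n : ℕ} (hn : 0 < n) (x : Fin n → ℂ) (N : ℕ) (hN : 0 < N) (ρ r : ℕ → ℝ)
    (hρ : ∀ j, 0 < ρ j) (hρm : ∀ j, ρ (j + 1) ≤ ρ j) (hrm : ∀ j, r j ≤ r (j + 1)) :
    ∃ j < N, ∃ 𝒜 𝒜' : Finset (Finset (Fin n)), cvF x (ρ j) (r j) 𝒜 ∧
      (𝒜.biUnion id ⊆ 𝒜'.biUnion id) ∧
      ((N : ℝ) * (((𝒜'.biUnion id).card : ℝ) - ((𝒜.biUnion id).card : ℝ)) ≤ n) ∧
      (∀ Q : Finset (Fin n), Disjoint Q (𝒜'.biUnion id) →
        (∀ k ∈ Q, ∀ l ∈ Q, ‖x k - x l‖ ≤ r (j + 1)) → (Q.card : ℝ) < ρ (j + 1) * n) := by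
  have hn' : (0 : ℝ) < n := by exact_mod_cast hn
  -- maximal families
  have hmax : ∀ j, ∃ 𝒜 : Finset (Finset (Fin n)), cvF x (ρ j) (r j) 𝒜 ∧
      ∀ ℬ, cvF x (ρ j) (r j) ℬ → (ℬ.biUnion id).card ≤ (𝒜.biUnion id).card := by
    intro j
    obtain ⟨𝒜, h1, h2⟩ := exists_max_image
      (univ.filter (fun 𝒜 : Finset (Finset (Fin n)) => cvF x (ρ j) (r j) 𝒜))
      (fun 𝒜 => (𝒜.biUnion id).card)
      ⟨∅, by rw [mem_filter]; exact ⟨mem_univ _, by simp [cvF]⟩⟩
    exact ⟨𝒜, (mem_filter.1 h1).2, fun ℬ hℬ => h2 ℬ (mem_filter.2 ⟨mem_univ _, hℬ⟩)⟩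
  choose M hM1 hM2 using hmax
  obtain ⟨j, hj, hjN⟩ := cv_pigeon N n hN (fun j => ((M j).biUnion id).card) (fun j => by
    have := card_le_univ ((M j).biUnion id)
    rwa [Fintype.card_fin] at this)
  have hcv' : cvF x (ρ (j + 1)) (r (j + 1)) (M j) := by
    refine ⟨?_, ?_, (hM1 j).2.2⟩
    · intro P hP
      have h1 := (hM1 j).1 P hP
      have h2 := hρm j
      nlinarith
    · intro P hP k hk l hl
      exact ((hM1 j).2.1 P hP k hk l hl).trans (hrm j)
  obtain ⟨𝒜', h1, h2⟩ := exists_max_image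
    (univ.filter (fun 𝒜' : Finset (Finset (Fin n)) =>
      cvF x (ρ (j + 1)) (r (j + 1)) 𝒜' ∧ M j ⊆ 𝒜'))
    (fun 𝒜 => (𝒜.biUnion id).card)
    ⟨M j, by rw [mem_filter]; exact ⟨mem_univ _, hcv', Subset.refl _⟩⟩
  have h1' := (mem_filter.1 h1).2
  refine ⟨j, hj, M j, 𝒜', hM1 j, biUnion_subset_biUnion_of_subset_left _ h1'.2, ?_, ?_⟩
  · have h3 := hM2 (j + 1) 𝒜' h1'.1
    have h4 : ((𝒜'.biUnion id).card : ℝ) ≤ (((M (j + 1)).biUnion id).card : ℝ) := by
      exact_mod_cast h3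
    have hN' : (0 : ℝ) < N := by exact_mod_cast hN
    refine le_trans ?_ hjN
    apply mul_le_mul_of_nonneg_left _ hN'.le
    linarith
  · intro Q hQ hQd
    by_contra hcon
    have hcon := not_lt.1 hcon
    have hQpos : 0 < Q.card := by
      have : 0 < ρ (j + 1) * n := mul_pos (hρ _) hn'
      have : (0 : ℝ) < (Q.card : ℝ) := by linarith
      exact_mod_cast this
    have hQP : ∀ P ∈ 𝒜', Disjoint Q P := by
      intro P hP
      rw [disjoint_biUnion_right] at hQ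
      exact hQ P hP
    have h3 : cvF x (ρ (j + 1)) (r (j + 1)) (insert Q 𝒜') := by
      refine ⟨?_, ?_, ?_⟩
      · intro P hP
        rcases mem_insert.1 hP with rfl | hP
        · exact hcon
        · exact h1'.1.1 P hP
      · intro P hP
        rcases mem_insert.1 hP with rfl | hP
        · exact hQd
        · exact h1'.1.2.1 P hP
      · intro P hP P' hP' hPP
        rcases mem_insert.1 hP with h5 | hP
        · rcases mem_insert.1 hP' with h6 | hP'
          · exact absurd (h5.trans h6.symm) hPP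
          · rw [h5]; exact hQP P' hP'
        · rcases mem_insert.1 hP' with h6 | hP'
          · rw [h6]; exact (hQP P hP).symm
          · exact h1'.1.2.2 P hP P' hP' hPP
    have h4 := h2 (insert Q 𝒜') (mem_filter.2 ⟨mem_univ _, h3,
      h1'.2.trans (subset_insert _ _)⟩)
    have h5 : (insert Q 𝒜').biUnion id = Q ∪ 𝒜'.biUnion id := by
      rw [biUnion_insert]; rfl
    rw [h5, card_union_of_disjoint hQ] at h4
    omega

open Classical in
/-- the deterministic implication -/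
lemma cv_main {n d : ℕ} (hn : 0 < n) (σ : Cfg n d) (x : Fin n → ℂ) (N : ℕ) (hN : 0 < N)
    (ρ r : ℕ → ℝ) (hρ : ∀ j, 0 < ρ j) (hρm : ∀ j, ρ (j + 1) ≤ ρ j) (hrm : ∀ j, r j ≤ r (j + 1))
    (β θ β₀ ε c1 : ℝ) (hβ₀ : β₀ + 1 / N ≤ β) (hθβ : β₀ ≤ θ / 2) (hρθ : ∀ j, ρ (j + 1) ≤ θ / 4)
    (hc1 : 1 / N + ε ≤ c1)
    (a : ℂ) (r₀ : ℝ) (hr₀ : ∀ j, 2 * r₀ ≤ r j) (ha : θ * n ≤ (bc x univ a r₀ : ℝ))
    (hexp : ∀ V : Finset (Fin n), β₀ * n ≤ (V.card : ℝ) → (V.card : ℝ) ≤ (1 - β₀) * n →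
      V.card + c1 * n < ((univ.filter (fun i => Touch σ V i)).card : ℝ))
    (r' : ℕ → ℝ) (hr' : ∀ j, 2 * r' j ≤ r (j + 1))
    (hC : ∀ j < N, ∀ typ : Fin n → Fin ⌊1 / ρ j⌋₊ ⊕ Bool,
      (∀ k l : Fin n, ∀ c : Fin ⌊1 / ρ j⌋₊, typ k = Sum.inl c → typ l = Sum.inl c →
                ‖x k - x l‖ ≤ r j) →
      (∀ b : ℂ, (bc x (univ.filter (fun k => typ k = Sum.inr false)) b (r' j) : ℝ)
        < ρ (j + 1) * n) →
      ((univ.filter (fun i => Touch σ
          (univ.filter (fun k => typ k = Sum.inr false)) i)).card : ℝ) ≤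
      ((univ.filter (fun k => typ k = Sum.inr false ∨ typ k = Sum.inr true)).card : ℝ) + ε * n) :
    ∃ j < N, Cov x (ρ j) (r j) β := by
  have hn' : (0 : ℝ) < n := by exact_mod_cast hn
  have hN' : (0 : ℝ) < N := by exact_mod_cast hN
  obtain ⟨j, hj, 𝒜, 𝒜', h1, h2, h3, h4⟩ := cv_det hn x N hN ρ r hρ hρm hrm
  refine ⟨j, hj, 𝒜, h1.1, h1.2.1, h1.2.2, ?_⟩
  have hcard := cv_card hn x (ρ j) (r j) (hρ j) 𝒜 h1
  -- the types
  have hemb : ∃ e : 𝒜 → Fin ⌊1 / ρ j⌋₊, Function.Injective e := by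
    have : Nonempty (𝒜 ↪ Fin ⌊1 / ρ j⌋₊) := by
      apply Function.Embedding.nonempty_of_card_le
      rw [Fintype.card_coe, Fintype.card_fin]
      exact hcard
    obtain ⟨e⟩ := this
    exact ⟨e, e.injective⟩
  obtain ⟨e, he⟩ := hemb
  let typ : Fin n → Fin ⌊1 / ρ j⌋₊ ⊕ Bool := fun k =>
    if hk : ∃ P ∈ 𝒜, k ∈ P then Sum.inl (e ⟨Classical.choose hk, (Classical.choose_spec hk).1⟩)
    else if k ∈ 𝒜'.biUnion id then Sum.inr true else Sum.inr false
  have ht1 : ∀ k c, typ k = Sum.inl c → ∃ P : 𝒜, k ∈ (P : Finset (Fin n)) ∧ e P = c := by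
    intro k c hk
    by_cases hkP : ∃ P ∈ 𝒜, k ∈ P
    · have h5 : typ k = Sum.inl (e ⟨Classical.choose hkP, (Classical.choose_spec hkP).1⟩) := by
        simp only [typ]; rw [dif_pos hkP]
      rw [h5] at hk
      refine ⟨⟨Classical.choose hkP, (Classical.choose_spec hkP).1⟩,
        (Classical.choose_spec hkP).2, ?_⟩
      exact Sum.inl.inj hk
    · have h5 : typ k = if k ∈ 𝒜'.biUnion id then Sum.inr true else Sum.inr false := by
        simp only [typ]; rw [dif_neg hkP]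
      rw [h5] at hk
      split_ifs at hk
  have ht2 : ∀ k, typ k = Sum.inr false ↔ k ∉ 𝒜'.biUnion id := by
    intro k
    by_cases hkP : ∃ P ∈ 𝒜, k ∈ P
    · have h5 : typ k = Sum.inl (e ⟨Classical.choose hkP, (Classical.choose_spec hkP).1⟩) := by
        simp only [typ]; rw [dif_pos hkP]
      rw [h5]
      constructor
      · intro h; cases h
      · intro h
        exfalso
        apply h
        apply h2
        obtain ⟨P, hP, hk⟩ := hkP
        exact mem_biUnion.2 ⟨P, hP, hk⟩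
    · have h5 : typ k = if k ∈ 𝒜'.biUnion id then Sum.inr true else Sum.inr false := by
        simp only [typ]; rw [dif_neg hkP]
      rw [h5]
      split_ifs with h6
      · constructor
        · intro h; cases h
        · intro h; exact absurd h6 h
      · exact ⟨fun _ => h6, fun _ => rfl⟩
  have ht3 : ∀ k, (typ k = Sum.inr false ∨ typ k = Sum.inr true) ↔ k ∉ 𝒜.biUnion id := by
    intro k
    by_cases hkP : ∃ P ∈ 𝒜, k ∈ P
    · have h5 : typ k = Sum.inl (e ⟨Classical.choose hkP, (Classical.choose_spec hkP).1⟩) := by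
        simp only [typ]; rw [dif_pos hkP]
      rw [h5]
      constructor
      · rintro (h | h) <;> cases h
      · intro h
        exfalso
        apply h
        obtain ⟨P, hP, hk⟩ := hkP
        exact mem_biUnion.2 ⟨P, hP, hk⟩
    · have h5 : typ k = if k ∈ 𝒜'.biUnion id then Sum.inr true else Sum.inr false := by
        simp only [typ]; rw [dif_neg hkP]
      rw [h5]
      have h7 : k ∉ 𝒜.biUnion id := by
        intro h
        obtain ⟨P, hP, hk⟩ := mem_biUnion.1 h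
        exact hkP ⟨P, hP, hk⟩
      split_ifs with h6
      · exact ⟨fun _ => h7, fun _ => Or.inr rfl⟩
      · exact ⟨fun _ => h7, fun _ => Or.inl rfl⟩
  set Diff := univ.filter (fun k => typ k = Sum.inr false) with hDiff
  have hDiff' : Diff = univ \ 𝒜'.biUnion id := by
    ext k
    rw [hDiff, mem_filter, Finset.mem_sdiff]
    simp only [mem_univ, true_and]
    exact ht2 k
  have hDE : univ.filter (fun k => typ k = Sum.inr false ∨ typ k = Sum.inr true)
      = univ \ 𝒜.biUnion id := by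
    ext k
    rw [mem_filter, Finset.mem_sdiff]
    simp only [mem_univ, true_and]
    exact ht3 k
  have hdisj : ∀ Q ⊆ Diff, Disjoint Q (𝒜'.biUnion id) := by
    intro Q hQ
    rw [disjoint_left]
    intro k hk hk'
    have := hQ hk
    rw [hDiff', Finset.mem_sdiff] at this
    exact this.2 hk'
  -- sizes
  have hcd : ∀ 𝒞 : Finset (Finset (Fin n)), ((univ \ 𝒞.biUnion id).card : ℝ)
      = n - ((𝒞.biUnion id).card : ℝ) := by
    intro 𝒞
    have h5 : (univ \ 𝒞.biUnion id).card = n - (𝒞.biUnion id).card := by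
      rw [card_sdiff_of_subset (subset_univ _), card_univ, Fintype.card_fin]
    have h6 : (𝒞.biUnion id).card ≤ n := by
      have := card_le_univ (𝒞.biUnion id)
      rwa [Fintype.card_fin] at this
    rw [h5]
    push_cast [Nat.cast_sub h6]
    rfl
  have hExc : ((𝒜'.biUnion id).card : ℝ) - ((𝒜.biUnion id).card : ℝ) ≤ 1 / N * n := by
    rw [one_div, ← div_eq_inv_mul, le_div_iff₀ hN']
    linarith
  have hball : ∀ b : ℂ, ∀ s : ℝ, 2 * s ≤ r (j + 1) → ((bc x Diff b s : ℕ) : ℝ) < ρ (j + 1) * n := by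
    intro b s hs
    have h5 := h4 (Diff.filter (fun k => ‖x k - b‖ ≤ s)) (hdisj _ (filter_subset _ _)) ?_
    · unfold bc
      exact h5
    · intro k hk l hl
      have h6 := (mem_filter.1 hk).2
      have h7 := (mem_filter.1 hl).2
      have : ‖x k - x l‖ ≤ ‖x k - b‖ + ‖x l - b‖ := by
        have := norm_sub_le (x k - b) (x l - b)
        simpa using this
      linarith
  have hrows := hC j hj typ (by
      intro k l c hk hl
      obtain ⟨P, hkP, hPc⟩ := ht1 k c hk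
      obtain ⟨P', hlP, hPc'⟩ := ht1 l c hl
      have hPP : P = P' := he (hPc.trans hPc'.symm)
      subst hPP
      exact h1.2.1 P P.2 k hkP l hlP) (fun b => hball b (r' j) (hr' j))
  rw [hDE, hcd 𝒜] at hrows
  -- the level set
  have hlev : (bc x univ a r₀ : ℝ) ≤ (bc x Diff a r₀ : ℝ) + ((univ \ Diff).card : ℝ) := by
    have h5 : univ.filter (fun k => ‖x k - a‖ ≤ r₀)
        ⊆ (Diff.filter (fun k => ‖x k - a‖ ≤ r₀)) ∪ (univ \ Diff) := by
      intro k hk
      rw [mem_union, mem_filter, Finset.mem_sdiff]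
      by_cases hkD : k ∈ Diff
      · exact Or.inl ⟨hkD, (mem_filter.1 hk).2⟩
      · exact Or.inr ⟨mem_univ _, hkD⟩
    have h6 := (card_le_card h5).trans (card_union_le _ _)
    unfold bc
    exact_mod_cast h6
  have hDc : ((univ \ Diff).card : ℝ) = n - (Diff.card : ℝ) := by
    have h5 : (univ \ Diff).card = n - Diff.card := by
      rw [card_sdiff_of_subset (subset_univ _), card_univ, Fintype.card_fin]
    have h6 : Diff.card ≤ n := by
      have := card_le_univ Diff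
      rwa [Fintype.card_fin] at this
    rw [h5]
    push_cast [Nat.cast_sub h6]
    rfl
  have hb0 := hball a r₀ (hr₀ (j + 1))
  have hθ4 := hρθ j
  have hDle : (Diff.card : ℝ) ≤ (1 - β₀) * n := by
    have h5 : ρ (j + 1) * n ≤ θ / 4 * n := mul_le_mul_of_nonneg_right hθ4 hn'.le
    have h6 : β₀ * n ≤ θ / 2 * n := mul_le_mul_of_nonneg_right hθβ hn'.le
    have h7 : 0 < θ := by have := hρ (j + 1); linarith
    have h8 : 0 < θ * n := mul_pos h7 hn'
    nlinarith
  have hDsmall : (Diff.card : ℝ) < β₀ * n := by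
    by_contra hcon
    have hcon := not_lt.1 hcon
    have h5 := hexp Diff hcon hDle
    have h6 : (Diff.card : ℝ) = n - ((𝒜'.biUnion id).card : ℝ) := by rw [hDiff', hcd 𝒜']
    have h7 : (1 / N + ε) * n ≤ c1 * n := mul_le_mul_of_nonneg_right hc1 hn'.le
    nlinarith
  have h6 : (Diff.card : ℝ) = n - ((𝒜'.biUnion id).card : ℝ) := by rw [hDiff', hcd 𝒜']
  have h7 : (β₀ + 1 / N) * n ≤ β * n := mul_le_mul_of_nonneg_right hβ₀ hn'.le
  nlinarith

lemma cv_exp {a b n : ℝ} (h : b ≤ a) (hn : 0 ≤ n) : Real.exp (-(a * n)) ≤ Real.exp (-(b * n)) :=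
  Real.exp_le_exp.2 (neg_le_neg (mul_le_mul_of_nonneg_right h hn))

open Classical in
/-- the bad event of `C1` -/
def cvEv {n d : ℕ} (z : ℂ) (ε δm δp ρ' : ℝ) (s : ℕ) (E : Finset (Fin n)) (σ : Cfg n d) : Prop :=
  ∃ x : Fin n → ℂ,
            Sol z (mult σ) E (Real.exp (-(δm * n))) x ∧
            ∃ typ : Fin n → Fin s ⊕ Bool,
              (∀ k l : Fin n, ∀ c : Fin s, typ k = Sum.inl c → typ l = Sum.inl c →
                ‖x k - x l‖ ≤ Real.exp (-(δm * n))) ∧
              (∀ b : ℂ, (bc x (univ.filter (fun k => typ k = Sum.inr false)) b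
                (Real.exp (-(δp * n))) : ℝ) < ρ' * n) ∧
              ((univ.filter (fun k => typ k = Sum.inr false ∨ typ k = Sum.inr true)).card : ℝ) + ε * n <
                ((univ.filter (fun i => Touch σ
                  (univ.filter (fun k => typ k = Sum.inr false)) i)).card : ℝ)

open Classical in
/-- the bad event of `expansion` -/
def cvEx {n d : ℕ} (β c1 : ℝ) (σ : Cfg n d) : Prop := ∃ V : Finset (Fin n),
        β * n ≤ (V.card : ℝ) ∧ (V.card : ℝ) ≤ (1 - β) * n ∧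
        ((univ.filter (fun i => Touch σ V i)).card : ℝ) ≤ V.card + c1 * n

theorem cover (d : ℕ) (hd3 : 3 ≤ d) (z : ℂ) (θ β δ : ℝ) (hθ : 0 < θ) (hβ : 0 < β) (hβ1 : β < 1)
    (hδ : 0 < δ) :
    ∃ J : ℕ, ∃ ρ δ' : ℕ → ℝ, (∀ j, 0 < ρ j ∧ ρ j < 1 ∧ 0 < δ' j ∧ δ' j ≤ δ) ∧
      ∃ c : ℝ, 0 < c ∧ ∀ᶠ n : ℕ in atTop, ∀ E : Finset (Fin n), E.card ≤ 2 →
        fr (univ : Finset (Cfg n d)) (fun σ => ∃ x : Fin n → ℂ,
          Sol z (mult σ) E (Real.exp (-(δ * n))) x ∧
          (∃ a : ℂ, θ * n ≤ (bc x univ a (Real.exp (-(δ * n))) : ℝ)) ∧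
          ∀ j < J, ¬ Cov x (ρ j) (Real.exp (-(δ' j * n))) β) ≤ Real.exp (-(c * n)) := by
  classical
  set β₀ : ℝ := min (β / 2) (min (θ / 2) (1 / 4)) with hβ₀
  have hβ₀pos : 0 < β₀ := by
    rw [hβ₀]; exact lt_min (by linarith) (lt_min (by linarith) (by norm_num))
  have hβ₀1 : β₀ ≤ β / 2 := min_le_left _ _
  have hβ₀2 : β₀ ≤ θ / 2 := (min_le_right _ _).trans (min_le_left _ _)
  have hβ₀3 : β₀ ≤ 1 / 4 := (min_le_right _ _).trans (min_le_right _ _)
  obtain ⟨c1, hc1, cE, hcE, hE⟩ := expansion d hd3 β₀ hβ₀pos (by linarith)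
  set ε : ℝ := min (c1 / 2) (1 / 2) with hε
  have hεpos : 0 < ε := by rw [hε]; exact lt_min (by linarith) (by norm_num)
  have hε1 : ε ≤ c1 / 2 := min_le_left _ _
  have hε2 : ε ≤ 1 / 2 := min_le_right _ _
  obtain ⟨N, hN⟩ := exists_nat_ge (max (2 / c1) (max (2 / β) 1))
  have hN1 : 2 / c1 ≤ N := (le_max_left _ _).trans hN
  have hN2 : 2 / β ≤ N := ((le_max_left _ _).trans (le_max_right _ _)).trans hN
  have hN3 : (1 : ℝ) ≤ N := ((le_max_right _ _).trans (le_max_right _ _)).trans hN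
  have hN' : (0 : ℝ) < N := by linarith
  have hN0 : 0 < N := by exact_mod_cast hN'
  have hNc : 1 / (N : ℝ) ≤ c1 / 2 := by
    rw [div_le_iff₀ hN']
    rw [div_le_iff₀ hc1] at hN1
    linarith
  have hNβ : 1 / (N : ℝ) ≤ β / 2 := by
    rw [div_le_iff₀ hN']
    rw [div_le_iff₀ hβ] at hN2
    linarith
  obtain ⟨τ, hτ, hτ4, hC1⟩ := C1 d (by omega) z ε hεpos (by linarith)
  choose ρ' hρ'pos hC1' using hC1
  -- the scales
  let ρs : ℕ → ℝ := fun j => Nat.rec (1 / 2 : ℝ)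
    (fun _ q => min (ρ' ⌊1 / q⌋₊) (min (θ / 4) (q / 2))) j
  have hρs0 : ρs 0 = 1 / 2 := rfl
  have hρss : ∀ j, ρs (j + 1) = min (ρ' ⌊1 / ρs j⌋₊) (min (θ / 4) (ρs j / 2)) := fun j => rfl
  let δs : ℕ → ℝ := fun j => (δ / 2) * (τ / 2) ^ j
  have hδs : ∀ j, δs (j + 1) = τ / 2 * δs j := by
    intro j; simp only [δs]; rw [pow_succ]; ring
  have hρspos : ∀ j, 0 < ρs j ∧ ρs j < 1 := by
    intro j
    induction j with
    | zero => rw [hρs0]; norm_num
    | succ j ih =>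
      rw [hρss]
      constructor
      · exact lt_min (hρ'pos _) (lt_min (by linarith) (by linarith [ih.1]))
      · have : min (ρ' ⌊1 / ρs j⌋₊) (min (θ / 4) (ρs j / 2)) ≤ ρs j / 2 :=
          (min_le_right _ _).trans (min_le_right _ _)
        linarith [ih.2]
  have hρsm : ∀ j, ρs (j + 1) ≤ ρs j := by
    intro j
    have : ρs (j + 1) ≤ ρs j / 2 := by
      rw [hρss]; exact (min_le_right _ _).trans (min_le_right _ _)
    linarith [(hρspos j).1]
  have hδspos : ∀ j, 0 < δs j := fun j => by simp only [δs]; positivity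
  have hδsle : ∀ j, δs j ≤ δ / 2 := by
    intro j
    simp only [δs]
    have : (τ / 2) ^ j ≤ 1 := pow_le_one₀ (by linarith) (by linarith)
    nlinarith
  have hδsm : ∀ j, δs (j + 1) ≤ δs j := by
    intro j
    rw [hδs]
    have := hδspos j
    nlinarith
  refine ⟨N, ρs, δs, fun j => ⟨(hρspos j).1, (hρspos j).2, hδspos j, by linarith [hδsle j]⟩, ?_⟩
  have hCj : ∀ j, ∃ c : ℝ, 0 < c ∧
        ∀ᶠ n : ℕ in atTop, ∀ E : Finset (Fin n), E.card ≤ 2 →
          fr (univ : Finset (Cfg n d))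
            (cvEv z ε (δs j) (2 * δs (j + 1)) (ρ' ⌊1 / ρs j⌋₊) ⌊1 / ρs j⌋₊ E)
            ≤ Real.exp (-(c * n)) := by
    intro j
    exact hC1' ⌊1 / ρs j⌋₊ (δs j) (2 * δs (j + 1)) (hδspos j)
      (by have := hδspos (j + 1); linarith) (by rw [hδs]; linarith)
  choose cj hcjpos hcj using hCj
  have hE' : ∀ᶠ n : ℕ in atTop, fr (univ : Finset (Cfg n d)) (cvEx β₀ c1) ≤ Real.exp (-(cE * n)) :=
    hE
  -- the minimal rate
  obtain ⟨cm, hcm, hcmE, hcmj⟩ : ∃ cm : ℝ, 0 < cm ∧ cm ≤ cE ∧ ∀ j < N, cm ≤ cj j := by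
    have hne : (range N).Nonempty := ⟨0, mem_range.2 hN0⟩
    obtain ⟨j0, hj0, hmin⟩ := exists_min_image (range N) cj hne
    refine ⟨min cE (cj j0), lt_min hcE (hcjpos _), min_le_left _ _, ?_⟩
    intro j hj
    exact (min_le_right _ _).trans (hmin j (mem_range.2 hj))
  refine ⟨cm / 2, by linarith, ?_⟩
  have hallj : ∀ᶠ n : ℕ in atTop, ∀ j ∈ range N, ∀ E : Finset (Fin n), E.card ≤ 2 →
          fr (univ : Finset (Cfg n d))
            (cvEv z ε (δs j) (2 * δs (j + 1)) (ρ' ⌊1 / ρs j⌋₊) ⌊1 / ρs j⌋₊ E)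
            ≤ Real.exp (-(cj j * n)) := by
    rw [Filter.eventually_all_finset]
    intro j _
    exact hcj j
  have hexpo : ∀ c : ℝ, 0 < c → Tendsto (fun n : ℕ => Real.exp (c * n)) atTop atTop := by
    intro c hc
    exact Real.tendsto_exp_atTop.comp
      ((tendsto_natCast_atTop_atTop (R := ℝ)).const_mul_atTop hc)
  have hbig1 : ∀ᶠ n : ℕ in atTop, (N : ℝ) + 1 ≤ Real.exp (cm / 2 * n) :=
    (hexpo (cm / 2) (by linarith)).eventually_ge_atTop _
  have hbig2 : ∀ᶠ n : ℕ in atTop, ∀ j ∈ range (N + 1), (2 : ℝ) ≤ Real.exp (δs j * n) := by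
    rw [Filter.eventually_all_finset]
    intro j _
    exact (hexpo (δs j) (hδspos j)).eventually_ge_atTop _
  have hbig3 : ∀ᶠ n : ℕ in atTop, (2 : ℝ) ≤ Real.exp (δ / 2 * n) :=
    (hexpo (δ / 2) (by linarith)).eventually_ge_atTop _
  filter_upwards [hallj, hE', hbig1, hbig2, hbig3, eventually_gt_atTop 0] with n h1 h2 h3 h4 h5 hn E
    hE2
  have hn' : (0 : ℝ) < n := by exact_mod_cast hn
  calc fr (univ : Finset (Cfg n d)) (fun σ => ∃ x : Fin n → ℂ,
          Sol z (mult σ) E (Real.exp (-(δ * n))) x ∧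
          (∃ a : ℂ, θ * n ≤ (bc x univ a (Real.exp (-(δ * n))) : ℝ)) ∧
          ∀ j < N, ¬ Cov x (ρs j) (Real.exp (-(δs j * n))) β)
      ≤ fr (univ : Finset (Cfg n d)) (fun σ => cvEx β₀ c1 σ ∨ ∃ j ∈ range N,
          cvEv z ε (δs j) (2 * δs (j + 1)) (ρ' ⌊1 / ρs j⌋₊) ⌊1 / ρs j⌋₊ E σ) := by
        apply fr_mono
        rintro σ _ ⟨x, hx, ⟨a, ha⟩, hcov⟩
        by_contra hcon
        push Not at hcon
        obtain ⟨hcon1, hcon2⟩ := hcon
        have A1 : ∀ j, Real.exp (-(δs j * n)) ≤ Real.exp (-(δs (j + 1) * n)) := by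
          intro j
          exact cv_exp (hδsm j) hn'.le
        have A2 : ∀ j, ρs (j + 1) ≤ θ / 4 := by
          intro j
          rw [hρss]; exact (min_le_right _ _).trans (min_le_left _ _)
        have A3 : ∀ j, 2 * Real.exp (-(δ * n)) ≤ Real.exp (-(δs j * n)) := by
          intro j
          have e1 : Real.exp (-(δ * n)) * Real.exp (δ / 2 * n) = Real.exp (-(δ / 2 * n)) := by
            rw [← Real.exp_add]; congr 1; ring
          have e2 : 2 * Real.exp (-(δ * n)) ≤ Real.exp (-(δ / 2 * n)) := by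
            rw [← e1]
            have := Real.exp_pos (-(δ * n))
            nlinarith
          exact e2.trans (cv_exp (hδsle j) hn'.le)
        have A4 : ∀ V : Finset (Fin n), β₀ * n ≤ (V.card : ℝ) → (V.card : ℝ) ≤ (1 - β₀) * n →
            V.card + c1 * n < ((univ.filter (fun i => Touch σ V i)).card : ℝ) := by
          intro V hV1 hV2
          by_contra hV3
          exact hcon1 ⟨V, hV1, hV2, not_lt.1 hV3⟩
        have A5 : ∀ j, 2 * (fun j => if j < N then Real.exp (-(2 * δs (j + 1) * n)) else 0) j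
            ≤ Real.exp (-(δs (j + 1) * n)) := by
          intro j
          simp only
          split_ifs with hjN
          · have e1 : Real.exp (-(2 * δs (j + 1) * n)) * Real.exp (δs (j + 1) * n)
                = Real.exp (-(δs (j + 1) * n)) := by
              rw [← Real.exp_add]; congr 1; ring
            rw [← e1]
            have h6 := h4 (j + 1) (mem_range.2 (by omega))
            have := Real.exp_pos (-(2 * δs (j + 1) * n))
            nlinarith
          · rw [mul_zero]; exact (Real.exp_pos _).le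
        have A6 : ∀ j < N, ∀ typ : Fin n → Fin ⌊1 / ρs j⌋₊ ⊕ Bool,
            (∀ k l : Fin n, ∀ c : Fin ⌊1 / ρs j⌋₊, typ k = Sum.inl c → typ l = Sum.inl c →
                ‖x k - x l‖ ≤ Real.exp (-(δs j * n))) →
            (∀ b : ℂ, (bc x (univ.filter (fun k => typ k = Sum.inr false)) b
              ((fun j => if j < N then Real.exp (-(2 * δs (j + 1) * n)) else 0) j) : ℝ)
              < ρs (j + 1) * n) →
            ((univ.filter (fun i => Touch σ
              (univ.filter (fun k => typ k = Sum.inr false)) i)).card : ℝ) ≤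
            ((univ.filter (fun k => typ k = Sum.inr false ∨ typ k = Sum.inr true)).card : ℝ)
              + ε * n := by
          intro j hj typ ht1 ht2
          by_contra hcon3
          have hcon3 := not_le.1 hcon3
          apply hcon2 j (mem_range.2 hj)
          refine ⟨x, ⟨hx.1, ?_⟩, typ, ht1, ?_, hcon3⟩
          · intro i hi
            exact (hx.2 i hi).trans (cv_exp ((hδsle j).trans (by linarith)) hn'.le)
          · intro b
            have h6 := ht2 b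
            simp only [if_pos hj] at h6
            have h7 : ρs (j + 1) ≤ ρ' ⌊1 / ρs j⌋₊ := by rw [hρss]; exact min_le_left _ _
            have h8 : ρs (j + 1) * n ≤ ρ' ⌊1 / ρs j⌋₊ * n := mul_le_mul_of_nonneg_right h7 hn'.le
            linarith
        obtain ⟨j, hj, hjc⟩ := cv_main hn σ x N hN0 ρs (fun j => Real.exp (-(δs j * n)))
          (fun j => (hρspos j).1) hρsm A1 β θ β₀ ε c1 (by linarith) hβ₀2 A2
          (by linarith) a (Real.exp (-(δ * n))) A3 ha A4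
          (fun j => if j < N then Real.exp (-(2 * δs (j + 1) * n)) else 0) A5 A6
        exact hcov j hj hjc
    _ ≤ fr (univ : Finset (Cfg n d)) (cvEx β₀ c1) + fr (univ : Finset (Cfg n d))
          (fun σ => ∃ j ∈ range N,
          cvEv z ε (δs j) (2 * δs (j + 1)) (ρ' ⌊1 / ρs j⌋₊) ⌊1 / ρs j⌋₊ E σ) := fr_or_le _ _ _
    _ ≤ Real.exp (-(cm * n)) + ((range N).card : ℝ) * Real.exp (-(cm * n)) := by
        apply add_le_add
        · exact h2.trans (cv_exp hcmE hn'.le)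
        · apply fr_exists_le_card
          intro j hj
          exact (h1 j hj E hE2).trans (cv_exp (hcmj j (mem_range.1 hj)) hn'.le)
    _ = ((N : ℝ) + 1) * Real.exp (-(cm * n)) := by rw [card_range]; ring
    _ ≤ Real.exp (cm / 2 * n) * Real.exp (-(cm * n)) :=
        mul_le_mul_of_nonneg_right h3 (Real.exp_pos _).le
    _ = Real.exp (-(cm / 2 * n)) := by rw [← Real.exp_add]; congr 1; ring

end Pool.Agent.SMin
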