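import Pool.Agent.SMin.Base

set_option autoImplicit false
open Finset Filter

namespace Pool.Agent.SMin

/-! ## Module EVO (Evo.lean) : deterministic -/

/-- the family `𝒜` consists of disjoint large sets of small diameter and covers most coordinates -/
def evoV {n : ℕ} (x : Fin n → ℂ) (ρ r β : ℝ) (𝒜 : Finset (Finset (Fin n))) : Prop :=
    (∀ P ∈ 𝒜, ρ * n ≤ (P.card : ℝ)) ∧
    (∀ P ∈ 𝒜, ∀ k ∈ P, ∀ l ∈ P, ‖x k - x l‖ ≤ r) ∧
    (∀ P ∈ 𝒜, ∀ Q ∈ 𝒜, P ≠ Q → Disjoint P Q) ∧
    ((1 - β) * n ≤ ((𝒜.biUnion id).card : ℝ))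

/-- the potential -/
noncomputable def evoPhi {n : ℕ} (ρ : ℝ) (𝒜 : Finset (Finset (Fin n))) : ℕ :=
  𝒜.card + 2 * ⌊((n : ℝ) - ((𝒜.biUnion id).card : ℝ)) / (ρ * n)⌋₊

lemma evo_card_mul {n : ℕ} (x : Fin n → ℂ) (ρ r β : ℝ) (𝒜 : Finset (Finset (Fin n)))
    (h : evoV x ρ r β 𝒜) : (𝒜.card : ℝ) * (ρ * n) ≤ n := by
  obtain ⟨h1, _, h3, _⟩ := h
  have hc : (𝒜.biUnion id).card = ∑ P ∈ 𝒜, P.card := by
    rw [card_biUnion]
    · rfl
    · intro P hP Q hQ hPQ
      exact h3 P hP Q hQ hPQ
  have h2 : ((𝒜.biUnion id).card : ℝ) ≤ n := by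
    have := card_le_univ (𝒜.biUnion id)
    rw [Fintype.card_fin] at this
    exact_mod_cast this
  calc (𝒜.card : ℝ) * (ρ * n) = ∑ P ∈ 𝒜, (ρ * n) := by rw [sum_const, nsmul_eq_mul]
    _ ≤ ∑ P ∈ 𝒜, (P.card : ℝ) := sum_le_sum h1
    _ = ((𝒜.biUnion id).card : ℝ) := by rw [hc]; push_cast; rfl
    _ ≤ n := h2

lemma evo_phi_le {n : ℕ} (hn : 0 < n) (x : Fin n → ℂ) (ρ r β : ℝ) (hρ : 0 < ρ)
    (𝒜 : Finset (Finset (Fin n))) (h : evoV x ρ r β 𝒜) : (evoPhi ρ 𝒜 : ℝ) ≤ 3 / ρ := by
  have hn' : (0 : ℝ) < n := by exact_mod_cast hn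
  have h1 := evo_card_mul x ρ r β 𝒜 h
  have h2 : (𝒜.card : ℝ) ≤ 1 / ρ := by
    rw [le_div_iff₀ hρ]
    have : (𝒜.card : ℝ) * ρ * n ≤ 1 * n := by rw [mul_assoc]; linarith
    exact le_of_mul_le_mul_right this hn'
  have h3 : ((n : ℝ) - ((𝒜.biUnion id).card : ℝ)) / (ρ * n) ≤ 1 / ρ := by
    rw [div_le_div_iff₀ (by positivity) hρ]
    have : (0 : ℝ) ≤ ((𝒜.biUnion id).card : ℝ) := Nat.cast_nonneg _
    nlinarith
  have h4 : ((⌊((n : ℝ) - ((𝒜.biUnion id).card : ℝ)) / (ρ * n)⌋₊ : ℕ) : ℝ) ≤ 1 / ρ := by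
    have h0 : 0 ≤ ((n : ℝ) - ((𝒜.biUnion id).card : ℝ)) / (ρ * n) := by
      apply div_nonneg _ (by positivity)
      have := card_le_univ (𝒜.biUnion id)
      rw [Fintype.card_fin] at this
      have : ((𝒜.biUnion id).card : ℝ) ≤ n := by exact_mod_cast this
      linarith
    exact (Nat.floor_le h0).trans h3
  unfold evoPhi
  push_cast
  have : (3 : ℝ) / ρ = 1 / ρ + 2 * (1 / ρ) := by ring
  rw [this]
  linarith

lemma evo_mono {n : ℕ} (x : Fin n → ℂ) (ρ r r' β : ℝ) (hr : r ≤ r')
    (𝒜 : Finset (Finset (Fin n))) (h : evoV x ρ r β 𝒜) : evoV x ρ r' β 𝒜 :=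
  ⟨h.1, fun P hP k hk l hl => (h.2.1 P hP k hk l hl).trans hr, h.2.2.1, h.2.2.2⟩

open Classical in
lemma evo_step {n : ℕ} (hn : 0 < n) (x : Fin n → ℂ) (ρ β r r' : ℝ) (hρ : 0 < ρ)
    (hr0 : 0 < r) (hr : 8 * r ≤ r') (𝒜 : Finset (Finset (Fin n))) (h : evoV x ρ r β 𝒜) :
    (∃ s : ℕ, ∃ col : Fin n → Option (Fin s), Coloured x ρ β r (r' / 4) s col) ∨
    ∃ 𝒜' : Finset (Finset (Fin n)), evoV x ρ r' β 𝒜' ∧ evoPhi ρ 𝒜' + 1 ≤ evoPhi ρ 𝒜 := by
  have hn' : (0 : ℝ) < n := by exact_mod_cast hn
  have hrn : 0 < ρ * n := by positivity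
  have hne : ∀ P ∈ 𝒜, P.Nonempty := by
    intro P hP
    rw [← card_pos]
    have := h.1 P hP
    have : (0 : ℝ) < (P.card : ℝ) := by linarith
    exact_mod_cast this
  by_cases hA : ∃ b : ℂ, ρ * n ≤ ((bc x (univ \ 𝒜.biUnion id) b (r' / 4) : ℕ) : ℝ)
  · right
    obtain ⟨b, hb⟩ := hA
    set Q := (univ \ 𝒜.biUnion id).filter (fun k => ‖x k - b‖ ≤ r' / 4) with hQ
    have hbQ : (bc x (univ \ 𝒜.biUnion id) b (r' / 4) : ℝ) = Q.card := by
      unfold bc; rw [hQ]
    rw [hbQ] at hb
    have hQd : ∀ P ∈ 𝒜, Disjoint P Q := by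
      intro P hP
      rw [disjoint_left]
      intro k hk hkQ
      simp only [hQ, mem_filter, Finset.mem_sdiff, mem_univ, true_and, mem_biUnion, id_eq,
        not_exists, not_and] at hkQ
      exact hkQ.1 P hP hk
    have hQne : Q.Nonempty := by
      rw [← card_pos]
      have : (0 : ℝ) < (Q.card : ℝ) := by linarith
      exact_mod_cast this
    have hQn : Q ∉ 𝒜 := by
      intro hmem
      obtain ⟨k, hk⟩ := hQne
      exact (disjoint_left.1 (hQd Q hmem)) hk hk
    have hbu : (insert Q 𝒜).biUnion id = Q ∪ 𝒜.biUnion id := by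
      rw [biUnion_insert]; rfl
    have hdis : Disjoint Q (𝒜.biUnion id) := by
      rw [disjoint_biUnion_right]
      intro P hP
      exact (hQd P hP).symm
    have hcard : ((insert Q 𝒜).biUnion id).card = Q.card + (𝒜.biUnion id).card := by
      rw [hbu, card_union_of_disjoint hdis]
    refine ⟨insert Q 𝒜, ⟨?_, ?_, ?_, ?_⟩, ?_⟩
    · intro P hP
      rcases mem_insert.1 hP with rfl | hP
      · exact hb
      · exact h.1 P hP
    · intro P hP k hk l hl
      rcases mem_insert.1 hP with rfl | hP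
      · have hk' := (mem_filter.1 hk).2
        have hl' := (mem_filter.1 hl).2
        have : ‖x k - x l‖ ≤ ‖x k - b‖ + ‖x l - b‖ := by
          have := norm_sub_le (x k - b) (x l - b)
          simpa using this
        linarith
      · have := h.2.1 P hP k hk l hl
        linarith
    · intro P hP P' hP' hPP
      rcases mem_insert.1 hP with rfl | hP
      · rcases mem_insert.1 hP' with rfl | hP'
        · exact absurd rfl hPP
        · exact (hQd P' hP').symm
      · rcases mem_insert.1 hP' with rfl | hP'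
        · exact hQd P hP
        · exact h.2.2.1 P hP P' hP' hPP
    · rw [hcard]
      push_cast
      have := h.2.2.2
      have h0 : (0 : ℝ) ≤ (Q.card : ℝ) := Nat.cast_nonneg _
      linarith
    · unfold evoPhi
      rw [hcard, card_insert_of_notMem hQn]
      have hle : ((n : ℝ) - ((Q.card + (𝒜.biUnion id).card : ℕ) : ℝ)) / (ρ * n)
          ≤ ((n : ℝ) - ((𝒜.biUnion id).card : ℝ)) / (ρ * n) - 1 := by
        rw [le_sub_iff_add_le, ← le_sub_iff_add_le', ← sub_div]
        rw [le_div_iff₀ hrn]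
        push_cast
        linarith
      have h0 : 0 ≤ ((n : ℝ) - ((Q.card + (𝒜.biUnion id).card : ℕ) : ℝ)) / (ρ * n) := by
        apply div_nonneg _ hrn.le
        have := card_le_univ ((insert Q 𝒜).biUnion id)
        rw [Fintype.card_fin, hcard] at this
        have : ((Q.card + (𝒜.biUnion id).card : ℕ) : ℝ) ≤ n := by exact_mod_cast this
        linarith
      have h1 : ⌊((n : ℝ) - ((Q.card + (𝒜.biUnion id).card : ℕ) : ℝ)) / (ρ * n)⌋₊ + 1
          ≤ ⌊((n : ℝ) - ((𝒜.biUnion id).card : ℝ)) / (ρ * n)⌋₊ := by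
        rw [← Nat.floor_add_one h0]
        apply Nat.floor_le_floor
        linarith
      omega
  · push Not at hA
    by_cases hB : ∃ P ∈ 𝒜, ∃ Q ∈ 𝒜, P ≠ Q ∧ ∃ k ∈ P, ∃ l ∈ Q, ‖x k - x l‖ ≤ r' / 4
    · right
      obtain ⟨P, hP, Q, hQ, hPQ, k, hk, l, hl, hkl⟩ := hB
      set 𝒟 := (𝒜.erase P).erase Q with h𝒟
      have hsub : ∀ R ∈ 𝒟, R ∈ 𝒜 ∧ R ≠ P ∧ R ≠ Q := by
        intro R hR
        rw [h𝒟, mem_erase, mem_erase] at hR
        exact ⟨hR.2.2, hR.2.1, hR.1⟩
      have hbu : (insert (P ∪ Q) 𝒟).biUnion id = 𝒜.biUnion id := by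
        ext m
        simp only [mem_biUnion, mem_insert, id_eq]
        constructor
        · rintro ⟨R, rfl | hR, hm⟩
          · rcases mem_union.1 hm with hm | hm
            · exact ⟨P, hP, hm⟩
            · exact ⟨Q, hQ, hm⟩
          · exact ⟨R, (hsub R hR).1, hm⟩
        · rintro ⟨R, hR, hm⟩
          by_cases h1 : R = P
          · subst h1; exact ⟨R ∪ Q, Or.inl rfl, mem_union_left _ hm⟩
          by_cases h2 : R = Q
          · subst h2; exact ⟨P ∪ R, Or.inl rfl, mem_union_right _ hm⟩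
          exact ⟨R, Or.inr (by rw [h𝒟, mem_erase, mem_erase]; exact ⟨h2, h1, hR⟩), hm⟩
      have hdia : ∀ a ∈ P ∪ Q, ∀ b ∈ P ∪ Q, ‖x a - x b‖ ≤ r' := by
        have key : ∀ a ∈ P, ∀ b ∈ Q, ‖x a - x b‖ ≤ r' := by
          intro a ha b hb
          have e1 := h.2.1 P hP a ha k hk
          have e2 := h.2.1 Q hQ l hl b hb
          have : x a - x b = (x a - x k) + (x k - x l) + (x l - x b) := by ring
          rw [this]
          have := norm_add₃_le (a := x a - x k) (b := x k - x l) (c := x l - x b)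
          linarith
        intro a ha b hb
        rcases mem_union.1 ha with ha | ha <;> rcases mem_union.1 hb with hb | hb
        · have := h.2.1 P hP a ha b hb; linarith
        · exact key a ha b hb
        · rw [norm_sub_rev]; exact key b hb a ha
        · have := h.2.1 Q hQ a ha b hb; linarith
      have hdj : ∀ R ∈ 𝒟, Disjoint (P ∪ Q) R := by
        intro R hR
        obtain ⟨h1, h2, h3⟩ := hsub R hR
        rw [disjoint_union_left]
        exact ⟨h.2.2.1 P hP R h1 (Ne.symm h2), h.2.2.1 Q hQ R h1 (Ne.symm h3)⟩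
      refine ⟨insert (P ∪ Q) 𝒟, ⟨?_, ?_, ?_, ?_⟩, ?_⟩
      · intro R hR
        rcases mem_insert.1 hR with rfl | hR
        · have h1 := h.1 P hP
          have h2 : P.card ≤ (P ∪ Q).card := card_le_card subset_union_left
          have h3 : (P.card : ℝ) ≤ ((P ∪ Q).card : ℝ) := by exact_mod_cast h2
          linarith
        · exact h.1 R (hsub R hR).1
      · intro R hR a ha b hb
        rcases mem_insert.1 hR with rfl | hR
        · exact hdia a ha b hb
        · have := h.2.1 R (hsub R hR).1 a ha b hb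
          linarith
      · intro R hR S hS hRS
        rcases mem_insert.1 hR with rfl | hR
        · rcases mem_insert.1 hS with rfl | hS
          · exact absurd rfl hRS
          · exact hdj S hS
        · rcases mem_insert.1 hS with rfl | hS
          · exact (hdj R hR).symm
          · exact h.2.2.1 R (hsub R hR).1 S (hsub S hS).1 hRS
      · rw [hbu]; exact h.2.2.2
      · unfold evoPhi
        rw [hbu]
        have h1 : (insert (P ∪ Q) 𝒟).card ≤ 𝒟.card + 1 := card_insert_le _ _
        have h2 : 𝒟.card = (𝒜.erase P).card - 1 := by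
          rw [h𝒟, card_erase_of_mem]
          rw [mem_erase]; exact ⟨Ne.symm hPQ, hQ⟩
        have h3 : (𝒜.erase P).card = 𝒜.card - 1 := card_erase_of_mem hP
        have h4 : 1 ≤ (𝒜.erase P).card := by
          rw [Nat.one_le_iff_ne_zero, ← Nat.pos_iff_ne_zero, card_pos]
          exact ⟨Q, by rw [mem_erase]; exact ⟨Ne.symm hPQ, hQ⟩⟩
        omega
    · left
      push Not at hB
      -- the colouring
      let e : Fin 𝒜.card ≃ 𝒜 := (𝒜.equivFin).symm
      have huniq : ∀ m : Fin n, ∀ c c' : Fin 𝒜.card, m ∈ (e c : Finset (Fin n)) →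
          m ∈ (e c' : Finset (Fin n)) → c = c' := by
        intro m c c' hc hc'
        by_contra hcc
        have hne' : (e c : Finset (Fin n)) ≠ (e c' : Finset (Fin n)) := by
          intro heq
          exact hcc (e.injective (Subtype.ext heq))
        exact (disjoint_left.1 (h.2.2.1 _ (e c).2 _ (e c').2 hne')) hc hc'
      let col : Fin n → Option (Fin 𝒜.card) := fun m =>
        if hm : ∃ c, m ∈ (e c : Finset (Fin n)) then some (Classical.choose hm) else none
      have hcol : ∀ m c, col m = some c ↔ m ∈ (e c : Finset (Fin n)) := by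
        intro m c
        constructor
        · intro hmc
          by_cases hm : ∃ c, m ∈ (e c : Finset (Fin n))
          · have h1 : col m = some (Classical.choose hm) := by
              simp only [col]; rw [dif_pos hm]
            rw [h1] at hmc
            have h2 : Classical.choose hm = c := Option.some.inj hmc
            rw [← h2]
            exact Classical.choose_spec hm
          · have h1 : col m = none := by
              simp only [col]; rw [dif_neg hm]
            rw [h1] at hmc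
            exact absurd hmc (by simp)
        · intro hmc
          have hm : ∃ c, m ∈ (e c : Finset (Fin n)) := ⟨c, hmc⟩
          have h1 : col m = some (Classical.choose hm) := by
            simp only [col]; rw [dif_pos hm]
          rw [h1]
          congr 1
          exact huniq m _ _ (Classical.choose_spec hm) hmc
      have hnone : ∀ m, col m = none ↔ m ∉ 𝒜.biUnion id := by
        intro m
        rw [mem_biUnion]
        constructor
        · intro hmn
          rintro ⟨P, hP, hmP⟩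
          have : col m = some (e.symm ⟨P, hP⟩) := by
            rw [hcol]; simpa using hmP
          rw [this] at hmn
          exact absurd hmn (by simp)
        · intro hmn
          by_contra hne2
          obtain ⟨c, hc⟩ := Option.ne_none_iff_exists'.1 hne2
          exact hmn ⟨e c, (e c).2, (hcol m c).1 hc⟩
      have hset : univ.filter (fun k => col k = none) = univ \ 𝒜.biUnion id := by
        ext m
        simp only [mem_filter, mem_univ, true_and, Finset.mem_sdiff]
        exact hnone m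
      refine ⟨𝒜.card, col, ?_, ?_, ?_, ?_, ?_⟩
      · intro c
        have : univ.filter (fun k => col k = some c) = (e c : Finset (Fin n)) := by
          ext m
          simp only [mem_filter, mem_univ, true_and]
          exact hcol m c
        rw [this]
        exact h.1 _ (e c).2
      · intro a b c ha hb
        exact h.2.1 _ (e c).2 a ((hcol a c).1 ha) b ((hcol b c).1 hb)
      · intro a b c c' hcc ha hb
        have hne' : (e c : Finset (Fin n)) ≠ (e c' : Finset (Fin n)) := by
          intro heq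
          exact hcc (e.injective (Subtype.ext heq))
        exact hB _ (e c).2 _ (e c').2 hne' a ((hcol a c).1 ha) b ((hcol b c').1 hb)
      · rw [hset]
        have h1 : (univ \ 𝒜.biUnion id).card = n - (𝒜.biUnion id).card := by
          rw [card_sdiff_of_subset (subset_univ _), card_univ, Fintype.card_fin]
        have h2 : (𝒜.biUnion id).card ≤ n := by
          have := card_le_univ (𝒜.biUnion id)
          rwa [Fintype.card_fin] at this
        rw [h1]
        push_cast [Nat.cast_sub h2]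
        have := h.2.2.2
        linarith
      · intro b
        rw [hset]
        exact hA b

theorem evo {n : ℕ} (hn : 0 < n) (x : Fin n → ℂ) (ρ β : ℝ) (hρ : 0 < ρ) (hρ1 : ρ ≤ 1)
    (r : ℕ → ℝ) (hr0 : 0 < r 0) (hr : ∀ i, 8 * r i ≤ r (i + 1)) (I : ℕ) (hI : 3 / ρ + 2 ≤ I)
    (hcov : Cov x ρ (r 0) β) :
    ∃ i < I, ∃ s : ℕ, ∃ col : Fin n → Option (Fin s),
      Coloured x ρ β (r i) (r (i + 1) / 4) s col := by
  have hrpos : ∀ i, 0 < r i := by
    intro i
    induction i with
    | zero => exact hr0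
    | succ i ih => have := hr i; linarith
  obtain ⟨𝒜₀, h₀⟩ := hcov
  have hV₀ : evoV x ρ (r 0) β 𝒜₀ := h₀
  by_contra hcon
  push Not at hcon
  have key : ∀ i ≤ I, ∃ 𝒜 : Finset (Finset (Fin n)), evoV x ρ (r i) β 𝒜 ∧
      evoPhi ρ 𝒜 + i ≤ evoPhi ρ 𝒜₀ := by
    intro i
    induction i with
    | zero => intro _; exact ⟨𝒜₀, hV₀, by simp⟩
    | succ i ih =>
      intro hi
      obtain ⟨𝒜, hV, hφ⟩ := ih (by omega)
      rcases evo_step hn x ρ β (r i) (r (i + 1)) hρ (hrpos i) (hr i) 𝒜 hV with hc | hc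
      · obtain ⟨s, col, hc⟩ := hc
        exact absurd hc (hcon i (by omega) s col)
      · obtain ⟨𝒜', hV', hφ'⟩ := hc
        exact ⟨𝒜', hV', by omega⟩
  obtain ⟨𝒜, _, hφ⟩ := key I le_rfl
  have h1 := evo_phi_le hn x ρ (r 0) β hρ 𝒜₀ hV₀
  have h2 : (I : ℝ) ≤ (evoPhi ρ 𝒜₀ : ℝ) := by
    have : I ≤ evoPhi ρ 𝒜₀ := by omega
    exact_mod_cast this
  linarith

end Pool.Agent.SMin
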