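import Pool.Agent.SMin.PairAux

set_option autoImplicit false
open Finset Filter

namespace Pool.Agent.SMin

/-- one exposure step: the last partner of a vertex must hit a small ball -/
lemma p_step {n d : ℕ} (C : Finset (Cfg n d)) (g : Cfg n d → Cfg n d) (i : Fin n) (k : Fin d)
    (σ : Cfg n d) (hk : ∀ σ' ∈ C, ∀ k', k' ≠ k → g σ' (i, k') = g σ (i, k')) (m : ℝ) (hm : 0 ≤ m)
    (hB : ∀ B : Finset (Fin n × Fin d),
      ((C.filter (fun σ' => g σ' (i, k) ∈ B)).card : ℝ) * m ≤ B.card * (C.card : ℝ))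
    (f : Fin n → ℂ) (z : ℂ) (r R M : ℝ) (hr : r ≤ R) (hM : ∀ b, (bc f univ b R : ℝ) ≤ M) :
    ((C.filter (fun σ' => ‖∑ k', f (hd (g σ') i k') - z * f i‖ < r)).card : ℝ) * m ≤
      d * M * (C.card : ℝ) := by
  classical
  set b : ℂ := z * f i - ∑ k' ∈ univ.erase k, f (hd (g σ) i k') with hb
  set B : Finset (Fin n × Fin d) := univ.filter (fun s => ‖f s.1 - b‖ ≤ R) with hBdef
  have hBcard : (B.card : ℝ) ≤ d * M := by
    have h1 : B = (univ.filter (fun j : Fin n => ‖f j - b‖ ≤ R)) ×ˢ (univ : Finset (Fin d)) := by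
      ext s; simp [hBdef]
    have h2 : B.card = bc f univ b R * d := by
      rw [h1, card_product]; simp [bc]
    rw [h2]; push_cast
    nlinarith [hM b, (Nat.cast_nonneg d : (0 : ℝ) ≤ d)]
  have hsub : (C.filter (fun σ' => ‖∑ k', f (hd (g σ') i k') - z * f i‖ < r)) ⊆
      C.filter (fun σ' => g σ' (i, k) ∈ B) := by
    intro σ' h
    rw [mem_filter] at h ⊢
    refine ⟨h.1, ?_⟩
    have h3 : ∑ k', f (hd (g σ') i k') = f (hd (g σ') i k) + ∑ k' ∈ univ.erase k, f (hd (g σ) i k') := by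
      rw [← add_sum_erase univ (fun k' => f (hd (g σ') i k')) (mem_univ k)]
      congr 1
      refine sum_congr rfl fun k' hk' => ?_
      have := hk σ' h.1 k' (ne_of_mem_erase hk')
      unfold hd; rw [this]
    have h4 : ∑ k', f (hd (g σ') i k') - z * f i = f (hd (g σ') i k) - b := by
      rw [h3, hb]; ring
    rw [h4] at h
    rw [hBdef, mem_filter]
    exact ⟨mem_univ _, h.2.le.trans hr⟩
  calc ((C.filter (fun σ' => ‖∑ k', f (hd (g σ') i k') - z * f i‖ < r)).card : ℝ) * m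
      ≤ ((C.filter (fun σ' => g σ' (i, k) ∈ B)).card : ℝ) * m := by
        gcongr
    _ ≤ B.card * (C.card : ℝ) := hB B
    _ ≤ d * M * (C.card : ℝ) := by gcongr

/-- the output of the exposure strategy -/
structure PStrat (n d : ℕ) where
  H : ℕ → Cfg n d → Finset ((Fin n × Fin d) × (Fin n × Fin d))
  pv : ℕ → Cfg n d → Option ((Fin n ⊕ Fin n) × Fin d)
  hit : ℕ → Cfg n d → Prop
  mono : ∀ t < n * d, ∀ σ σ', H (t + 1) σ = H (t + 1) σ' → H t σ = H t σ'
  pvH : ∀ t < n * d, ∀ σ σ', H t σ = H t σ' → pv t σ = pv t σ'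
  real : ∀ t ≤ n * d, ∀ σ, ∀ e ∈ H t σ, σ e.1 = e.2
  hitH : ∀ t < n * d, ∀ σ σ', H (t + 1) σ = H (t + 1) σ' → (hit t σ ↔ hit t σ')
  row1 : ∀ t < n * d, ∀ σ, ∀ i k, pv t σ = some (Sum.inl i, k) →
    (∀ k', k' ≠ k → ((i, k'), σ (i, k')) ∈ H t σ)
  row2 : ∀ t < n * d, ∀ σ, ∀ i k, pv t σ = some (Sum.inl i, k) → ((i, k), σ (i, k)) ∈ H (t + 1) σ
  row3 : ∀ t < n * d, ∀ σ, ∀ i k, pv t σ = some (Sum.inl i, k) →
    ∀ C : Finset (Cfg n d), (∀ σ', σ' ∈ C ↔ H t σ' = H t σ) → ∀ B : Finset (Fin n × Fin d),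
      ((C.filter (fun σ' => σ' (i, k) ∈ B)).card : ℝ) * (n * d - t) ≤ B.card * (C.card : ℝ)
  col1 : ∀ t < n * d, ∀ σ, ∀ j l, pv t σ = some (Sum.inr j, l) →
    (∀ l', l' ≠ l → (σ.symm (j, l'), (j, l')) ∈ H t σ)
  col2 : ∀ t < n * d, ∀ σ, ∀ j l, pv t σ = some (Sum.inr j, l) →
    (σ.symm (j, l), (j, l)) ∈ H (t + 1) σ
  col3 : ∀ t < n * d, ∀ σ, ∀ j l, pv t σ = some (Sum.inr j, l) →
    ∀ C : Finset (Cfg n d), (∀ σ', σ' ∈ C ↔ H t σ' = H t σ) → ∀ B : Finset (Fin n × Fin d),
      ((C.filter (fun σ' => σ'.symm (j, l) ∈ B)).card : ℝ) * (n * d - t) ≤ B.card * (C.card : ℝ)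
  rare : ∀ t < n * d, ∀ σ, fr (univ : Finset (Cfg n d)) (fun σ' => H t σ' = H t σ ∧ hit t σ') *
    (n * d - t) ≤ 2 * fr (univ : Finset (Cfg n d)) (fun σ' => H t σ' = H t σ)
  compl : ∀ T ≤ n * d, ∀ σ, ∀ P Q : Finset ℕ, (∀ t, t ∈ P ↔ t < T ∧ (pv t σ).isSome) →
    (∀ t, t ∈ Q ↔ t < T ∧ hit t σ) → 2 * n ≤ P.card + Q.card + 2 * (n * d - T)
  once : ∀ t < n * d, ∀ t' < n * d, ∀ σ v k k', pv t σ = some (v, k) → pv t' σ = some (v, k') →
    t = t'

lemma exists_PStrat (n d : ℕ) (hd2 : 2 ≤ d) : Nonempty (PStrat n d) := by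
  classical
  obtain ⟨H, pv, hit, h1, h2, h3, h4, h5, h6, h7, h8, h9⟩ := strategy n d hd2
  refine ⟨⟨H, pv, hit, h1, h2, h3, h4, fun t ht σ i k h => (h5 t ht σ i k h).1,
    fun t ht σ i k h => (h5 t ht σ i k h).2.1, ?_, fun t ht σ i k h => (h6 t ht σ i k h).1,
    fun t ht σ i k h => (h6 t ht σ i k h).2.1, ?_, ?_, ?_, h9⟩⟩
  · intro t ht σ i k h C hC B
    have := (h5 t ht σ i k h).2.2 B
    have e1 : C = univ.filter (fun σ' => H t σ' = H t σ) := by ext σ'; simp [hC]
    have e2 : C.filter (fun σ' => σ' (i, k) ∈ B) =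
        univ.filter (fun σ' => H t σ' = H t σ ∧ σ' (i, k) ∈ B) := by
      ext σ'; simp [hC]
    rw [e2, e1]
    convert this
  · intro t ht σ i k h C hC B
    have := (h6 t ht σ i k h).2.2 B
    have e1 : C = univ.filter (fun σ' => H t σ' = H t σ) := by ext σ'; simp [hC]
    have e2 : C.filter (fun σ' => σ'.symm (i, k) ∈ B) =
        univ.filter (fun σ' => H t σ' = H t σ ∧ σ'.symm (i, k) ∈ B) := by
      ext σ'; simp [hC]
    rw [e2, e1]
    convert this
  · intro t ht σ
    have := h7 t ht σ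
    rw [fr_def, fr_def, div_mul_eq_mul_div, ← mul_div_assoc]
    gcongr
  · intro T hT σ P Q hP hQ
    have := h8 T hT σ
    have e1 : P = (range T).filter (fun t => (pv t σ).isSome) := by ext t; simp [hP]
    have e2 : Q = (range T).filter (fun t => hit t σ) := by ext t; simp [hQ]
    rw [e1, e2]
    convert this

lemma p_pV_hist {n d : ℕ} (P : PStrat n d) (z : ℂ) (S E : Finset (Fin n)) (t : ℕ) (ht : t < n * d)
    (σ σ' : Cfg n d) (h : P.H (t + 1) σ = P.H (t + 1) σ') :
    pV z S E σ (P.pv t σ) = pV z S E σ' (P.pv t σ') := by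
  have h0 := P.mono t ht σ σ' h
  have h1 := P.pvH t ht σ σ' h0
  rw [← h1]
  rcases hp : P.pv t σ with _ | ⟨i | j, k⟩
  · rfl
  · rw [pV_row, pV_row]
    split_ifs
    · rfl
    · have hh : ∀ k', hd σ i k' = hd σ' i k' := by
        intro k'
        unfold hd
        by_cases hk : k' = k
        · subst hk
          have := P.row2 t ht σ i k' hp
          rw [h] at this
          have := P.real (t + 1) ht σ' _ this
          simp only at this
          rw [this]
        · have := P.row1 t ht σ i k hp k' hk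
          rw [h0] at this
          have := P.real t ht.le σ' _ this
          simp only at this
          rw [this]
      unfold pRow
      simp_rw [hh]
  · rw [pV_col, pV_col]
    split_ifs
    · rfl
    · have hh : ∀ k', hd σ.symm j k' = hd σ'.symm j k' := by
        intro k'
        unfold hd
        by_cases hk : k' = k
        · subst hk
          have := P.col2 t ht σ j k' hp
          rw [h] at this
          have h9 := P.real (t + 1) ht σ' _ this
          simp only at h9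
          have h10 : σ'.symm (j, k') = σ.symm (j, k') := by rw [Equiv.symm_apply_eq]; exact h9.symm
          rw [h10]
        · have := P.col1 t ht σ j k hp k' hk
          rw [h0] at this
          have h9 := P.real t ht.le σ' _ this
          simp only at h9
          have h10 : σ'.symm (j, k') = σ.symm (j, k') := by rw [Equiv.symm_apply_eq]; exact h9.symm
          rw [h10]
      unfold pCol
      simp_rw [hh]

open Classical in
lemma p_cond {n d : ℕ} (P : PStrat n d) (z : ℂ) (S E : Finset (Fin n)) (t : ℕ) (ht : t < n * d)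
    (g : ℝ) (hg : 0 < g) (hgT : g ≤ (n : ℝ) * d - t) (r R M : ℝ) (hrR : r ≤ R) (hM : 0 ≤ M)
    (σ : Cfg n d) (x : PIx S → ℂ) (hx1 : ∀ b, (bc (fun i => x (Sum.inl i)) univ b R : ℝ) ≤ M)
    (hx2 : ∀ b, (bc (pYY S x) univ b R : ℝ) ≤ M) :
    (((univ : Finset (Cfg n d)).filter (fun σ' => P.H t σ' = P.H t σ ∧ pE E (P.pv t σ') ∧
      ‖∑ k, pV z S E σ' (P.pv t σ') k * x k‖ < r)).card : ℝ) ≤
    d * M / g * (((univ : Finset (Cfg n d)).filter (fun σ' => P.H t σ' = P.H t σ)).card : ℝ) := by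
  set C := (univ : Finset (Cfg n d)).filter (fun σ' => P.H t σ' = P.H t σ) with hC
  have hCm : ∀ σ', σ' ∈ C ↔ P.H t σ' = P.H t σ := by intro σ'; simp [hC]
  have hCσ : σ ∈ C := by rw [hCm]
  have hnn : 0 ≤ d * M / g * (C.card : ℝ) := by positivity
  have hm : (0 : ℝ) ≤ (n : ℝ) * d - t := hg.le.trans hgT
  have key : ∀ X : ℝ, 0 ≤ X → X * ((n : ℝ) * d - t) ≤ d * M * (C.card : ℝ) →
      X ≤ d * M / g * (C.card : ℝ) := by
    intro X hX h
    rw [div_mul_eq_mul_div, le_div_iff₀ hg]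
    exact (mul_le_mul_of_nonneg_left hgT hX).trans h
  rcases hp : P.pv t σ with _ | ⟨i | j, k⟩
  · have : (univ : Finset (Cfg n d)).filter (fun σ' => P.H t σ' = P.H t σ ∧ pE E (P.pv t σ') ∧
      ‖∑ k, pV z S E σ' (P.pv t σ') k * x k‖ < r) = ∅ := by
      rw [filter_eq_empty_iff]
      rintro σ' _ ⟨h1, h2, _⟩
      rw [P.pvH t ht σ' σ h1, hp] at h2
      exact h2
    rw [this]; simpa using hnn
  · by_cases hi : i ∈ E
    · have : (univ : Finset (Cfg n d)).filter (fun σ' => P.H t σ' = P.H t σ ∧ pE E (P.pv t σ') ∧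
        ‖∑ k, pV z S E σ' (P.pv t σ') k * x k‖ < r) = ∅ := by
        rw [filter_eq_empty_iff]
        rintro σ' _ ⟨h1, h2, _⟩
        rw [P.pvH t ht σ' σ h1, hp] at h2
        exact h2 hi
      rw [this]; simpa using hnn
    · apply key _ (Nat.cast_nonneg _)
      have h3 := P.row3 t ht σ i k hp C hCm
      have hk : ∀ σ' ∈ C, ∀ k', k' ≠ k → σ' (i, k') = σ (i, k') := by
        intro σ' hσ' k' hk'
        have h4 := P.row1 t ht σ i k hp k' hk'
        rw [← (hCm σ').1 hσ'] at h4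
        exact P.real t ht.le σ' _ h4
      have h5 := p_step C (fun σ' => σ') i k σ hk ((n : ℝ) * d - t) hm h3
        (fun i => x (Sum.inl i)) z r R M hrR hx1
      refine le_trans ?_ h5
      gcongr
      intro σ' h
      rw [mem_filter] at h ⊢
      refine ⟨(hCm σ').2 h.2.1, ?_⟩
      have h6 := h.2.2.2
      rw [P.pvH t ht σ' σ h.2.1, hp, pV_row, if_neg hi] at h6
      have h7 := p_dotRow z S σ' i x
      rw [dotProduct] at h7
      rw [h7] at h6
      exact h6
  · by_cases hi : j ∈ E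
    · have : (univ : Finset (Cfg n d)).filter (fun σ' => P.H t σ' = P.H t σ ∧ pE E (P.pv t σ') ∧
        ‖∑ k, pV z S E σ' (P.pv t σ') k * x k‖ < r) = ∅ := by
        rw [filter_eq_empty_iff]
        rintro σ' _ ⟨h1, h2, _⟩
        rw [P.pvH t ht σ' σ h1, hp] at h2
        exact h2 hi
      rw [this]; simpa using hnn
    · apply key _ (Nat.cast_nonneg _)
      have h3 := P.col3 t ht σ j k hp C hCm
      have hk : ∀ σ' ∈ C, ∀ k', k' ≠ k → σ'.symm (j, k') = σ.symm (j, k') := by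
        intro σ' hσ' k' hk'
        have h4 := P.col1 t ht σ j k hp k' hk'
        rw [← (hCm σ').1 hσ'] at h4
        have h8 := P.real t ht.le σ' _ h4
        simp only at h8
        rw [Equiv.symm_apply_eq]; exact h8.symm
      have h5 := p_step C (fun σ' => σ'.symm) j k σ hk ((n : ℝ) * d - t) hm h3
        (pYY S x) z r R M hrR hx2
      refine le_trans ?_ h5
      gcongr
      intro σ' h
      rw [mem_filter] at h ⊢
      refine ⟨(hCm σ').2 h.2.1, ?_⟩
      have h6 := h.2.2.2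
      rw [P.pvH t ht σ' σ h.2.1, hp, pV_col, if_neg hi] at h6
      have h7 := p_dotCol z S σ' j x
      rw [dotProduct] at h7
      rw [h7] at h6
      exact h6

lemma p_sum_powerset (T K : ℕ) (q : ℝ) (hq : 0 ≤ q) :
    ∑ T' ∈ powersetCard K (range T), ∏ _t ∈ T', q ≤ 2 ^ T * q ^ K := by
  have h1 : ∀ T' ∈ powersetCard K (range T), ∏ _t ∈ T', q = q ^ K := by
    intro T' hT'
    rw [prod_const, (mem_powersetCard.1 hT').2]
  rw [sum_congr rfl h1, sum_const, card_powersetCard, card_range, nsmul_eq_mul]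
  gcongr
  exact_mod_cast Nat.choose_le_two_pow T K

lemma p_fixed {n d : ℕ} (P : PStrat n d) (z : ℂ) (S E : Finset (Fin n)) (T : ℕ) (hT : T ≤ n * d)
    (g : ℝ) (hg : 0 < g) (hgT : ∀ t < T, g ≤ (n : ℝ) * d - t)
    (η₀ η r R M : ℝ) (hη : 0 < η) (h0 : 0 ≤ η₀) (hη₀ : (1 + d + ‖z‖) * η₀ ≤ η) (hr : 0 < r)
    (hrR : r ≤ R) (hM : 0 ≤ M) (V K : ℕ)
    (hV : ((Fintype.card (PIx S) : ℝ) + T * (2 * (d + ‖z‖)) ^ 2 / η ^ 2) ^ (Fintype.card (PIx S)) <
      (1 + r ^ 2 / (η ^ 2 * (11 + T))) ^ (V + 1)) :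
    fr (univ : Finset (Cfg n d)) (fun σ => ∃ w y : Fin n → ℂ, ∃ a : ℂ,
      Sol z (mult σ) E η₀ w ∧ Sol z (tr (mult σ)) E η₀ y ∧
      (∀ b, (bc w univ b R : ℝ) ≤ M) ∧ (∀ b, (bc y univ b R : ℝ) ≤ M) ∧
      (∀ i ∈ S, ‖w i + y i - a‖ ≤ η₀) ∧
      ‖a‖ ≤ 3 ∧ ∃ Q : Finset ℕ, (∀ t ∈ Q, t < T ∧ pE E (P.pv t σ)) ∧ V + K ≤ Q.card) ≤
    2 ^ T * (d * (2 * M) / g) ^ K := by
  classical
  have hlt : ∀ t < T, t < n * d := fun t ht => ht.trans_le hT
  have hq : 0 ≤ d * (2 * M) / g := by positivity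
  refine le_trans ?_ (p_sum_powerset T K _ hq)
  refine le_trans ?_ (redundancy (univ : Finset (Cfg n d)) P.H T
    (fun t ht ω _ ω' _ h => P.mono t (hlt t ht) ω ω' h)
    (fun t σ => pV z S E σ (P.pv t σ)) (fun t σ => pE E (P.pv t σ))
    (fun t ht ω _ ω' _ h => p_pV_hist P z S E t (hlt t ht) ω ω' h)
    (fun t ht ω _ ω' _ h => by
      rw [P.pvH t (hlt t ht) ω ω' (P.mono t (hlt t ht) ω ω' h)])
    {x | ∑ k, ‖x k‖ ^ 2 ≤ 11 ∧ (∀ b, (bc (fun i => x (Sum.inl i)) univ b R : ℝ) ≤ 2 * M) ∧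
      (∀ b, (bc (pYY S x) univ b R : ℝ) ≤ 2 * M)}
    η r ((2 * (d + ‖z‖)) ^ 2) 11 hη hr (by positivity) (by norm_num) (fun x hx => hx.1)
    (fun t _ ω _ => pN_pV z S E ω _) (fun _ => d * (2 * M) / g) (fun _ => hq)
    ?_ V K hV)
  · apply fr_mono
    rintro σ _ ⟨w, y, a, hw, hy, hw2, hy2, hS, ha, Q, hQ, hQc⟩
    refine ⟨pX S w y a, ⟨p_norm_pX S w y a hw.1 hy.1 ha, ?_, ?_⟩, ?_, ?_⟩
    · intro b
      have := hw2 b
      have h1 : (fun i => pX S w y a (Sum.inl i)) = w := rfl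
      rw [h1]; linarith
    · intro b
      have h1 : bc (pYY S (pX S w y a)) univ b R ≤ bc y univ b R + bc w univ (a - b) R := by
        unfold bc
        refine le_trans ?_ (card_union_le _ _)
        apply card_le_card
        intro i hi
        simp only [mem_filter, mem_univ, true_and, mem_union] at hi ⊢
        rw [pYY_pX] at hi
        split_ifs at hi with h
        · right
          rwa [show a - w i - b = -(w i - (a - b)) by ring, norm_neg] at hi
        · left; exact hi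
      have h2 : (bc (pYY S (pX S w y a)) univ b R : ℝ) ≤ bc y univ b R + bc w univ (a - b) R := by
        exact_mod_cast h1
      have h3 := hw2 (a - b)
      have h4 := hy2 b
      linarith
    · intro t ht
      have hη1 : η₀ ≤ (1 + d + ‖z‖) * η₀ := by
        nlinarith [norm_nonneg z, (Nat.cast_nonneg d : (0 : ℝ) ≤ d)]
      have e0 : ∑ k, pV z S E σ (P.pv t σ) k * pX S w y a k =
        pV z S E σ (P.pv t σ) ⬝ᵥ pX S w y a := rfl
      rw [e0]
      rcases hp : P.pv t σ with _ | ⟨i | j, k⟩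
      · have : pV z S E σ none = 0 := rfl
        rw [this, zero_dotProduct, norm_zero]; exact hη.le
      · rw [pV_row]
        split_ifs with hi
        · rw [zero_dotProduct, norm_zero]; exact hη.le
        · rw [p_dotRow]
          have h1 := hw.2 i hi
          rw [L_mult] at h1
          exact (h1.trans hη1).trans hη₀
      · rw [pV_col]
        split_ifs with hi
        · rw [zero_dotProduct, norm_zero]; exact hη.le
        · rw [p_dotCol]
          have h1 := hy.2 j hi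
          rw [← mult_symm, L_mult] at h1
          have hd1 : ∀ i, ‖pYY S (pX S w y a) i - y i‖ ≤ η₀ := by
            intro i
            rw [pYY_pX]
            split_ifs with h
            · have := hS i h
              rwa [show a - w i - y i = -(w i + y i - a) by ring, norm_neg]
            · rw [sub_self, norm_zero]; exact h0
          have h2 : ∑ l, pYY S (pX S w y a) (hd σ.symm j l) - z * pYY S (pX S w y a) j =
              (∑ l, y (hd σ.symm j l) - z * y j) +
              (∑ l, (pYY S (pX S w y a) (hd σ.symm j l) - y (hd σ.symm j l)) -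
                z * (pYY S (pX S w y a) j - y j)) := by
            rw [sum_sub_distrib]; ring
          rw [h2]
          have h3 : ‖∑ l, (pYY S (pX S w y a) (hd σ.symm j l) - y (hd σ.symm j l))‖ ≤ d * η₀ := by
            refine (norm_sum_le _ _).trans ?_
            refine (sum_le_sum fun l _ => hd1 _).trans ?_
            simp
          have h4 : ‖z * (pYY S (pX S w y a) j - y j)‖ ≤ ‖z‖ * η₀ := by
            rw [norm_mul]
            exact mul_le_mul_of_nonneg_left (hd1 j) (norm_nonneg z)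
          calc _ ≤ ‖(∑ l, y (hd σ.symm j l) - z * y j)‖ + (‖∑ l, (pYY S (pX S w y a)
                (hd σ.symm j l) - y (hd σ.symm j l))‖ + ‖z * (pYY S (pX S w y a) j - y j)‖) :=
                (norm_add_le _ _).trans (add_le_add le_rfl (norm_sub_le _ _))
            _ ≤ η₀ + (d * η₀ + ‖z‖ * η₀) := by gcongr
            _ = (1 + d + ‖z‖) * η₀ := by ring
            _ ≤ η := hη₀
    · refine hQc.trans (card_le_card ?_)
      intro t ht
      rw [mem_filter, mem_range]
      exact hQ t ht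
  · intro t ht σ _ x hx
    have := p_cond P z S E t (hlt t ht) g hg (hgT t ht) r R (2 * M) hrR (by positivity) σ x
      hx.2.1 hx.2.2
    convert this

end Pool.Agent.SMin
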