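import Pool.Agent.SMin.Base

set_option autoImplicit false
open Finset Filter

namespace Pool.Agent.SMin

/-- the matrix `A - z` -/
noncomputable def Mz {n : ℕ} (z : ℂ) (A : Fin n → Fin n → Bool) : Matrix (Fin n) (Fin n) ℂ :=
  Matrix.of (fun i j => if A i j = true then (1 : ℂ) else 0) - z • (1 : Matrix (Fin n) (Fin n) ℂ)

/-- the scalar `N_ij = 1 + z p^T G p`, `p = e_i - e_j`, `G = (A - z)⁻¹` -/
noncomputable def Nij {n : ℕ} (z : ℂ) (A : Fin n → Fin n → Bool) (i j : Fin n) : ℂ :=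
  1 + z * (((Mz z A)⁻¹ i i) - ((Mz z A)⁻¹ i j) - ((Mz z A)⁻¹ j i) + ((Mz z A)⁻¹ j j))

section aux
open Matrix

variable {ι : Type*} [Fintype ι] [DecidableEq ι]

/-- the difference vector e_i - e_j -/
def pv (i j : ι) : ι → ℂ := Pi.single i 1 - Pi.single j 1

theorem swap_mat (A : Matrix ι ι ℂ) (z : ℂ) {i j : ι} (hij : i ≠ j) :
    (Matrix.of (fun r c => A (Equiv.swap i j r) c) - z • (1 : Matrix ι ι ℂ)) =
      (Matrix.of (fun r c => (1 : Matrix ι ι ℂ) (Equiv.swap i j r) c)) *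
        ((A - z • (1 : Matrix ι ι ℂ)) + z • Matrix.vecMulVec (pv i j) (pv i j)) := by
  ext r c
  simp only [Matrix.mul_apply, Matrix.of_apply, Matrix.sub_apply, Matrix.add_apply, Matrix.smul_apply,
    Matrix.one_apply, Matrix.vecMulVec_apply, pv, Pi.sub_apply, Pi.single_apply, smul_eq_mul]
  simp only [ite_mul, one_mul, zero_mul, Finset.sum_ite_eq, Finset.mem_univ, if_true]
  by_cases hri : r = i
  · subst hri
    simp only [Equiv.swap_apply_left]
    by_cases hcj : c = j
    · subst hcj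
      simp [hij, hij.symm]
    · by_cases hcr : c = r
      · subst hcr; simp [hij, hij.symm, sub_eq_add_neg]
      · simp [hcj, hcr, Ne.symm hcj, Ne.symm hcr, hij.symm]
        
  · by_cases hrj : r = j
    · subst hrj
      simp only [Equiv.swap_apply_right]
      by_cases hci : c = i
      · subst hci
        simp [hij, hij.symm]
      · by_cases hcr : c = r
        · subst hcr; simp [hij, hij.symm, sub_eq_add_neg]
        · simp [hci, hcr, Ne.symm hci, Ne.symm hcr, hij]
    · rw [Equiv.swap_apply_of_ne_of_ne hri hrj]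
      simp [hri, hrj]

theorem det_swap_aux (A : Matrix ι ι ℂ) (z : ℂ) {i j : ι} (hij : i ≠ j)
    (hdet : IsUnit (A - z • (1 : Matrix ι ι ℂ)).det) :
    (Matrix.of (fun r c => A (Equiv.swap i j r) c) - z • (1 : Matrix ι ι ℂ)).det =
      - ((A - z • (1 : Matrix ι ι ℂ)).det *
        (1 + z * ((A - z • (1 : Matrix ι ι ℂ))⁻¹ i i + (A - z • (1 : Matrix ι ι ℂ))⁻¹ j j
          - (A - z • (1 : Matrix ι ι ℂ))⁻¹ i j - (A - z • (1 : Matrix ι ι ℂ))⁻¹ j i))) := by
  rw [swap_mat A z hij, Matrix.det_mul]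
  have h1 : (Matrix.of (fun r c => (1 : Matrix ι ι ℂ) (Equiv.swap i j r) c)).det = -1 := by
    have : (Matrix.of (fun r c => (1 : Matrix ι ι ℂ) (Equiv.swap i j r) c))
        = (1 : Matrix ι ι ℂ).submatrix (Equiv.swap i j) id := by
      ext r c; rfl
    rw [this, Matrix.det_permute]
    simp [Equiv.Perm.sign_swap hij]
  rw [h1]
  have h2 : (z • Matrix.vecMulVec (pv i j) (pv i j)) =
      Matrix.replicateCol Unit (z • pv i j) * Matrix.replicateRow Unit (pv i j) := by
    rw [← Matrix.vecMulVec_eq]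
    ext r c
    simp [Matrix.vecMulVec_apply, mul_assoc]
  rw [h2, Matrix.det_add_replicateCol_mul_replicateRow hdet]
  have h3 : (1 + Matrix.replicateRow Unit (pv i j) * (A - z • (1 : Matrix ι ι ℂ))⁻¹ *
      Matrix.replicateCol Unit (z • pv i j)).det =
      (1 + z * ((A - z • (1 : Matrix ι ι ℂ))⁻¹ i i + (A - z • (1 : Matrix ι ι ℂ))⁻¹ j j
          - (A - z • (1 : Matrix ι ι ℂ))⁻¹ i j - (A - z • (1 : Matrix ι ι ℂ))⁻¹ j i)) := by
    rw [Matrix.det_unique]
    simp only [Matrix.add_apply, Matrix.one_apply_eq, Matrix.mul_apply, Matrix.replicateRow_apply,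
      Matrix.replicateCol_apply, pv, Pi.sub_apply, Pi.smul_apply, smul_eq_mul, Pi.single_apply]
    simp only [sub_mul, ite_mul, one_mul, zero_mul, Finset.sum_sub_distrib, Finset.sum_ite_eq',
      Finset.mem_univ, if_true, mul_sub, mul_ite, mul_one, mul_zero]
    ring
  rw [h3]
  ring


end aux

theorem det_swap {n : ℕ} (z : ℂ) (A : Fin n → Fin n → Bool) (i j : Fin n) (hij : i ≠ j)
    (hA : (Mz z A).det ≠ 0) :
    (Mz z (fun k => A (Equiv.swap i j k))).det = - Nij z A i j * (Mz z A).det := by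
  have h := det_swap_aux (Matrix.of (fun i j => if A i j = true then (1 : ℂ) else 0)) z hij
    (isUnit_iff_ne_zero.2 hA)
  have e : Mz z (fun k => A (Equiv.swap i j k)) =
      (Matrix.of (fun r c => (Matrix.of (fun i j => if A i j = true then (1 : ℂ) else 0))
        (Equiv.swap i j r) c) - z • (1 : Matrix (Fin n) (Fin n) ℂ)) := rfl
  rw [e, h]
  unfold Nij Mz
  ring

lemma Nij_self {n : ℕ} (z : ℂ) (A : Fin n → Fin n → Bool) (i : Fin n) : Nij z A i i = 1 := by
  unfold Nij
  ring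

lemma swap_mem_Reg {n d : ℕ} {A : Fin n → Fin n → Bool} (hA : A ∈ Reg n d) (i j : Fin n) :
    (fun k => A (Equiv.swap i j k)) ∈ Reg n d := by
  rw [mem_Reg] at hA ⊢
  refine ⟨fun k => hA.1 _, fun c => ?_⟩
  rw [← hA.2 c]
  apply card_bij (fun k _ => Equiv.swap i j k)
  · intro k hk
    simpa using hk
  · intro k _ l _ h
    exact (Equiv.swap i j).injective h
  · intro k hk
    refine ⟨Equiv.swap i j k, ?_, Equiv.swap_apply_self i j k⟩
    simpa using hk

lemma Nij_swap_mul {n : ℕ} (z : ℂ) (A : Fin n → Fin n → Bool) (i j : Fin n) (hij : i ≠ j)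
    (hA : (Mz z A).det ≠ 0) (hA' : (Mz z (fun k => A (Equiv.swap i j k))).det ≠ 0) :
    Nij z (fun k => A (Equiv.swap i j k)) i j * Nij z A i j = 1 := by
  have h1 := det_swap z A i j hij hA
  have h2 := det_swap z (fun k => A (Equiv.swap i j k)) i j hij hA'
  have e : (fun k => (fun k => A (Equiv.swap i j k)) (Equiv.swap i j k)) = A := by
    funext k
    simp
  rw [e, h1] at h2
  have h3 : (Mz z A).det *
      (Nij z (fun k => A (Equiv.swap i j k)) i j * Nij z A i j - 1) = 0 := by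
    linear_combination -h2
  rcases mul_eq_zero.1 h3 with h | h
  · exact absurd h hA
  · exact sub_eq_zero.1 h

lemma fr_prod_left {α β : Type*} (S : Finset α) (T : Finset β) (hT : T.Nonempty) (P : α → Prop) :
    fr S P = fr (S ×ˢ T) (fun s => P s.1) := by
  classical
  rw [fr_def, fr_def]
  have h : (S ×ˢ T).filter (fun s => P s.1) = (S.filter P) ×ˢ T := by
    ext s
    simp only [mem_filter, mem_product]
    tauto
  rw [h, card_product, card_product]
  push_cast
  have : (T.card : ℝ) ≠ 0 := by exact_mod_cast hT.card_pos.ne'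
  rw [mul_div_mul_right _ _ this]

/-- row-swap step and exchangeability -/
theorem smin_le_two (d : ℕ) (z : ℂ) (hz0 : z ≠ 0) (n : ℕ) (hinv : ∀ A ∈ Reg n d, (Mz z A).det ≠ 0)
    (Z : (Fin n → Fin n → Bool) → Prop) (hn : 0 < n) (t : ℝ) (ht : 0 < t) :
    fr (Reg n d) Z ≤
      fr (Reg n d ×ˢ (univ : Finset (Fin n × Fin n))) (fun s => Z s.1 ∧ ‖Nij z s.1 s.2.1 s.2.2‖ ≤ t) +
      fr (Reg n d ×ˢ (univ : Finset (Fin n × Fin n))) (fun s => ‖Nij z s.1 s.2.1 s.2.2‖ ≤ 1 / t) := by
  classical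
  have hne : (univ : Finset (Fin n × Fin n)).Nonempty := ⟨(⟨0, hn⟩, ⟨0, hn⟩), mem_univ _⟩
  rw [fr_prod_left (Reg n d) (univ : Finset (Fin n × Fin n)) hne Z]
  have h1 : fr (Reg n d ×ˢ (univ : Finset (Fin n × Fin n))) (fun s => Z s.1) ≤
      fr (Reg n d ×ˢ (univ : Finset (Fin n × Fin n)))
        (fun s => (Z s.1 ∧ ‖Nij z s.1 s.2.1 s.2.2‖ ≤ t) ∨ t < ‖Nij z s.1 s.2.1 s.2.2‖) := by
    apply fr_mono
    intro s _ hs
    rcases le_or_gt (‖Nij z s.1 s.2.1 s.2.2‖) t with h | h
    · exact Or.inl ⟨hs, h⟩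
    · exact Or.inr h
  refine h1.trans ((fr_or_le _ _ _).trans ?_)
  gcongr
  apply fr_le_of_injOn _ (fun s : (Fin n → Fin n → Bool) × (Fin n × Fin n) =>
    ((fun k => s.1 (Equiv.swap s.2.1 s.2.2 k)), s.2))
  · rintro ⟨A, i, j⟩ hs ht'
    rw [mem_product] at hs
    refine ⟨mem_product.2 ⟨swap_mem_Reg hs.1 i j, mem_univ _⟩, ?_⟩
    show ‖Nij z (fun k => A (Equiv.swap i j k)) i j‖ ≤ 1 / t
    have ht'' : t < ‖Nij z A i j‖ := ht'
    by_cases hij : i = j
    · subst hij
      rw [Nij_self, norm_one] at ht'' ⊢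
      rw [le_div_iff₀ ht]
      linarith
    · have hmul := Nij_swap_mul z A i j hij (hinv A hs.1) (hinv _ (swap_mem_Reg hs.1 i j))
      have h2 : ‖Nij z (fun k => A (Equiv.swap i j k)) i j‖ * ‖Nij z A i j‖ = 1 := by
        rw [← norm_mul, hmul, norm_one]
      rw [le_div_iff₀ ht, ← h2]
      exact mul_le_mul_of_nonneg_left ht''.le (norm_nonneg _)
  · rintro ⟨A, i, j⟩ _ ⟨B, k, l⟩ _ h
    simp only [Prod.mk.injEq] at h
    obtain ⟨h1, h2, h3⟩ := h
    subst h2
    subst h3
    have : A = B := by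
      funext m
      have := congrFun h1 (Equiv.swap i j m)
      simpa using this
    rw [this]

open Classical in
theorem rect {α : Type*} {n : ℕ} (hn : 0 < n) (S : Finset α) (H : α → Fin n → Fin n → Prop) (κ : ℝ)
    (hκ : 0 ≤ κ) (h : κ ≤ fr (S ×ˢ (univ : Finset (Fin n × Fin n))) (fun t => H t.1 t.2.1 t.2.2)) :
    κ ^ 2 / 2 ≤ fr (S ×ˢ (univ : Finset (Fin n × Fin n))) (fun t =>
      κ ^ 2 / 2 * n ≤ ((univ.filter (fun i => H t.1 i t.2.1 ∧ H t.1 i t.2.2)).card : ℝ)) := by
  rcases S.eq_empty_or_nonempty with hS | hS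
  · have h0 : fr (S ×ˢ (univ : Finset (Fin n × Fin n))) (fun t => H t.1 t.2.1 t.2.2) = 0 := by
      rw [fr_def, hS]
      simp
    rw [h0] at h
    have : κ = 0 := le_antisymm h hκ
    rw [this]
    have := fr_nonneg (S ×ˢ (univ : Finset (Fin n × Fin n))) (fun t =>
      (0 : ℝ) ^ 2 / 2 * n ≤ ((univ.filter (fun i => H t.1 i t.2.1 ∧ H t.1 i t.2.2)).card : ℝ))
    simpa using this
  have hn' : (0 : ℝ) < n := by exact_mod_cast hn
  have hS' : (0 : ℝ) < S.card := by exact_mod_cast hS.card_pos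
  -- indicator
  set χ : α → Fin n → Fin n → ℝ := fun a i j => if H a i j then 1 else 0 with hχ
  have hχ0 : ∀ a i j, 0 ≤ χ a i j := by
    intro a i j
    simp only [hχ]
    split_ifs <;> norm_num
  have hcardtot : (((S ×ˢ (univ : Finset (Fin n × Fin n))).card : ℕ) : ℝ) = S.card * (n * n) := by
    rw [card_product, card_univ, Fintype.card_prod, Fintype.card_fin]
    push_cast
    ring
  -- total sum
  have hsum1 : (((S ×ˢ (univ : Finset (Fin n × Fin n))).filter
      (fun t => H t.1 t.2.1 t.2.2)).card : ℝ) = ∑ a ∈ S, ∑ i, ∑ j, χ a i j := by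
    rw [card_filter]
    push_cast
    rw [sum_product]
    refine sum_congr rfl fun a _ => ?_
    rw [← univ_product_univ, sum_product]
  have h1 : κ * (S.card * (n * n)) ≤ ∑ a ∈ S, ∑ i, ∑ j, χ a i j := by
    rw [← hsum1, ← hcardtot, card_filter_eq_fr_mul]
    exact mul_le_mul_of_nonneg_right h (Nat.cast_nonneg _)
  -- Cauchy-Schwarz
  have hCS : (∑ a ∈ S, ∑ i, ∑ j, χ a i j) ^ 2 ≤
      (S.card * n) * ∑ a ∈ S, ∑ i, (∑ j, χ a i j) ^ 2 := by
    have := sq_sum_le_card_mul_sum_sq (s := S ×ˢ (univ : Finset (Fin n)))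
      (f := fun p => ∑ j, χ p.1 p.2 j)
    rw [sum_product, sum_product, card_product, card_univ, Fintype.card_fin] at this
    push_cast at this
    exact this
  -- second moment
  have hsq : ∀ a, ∑ i, (∑ j, χ a i j) ^ 2 =
      ∑ p : Fin n × Fin n, ((univ.filter (fun i => H a i p.1 ∧ H a i p.2)).card : ℝ) := by
    intro a
    have e1 : ∀ p : Fin n × Fin n, ((univ.filter (fun i => H a i p.1 ∧ H a i p.2)).card : ℝ) =
        ∑ i, χ a i p.1 * χ a i p.2 := by
      intro p
      rw [card_filter]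
      push_cast
      refine sum_congr rfl fun i _ => ?_
      simp only [hχ]
      by_cases h1 : H a i p.1 <;> by_cases h2 : H a i p.2 <;> simp [h1, h2]
    simp_rw [e1]
    rw [sum_comm]
    refine sum_congr rfl fun i _ => ?_
    rw [sq, sum_mul_sum, ← univ_product_univ, sum_product]
  have hsum2 : ∑ a ∈ S, ∑ i, (∑ j, χ a i j) ^ 2 =
      ∑ t ∈ S ×ˢ (univ : Finset (Fin n × Fin n)),
        ((univ.filter (fun i => H t.1 i t.2.1 ∧ H t.1 i t.2.2)).card : ℝ) := by
    rw [sum_product]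
    exact sum_congr rfl fun a _ => hsq a
  -- upper bound of the second moment
  set G : Finset (α × (Fin n × Fin n)) := (S ×ˢ (univ : Finset (Fin n × Fin n))).filter (fun t =>
      κ ^ 2 / 2 * n ≤ ((univ.filter (fun i => H t.1 i t.2.1 ∧ H t.1 i t.2.2)).card : ℝ)) with hG
  have hup : ∑ t ∈ S ×ˢ (univ : Finset (Fin n × Fin n)),
        ((univ.filter (fun i => H t.1 i t.2.1 ∧ H t.1 i t.2.2)).card : ℝ) ≤
      n * (G.card : ℝ) + κ ^ 2 / 2 * n * (S.card * (n * n)) := by
    rw [← sum_filter_add_sum_filter_not (S ×ˢ (univ : Finset (Fin n × Fin n))) (fun t =>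
      κ ^ 2 / 2 * n ≤ ((univ.filter (fun i => H t.1 i t.2.1 ∧ H t.1 i t.2.2)).card : ℝ))]
    apply add_le_add
    · calc ∑ t ∈ G, ((univ.filter (fun i => H t.1 i t.2.1 ∧ H t.1 i t.2.2)).card : ℝ)
          ≤ ∑ _t ∈ G, (n : ℝ) := by
            apply sum_le_sum
            intro t _
            have : (univ.filter (fun i => H t.1 i t.2.1 ∧ H t.1 i t.2.2)).card ≤ n := by
              refine (card_filter_le _ _).trans ?_
              rw [card_univ, Fintype.card_fin]
            exact_mod_cast this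
        _ = n * (G.card : ℝ) := by rw [sum_const, nsmul_eq_mul, mul_comm]
    · rw [← hcardtot]
      calc ∑ t ∈ (S ×ˢ (univ : Finset (Fin n × Fin n))).filter (fun t => ¬
            κ ^ 2 / 2 * n ≤ ((univ.filter (fun i => H t.1 i t.2.1 ∧ H t.1 i t.2.2)).card : ℝ)),
            ((univ.filter (fun i => H t.1 i t.2.1 ∧ H t.1 i t.2.2)).card : ℝ)
          ≤ ∑ _t ∈ (S ×ˢ (univ : Finset (Fin n × Fin n))).filter (fun t => ¬
            κ ^ 2 / 2 * n ≤ ((univ.filter (fun i => H t.1 i t.2.1 ∧ H t.1 i t.2.2)).card : ℝ)),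
              κ ^ 2 / 2 * n := by
            apply sum_le_sum
            intro t ht
            rw [mem_filter] at ht
            exact (not_le.1 ht.2).le
        _ = (((S ×ˢ (univ : Finset (Fin n × Fin n))).filter (fun t => ¬
            κ ^ 2 / 2 * n ≤
              ((univ.filter (fun i => H t.1 i t.2.1 ∧ H t.1 i t.2.2)).card : ℝ))).card : ℝ) *
              (κ ^ 2 / 2 * n) := by rw [sum_const, nsmul_eq_mul]
        _ ≤ ((S ×ˢ (univ : Finset (Fin n × Fin n))).card : ℝ) * (κ ^ 2 / 2 * n) := by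
            gcongr
            exact filter_subset _ _
        _ = _ := by ring
  -- conclusion
  have hfin : (κ * (S.card * (n * n))) ^ 2 ≤ (S.card * n) *
      (n * (G.card : ℝ) + κ ^ 2 / 2 * n * (S.card * (n * n))) := by
    calc (κ * (S.card * (n * n))) ^ 2 ≤ (∑ a ∈ S, ∑ i, ∑ j, χ a i j) ^ 2 :=
          pow_le_pow_left₀ (by positivity) h1 2
      _ ≤ _ := hCS
      _ ≤ _ := by
          rw [hsum2]
          exact mul_le_mul_of_nonneg_left hup (by positivity)
  rw [fr_def, hcardtot, ← hG, le_div_iff₀ (by positivity)]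
  have hpos : (0 : ℝ) < S.card * n * n := by positivity
  have : (S.card * n * n : ℝ) * (κ ^ 2 / 2 * (S.card * (n * n))) ≤ (S.card * n * n) * G.card := by
    nlinarith [hfin]
  exact le_of_mul_le_mul_left this hpos

theorem good_z (d : ℕ) : ∀ᵐ z : ℂ ∂(MeasureTheory.volume : MeasureTheory.Measure ℂ),
    z ≠ 0 ∧ z ≠ (d : ℂ) ∧ ∀ n : ℕ, ∀ A : Fin n → Fin n → Bool, (Mz z A).det ≠ 0 := by
  have key : ∀ s : Set ℂ, s.Countable →
      ∀ᵐ z : ℂ ∂(MeasureTheory.volume : MeasureTheory.Measure ℂ), z ∉ s := by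
    intro s hs
    exact hs.ae_notMem _
  have h1 := key {0} (Set.countable_singleton _)
  have h2 := key {(d : ℂ)} (Set.countable_singleton _)
  have h3 : ∀ᵐ z : ℂ ∂(MeasureTheory.volume : MeasureTheory.Measure ℂ),
      ∀ n : ℕ, ∀ A : Fin n → Fin n → Bool, (Mz z A).det ≠ 0 := by
    rw [MeasureTheory.ae_all_iff]
    intro n
    rw [MeasureTheory.ae_all_iff]
    intro A
    set B : Matrix (Fin n) (Fin n) ℂ := Matrix.of (fun i j => if A i j = true then (1 : ℂ) else 0)
      with hB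
    have hfin : {z : ℂ | (Mz z A).det = 0}.Finite := by
      apply (B.charpoly.roots.toFinset.finite_toSet).subset
      intro z hz
      have hz' : (Mz z A).det = 0 := hz
      rw [Finset.mem_coe, Multiset.mem_toFinset, Polynomial.mem_roots (Matrix.charpoly_monic B).ne_zero,
        Polynomial.IsRoot.def, Matrix.eval_charpoly]
      have e : Matrix.scalar (Fin n) z - B = -(Mz z A) := by
        unfold Mz
        rw [← hB, neg_sub]
        congr 1
        ext i j
        simp [Matrix.scalar_apply, Matrix.diagonal_apply, Matrix.one_apply]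
      rw [e, Matrix.det_neg, hz', mul_zero]
    filter_upwards [key _ hfin.countable] with z hz
    exact hz
  filter_upwards [h1, h2, h3] with z hz1 hz2 hz3
  exact ⟨hz1, hz2, hz3⟩

end Pool.Agent.SMin
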