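import Pool.Agent.SMin.SMain
import Pool.Agent.SMin.Pair
import Pool.Agent.SMin.Swap

set_option autoImplicit false
open Finset Filter

namespace Pool.Agent.SMin

/-- scaling of the ball count -/
lemma fc_bc_scale {n : ℕ} (x : Fin n → ℂ) (s : ℝ) (hs : 0 < s) (b : ℂ) (r : ℝ) :
    bc (fun k => x k / s) univ (b / s) r = bc x univ b (r * s) := by
  classical
  unfold bc
  congr 1
  ext k
  simp only [mem_filter, mem_univ, true_and]
  rw [← sub_div, norm_div, Complex.norm_real, Real.norm_of_nonneg hs.le, div_le_iff₀ hs]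

lemma fc_norm_le {n : ℕ} (x : Fin n → ℂ) (k : Fin n) : ‖x k‖ ≤ Real.sqrt (∑ k, ‖x k‖ ^ 2) := by
  apply Real.le_sqrt_of_sq_le
  exact single_le_sum (f := fun k => ‖x k‖ ^ 2) (fun i _ => by positivity) (mem_univ k)

lemma fc_sum_scale {n : ℕ} (x : Fin n → ℂ) (s : ℝ) (hs : 0 < s) :
    ∑ k, ‖x k / s‖ ^ 2 = (∑ k, ‖x k‖ ^ 2) / s ^ 2 := by
  rw [sum_div]
  apply sum_congr rfl
  intro k _
  rw [norm_div, Complex.norm_real, Real.norm_of_nonneg hs.le, div_pow]

lemma fc_L_scale {n : ℕ} (z : ℂ) (m : Fin n → Fin n → ℕ) (x : Fin n → ℂ) (s : ℂ) (i : Fin n) :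
    L z m (fun k => x k / s) i = L z m x i / s := by
  unfold L
  rw [sub_div, sum_div]
  congr 1
  · apply sum_congr rfl; intro j _; ring
  · ring

/-- a level set for the sum when the second vector is negligible gives a level set for the first -/
lemma fc_one {n : ℕ} (w y : Fin n → ℂ) (a : ℂ) (Nw Ny e1 e2 e3 : ℝ) (hNw : 0 < Nw)
    (hNy : Ny = Real.sqrt (∑ k, ‖y k‖ ^ 2)) (hsmall : Ny ≤ e2 * Nw) (he : e1 + e2 ≤ e3) :
    bc (fun i => w i + y i) univ a (e1 * Nw) ≤ bc (fun k => w k / Nw) univ (a / Nw) e3 := by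
  classical
  rw [fc_bc_scale w Nw hNw]
  unfold bc
  apply card_le_card
  intro k hk
  simp only [mem_filter, mem_univ, true_and] at hk ⊢
  have h1 : ‖y k‖ ≤ Ny := by rw [hNy]; exact fc_norm_le y k
  have h2 : w k - a = (w k + y k - a) - y k := by ring
  rw [h2]
  calc ‖(w k + y k - a) - y k‖ ≤ ‖w k + y k - a‖ + ‖y k‖ := norm_sub_le _ _
    _ ≤ e1 * Nw + e2 * Nw := by linarith
    _ = (e1 + e2) * Nw := by ring
    _ ≤ e3 * Nw := mul_le_mul_of_nonneg_right he hNw.le

/-- rescaling from the own norm to the common norm -/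
lemma fc_lev {n : ℕ} (w : Fin n → ℂ) (Nw W rp e4 e8 : ℝ) (hNw : 0 < Nw) (hW : 0 < W)
    (hge : e4 * W ≤ Nw) (hrp : rp ≤ e8 * e4) (he8 : 0 ≤ e8) (T : ℝ)
    (h : ∀ b : ℂ, (bc (fun k => w k / Nw) univ b e8 : ℝ) < T) (b : ℂ) :
    (bc (fun k => w k / W) univ b rp : ℝ) < T := by
  classical
  have h1 := h (b * W / Nw)
  refine lt_of_le_of_lt ?_ h1
  rw [fc_bc_scale w Nw hNw]
  have h2 : b = (b * W) / W := by
    rw [mul_div_assoc, div_self (by exact_mod_cast hW.ne'), mul_one]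
  have h3 : bc (fun k => w k / W) univ b rp = bc w univ (b * W) (rp * W) := by
    conv_lhs => rw [h2]
    rw [fc_bc_scale w W hW]
  rw [h3]
  have h4 : rp * W ≤ e8 * Nw := by
    calc rp * W ≤ e8 * e4 * W := mul_le_mul_of_nonneg_right hrp hW.le
      _ = e8 * (e4 * W) := by ring
      _ ≤ e8 * Nw := mul_le_mul_of_nonneg_left hge he8
  exact_mod_cast bc_mono w (Subset.refl _) (b * W) h4

/-- deterministic part of `F_core` -/
lemma fc_det {n : ℕ} (w y : Fin n → ℂ) (a : ℂ) (κ ρ θ ec em ep e4 e8 : ℝ)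
    (hθκ : θ ≤ κ) (hθρ : θ ≤ ρ) (he0 : 0 < e4) (hee : 0 < ec)
    (h1 : ec + e4 ≤ e8) (h2 : ec ≤ em) (h3 : ep ≤ e8 * e4)
    (hw : 0 < ∑ k, ‖w k‖ ^ 2) (hy : 0 < ∑ k, ‖y k‖ ^ 2)
    (hlw : ∀ b : ℂ, (bc (fun k => w k / (Real.sqrt (∑ k, ‖w k‖ ^ 2) : ℝ)) univ b e8 : ℝ) < θ * n)
    (hly : ∀ b : ℂ, (bc (fun k => y k / (Real.sqrt (∑ k, ‖y k‖ ^ 2) : ℝ)) univ b e8 : ℝ) < θ * n)
    (hs : κ * n ≤ (bc (fun i => w i + y i) univ a
      (ec * Real.sqrt (max (∑ k, ‖w k‖ ^ 2) (∑ k, ‖y k‖ ^ 2))) : ℝ)) :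
    ∃ W : ℝ, 0 < W ∧ (∑ k, ‖w k / W‖ ^ 2 ≤ 1) ∧ (∑ k, ‖y k / W‖ ^ 2 ≤ 1) ∧
      (∀ b : ℂ, (bc (fun k => w k / W) univ b ep : ℝ) < ρ * n) ∧
      (∀ b : ℂ, (bc (fun k => y k / W) univ b ep : ℝ) < ρ * n) ∧
      κ * n ≤ (bc (fun i => w i / W + y i / W) univ (a / W) em : ℝ) := by
  classical
  set Sw := ∑ k, ‖w k‖ ^ 2 with hSw
  set Sy := ∑ k, ‖y k‖ ^ 2 with hSy
  set Nw := Real.sqrt Sw with hNw
  set Ny := Real.sqrt Sy with hNy
  set W := Real.sqrt (max Sw Sy) with hWdef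
  have hNw0 : 0 < Nw := Real.sqrt_pos.2 hw
  have hNy0 : 0 < Ny := Real.sqrt_pos.2 hy
  have hW0 : 0 < W := Real.sqrt_pos.2 (lt_of_lt_of_le hw (le_max_left _ _))
  have hWmax : W = max Nw Ny := by
    rw [hWdef, hNw, hNy]
    rcases le_total Sw Sy with h | h
    · rw [max_eq_right h, max_eq_right (Real.sqrt_le_sqrt h)]
    · rw [max_eq_left h, max_eq_left (Real.sqrt_le_sqrt h)]
  have hn0 : (0:ℝ) ≤ n := by positivity
  have hθκn : θ * n ≤ κ * n := mul_le_mul_of_nonneg_right hθκ hn0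
  have hθρn : θ * n ≤ ρ * n := mul_le_mul_of_nonneg_right hθρ hn0
  have he8 : 0 ≤ e8 := by linarith
  -- both norms are comparable with `W`
  have hcw : e4 * W ≤ Nw := by
    by_contra hlt
    push Not at hlt
    have hWy : W = Ny := by
      rw [hWmax]
      apply max_eq_right
      by_contra h5
      push Not at h5
      have h6 : W = Nw := by rw [hWmax]; exact max_eq_left h5.le
      -- then `Nw < e4 * Nw`, so `e4 > 1`; use `Ny ≤ Nw ≤ ...`
      have h7 : Ny ≤ e4 * Nw := by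
        rw [h6] at hlt; linarith
      have h8 := fc_one w y a Nw Ny ec e4 e8 hNw0 rfl h7 h1
      have h9 : (bc (fun i => w i + y i) univ a (ec * Nw) : ℝ) ≤
          (bc (fun k => w k / Nw) univ (a / Nw) e8 : ℝ) := by exact_mod_cast h8
      have h10 := hlw (a / Nw)
      rw [h6] at hs
      linarith
    have h7 : Nw ≤ e4 * Ny := by rw [hWy] at hlt; exact hlt.le
    have h8 := fc_one y w a Ny Nw ec e4 e8 hNy0 rfl h7 h1
    have h9 : (bc (fun i => y i + w i) univ a (ec * Ny) : ℝ) ≤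
        (bc (fun k => y k / Ny) univ (a / Ny) e8 : ℝ) := by exact_mod_cast h8
    have h10 := hly (a / Ny)
    have h11 : (fun i => w i + y i) = (fun i => y i + w i) := by funext i; ring
    rw [hWy, h11] at hs
    linarith
  have hcy : e4 * W ≤ Ny := by
    by_contra hlt
    push Not at hlt
    have hWy : W = Nw := by
      rw [hWmax]
      apply max_eq_left
      by_contra h5
      push Not at h5
      have h6 : W = Ny := by rw [hWmax]; exact max_eq_right h5.le
      have h7 : Nw ≤ e4 * Ny := by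
        rw [h6] at hlt; linarith
      have h8 := fc_one y w a Ny Nw ec e4 e8 hNy0 rfl h7 h1
      have h9 : (bc (fun i => y i + w i) univ a (ec * Ny) : ℝ) ≤
          (bc (fun k => y k / Ny) univ (a / Ny) e8 : ℝ) := by exact_mod_cast h8
      have h10 := hly (a / Ny)
      have h11 : (fun i => w i + y i) = (fun i => y i + w i) := by funext i; ring
      rw [h6, h11] at hs
      linarith
    have h7 : Ny ≤ e4 * Nw := by rw [hWy] at hlt; exact hlt.le
    have h8 := fc_one w y a Nw Ny ec e4 e8 hNw0 rfl h7 h1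
    have h9 : (bc (fun i => w i + y i) univ a (ec * Nw) : ℝ) ≤
        (bc (fun k => w k / Nw) univ (a / Nw) e8 : ℝ) := by exact_mod_cast h8
    have h10 := hlw (a / Nw)
    rw [hWy] at hs
    linarith
  have hW2 : W ^ 2 = max Sw Sy := Real.sq_sqrt (le_trans hw.le (le_max_left _ _))
  refine ⟨W, hW0, ?_, ?_, ?_, ?_, ?_⟩
  · rw [fc_sum_scale w W hW0, hW2, div_le_one (lt_of_lt_of_le hw (le_max_left _ _))]
    exact le_max_left _ _
  · rw [fc_sum_scale y W hW0, hW2, div_le_one (lt_of_lt_of_le hw (le_max_left _ _))]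
    exact le_max_right _ _
  · intro b
    exact (fc_lev w Nw W ep e4 e8 hNw0 hW0 hcw h3 he8 (θ * n) hlw b).trans_le hθρn
  · intro b
    exact (fc_lev y Ny W ep e4 e8 hNy0 hW0 hcy h3 he8 (θ * n) hly b).trans_le hθρn
  · refine hs.trans ?_
    have h5 : bc (fun i => w i / W + y i / W) univ (a / W) em =
        bc (fun i => w i + y i) univ a (em * W) := by
      have : (fun i => w i / W + y i / W) = (fun i => (fun i => w i + y i) i / (W:ℂ)) := by
        funext i; ring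
      rw [this, fc_bc_scale _ W hW0]
    rw [h5]
    have h6 : ec * W ≤ em * W := mul_le_mul_of_nonneg_right h2 hW0.le
    exact_mod_cast bc_mono _ (Subset.refl _) a h6

/-- transposition of Boolean matrices -/
def fc_tr {n : ℕ} (A : Fin n → Fin n → Bool) : Fin n → Fin n → Bool := fun i j => A j i

lemma fc_tr_mem {n d : ℕ} {A : Fin n → Fin n → Bool} (h : A ∈ Reg n d) : fc_tr A ∈ Reg n d := by
  rw [mem_Reg] at h ⊢
  exact ⟨h.2, h.1⟩

lemma fc_toN_tr {n : ℕ} (A : Fin n → Fin n → Bool) : toN (fc_tr A) = tr (toN A) := rfl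

/-- the diagonal of the pairs is negligible -/
lemma fc_diag {α : Type*} (S : Finset α) (n : ℕ) (hn : 0 < n) :
    fr (S ×ˢ (univ : Finset (Fin n × Fin n))) (fun t => t.2.1 = t.2.2) ≤ 1 / n := by
  classical
  rcases S.eq_empty_or_nonempty with he | he
  · rw [he, fr_def]; simp
  have hn' : (0:ℝ) < n := by exact_mod_cast hn
  rw [fr_def]
  have h1 : ((S ×ˢ (univ : Finset (Fin n × Fin n))).filter (fun t => t.2.1 = t.2.2)).card ≤ S.card * n := by
    have : ((S ×ˢ (univ : Finset (Fin n × Fin n))).filter (fun t => t.2.1 = t.2.2)) ⊆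
        (S ×ˢ (univ : Finset (Fin n))).image (fun p => (p.1, (p.2, p.2))) := by
      rintro ⟨A, j, j'⟩ h
      simp only [mem_filter, mem_product, mem_univ, and_true] at h
      simp only [mem_image, mem_product, mem_univ, and_true]
      exact ⟨(A, j), h.1, by simp [h.2]⟩
    refine (card_le_card this).trans (card_image_le.trans ?_)
    rw [card_product, card_univ, Fintype.card_fin]
  have h2 : ((S ×ˢ (univ : Finset (Fin n × Fin n))).card : ℝ) = S.card * (n * n) := by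
    rw [card_product, card_univ, Fintype.card_prod, Fintype.card_fin]; push_cast; ring
  have hS : (0:ℝ) < S.card := by exact_mod_cast he.card_pos
  rw [h2, div_le_div_iff₀ (by positivity) hn']
  have h3 : ((((S ×ˢ (univ : Finset (Fin n × Fin n))).filter (fun t => t.2.1 = t.2.2)).card : ℕ) : ℝ) ≤ S.card * n := by
    exact_mod_cast h1
  nlinarith

theorem F_core (d : ℕ) (hd3 : 3 ≤ d) (z : ℂ) (hz0 : z ≠ 0) (hzd : z ≠ d)
    (κ c : ℝ) (hκ : 0 < κ) (hc : 0 < c) (ε : ℝ) (hε : 0 < ε) : ∀ᶠ n : ℕ in atTop,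
      fr (Reg n d ×ˢ (univ : Finset (Fin n × Fin n))) (fun t => ∃ w y : Fin n → ℂ, ∃ a : ℂ,
        (∀ i, L z (toN t.1) w i = (if i = t.2.1 then 1 else 0) - (if i = t.2.2 then 1 else 0)) ∧
        (∀ i, L z (tr (toN t.1)) y i = (if i = t.2.1 then 1 else 0) - (if i = t.2.2 then 1 else 0)) ∧
        κ * n ≤ (bc (fun i => w i + y i) univ a
          (Real.exp (-(c * n)) * Real.sqrt (max (∑ k, ‖w k‖ ^ 2) (∑ k, ‖y k‖ ^ 2))) : ℝ)) ≤ ε := by
  classical
  obtain ⟨ρ, hρ, τ, hτ, hτ4, hP⟩ := P_main d (by omega) z κ hκ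
  set δm : ℝ := c / 2 with hδm
  set δp : ℝ := τ * δm with hδp
  have hδm0 : 0 < δm := by positivity
  have hδp0 : 0 < δp := by positivity
  obtain ⟨c', hc', hPn⟩ := hP δm δp hδm0 hδp0 le_rfl
  set θ : ℝ := min ρ κ with hθ
  have hθ0 : 0 < θ := lt_min hρ hκ
  have hS := S_main d hd3 z hz0 hzd θ (δp / 8) hθ0 (by positivity) (ε / 8) (by positivity)
  have htr := transfer d (by omega) (c' / 2) (by positivity)
  have hnum : ∀ᶠ n : ℕ in atTop, 1 * Real.exp (-(c' / 2) * n) < ε / 8 :=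
    (ct_exp (-(c' / 2)) 1 (by linarith)).eventually_lt_const (by positivity)
  have hsc : ∀ᶠ n : ℕ in atTop, 2 * Real.exp (-(δp / 4 * n)) < 1 * Real.exp (-(δp / 8 * n)) :=
    ct_scale 2 (δp / 4) (δp / 8) 1 one_pos (by linarith)
  have hdg : ∀ᶠ n : ℕ in atTop, (1:ℝ) / n < ε / 8 :=
    (tendsto_const_div_atTop_nhds_zero_nat (1:ℝ)).eventually_lt_const (by positivity)
  filter_upwards [hPn, hS, htr, hnum, hsc, hdg, eventually_gt_atTop 0] with n hPn hS htr hnum hsc hdg hn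
  have hn0 : (0:ℝ) < n := by exact_mod_cast hn
  -- names of the events
  set SB : (Fin n → Fin n → Bool) × (Fin n × Fin n) → Prop := fun t => ∃ x : Fin n → ℂ,
        (∑ k, ‖x k‖ ^ 2 = 1) ∧
        (∀ i, i ≠ t.2.1 → i ≠ t.2.2 → ‖L z (toN t.1) x i‖ ≤ Real.exp (-(δp / 8 * n))) ∧
        ∃ a : ℂ, θ * n ≤ (bc x univ a (Real.exp (-(δp / 8 * n))) : ℝ) with hSB
  set PB : (Fin n × Fin n) → (Fin n → Fin n → ℕ) → Prop := fun p m => ∃ w y : Fin n → ℂ, ∃ a : ℂ,
            Sol z m {p.1, p.2} (Real.exp (-(δm * n))) w ∧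
            Sol z (tr m) {p.1, p.2} (Real.exp (-(δm * n))) y ∧
            (∀ b : ℂ, (bc w univ b (Real.exp (-(δp * n))) : ℝ) < ρ * n) ∧
            (∀ b : ℂ, (bc y univ b (Real.exp (-(δp * n))) : ℝ) < ρ * n) ∧
            κ * n ≤ (bc (fun i => w i + y i) univ a (Real.exp (-(δm * n))) : ℝ) with hPB
  have hincl : fr (Reg n d ×ˢ (univ : Finset (Fin n × Fin n))) (fun t => ∃ w y : Fin n → ℂ, ∃ a : ℂ,
        (∀ i, L z (toN t.1) w i = (if i = t.2.1 then 1 else 0) - (if i = t.2.2 then 1 else 0)) ∧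
        (∀ i, L z (tr (toN t.1)) y i = (if i = t.2.1 then 1 else 0) - (if i = t.2.2 then 1 else 0)) ∧
        κ * n ≤ (bc (fun i => w i + y i) univ a
          (Real.exp (-(c * n)) * Real.sqrt (max (∑ k, ‖w k‖ ^ 2) (∑ k, ‖y k‖ ^ 2))) : ℝ)) ≤
      fr (Reg n d ×ˢ (univ : Finset (Fin n × Fin n))) (fun t => (t.2.1 = t.2.2 ∨ SB t) ∨
        (SB (fc_tr t.1, t.2) ∨ PB t.2 (toN t.1))) := by
    apply fr_mono
    rintro ⟨A, j, j'⟩ - ⟨w, y, a, hw, hy, hs⟩
    by_cases hjj : j = j'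
    · left; left; exact hjj
    by_cases hsb : SB (A, (j, j'))
    · left; right; exact hsb
    by_cases hsb' : SB (fc_tr A, (j, j'))
    · right; left; exact hsb'
    right; right
    simp only at hw hy hs
    -- the vectors do not vanish
    have hpos : ∀ (m : Fin n → Fin n → ℕ) (v : Fin n → ℂ), (∀ i, L z m v i = (if i = j then 1 else 0) - (if i = j' then 1 else 0)) →
        0 < ∑ k, ‖v k‖ ^ 2 := by
      intro m v hv
      have h0 : (0:ℝ) ≤ ∑ k, ‖v k‖ ^ 2 := by positivity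
      rcases h0.lt_or_eq with h | h
      · exact h
      exfalso
      have hz : ∀ k, v k = 0 := by
        intro k
        have := (sum_eq_zero_iff_of_nonneg (fun i _ => by positivity)).1 h.symm k (mem_univ k)
        simpa using this
      have h1 := hv j
      rw [if_pos rfl, if_neg hjj] at h1
      unfold L at h1
      simp [hz] at h1
    have hwp := hpos _ w hw
    have hyp := hpos _ y hy
    -- normalised vectors are solutions
    have hlev : ∀ (B : Fin n → Fin n → Bool) (v : Fin n → ℂ),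
        (∀ i, L z (toN B) v i = (if i = j then 1 else 0) - (if i = j' then 1 else 0)) →
        0 < ∑ k, ‖v k‖ ^ 2 → ¬ SB (B, (j, j')) → ∀ b : ℂ,
        (bc (fun k => v k / (Real.sqrt (∑ k, ‖v k‖ ^ 2) : ℝ)) univ b (Real.exp (-(δp / 8 * n))) : ℝ) < θ * n := by
      intro B v hv hvp hns b
      by_contra hlt
      push Not at hlt
      apply hns
      have hs0 : 0 < Real.sqrt (∑ k, ‖v k‖ ^ 2) := Real.sqrt_pos.2 hvp
      refine ⟨fun k => v k / (Real.sqrt (∑ k, ‖v k‖ ^ 2) : ℝ), ?_, ?_, b, hlt⟩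
      · rw [fc_sum_scale v _ hs0, Real.sq_sqrt hvp.le, div_self hvp.ne']
      · intro i h1 h2
        simp only at h1 h2
        rw [fc_L_scale, hv i, if_neg h1, if_neg h2]
        simp only [sub_self, zero_div, norm_zero]
        exact (Real.exp_pos _).le
    have hlw := hlev A w hw hwp hsb
    have hly := hlev (fc_tr A) y hy hyp hsb'
    have hec : Real.exp (-(c * n)) ≤ Real.exp (-(δp / 4 * n)) := by
      rw [Real.exp_le_exp]
      have : δp / 4 ≤ c := by rw [hδp, hδm]; nlinarith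
      have := mul_le_mul_of_nonneg_right this hn0.le
      linarith
    obtain ⟨W, hW, h1, h2, h3, h4, h5⟩ := fc_det w y a κ ρ θ (Real.exp (-(c * n))) (Real.exp (-(δm * n)))
      (Real.exp (-(δp * n))) (Real.exp (-(δp / 4 * n))) (Real.exp (-(δp / 8 * n)))
      (min_le_right _ _) (min_le_left _ _) (Real.exp_pos _) (Real.exp_pos _) (by linarith)
      (by
        rw [Real.exp_le_exp, hδm]
        have : c / 2 * n ≤ c * n := mul_le_mul_of_nonneg_right (by linarith) hn0.le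
        linarith)
      (by
        rw [← Real.exp_add, Real.exp_le_exp]
        have : (0:ℝ) ≤ δp * n := by positivity
        linarith) hwp hyp hlw hly hs
    refine ⟨fun k => w k / W, fun k => y k / W, a / W, ⟨h1, ?_⟩, ⟨h2, ?_⟩, h3, h4, h5⟩
    · intro i hi
      simp only [mem_insert, mem_singleton, not_or] at hi
      rw [fc_L_scale, hw i, if_neg hi.1, if_neg hi.2]
      simp only [sub_self, zero_div, norm_zero]
      exact (Real.exp_pos _).le
    · intro i hi
      simp only [mem_insert, mem_singleton, not_or] at hi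
      rw [fc_L_scale, hy i, if_neg hi.1, if_neg hi.2]
      simp only [sub_self, zero_div, norm_zero]
      exact (Real.exp_pos _).le
  refine hincl.trans ((fr_or_le _ _ _).trans ?_)
  have e1 := fr_or_le (Reg n d ×ˢ (univ : Finset (Fin n × Fin n))) (fun t => t.2.1 = t.2.2) SB
  have e2 := fr_or_le (Reg n d ×ˢ (univ : Finset (Fin n × Fin n))) (fun t => SB (fc_tr t.1, t.2))
    (fun t => PB t.2 (toN t.1))
  have e3 := fc_diag (Reg n d) n hn
  have e4 : fr (Reg n d ×ˢ (univ : Finset (Fin n × Fin n))) SB ≤ ε / 8 := hS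
  have e5 : fr (Reg n d ×ˢ (univ : Finset (Fin n × Fin n))) (fun t => SB (fc_tr t.1, t.2)) ≤ ε / 8 := by
    refine le_trans ?_ e4
    apply fr_le_of_injOn _ (fun t => (fc_tr t.1, t.2))
    · rintro ⟨A, p⟩ hA hSB
      refine ⟨?_, hSB⟩
      simp only [mem_product, mem_univ, and_true] at hA ⊢
      exact fc_tr_mem hA
    · rintro ⟨A, p⟩ _ ⟨B, q⟩ _ h
      simp only [Prod.mk.injEq] at h ⊢
      refine ⟨?_, h.2⟩
      have := congrArg fc_tr h.1
      exact this
  have e6 : fr (Reg n d ×ˢ (univ : Finset (Fin n × Fin n))) (fun t => PB t.2 (toN t.1)) ≤ ε / 8 := by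
    apply sm_prod_le _ _ _ _ (by positivity)
    rintro ⟨j, j'⟩ -
    refine (htr.2 (PB (j, j'))).trans ?_
    have h3 := hPn {j, j'} card_le_two
    calc _ ≤ Real.exp (c' / 2 * n) * Real.exp (-(c' * n)) :=
          mul_le_mul_of_nonneg_left h3 (Real.exp_pos _).le
      _ = 1 * Real.exp (-(c' / 2) * n) := by rw [← Real.exp_add, one_mul]; congr 1; ring
      _ ≤ ε / 8 := hnum.le
  linarith

end Pool.Agent.SMin
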