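import Pool.Agent.SMin.Base

set_option autoImplicit false
open Finset Filter

namespace Pool.Agent.SMin

/-! ## Module G (Gap.lean) : deterministic -/

lemma gap_split {m s : ℕ} (p : Fin s → ℝ) (𝒯 : Finset (Fin (m + 1) → Fin s)) :
    ∑ t ∈ 𝒯, ∏ k, p (t k)
      = ∑ c, p c * ∑ t' ∈ univ.filter (fun t' : Fin m → Fin s =>
          (Fin.cons c t' : Fin (m + 1) → Fin s) ∈ 𝒯), ∏ k, p (t' k) := by
  classical
  have h1 : ∑ t ∈ 𝒯, ∏ k, p (t k)
      = ∑ t : Fin (m + 1) → Fin s, if t ∈ 𝒯 then ∏ k, p (t k) else 0 := by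
    rw [← sum_filter]; congr 1; ext t; simp
  rw [h1]
  rw [← Fintype.sum_equiv (Fin.consEquiv (fun _ => Fin s))
    (fun q : Fin s × (Fin m → Fin s) =>
      if (Fin.cons q.1 q.2 : Fin (m + 1) → Fin s) ∈ 𝒯
        then ∏ k, p ((Fin.cons q.1 q.2 : Fin (m + 1) → Fin s) k) else 0)
    _ (fun q => rfl)]
  rw [Fintype.sum_prod_type]
  apply sum_congr rfl
  intro c _
  rw [mul_sum, sum_filter]
  apply sum_congr rfl
  intro t' _
  split_ifs with hc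
  · rw [Fin.prod_univ_succ]; simp
  · rfl

lemma gap_le {s : ℕ} (p : Fin s → ℝ) (hp : ∀ c, 0 ≤ p c) (hs : ∑ c, p c ≤ 1) (c0 : Fin s)
    (hmax : ∀ c, p c ≤ p c0) (a : Fin s → ℂ) (r : ℝ)
    (hsep : ∀ c c', c ≠ c' → 2 * r < ‖a c - a c'‖) (b : ℂ) (𝒰 : Finset (Fin 2 → Fin s))
    (h𝒰 : ∀ t ∈ 𝒰, ‖∑ k, a (t k) - b‖ ≤ r) :
    (∀ c, ∑ t ∈ 𝒰.filter (fun t => t 0 = c), p (t 1) ≤ p c0) ∧
    (∑ t ∈ 𝒰, ∏ k, p (t k)
      = ∑ c, p c * ∑ t ∈ 𝒰.filter (fun t => t 0 = c), p (t 1)) ∧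
    (∀ t ∈ 𝒰, ∀ t' ∈ 𝒰, t 0 = t' 0 → t = t') ∧ (∀ t ∈ 𝒰, ∀ t' ∈ 𝒰, t 1 = t' 1 → t = t') := by
  classical
  have key : ∀ t ∈ 𝒰, ∀ t' ∈ 𝒰, ‖(a (t 0) + a (t 1)) - (a (t' 0) + a (t' 1))‖ ≤ 2 * r := by
    intro t ht t' ht'
    have h1 := h𝒰 t ht
    have h2 := h𝒰 t' ht'
    rw [Fin.sum_univ_two] at h1 h2
    have h3 := norm_sub_le (a (t 0) + a (t 1) - b) (a (t' 0) + a (t' 1) - b)
    have h4 : (a (t 0) + a (t 1) - b) - (a (t' 0) + a (t' 1) - b)
        = (a (t 0) + a (t 1)) - (a (t' 0) + a (t' 1)) := by ring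
    rw [h4] at h3
    linarith
  have u0 : ∀ t ∈ 𝒰, ∀ t' ∈ 𝒰, t 0 = t' 0 → t = t' := by
    intro t ht t' ht' h0
    have h1 := key t ht t' ht'
    rw [h0] at h1
    have h2 : a (t' 0) + a (t 1) - (a (t' 0) + a (t' 1)) = a (t 1) - a (t' 1) := by ring
    rw [h2] at h1
    have h3 : t 1 = t' 1 := by
      by_contra hne
      have := hsep _ _ hne
      linarith
    funext k
    fin_cases k
    · exact h0
    · exact h3
  have u1 : ∀ t ∈ 𝒰, ∀ t' ∈ 𝒰, t 1 = t' 1 → t = t' := by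
    intro t ht t' ht' h0
    have h1 := key t ht t' ht'
    rw [h0] at h1
    have h2 : a (t 0) + a (t' 1) - (a (t' 0) + a (t' 1)) = a (t 0) - a (t' 0) := by ring
    rw [h2] at h1
    have h3 : t 0 = t' 0 := by
      by_contra hne
      have := hsep _ _ hne
      linarith
    funext k
    fin_cases k
    · exact h3
    · exact h0
  refine ⟨?_, ?_, u0, u1⟩
  · intro c
    have hcard : (𝒰.filter (fun t => t 0 = c)).card ≤ 1 := by
      rw [card_le_one]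
      intro t ht t' ht'
      rw [mem_filter] at ht ht'
      exact u0 t ht.1 t' ht'.1 (ht.2.trans ht'.2.symm)
    calc ∑ t ∈ 𝒰.filter (fun t => t 0 = c), p (t 1)
        ≤ ∑ t ∈ 𝒰.filter (fun t => t 0 = c), p c0 := sum_le_sum (fun t _ => hmax _)
      _ = ((𝒰.filter (fun t => t 0 = c)).card : ℝ) * p c0 := by rw [sum_const, nsmul_eq_mul]
      _ ≤ 1 * p c0 := by
          apply mul_le_mul_of_nonneg_right _ (hp c0)
          exact_mod_cast hcard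
      _ = p c0 := one_mul _
  · rw [← sum_fiberwise 𝒰 (fun t => t 0)]
    apply sum_congr rfl
    intro c _
    rw [mul_sum]
    apply sum_congr rfl
    intro t ht
    rw [Fin.prod_univ_two, (mem_filter.1 ht).2]

lemma gap_bound {s : ℕ} (p : Fin s → ℝ) (hp : ∀ c, 0 ≤ p c) (hs : ∑ c, p c ≤ 1) (c0 : Fin s)
    (hmax : ∀ c, p c ≤ p c0) (a : Fin s → ℂ) (r : ℝ)
    (hsep : ∀ c c', c ≠ c' → 2 * r < ‖a c - a c'‖) (b : ℂ) (𝒰 : Finset (Fin 2 → Fin s))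
    (h𝒰 : ∀ t ∈ 𝒰, ‖∑ k, a (t k) - b‖ ≤ r) :
    ∑ t ∈ 𝒰, ∏ k, p (t k) ≤ p c0 := by
  obtain ⟨h1, h2, _, _⟩ := gap_le p hp hs c0 hmax a r hsep b 𝒰 h𝒰
  rw [h2]
  calc ∑ c, p c * ∑ t ∈ 𝒰.filter (fun t => t 0 = c), p (t 1) ≤ ∑ c, p c * p c0 :=
        sum_le_sum (fun c _ => mul_le_mul_of_nonneg_left (h1 c) (hp c))
    _ = (∑ c, p c) * p c0 := by rw [sum_mul]
    _ ≤ 1 * p c0 := mul_le_mul_of_nonneg_right hs (hp c0)
    _ = p c0 := one_mul _

lemma gap_two {s : ℕ} (p : Fin s → ℝ) (hp : ∀ c, 0 ≤ p c) (hs : ∑ c, p c ≤ 1) (c0 : Fin s)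
    (hmax : ∀ c, p c ≤ p c0) (a : Fin s → ℂ) (r : ℝ)
    (hsep : ∀ c c', c ≠ c' → 2 * r < ‖a c - a c'‖) (b : ℂ) (𝒰 : Finset (Fin 2 → Fin s))
    (h𝒰 : ∀ t ∈ 𝒰, ‖∑ k, a (t k) - b‖ ≤ r) (h : ℝ) (hh : 0 < h) (h4 : 4 * h ≤ p c0)
    (hN : p c0 - h ^ 2 ≤ ∑ t ∈ 𝒰, ∏ k, p (t k)) :
    ‖2 * ∑ c ∈ univ.filter (fun c => p c0 - h ≤ p c), a c
      - ((univ.filter (fun c => p c0 - h ≤ p c)).card : ℂ) * b‖
      ≤ ((univ.filter (fun c => p c0 - h ≤ p c)).card : ℝ) * r := by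
  classical
  obtain ⟨h1, h2, u0, u1⟩ := gap_le p hp hs c0 hmax a r hsep b 𝒰 h𝒰
  set Q := univ.filter (fun c => p c0 - h ≤ p c) with hQ
  set f : Fin s → ℝ := fun c => ∑ t ∈ 𝒰.filter (fun t => t 0 = c), p (t 1) with hf
  have hsum : ∑ c, p c * (p c0 - f c) ≤ h ^ 2 := by
    have e1 : ∑ c, p c * (p c0 - f c) = (∑ c, p c) * p c0 - ∑ c, p c * f c := by
      rw [sum_mul, ← sum_sub_distrib]
      apply sum_congr rfl
      intro c _; ring
    have e2 : (∑ c, p c) * p c0 ≤ 1 * p c0 := mul_le_mul_of_nonneg_right hs (hp c0)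
    rw [e1]
    rw [h2] at hN
    linarith
  have hterm : ∀ c, p c * (p c0 - f c) ≤ h ^ 2 := by
    intro c
    refine le_trans ?_ hsum
    apply single_le_sum (f := fun c => p c * (p c0 - f c)) _ (mem_univ c)
    intro c' _
    exact mul_nonneg (hp c') (by have := h1 c'; simp only [hf]; linarith)
  -- partner
  have hex : ∀ c ∈ Q, ∃ t ∈ 𝒰, t 0 = c ∧ t 1 ∈ Q := by
    intro c hc
    have hc' : p c0 - h ≤ p c := (mem_filter.1 hc).2
    have h5 := hterm c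
    have h3h : 3 * h ≤ p c := by linarith
    have hfc : p c0 - h < f c := by
      by_contra hcon
      have h6 : h ≤ p c0 - f c := by linarith [not_lt.1 hcon]
      have h7 : 3 * h * h ≤ p c * (p c0 - f c) := by
        apply mul_le_mul h3h h6 hh.le (hp c)
      nlinarith
    have hfpos : 0 < f c := by linarith
    have hne : (𝒰.filter (fun t => t 0 = c)).Nonempty := by
      by_contra hemp
      rw [not_nonempty_iff_eq_empty] at hemp
      have : f c = 0 := by simp only [hf]; rw [hemp, sum_empty]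
      linarith
    obtain ⟨t, ht⟩ := hne
    have ht' := mem_filter.1 ht
    have heq : 𝒰.filter (fun t => t 0 = c) = {t} := by
      apply eq_singleton_iff_unique_mem.2
      refine ⟨ht, ?_⟩
      intro t' ht2
      have ht2' := mem_filter.1 ht2
      exact u0 t' ht2'.1 t ht'.1 (ht2'.2.trans ht'.2.symm)
    have hfe : f c = p (t 1) := by simp only [hf]; rw [heq, sum_singleton]
    refine ⟨t, ht'.1, ht'.2, ?_⟩
    rw [hQ, mem_filter]
    exact ⟨mem_univ _, by linarith⟩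
  choose! T hT1 hT2 hT3 using hex
  -- injection
  have hinj : Set.InjOn (fun c => T c 1) (Q : Set (Fin s)) := by
    intro c hc c' hc' hcc
    have hc1 := mem_coe.1 hc
    have hc2 := mem_coe.1 hc'
    have := u1 _ (hT1 c hc1) _ (hT1 c' hc2) hcc
    rw [← hT2 c hc1, ← hT2 c' hc2, this]
  have himg : Q.image (fun c => T c 1) = Q := by
    apply eq_of_subset_of_card_le
    · intro c' hc'
      obtain ⟨c, hc, rfl⟩ := mem_image.1 hc'
      exact hT3 c hc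
    · rw [card_image_of_injOn hinj]
  have hsumT : ∑ c ∈ Q, a (T c 1) = ∑ c ∈ Q, a c := by
    conv_rhs => rw [← himg]
    rw [sum_image hinj]
  have hfin : 2 * ∑ c ∈ Q, a c - (Q.card : ℂ) * b = ∑ c ∈ Q, (∑ k, a (T c k) - b) := by
    rw [sum_sub_distrib, sum_const, nsmul_eq_mul]
    congr 1
    have : ∑ c ∈ Q, ∑ k, a (T c k) = ∑ c ∈ Q, (a c + a (T c 1)) := by
      apply sum_congr rfl
      intro c hc
      rw [Fin.sum_univ_two, hT2 c hc]
    rw [this, sum_add_distrib, hsumT]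
    ring
  rw [hfin]
  calc ‖∑ c ∈ Q, (∑ k, a (T c k) - b)‖ ≤ ∑ c ∈ Q, ‖∑ k, a (T c k) - b‖ := norm_sum_le _ _
    _ ≤ ∑ c ∈ Q, r := sum_le_sum (fun c hc => h𝒰 _ (hT1 c hc))
    _ = (Q.card : ℝ) * r := by rw [sum_const, nsmul_eq_mul]

lemma gap_three {s : ℕ} (p : Fin s → ℝ) (hp : ∀ c, 0 ≤ p c) (hs : ∑ c, p c ≤ 1) (c0 : Fin s)
    (hmax : ∀ c, p c ≤ p c0) (a : Fin s → ℂ) (r : ℝ) (hr : 0 ≤ r)
    (hsep : ∀ c c', c ≠ c' → 4 * r < ‖a c - a c'‖) (h θ2 β : ℝ) (hh : 0 < h)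
    (h4 : 4 * h ≤ p c0) (hβ : β + h ^ 2 < θ2) (hs' : 1 - β ≤ ∑ c, p c) (hc0 : p c0 ≤ 1 - θ2)
    (w : ℂ) (𝒯 : Finset (Fin 3 → Fin s)) (h𝒯 : ∀ t ∈ 𝒯, ‖∑ k, a (t k) - w‖ ≤ r) :
    ∑ t ∈ 𝒯, ∏ k, p (t k) ≤ p c0 - h ^ 4 := by
  classical
  by_contra hcon
  have hcon := not_le.1 hcon
  have hsep2 : ∀ c c', c ≠ c' → 2 * r < ‖a c - a c'‖ := by
    intro c c' hcc
    have := hsep c c' hcc
    linarith
  rw [gap_split] at hcon
  set U : Fin s → Finset (Fin 2 → Fin s) := fun c =>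
    univ.filter (fun t' : Fin 2 → Fin s => (Fin.cons c t' : Fin 3 → Fin s) ∈ 𝒯) with hU
  have hUe : ∀ e, ∀ t ∈ U e, ‖∑ k, a (t k) - (w - a e)‖ ≤ r := by
    intro e t ht
    have := h𝒯 _ (mem_filter.1 ht).2
    rw [Fin.sum_univ_succ] at this
    simp only [Fin.cons_zero, Fin.cons_succ] at this
    have h5 : a e + ∑ k, a (t k) - w = ∑ k, a (t k) - (w - a e) := by ring
    rw [h5] at this
    exact this
  set N : Fin s → ℝ := fun e => ∑ t ∈ U e, ∏ k, p (t k) with hNdef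
  have hcon' : p c0 - h ^ 4 < ∑ e, p e * N e := hcon
  have hNle : ∀ e, N e ≤ p c0 := fun e =>
    gap_bound p hp hs c0 hmax a r hsep2 (w - a e) (U e) (hUe e)
  set G := univ.filter (fun e => p c0 - h ^ 2 ≤ N e) with hG
  have hsum : ∑ e, p e * (p c0 - N e) ≤ h ^ 4 := by
    have e1 : ∑ c, p c * (p c0 - N c) = (∑ c, p c) * p c0 - ∑ c, p c * N c := by
      rw [sum_mul, ← sum_sub_distrib]
      apply sum_congr rfl
      intro c _; ring
    have e2 : (∑ c, p c) * p c0 ≤ 1 * p c0 := mul_le_mul_of_nonneg_right hs (hp c0)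
    rw [e1]
    linarith
  have hbad : ∑ e ∈ univ.filter (fun e => ¬ (p c0 - h ^ 2 ≤ N e)), p e ≤ h ^ 2 := by
    have e1 : (∑ e ∈ univ.filter (fun e => ¬ (p c0 - h ^ 2 ≤ N e)), p e) * h ^ 2 ≤ h ^ 4 := by
      rw [sum_mul]
      calc ∑ e ∈ univ.filter (fun e => ¬ (p c0 - h ^ 2 ≤ N e)), p e * h ^ 2
          ≤ ∑ e ∈ univ.filter (fun e => ¬ (p c0 - h ^ 2 ≤ N e)), p e * (p c0 - N e) := by
            apply sum_le_sum
            intro e he
            have := (mem_filter.1 he).2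
            apply mul_le_mul_of_nonneg_left _ (hp e)
            linarith [not_le.1 this]
        _ ≤ ∑ e, p e * (p c0 - N e) := by
            apply sum_le_sum_of_subset_of_nonneg (filter_subset _ _)
            intro e _ _
            exact mul_nonneg (hp e) (by linarith [hNle e])
        _ ≤ h ^ 4 := hsum
    have h2pos : 0 < h ^ 2 := by positivity
    have : h ^ 4 = h ^ 2 * h ^ 2 := by ring
    rw [this] at e1
    exact le_of_mul_le_mul_right e1 h2pos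
  have hgood : 1 - β - h ^ 2 ≤ ∑ e ∈ G, p e := by
    have e1 : ∑ e ∈ G, p e + ∑ e ∈ univ.filter (fun e => ¬ (p c0 - h ^ 2 ≤ N e)), p e
        = ∑ e, p e := sum_filter_add_sum_filter_not _ _ _
    linarith
  have hcard : 1 < G.card := by
    by_contra hc
    have hc := not_lt.1 hc
    have : ∑ e ∈ G, p e ≤ p c0 := by
      calc ∑ e ∈ G, p e ≤ ∑ e ∈ G, p c0 := sum_le_sum (fun e _ => hmax e)
        _ = (G.card : ℝ) * p c0 := by rw [sum_const, nsmul_eq_mul]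
        _ ≤ 1 * p c0 := by
            apply mul_le_mul_of_nonneg_right _ (hp c0)
            exact_mod_cast hc
        _ = p c0 := one_mul _
    linarith
  obtain ⟨e, he, e', he', hee⟩ := one_lt_card.1 hcard
  have k1 := gap_two p hp hs c0 hmax a r hsep2 (w - a e) (U e) (hUe e) h hh h4
    (mem_filter.1 he).2
  have k2 := gap_two p hp hs c0 hmax a r hsep2 (w - a e') (U e') (hUe e') h hh h4
    (mem_filter.1 he').2
  set Q := univ.filter (fun c => p c0 - h ≤ p c) with hQ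
  have hQc : 0 < (Q.card : ℝ) := by
    have : c0 ∈ Q := by rw [hQ, mem_filter]; exact ⟨mem_univ _, by linarith⟩
    exact_mod_cast card_pos.2 ⟨c0, this⟩
  have k3 := norm_sub_le (2 * ∑ c ∈ Q, a c - (Q.card : ℂ) * (w - a e))
    (2 * ∑ c ∈ Q, a c - (Q.card : ℂ) * (w - a e'))
  have k4 : (2 * ∑ c ∈ Q, a c - (Q.card : ℂ) * (w - a e))
    - (2 * ∑ c ∈ Q, a c - (Q.card : ℂ) * (w - a e')) = (Q.card : ℂ) * (a e - a e') := by ring
  rw [k4, norm_mul, Complex.norm_natCast] at k3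
  have k5 := hsep e e' hee
  have k6 : (Q.card : ℝ) * ‖a e - a e'‖ ≤ (Q.card : ℝ) * (2 * r) := by linarith
  have k7 := le_of_mul_le_mul_left k6 hQc
  linarith

theorem gap (d : ℕ) (hd3 : 3 ≤ d) (θ θ2 : ℝ) (hθ : 0 < θ) (hθ2 : 0 < θ2) (hθ21 : θ2 < 1) :
    ∃ g : ℝ, 0 < g ∧ ∃ β : ℝ, 0 < β ∧ ∀ (s : ℕ) (p : Fin s → ℝ), (∀ c, 0 ≤ p c) →
      (∑ c, p c ≤ 1) → (1 - β ≤ ∑ c, p c) → ∀ c0 : Fin s, (∀ c, p c ≤ p c0) → θ ≤ p c0 →
      p c0 ≤ 1 - θ2 → ∀ (a : Fin s → ℂ) (w : ℂ) (r : ℝ), 0 ≤ r →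
      (∀ c c', c ≠ c' → 4 * r < ‖a c - a c'‖) →
      ∀ 𝒯 : Finset (Fin d → Fin s), (∀ t ∈ 𝒯, ‖∑ k, a (t k) - w‖ ≤ r) →
        ∑ t ∈ 𝒯, ∏ k, p (t k) ≤ p c0 - g := by
  obtain ⟨m, rfl⟩ : ∃ m, d = m + 3 := ⟨d - 3, by omega⟩
  set h : ℝ := min (θ / 4) (θ2 / 4) with hh
  have hpos : 0 < h := by rw [hh]; exact lt_min (by linarith) (by linarith)
  have h1 : h ≤ θ / 4 := min_le_left _ _
  have h2 : h ≤ θ2 / 4 := min_le_right _ _
  have hle1 : h ≤ 1 := by linarith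
  refine ⟨h ^ 4, by positivity, θ2 / 4, by linarith, ?_⟩
  intro s p hp hs hs' c0 hmax hθc hc0 a w r hr hsep
  have h4 : 4 * h ≤ p c0 := by linarith
  have hβ : θ2 / 4 + h ^ 2 < θ2 := by nlinarith
  have hg0 : h ^ 4 ≤ p c0 := by
    have : h ^ 4 ≤ h := by
      calc h ^ 4 ≤ h ^ 1 := pow_le_pow_of_le_one hpos.le hle1 (by norm_num)
        _ = h := pow_one h
    linarith
  -- induction on m
  revert w
  clear hd3
  induction m with
  | zero =>
    intro w 𝒯 h𝒯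
    exact gap_three p hp hs c0 hmax a r hr hsep h θ2 (θ2 / 4) hpos h4 hβ hs' hc0 w 𝒯 h𝒯
  | succ m ih =>
    intro w 𝒯 h𝒯
    rw [gap_split (m := m + 3)]
    calc ∑ c, p c * ∑ t' ∈ univ.filter (fun t' : Fin (m + 3) → Fin s =>
          (Fin.cons c t' : Fin (m + 3 + 1) → Fin s) ∈ 𝒯), ∏ k, p (t' k)
        ≤ ∑ c, p c * (p c0 - h ^ 4) := by
          apply sum_le_sum
          intro c _
          apply mul_le_mul_of_nonneg_left _ (hp c)
          apply ih (w - a c)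
          intro t ht
          have := h𝒯 _ (mem_filter.1 ht).2
          have e0 : ∑ k, a ((Fin.cons c t : Fin (m + 3 + 1) → Fin s) k)
              = a c + ∑ k, a (t k) := by
            rw [Fin.sum_univ_succ]; simp
          have h5 : a c + ∑ k, a (t k) - w = ∑ k, a (t k) - (w - a c) := by ring
          have e1 : ∑ k : Fin (m + 1 + 3), a ((Fin.cons c t : Fin (m + 3 + 1) → Fin s) k)
              = ∑ k : Fin (m + 3 + 1), a ((Fin.cons c t : Fin (m + 3 + 1) → Fin s) k) := rfl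
          rw [e1, e0, h5] at this
          exact this
      _ = (∑ c, p c) * (p c0 - h ^ 4) := by rw [sum_mul]
      _ ≤ 1 * (p c0 - h ^ 4) := mul_le_mul_of_nonneg_right hs (by linarith)
      _ = p c0 - h ^ 4 := one_mul _

end Pool.Agent.SMin
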