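import Pool.Agent.SMin.Strategy
import Pool.Agent.SMin.Redund
import Pool.Agent.SMin.Viol

set_option autoImplicit false
open Finset Filter

namespace Pool.Agent.SMin

/-! ## auxiliary material for `P_main` -/

/-- index set of the unknowns: `w`, `y` off `S`, and the constant `a` -/
abbrev PIx {n : ℕ} (S : Finset (Fin n)) := Fin n ⊕ ({i : Fin n // i ∉ S} ⊕ Unit)

noncomputable def pW {n : ℕ} (S : Finset (Fin n)) (i : Fin n) : PIx S → ℂ :=
  Pi.single (Sum.inl i) 1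

noncomputable def pY {n : ℕ} (S : Finset (Fin n)) (i : Fin n) : PIx S → ℂ :=
  if h : i ∉ S then Pi.single (Sum.inr (Sum.inl ⟨i, h⟩)) 1
  else Pi.single (Sum.inr (Sum.inr ())) 1 - Pi.single (Sum.inl i) 1

noncomputable def pYY {n : ℕ} (S : Finset (Fin n)) (x : PIx S → ℂ) (i : Fin n) : ℂ :=
  if h : i ∉ S then x (Sum.inr (Sum.inl ⟨i, h⟩)) else x (Sum.inr (Sum.inr ())) - x (Sum.inl i)

lemma p_dotW {n : ℕ} (S : Finset (Fin n)) (i : Fin n) (x : PIx S → ℂ) :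
    pW S i ⬝ᵥ x = x (Sum.inl i) := by
  unfold pW; rw [single_dotProduct, one_mul]

lemma p_dotY {n : ℕ} (S : Finset (Fin n)) (i : Fin n) (x : PIx S → ℂ) :
    pY S i ⬝ᵥ x = pYY S x i := by
  unfold pY pYY
  by_cases h : i ∉ S
  · rw [dif_pos h, dif_pos h, single_dotProduct, one_mul]
  · rw [dif_neg h, dif_neg h, sub_dotProduct, single_dotProduct, single_dotProduct, one_mul, one_mul]

/-- the `ℓ¹` norm -/
noncomputable def pN {ι : Type*} [Fintype ι] (v : ι → ℂ) : ℝ := ∑ k, ‖v k‖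

section pN
variable {ι : Type*} [Fintype ι]

lemma pN_nonneg (v : ι → ℂ) : 0 ≤ pN v := sum_nonneg fun _ _ => norm_nonneg _

lemma pN_sub (u v : ι → ℂ) : pN (u - v) ≤ pN u + pN v := by
  unfold pN; rw [← sum_add_distrib]
  exact sum_le_sum fun k _ => norm_sub_le _ _

lemma pN_smul (z : ℂ) (v : ι → ℂ) : pN (z • v) = ‖z‖ * pN v := by
  unfold pN; rw [mul_sum]; exact sum_congr rfl fun k _ => by simp

lemma pN_sum {κ : Type*} (s : Finset κ) (v : κ → ι → ℂ) : pN (∑ c ∈ s, v c) ≤ ∑ c ∈ s, pN (v c) := by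
  unfold pN
  rw [sum_comm]
  exact sum_le_sum fun k _ => by rw [Finset.sum_apply]; exact norm_sum_le _ _

lemma pN_single [DecidableEq ι] (i : ι) : pN (Pi.single i (1 : ℂ)) = 1 := by
  unfold pN
  rw [Finset.sum_eq_single i]
  · simp
  · intro b _ hb; simp [Pi.single_eq_of_ne hb]
  · intro h; exact absurd (mem_univ i) h

lemma pN_sq (v : ι → ℂ) : ∑ k, ‖v k‖ ^ 2 ≤ pN v ^ 2 := by
  have h : ∀ k ∈ (univ : Finset ι), ‖v k‖ ^ 2 ≤ ‖v k‖ * pN v := by
    intro k hk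
    rw [sq]
    exact mul_le_mul_of_nonneg_left (single_le_sum (f := fun k => ‖v k‖) (fun _ _ => norm_nonneg _) hk)
      (norm_nonneg _)
  calc ∑ k, ‖v k‖ ^ 2 ≤ ∑ k, ‖v k‖ * pN v := sum_le_sum h
    _ = pN v ^ 2 := by rw [← sum_mul, sq]; rfl

end pN

lemma pN_pW {n : ℕ} (S : Finset (Fin n)) (i : Fin n) : pN (pW S i) ≤ 2 := by
  unfold pW; rw [pN_single]; norm_num

lemma pN_pY {n : ℕ} (S : Finset (Fin n)) (i : Fin n) : pN (pY S i) ≤ 2 := by
  unfold pY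
  by_cases h : i ∉ S
  · rw [dif_pos h, pN_single]; norm_num
  · rw [dif_neg h]
    refine (pN_sub _ _).trans ?_
    rw [pN_single, pN_single]; norm_num

/-- row functional -/
noncomputable def pRow {n d : ℕ} (z : ℂ) (S : Finset (Fin n)) (σ : Cfg n d) (i : Fin n) : PIx S → ℂ :=
  (∑ k, pW S (hd σ i k)) - z • pW S i

/-- column functional -/
noncomputable def pCol {n d : ℕ} (z : ℂ) (S : Finset (Fin n)) (σ : Cfg n d) (j : Fin n) : PIx S → ℂ :=
  (∑ l, pY S (hd σ.symm j l)) - z • pY S j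

lemma pN_pRow {n d : ℕ} (z : ℂ) (S : Finset (Fin n)) (σ : Cfg n d) (i : Fin n) :
    pN (pRow z S σ i) ≤ 2 * (d + ‖z‖) := by
  unfold pRow
  refine (pN_sub _ _).trans ?_
  rw [pN_smul]
  have h1 : pN (∑ k, pW S (hd σ i k)) ≤ d * 2 := by
    refine (pN_sum _ _).trans ?_
    refine (sum_le_sum fun k _ => pN_pW S (hd σ i k)).trans ?_
    simp
  have h2 : ‖z‖ * pN (pW S i) ≤ ‖z‖ * 2 := mul_le_mul_of_nonneg_left (pN_pW S i) (norm_nonneg _)
  linarith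

lemma pN_pCol {n d : ℕ} (z : ℂ) (S : Finset (Fin n)) (σ : Cfg n d) (j : Fin n) :
    pN (pCol z S σ j) ≤ 2 * (d + ‖z‖) := by
  unfold pCol
  refine (pN_sub _ _).trans ?_
  rw [pN_smul]
  have h1 : pN (∑ l, pY S (hd σ.symm j l)) ≤ d * 2 := by
    refine (pN_sum _ _).trans ?_
    refine (sum_le_sum fun k _ => pN_pY S (hd σ.symm j k)).trans ?_
    simp
  have h2 : ‖z‖ * pN (pY S j) ≤ ‖z‖ * 2 := mul_le_mul_of_nonneg_left (pN_pY S j) (norm_nonneg _)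
  linarith

lemma p_dotRow {n d : ℕ} (z : ℂ) (S : Finset (Fin n)) (σ : Cfg n d) (i : Fin n) (x : PIx S → ℂ) :
    pRow z S σ i ⬝ᵥ x = ∑ k, x (Sum.inl (hd σ i k)) - z * x (Sum.inl i) := by
  unfold pRow
  rw [sub_dotProduct, sum_dotProduct, smul_dotProduct, p_dotW, smul_eq_mul]
  simp_rw [p_dotW]

lemma p_dotCol {n d : ℕ} (z : ℂ) (S : Finset (Fin n)) (σ : Cfg n d) (j : Fin n) (x : PIx S → ℂ) :
    pCol z S σ j ⬝ᵥ x = ∑ l, pYY S x (hd σ.symm j l) - z * pYY S x j := by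
  unfold pCol
  rw [sub_dotProduct, sum_dotProduct, smul_dotProduct, p_dotY, smul_eq_mul]
  simp_rw [p_dotY]

/-- the functional revealed by processing a vertex -/
noncomputable def pV {n d : ℕ} (z : ℂ) (S E : Finset (Fin n)) (σ : Cfg n d) :
    Option ((Fin n ⊕ Fin n) × Fin d) → PIx S → ℂ
  | none => 0
  | some (Sum.inl i, _) => if i ∈ E then 0 else pRow z S σ i
  | some (Sum.inr j, _) => if j ∈ E then 0 else pCol z S σ j

/-- the processed vertex is admissible -/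
def pE {n d : ℕ} (E : Finset (Fin n)) : Option ((Fin n ⊕ Fin n) × Fin d) → Prop
  | none => False
  | some (Sum.inl i, _) => i ∉ E
  | some (Sum.inr j, _) => j ∉ E

lemma pV_row {n d : ℕ} (z : ℂ) (S E : Finset (Fin n)) (σ : Cfg n d) (i : Fin n) (k : Fin d) :
    pV z S E σ (some (Sum.inl i, k)) = if i ∈ E then 0 else pRow z S σ i := rfl

lemma pV_col {n d : ℕ} (z : ℂ) (S E : Finset (Fin n)) (σ : Cfg n d) (j : Fin n) (k : Fin d) :
    pV z S E σ (some (Sum.inr j, k)) = if j ∈ E then 0 else pCol z S σ j := rfl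

lemma pE_row {n d : ℕ} (E : Finset (Fin n)) (i : Fin n) (k : Fin d) :
    pE E (some (Sum.inl i, k)) ↔ i ∉ E := Iff.rfl

lemma pE_col {n d : ℕ} (E : Finset (Fin n)) (j : Fin n) (k : Fin d) :
    pE E (some (Sum.inr j, k)) ↔ j ∉ E := Iff.rfl

lemma pE_none {n d : ℕ} (E : Finset (Fin n)) :
    ¬ pE E (none : Option ((Fin n ⊕ Fin n) × Fin d)) := fun h => h

lemma pN_pV {n d : ℕ} (z : ℂ) (S E : Finset (Fin n)) (σ : Cfg n d)
    (o : Option ((Fin n ⊕ Fin n) × Fin d)) : ∑ k, ‖pV z S E σ o k‖ ^ 2 ≤ (2 * (d + ‖z‖)) ^ 2 := by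
  have h0 : (0 : ℝ) ≤ 2 * (d + ‖z‖) := by positivity
  have hz : ∑ k, ‖(0 : PIx S → ℂ) k‖ ^ 2 ≤ (2 * (d + ‖z‖)) ^ 2 := by
    simp only [Pi.zero_apply, norm_zero, ne_eq, OfNat.ofNat_ne_zero, not_false_eq_true, zero_pow,
      sum_const_zero]
    positivity
  rcases o with _ | ⟨i | j, k⟩
  · exact hz
  · rw [pV_row]
    split_ifs
    · exact hz
    · exact (pN_sq _).trans (pow_le_pow_left₀ (pN_nonneg _) (pN_pRow z S σ i) 2)
  · rw [pV_col]
    split_ifs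
    · exact hz
    · exact (pN_sq _).trans (pow_le_pow_left₀ (pN_nonneg _) (pN_pCol z S σ j) 2)

/-- the vector of unknowns of a solution -/
def pX {n : ℕ} (S : Finset (Fin n)) (w y : Fin n → ℂ) (a : ℂ) : PIx S → ℂ :=
  Sum.elim w (Sum.elim (fun i => y i.1) (fun _ => a))

lemma pYY_pX {n : ℕ} (S : Finset (Fin n)) (w y : Fin n → ℂ) (a : ℂ) (i : Fin n) :
    pYY S (pX S w y a) i = if i ∉ S then y i else a - w i := by
  unfold pYY pX
  split_ifs with h <;> simp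

lemma p_norm_pX {n : ℕ} (S : Finset (Fin n)) (w y : Fin n → ℂ) (a : ℂ)
    (hw : ∑ k, ‖w k‖ ^ 2 ≤ 1) (hy : ∑ k, ‖y k‖ ^ 2 ≤ 1) (ha : ‖a‖ ≤ 3) :
    ∑ k, ‖pX S w y a k‖ ^ 2 ≤ 11 := by
  have h1 : ∑ i : {i : Fin n // i ∉ S}, ‖y i.1‖ ^ 2 ≤ ∑ k, ‖y k‖ ^ 2 := by
    rw [← Finset.sum_subtype (s := Sᶜ) (f := fun k => ‖y k‖ ^ 2) (by intro x; simp)]
    exact sum_le_univ_sum_of_nonneg fun _ => by positivity
  have h2 : ‖a‖ ^ 2 ≤ 9 := by
    nlinarith [norm_nonneg a]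
  simp only [pX, Fintype.sum_sum_type, Sum.elim_inl, Sum.elim_inr, Finset.univ_unique, sum_const,
    card_singleton, one_smul]
  linarith

end Pool.Agent.SMin
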