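import Pool.Agent.SMin.Base

set_option autoImplicit false
open Finset Filter

namespace Pool.Agent.SMin

/-! ## Module B1 (Potential.lean) -/

section B1
open Matrix
open scoped ComplexOrder

variable {ι : Type*} [Fintype ι] [DecidableEq ι]

lemma b1_det_le (A : Matrix ι ι ℂ) (hA : A.PosSemidef) :
    A.det.re ≤ A.trace.re ^ Fintype.card ι := by
  have h1 := hA.1.det_eq_prod_eigenvalues
  have h2 := hA.1.trace_eq_sum_eigenvalues
  rw [h1, h2]
  have e1 : (∏ i, ((hA.1.eigenvalues i : ℝ) : ℂ)) = ((∏ i, hA.1.eigenvalues i : ℝ) : ℂ) := by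
    push_cast; rfl
  have e2 : (∑ i, ((hA.1.eigenvalues i : ℝ) : ℂ)) = ((∑ i, hA.1.eigenvalues i : ℝ) : ℂ) := by
    push_cast; rfl
  have e1' : (∏ i, ((hA.1.eigenvalues i : ℝ) : ℂ)).re = ∏ i, hA.1.eigenvalues i := by
    rw [e1, Complex.ofReal_re]
  have e2' : (∑ i, ((hA.1.eigenvalues i : ℝ) : ℂ)).re = ∑ i, hA.1.eigenvalues i := by
    rw [e2, Complex.ofReal_re]
  have h3 : ∀ i, 0 ≤ hA.1.eigenvalues i := hA.eigenvalues_nonneg
  refine (le_of_eq e1').trans ?_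
  refine le_trans ?_ (le_of_eq (congrArg (fun a => a ^ Fintype.card ι) e2'.symm))
  calc ∏ i, hA.1.eigenvalues i ≤ ∏ _i : ι, ∑ j, hA.1.eigenvalues j :=
        prod_le_prod (fun i _ => h3 i)
          (fun i _ => single_le_sum (f := hA.1.eigenvalues) (fun j _ => h3 j) (mem_univ i))
    _ = _ := by rw [prod_const, card_univ]

lemma b1_cs (A : Matrix ι ι ℂ) (hA : A.PosDef) (v x : ι → ℂ) :
    0 ≤ (v ⬝ᵥ A⁻¹ *ᵥ star v).re ∧ (v ⬝ᵥ A⁻¹ *ᵥ star v).im = 0 ∧
    ‖v ⬝ᵥ x‖ ^ 2 ≤ (v ⬝ᵥ A⁻¹ *ᵥ star v).re * (star x ⬝ᵥ A *ᵥ x).re := by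
  have hdet : IsUnit A.det := (Matrix.isUnit_iff_isUnit_det A).1 hA.isUnit
  obtain ⟨y, hy⟩ : ∃ y, y = A⁻¹ *ᵥ star v := ⟨_, rfl⟩
  have hAy : A *ᵥ y = star v := by
    rw [hy, mulVec_mulVec, mul_nonsing_inv _ hdet, one_mulVec]
  have hyA : ∀ w : ι → ℂ, star y ⬝ᵥ A *ᵥ w = v ⬝ᵥ w := by
    intro w
    rw [dotProduct_mulVec]
    have : star y ᵥ* A = v := by
      have h := congrArg star hAy
      rw [star_mulVec, star_star, hA.1.eq] at h
      exact h
    rw [this]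
  rw [← hy]
  have hq : 0 ≤ v ⬝ᵥ y := by
    rw [← hyA y]; exact hA.posSemidef.dotProduct_mulVec_nonneg y
  have hq0 : 0 ≤ (v ⬝ᵥ y).re := (Complex.le_def.1 hq).1
  have hqi : (v ⬝ᵥ y).im = 0 := (Complex.le_def.1 hq).2.symm
  refine ⟨hq0, hqi, ?_⟩
  obtain ⟨q, hqq⟩ : ∃ q : ℝ, q = (v ⬝ᵥ y).re := ⟨_, rfl⟩
  have hqc : v ⬝ᵥ y = (q : ℂ) := by
    apply Complex.ext
    · simp [hqq]
    · simp [hqi]
  rw [← hqq] at hq0 ⊢
  obtain ⟨s, hs⟩ : ∃ s : ℂ, s = v ⬝ᵥ x := ⟨_, rfl⟩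
  rw [← hs]
  rcases hq0.eq_or_lt with h0 | h0
  · -- q = 0 : y = 0
    have hy0 : y = 0 := by
      by_contra hne
      have := hA.dotProduct_mulVec_pos hne
      rw [hyA y, hqc, ← h0] at this
      simp at this
    have : s = 0 := by
      rw [hs, ← hyA x, hy0]; simp
    rw [this, ← h0]; simp
  · have hz := hA.posSemidef.dotProduct_mulVec_nonneg ((q : ℂ) • x - s • y)
    have hxy : star x ⬝ᵥ A *ᵥ y = star s := by
      rw [hAy, hs, star_dotProduct_star]
    have e : star ((q : ℂ) • x - s • y) ⬝ᵥ A *ᵥ ((q : ℂ) • x - s • y)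
        = q ^ 2 * (star x ⬝ᵥ A *ᵥ x) - q * (star s * s) := by
      rw [star_sub, star_smul, star_smul, mulVec_sub, mulVec_smul, mulVec_smul, sub_dotProduct,
        dotProduct_sub, dotProduct_sub, smul_dotProduct, smul_dotProduct, smul_dotProduct,
        smul_dotProduct, dotProduct_smul, dotProduct_smul, dotProduct_smul, dotProduct_smul,
        hyA, hyA, hxy, hqc, ← hs]
      simp only [smul_eq_mul, Complex.star_def, Complex.conj_ofReal]
      ring
    rw [e] at hz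
    have hz' := (Complex.le_def.1 hz).1
    have h1 : (star s * s) = ((‖s‖ ^ 2 : ℝ) : ℂ) := by
      rw [Complex.star_def, ← Complex.normSq_eq_conj_mul_self, Complex.normSq_eq_norm_sq]
    rw [h1] at hz'
    have h2 : ((q : ℂ) ^ 2 * (star x ⬝ᵥ A *ᵥ x) - q * ((‖s‖ ^ 2 : ℝ) : ℂ)).re
        = q ^ 2 * (star x ⬝ᵥ A *ᵥ x).re - q * ‖s‖ ^ 2 := by
      rw [Complex.sub_re, ← Complex.ofReal_pow, Complex.re_ofReal_mul, Complex.re_ofReal_mul,
        Complex.ofReal_re]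
    rw [h2] at hz'
    have h3 : 0 ≤ q * (q * (star x ⬝ᵥ A *ᵥ x).re - ‖s‖ ^ 2) := by
      have : (0:ℝ) ≤ q ^ 2 * (star x ⬝ᵥ A *ᵥ x).re - q * ‖s‖ ^ 2 := by simpa using hz'
      linarith [this, mul_sub q (q * (star x ⬝ᵥ A *ᵥ x).re) (‖s‖ ^ 2),
        show q * (q * (star x ⬝ᵥ A *ᵥ x).re) = q ^ 2 * (star x ⬝ᵥ A *ᵥ x).re by ring]
    have h4 := nonneg_of_mul_nonneg_right h3 h0
    linarith

/-- the potential matrix -/
noncomputable def b1P (u : ℕ → ι → ℂ) (t : ℕ) : Matrix ι ι ℂ :=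
  1 + ∑ s ∈ range t, vecMulVec (star (u s)) (u s)

lemma b1P_posDef (u : ℕ → ι → ℂ) (t : ℕ) : (b1P u t).PosDef := by
  unfold b1P
  apply PosDef.add_posSemidef PosDef.one
  apply posSemidef_sum
  intro s _
  exact posSemidef_vecMulVec_star_self (u s)

lemma b1P_succ_det (u : ℕ → ι → ℂ) (t : ℕ) :
    (b1P u (t + 1)).det = (b1P u t).det * (1 + u t ⬝ᵥ (b1P u t)⁻¹ *ᵥ star (u t)) := by
  have hdet : IsUnit (b1P u t).det :=
    (Matrix.isUnit_iff_isUnit_det _).1 (b1P_posDef u t).isUnit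
  have h : b1P u (t + 1) = b1P u t + replicateCol Unit (star (u t)) * replicateRow Unit (u t) := by
    unfold b1P
    rw [sum_range_succ, ← add_assoc, vecMulVec_eq Unit (star (u t)) (u t)]
  rw [h, det_add_replicateCol_mul_replicateRow hdet]
  congr 1
  rw [det_unique, Matrix.add_apply, Matrix.one_apply_eq]
  congr 1
  rw [Matrix.mul_assoc, ← replicateCol_mulVec, Matrix.replicateRow_mul_replicateCol_apply]

lemma b1P_quad (u : ℕ → ι → ℂ) (t : ℕ) (x : ι → ℂ) :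
    (star x ⬝ᵥ b1P u t *ᵥ x).re = ∑ k, ‖x k‖ ^ 2 + ∑ s ∈ range t, ‖u s ⬝ᵥ x‖ ^ 2 := by
  unfold b1P
  rw [add_mulVec, one_mulVec, dotProduct_add, Complex.add_re]
  congr 1
  · unfold dotProduct
    rw [Complex.re_sum]
    apply sum_congr rfl
    intro k _
    rw [Pi.star_apply, Complex.star_def, ← Complex.normSq_eq_conj_mul_self, Complex.ofReal_re,
      Complex.normSq_eq_norm_sq]
  · rw [sum_mulVec, dotProduct_sum, Complex.re_sum]
    apply sum_congr rfl
    intro s _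
    rw [vecMulVec_mulVec, dotProduct_smul, star_dotProduct_star]
    rw [op_smul_eq_mul, Complex.star_def, ← Complex.normSq_eq_conj_mul_self,
      Complex.ofReal_re, Complex.normSq_eq_norm_sq]

lemma b1P_trace (u : ℕ → ι → ℂ) (t : ℕ) :
    (b1P u t).trace.re = Fintype.card ι + ∑ s ∈ range t, ∑ k, ‖u s k‖ ^ 2 := by
  unfold b1P
  rw [trace_add, trace_one, trace_sum, Complex.add_re, Complex.re_sum]
  congr 1
  apply sum_congr rfl
  intro s _
  rw [trace_vecMulVec]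
  unfold dotProduct
  rw [Complex.re_sum]
  apply sum_congr rfl
  intro k _
  rw [Pi.star_apply, Complex.star_def, ← Complex.normSq_eq_conj_mul_self, Complex.ofReal_re,
    Complex.normSq_eq_norm_sq]

lemma b1P_det_le (u : ℕ → ι → ℂ) (t : ℕ) :
    (b1P u t).det.re ≤ (b1P u t).trace.re ^ Fintype.card ι :=
  b1_det_le _ (b1P_posDef u t).posSemidef

end B1

open Matrix in
open Classical in
theorem potential {ι : Type*} [Fintype ι] (T : ℕ) (v x : ℕ → ι → ℂ) (η r B X : ℝ)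
    (hη : 0 < η) (hr : 0 < r) (hB0 : 0 ≤ B) (hX0 : 0 ≤ X)
    (hv : ∀ t < T, ∑ k, ‖v t k‖ ^ 2 ≤ B) (hx : ∀ t < T, ∑ k, ‖x t k‖ ^ 2 ≤ X)
    (hsmall : ∀ t < T, ∀ s < t, ‖∑ k, v s k * x t k‖ ≤ η) :
    (1 + r ^ 2 / (η ^ 2 * (X + T))) ^
        ((range T).filter (fun t => r ≤ ‖∑ k, v t k * x t k‖)).card ≤
      ((Fintype.card ι : ℝ) + T * B / η ^ 2) ^ (Fintype.card ι) := by
  obtain ⟨u, hu⟩ : ∃ u : ℕ → ι → ℂ, u = fun s k => ((η⁻¹ : ℝ) : ℂ) * v s k := ⟨_, rfl⟩
  have hux : ∀ s (y : ι → ℂ), ‖u s ⬝ᵥ y‖ = η⁻¹ * ‖∑ k, v s k * y k‖ := by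
    intro s y
    have : u s ⬝ᵥ y = ((η⁻¹ : ℝ) : ℂ) * ∑ k, v s k * y k := by
      rw [hu, mul_sum]
      unfold dotProduct
      apply sum_congr rfl
      intro k _
      ring
    rw [this, norm_mul, Complex.norm_real, Real.norm_of_nonneg (by positivity)]
  have hdetpos : ∀ t, 0 < (b1P u t).det.re ∧ (b1P u t).det.im = 0 := by
    intro t
    have h := (b1P_posDef u t).det_pos
    have h' := Complex.lt_def.1 h
    exact ⟨h'.1, h'.2.symm⟩
  have key : ∀ t, t ≤ T → (1 + r ^ 2 / (η ^ 2 * (X + T))) ^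
        ((range t).filter (fun t => r ≤ ‖∑ k, v t k * x t k‖)).card ≤ (b1P u t).det.re := by
    intro t
    induction t with
    | zero => intro _; simp [b1P]
    | succ t ih =>
      intro ht
      have ih' := ih (by omega)
      have hT : (0:ℝ) < T := by exact_mod_cast (by omega : 0 < T)
      have hXT : 0 < X + T := by linarith
      obtain ⟨hq0, hqi, hcs⟩ := b1_cs (b1P u t) (b1P_posDef u t) (u t) (x t)
      have hstep : (b1P u (t + 1)).det.re
          = (b1P u t).det.re * (1 + (u t ⬝ᵥ (b1P u t)⁻¹ *ᵥ star (u t)).re) := by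
        rw [b1P_succ_det, Complex.mul_re, (hdetpos t).2, Complex.add_re, Complex.one_re]
        ring
      rw [hstep, range_add_one, filter_insert]
      split_ifs with hviol
      · rw [card_insert_of_notMem (by simp), pow_succ]
        apply mul_le_mul ih' _ (by positivity) (hdetpos t).1.le
        have hquad : (star (x t) ⬝ᵥ b1P u t *ᵥ x t).re ≤ X + T := by
          rw [b1P_quad]
          have h1 := hx t (by omega)
          have h2 : ∑ s ∈ range t, ‖u s ⬝ᵥ x t‖ ^ 2 ≤ ∑ _s ∈ range t, (1:ℝ) := by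
            apply sum_le_sum
            intro s hs
            rw [hux]
            have h3 := hsmall t (by omega) s (mem_range.1 hs)
            have h4 : η⁻¹ * ‖∑ k, v s k * x t k‖ ≤ 1 := by
              rw [inv_mul_le_iff₀ hη]; linarith
            have h5 : 0 ≤ η⁻¹ * ‖∑ k, v s k * x t k‖ := by positivity
            nlinarith
          have h3 : ∑ _s ∈ range t, (1:ℝ) = t := by simp
          have h4 : (t:ℝ) ≤ T := by exact_mod_cast (by omega : t ≤ T)
          linarith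
        have h1 : (r / η) ^ 2 ≤ ‖u t ⬝ᵥ x t‖ ^ 2 := by
          rw [hux]
          apply pow_le_pow_left₀ (by positivity)
          rw [div_eq_inv_mul]
          gcongr
        have h2 : (r / η) ^ 2 ≤ (u t ⬝ᵥ (b1P u t)⁻¹ *ᵥ star (u t)).re * (X + T) :=
          h1.trans (hcs.trans (mul_le_mul_of_nonneg_left hquad hq0))
        have h3 : r ^ 2 / (η ^ 2 * (X + T)) ≤ (u t ⬝ᵥ (b1P u t)⁻¹ *ᵥ star (u t)).re := by
          rw [div_le_iff₀ (by positivity)]
          rw [div_pow, div_le_iff₀ (by positivity)] at h2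
          linarith [h2, show (u t ⬝ᵥ (b1P u t)⁻¹ *ᵥ star (u t)).re * (X + T) * η ^ 2
            = (u t ⬝ᵥ (b1P u t)⁻¹ *ᵥ star (u t)).re * (η ^ 2 * (X + T)) by ring]
        linarith
      · refine ih'.trans ?_
        nlinarith [(hdetpos t).1, hq0, mul_nonneg (hdetpos t).1.le hq0]
  refine (key T le_rfl).trans ((b1P_det_le u T).trans ?_)
  rw [b1P_trace]
  apply pow_le_pow_left₀ (by positivity)
  have h1 : ∑ s ∈ range T, ∑ k, ‖u s k‖ ^ 2 ≤ ∑ _s ∈ range T, B / η ^ 2 := by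
    apply sum_le_sum
    intro s hs
    have h2 : ∑ k, ‖u s k‖ ^ 2 = (∑ k, ‖v s k‖ ^ 2) / η ^ 2 := by
      rw [hu, sum_div]
      apply sum_congr rfl
      intro k _
      simp only
      rw [norm_mul, Complex.norm_real, Real.norm_of_nonneg (by positivity)]
      field_simp
    rw [h2]
    exact div_le_div_of_nonneg_right (hv s (mem_range.1 hs)) (by positivity)
  have h2 : ∑ _s ∈ range T, B / η ^ 2 = T * B / η ^ 2 := by
    rw [sum_const, card_range, nsmul_eq_mul, mul_div_assoc]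
  linarith

end Pool.Agent.SMin
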