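import Pool.Agent.SMin.Switch

set_option autoImplicit false
open Finset Filter

namespace Pool.Agent.SMin

/-! ## Module SP (Spread.lean) : from Switch -/

/-- number of pairs in the rows, counted by columns -/
lemma sp_rows {n d : ℕ} {A : Fin n → Fin n → Bool} (hA : A ∈ Reg n d) (V : Finset (Fin n)) :
    ∑ i : Fin n, (V.filter (fun k => A i k = true)).card = d * V.card := by
  classical
  have h := (mem_Reg.1 hA).2
  simp_rw [card_filter]
  rw [sum_comm]
  have : ∀ k ∈ V, (∑ i : Fin n, if A i k = true then 1 else 0) = d := by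
    intro k _
    rw [← card_filter]
    exact h k
  rw [sum_congr rfl this, sum_const, smul_eq_mul, mul_comm]

lemma sp_eIn {n d : ℕ} {A : Fin n → Fin n → Bool} (hA : A ∈ Reg n d) (W U : Finset (Fin n))
    (hWU : W ⊆ U) (hU : ∀ i, ∀ k ∈ W, A i k = true → i ∈ U) : d * W.card ≤ eIn A U := by
  classical
  rw [← sp_rows hA W]
  unfold eIn
  have h1 : ∑ i : Fin n, (W.filter (fun k => A i k = true)).card
      = (((univ : Finset (Fin n)) ×ˢ W).filter (fun e => A e.1 e.2 = true)).card := by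
    rw [card_filter, sum_product]
    apply sum_congr rfl
    intro i _
    rw [card_filter]
  rw [h1]
  apply card_le_card
  intro e he
  simp only [mem_filter, mem_product, mem_univ, true_and] at he ⊢
  exact ⟨⟨hU _ _ he.1 he.2, hWU he.1⟩, he.2⟩

/-- deterministic part of the spreading argument -/
lemma sp_det {n d : ℕ} (hd : 3 ≤ d) {A : Fin n → Fin n → Bool} (hA : A ∈ Reg n d)
    (E W Wp : Finset (Fin n)) (hE : E.card ≤ 2) (hW : W.Nonempty) (hWW : W ⊆ Wp)
    (hcard : 51 * Wp.card ≤ 52 * W.card)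
    (hP : ∀ i, i ∉ E → ∀ k ∈ W, A i k = true →
      i ∈ Wp ∨ 2 ≤ (Wp.filter (fun k => A i k = true)).card) :
    ∃ U : Finset (Fin n), U.Nonempty ∧ 2 * U.card ≤ (4 + d) * Wp.card ∧
      (11 * U.card ≤ 10 * eIn A U ∨ (U.card ≤ 25 * (4 + d) ∧
        (U.card + 1 ≤ eIn A U ∨ (U.card ≤ eIn A U ∧ ∃ e ∈ E, e ∈ U)))) := by
  classical
  set R2 : Finset (Fin n) :=
    univ.filter (fun i => 2 ≤ (Wp.filter (fun k => A i k = true)).card) with hR2
  set E' : Finset (Fin n) :=
    E.filter (fun i => (∃ k ∈ W, A i k = true) ∧ i ∉ Wp ∧ i ∉ R2) with hE'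
  set U : Finset (Fin n) := Wp ∪ R2 ∪ E' with hU
  have hE'2 : E'.card ≤ 2 := (card_filter_le _ _).trans hE
  have hUcard : U.card ≤ Wp.card + R2.card + E'.card :=
    (card_union_le _ _).trans (Nat.add_le_add_right (card_union_le _ _) _)
  have hdisj : Disjoint R2 E' := by
    rw [Finset.disjoint_left]
    intro i hi hi'
    exact (mem_filter.1 hi').2.2.2 hi
  have hcount : 2 * R2.card + E'.card ≤ d * Wp.card := by
    rw [← sp_rows hA Wp]
    calc 2 * R2.card + E'.card = ∑ _i ∈ R2, 2 + ∑ _i ∈ E', 1 := by simp [mul_comm]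
      _ ≤ ∑ i ∈ R2, (Wp.filter (fun k => A i k = true)).card
          + ∑ i ∈ E', (Wp.filter (fun k => A i k = true)).card := by
          apply Nat.add_le_add
          · apply sum_le_sum
            intro i hi
            exact (mem_filter.1 hi).2
          · apply sum_le_sum
            intro i hi
            obtain ⟨k, hk, hAk⟩ := (mem_filter.1 hi).2.1
            exact card_pos.2 ⟨k, mem_filter.2 ⟨hWW hk, hAk⟩⟩
      _ = ∑ i ∈ R2 ∪ E', (Wp.filter (fun k => A i k = true)).card := by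
          rw [sum_union hdisj]
      _ ≤ _ := sum_le_sum_of_subset (subset_univ _)
  have heIn : d * W.card ≤ eIn A U := by
    apply sp_eIn hA
    · intro k hk
      rw [hU, mem_union, mem_union]
      exact Or.inl (Or.inl (hWW hk))
    · intro i k hk hAk
      rw [hU, mem_union, mem_union]
      by_cases hiE : i ∈ E
      · by_cases h1 : i ∈ Wp
        · exact Or.inl (Or.inl h1)
        by_cases h2 : i ∈ R2
        · exact Or.inl (Or.inr h2)
        exact Or.inr (mem_filter.2 ⟨hiE, ⟨k, hk, hAk⟩, h1, h2⟩)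
      · rcases hP i hiE k hk hAk with h | h
        · exact Or.inl (Or.inl h)
        · exact Or.inl (Or.inr (mem_filter.2 ⟨mem_univ _, h⟩))
  have hw1 : 1 ≤ W.card := hW.card_pos
  have hww : W.card ≤ Wp.card := card_le_card hWW
  have hP3 : 3 * W.card ≤ d * W.card := Nat.mul_le_mul_right _ hd
  have hQ : 51 * (d * Wp.card) ≤ 52 * (d * W.card) := by
    have := Nat.mul_le_mul_left d hcard
    nlinarith
  refine ⟨U, ⟨hW.choose, ?_⟩, ?_, ?_⟩
  · rw [hU, mem_union, mem_union]
    exact Or.inl (Or.inl (hWW hW.choose_spec))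
  · rw [add_mul]
    generalize d * Wp.card = Q at *
    omega
  · by_cases h51 : 51 ≤ W.card
    · left
      generalize d * Wp.card = Q at *
      generalize d * W.card = P at *
      omega
    · right
      have hle : Wp.card ≤ W.card := by omega
      have heq : W = Wp := eq_of_subset_of_card_le hWW hle
      have hQP : d * Wp.card = d * W.card := by rw [heq]
      have hwe : Wp.card = W.card := by rw [heq]
      have h50 : d * W.card ≤ d * 50 := Nat.mul_le_mul_left _ (by omega)
      refine ⟨?_, ?_⟩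
      · generalize d * Wp.card = Q at *
        generalize d * W.card = P at *
        omega
      · rcases Nat.eq_zero_or_pos E'.card with h0 | h0
        · left
          generalize d * Wp.card = Q at *
          generalize d * W.card = P at *
          omega
        · right
          refine ⟨?_, ?_⟩
          · generalize d * Wp.card = Q at *
            generalize d * W.card = P at *
            omega
          · obtain ⟨e, he⟩ := card_pos.1 h0
            exact ⟨e, (mem_filter.1 he).1, by rw [hU, mem_union]; exact Or.inr he⟩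

/-- pigeonhole over the scales -/
lemma sp_scale (f : ℕ → ℕ) (M N : ℕ) (h0 : 1 ≤ f 0) (hM : f M ≤ N)
    (hN : (N : ℝ) < ((52 : ℝ) / 51) ^ M) : ∃ m < M, 51 * f (m + 1) ≤ 52 * f m := by
  by_contra hcon
  push Not at hcon
  have key : ∀ m ≤ M, ((52 : ℝ) / 51) ^ m ≤ f m := by
    intro m
    induction m with
    | zero => intro _; simpa using (by exact_mod_cast h0 : (1 : ℝ) ≤ f 0)
    | succ m ih =>
      intro hm
      have h1 := ih (by omega)
      have h2 := hcon m (by omega)
      have h3 : (52 : ℝ) * f m < 51 * f (m + 1) := by exact_mod_cast h2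
      rw [pow_succ]
      nlinarith
  have h1 := key M le_rfl
  have h2 : (f M : ℝ) ≤ N := by exact_mod_cast hM
  linarith

/-- the deterministic statement for one matrix and one vector -/
lemma sp_vec {n d : ℕ} (hd : 3 ≤ d) (z : ℂ) {A : Fin n → Fin n → Bool} (hA : A ∈ Reg n d)
    (j j' : Fin n) (x : Fin n → ℂ) (hx : ∑ k, ‖x k‖ ^ 2 = 1) (η : ℝ)
    (hL : ∀ i, i ≠ j → i ≠ j' → ‖L z (toN A) x i‖ ≤ η) (B : ℝ)
    (hB : ((univ.filter (fun k => η < ‖x k‖)).card : ℝ) ≤ B) (M : ℕ)
    (hM : (n : ℝ) < ((52 : ℝ) / 51) ^ M)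
    (hη : 4 * (n * (4 * (d + ‖z‖) + 4) ^ M) * η < 1) :
    ∃ U : Finset (Fin n), U.Nonempty ∧ (2 * U.card : ℝ) ≤ (4 + d) * B ∧
      (11 * U.card ≤ 10 * eIn A U ∨ (U.card ≤ 25 * (4 + d) ∧
        (U.card + 1 ≤ eIn A U ∨ (U.card ≤ eIn A U ∧ (j ∈ U ∨ j' ∈ U))))) := by
  classical
  set K : ℝ := 4 * (d + ‖z‖) + 4 with hK
  have hd0 : (0 : ℝ) ≤ d := Nat.cast_nonneg _
  have hz0 : 0 ≤ ‖z‖ := norm_nonneg _
  have hK1 : 1 ≤ K := by rw [hK]; nlinarith
  have hK0 : 0 < K := by linarith
  have hn : Nonempty (Fin n) := ⟨j⟩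
  obtain ⟨k0, -, hk0⟩ := exists_max_image (univ : Finset (Fin n)) (fun k => ‖x k‖) univ_nonempty
  set h : ℝ := ‖x k0‖ with hh
  have hsum : (1 : ℝ) ≤ n * h ^ 2 := by
    rw [← hx]
    calc ∑ k, ‖x k‖ ^ 2 ≤ ∑ _k : Fin n, h ^ 2 := by
          apply sum_le_sum
          intro k _
          exact pow_le_pow_left₀ (norm_nonneg _) (hk0 k (mem_univ _)) 2
      _ = _ := by simp
  have hh1 : h ≤ 1 := by
    have h1 : h ^ 2 ≤ 1 := by
      rw [← hx]
      exact single_le_sum (f := fun k => ‖x k‖ ^ 2) (fun k _ => by positivity) (mem_univ k0)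
    have h0 : 0 ≤ h := norm_nonneg _
    nlinarith
  have hh0 : 0 < h := by
    rcases (norm_nonneg (x k0)).lt_or_eq with h' | h'
    · exact h'
    · rw [hh, ← h'] at hsum; norm_num at hsum
  have hnh : 1 ≤ n * h := by
    have hn0 : (0 : ℝ) ≤ n := Nat.cast_nonneg _
    nlinarith [mul_nonneg hn0 hh0.le]
  set W : ℕ → Finset (Fin n) := fun m => univ.filter (fun k => h ≤ K ^ m * ‖x k‖) with hWdef
  have hWm : ∀ m k, k ∈ W m ↔ h ≤ K ^ m * ‖x k‖ := by
    intro m k; simp [hWdef]
  have h0mem : k0 ∈ W 0 := by rw [hWm]; simp [hh]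
  have hsucc : ∀ m, W m ⊆ W (m + 1) := by
    intro m k hk
    rw [hWm] at hk ⊢
    refine hk.trans ?_
    rw [pow_succ]
    have : 0 ≤ K ^ m * ‖x k‖ := by positivity
    nlinarith
  have hmono : ∀ m, W 0 ⊆ W m := by
    intro m
    induction m with
    | zero => exact Subset.refl _
    | succ m ih => exact ih.trans (hsucc m)
  obtain ⟨m, hmM, hm⟩ := sp_scale (fun m => (W m).card) M n (card_pos.2 ⟨k0, h0mem⟩)
    ((card_le_univ _).trans (by simp)) hM
  -- smallness of the error
  have hKM : K ^ (m + 1) ≤ K ^ M := pow_le_pow_right₀ hK1 hmM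
  have hKm0 : 0 < K ^ m := by positivity
  have hηs : 4 * K ^ (m + 1) * η < h := by
    rcases le_or_gt η 0 with hneg | hpos
    · have : 4 * K ^ (m + 1) * η ≤ 0 := mul_nonpos_of_nonneg_of_nonpos (by positivity) hneg
      linarith
    · have h1 : 4 * K ^ (m + 1) * η ≤ 4 * K ^ M * η := by
        apply mul_le_mul_of_nonneg_right _ hpos.le
        linarith
      have hnpos : (0 : ℝ) < n := by
        by_contra hneg
        have : (n : ℝ) = 0 := le_antisymm (not_lt.1 hneg) (Nat.cast_nonneg _)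
        rw [this] at hnh; norm_num at hnh
      have h2 : (4 * K ^ M * η) * n < h * n := by
        calc (4 * K ^ M * η) * n = 4 * (n * K ^ M) * η := by ring
          _ < 1 := hη
          _ ≤ h * n := by linarith [mul_comm h (n : ℝ)]
      exact h1.trans_lt (lt_of_mul_lt_mul_right h2 hnpos.le)
  have hWB : ((W (m + 1)).card : ℝ) ≤ B := by
    refine le_trans ?_ hB
    have : W (m + 1) ⊆ univ.filter (fun k => η < ‖x k‖) := by
      intro k hk
      rw [hWm] at hk
      simp only [mem_filter, mem_univ, true_and]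
      have hKp : 0 < K ^ (m + 1) := by positivity
      by_contra hcon
      push Not at hcon
      have h1 : K ^ (m + 1) * ‖x k‖ ≤ K ^ (m + 1) * η := mul_le_mul_of_nonneg_left hcon hKp.le
      have h2 : 0 < K ^ (m + 1) * η := by linarith
      nlinarith
    exact_mod_cast card_le_card this
  obtain ⟨U, hU1, hU2, hU3⟩ := sp_det hd hA {j, j'} (W m) (W (m + 1)) card_le_two
    ⟨k0, hmono m h0mem⟩ (hsucc m) hm (by
      intro i hiE k hk hAk
      simp only [mem_insert, mem_singleton, not_or] at hiE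
      by_contra hcon
      push Not at hcon
      obtain ⟨hiW, hcard⟩ := hcon
      have hLi := hL i hiE.1 hiE.2
      have hkmem : k ∈ (W (m + 1)).filter (fun k => A i k = true) :=
        mem_filter.2 ⟨hsucc m hk, hAk⟩
      have hone : ∀ l, A i l = true → l ≠ k → l ∉ W (m + 1) := by
        intro l hl hlk hlW
        have : ({k, l} : Finset (Fin n)) ⊆ (W (m + 1)).filter (fun k => A i k = true) := by
          intro a ha
          simp only [mem_insert, mem_singleton] at ha
          rcases ha with rfl | rfl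
          · exact hkmem
          · exact mem_filter.2 ⟨hlW, hl⟩
        have h2 := card_le_card this
        rw [card_pair (Ne.symm hlk)] at h2
        omega
      set a : ℝ := h / K ^ m with ha
      have ha0 : 0 < a := by positivity
      have hxk : a ≤ ‖x k‖ := by
        rw [hWm] at hk
        rw [ha, div_le_iff₀ hKm0]
        linarith [mul_comm (K ^ m) ‖x k‖]
      have hout : ∀ l, l ∉ W (m + 1) → ‖x l‖ ≤ a / K := by
        intro l hl
        rw [hWm, not_le] at hl
        rw [ha, div_div, ← pow_succ, le_div_iff₀ (by positivity)]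
        linarith [mul_comm (K ^ (m + 1)) ‖x l‖]
      have hsumL : ∑ l, (toN A i l : ℂ) * x l
          = x k + ∑ l ∈ (univ.filter (fun l => A i l = true)).erase k, x l := by
        have hk2 : k ∈ univ.filter (fun l => A i l = true) := mem_filter.2 ⟨mem_univ _, hAk⟩
        rw [add_comm, sum_erase_add (univ.filter (fun l => A i l = true)) x hk2, sum_filter]
        apply sum_congr rfl
        intro l _
        unfold toN
        split_ifs <;> simp
      have hrest : ‖∑ l ∈ (univ.filter (fun l => A i l = true)).erase k, x l‖ ≤ d * (a / K) := by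
        refine (norm_sum_le _ _).trans ?_
        calc ∑ l ∈ (univ.filter (fun l => A i l = true)).erase k, ‖x l‖
            ≤ ∑ _l ∈ (univ.filter (fun l => A i l = true)).erase k, a / K := by
              apply sum_le_sum
              intro l hl
              rw [mem_erase, mem_filter] at hl
              exact hout l (hone l hl.2.2 hl.1)
          _ = (((univ.filter (fun l => A i l = true)).erase k).card : ℝ) * (a / K) := by
              rw [sum_const, nsmul_eq_mul]
          _ ≤ d * (a / K) := by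
              apply mul_le_mul_of_nonneg_right _ (by positivity)
              have h1 : ((univ.filter (fun l => A i l = true)).erase k).card ≤ d := by
                refine (card_erase_le).trans ?_
                rw [(mem_Reg.1 hA).1 i]
              exact_mod_cast h1
      have hxi : ‖x i‖ ≤ a / K := hout i hiW
      have hηa : η < a / 4 := by
        have h1 : K ^ m * η * 4 < h := by
          rcases le_or_gt η 0 with hneg | hpos
          · have : K ^ m * η * 4 ≤ 0 := by
              have := mul_nonpos_of_nonneg_of_nonpos hKm0.le hneg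
              linarith
            linarith
          · have h2 : K ^ m * η ≤ K ^ (m + 1) * η := by
              apply mul_le_mul_of_nonneg_right _ hpos.le
              exact pow_le_pow_right₀ hK1 (Nat.le_succ m)
            linarith
        rw [ha, div_div, lt_div_iff₀ (by positivity)]
        linarith
      have hxkle : ‖x k‖ ≤ η + d * (a / K) + ‖z‖ * (a / K) := by
        have e1 : x k = L z (toN A) x i
            - ∑ l ∈ (univ.filter (fun l => A i l = true)).erase k, x l + z * x i := by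
          unfold L
          rw [hsumL]; ring
        rw [e1]
        refine (norm_add_le _ _).trans ?_
        refine add_le_add ?_ ?_
        · exact (norm_sub_le _ _).trans (add_le_add hLi hrest)
        · rw [norm_mul]
          exact mul_le_mul_of_nonneg_left hxi hz0
      have hKa : (d + ‖z‖) * (a / K) ≤ a / 4 := by
        rw [mul_div_assoc', div_le_div_iff₀ hK0 (by norm_num)]
        rw [hK]; nlinarith
      nlinarith)
  refine ⟨U, hU1, ?_, ?_⟩
  · have h1 : (2 * U.card : ℝ) ≤ (4 + d) * (W (m + 1)).card := by exact_mod_cast hU2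
    refine h1.trans ?_
    exact mul_le_mul_of_nonneg_left hWB (by positivity)
  · rcases hU3 with h1 | ⟨h1, h2 | ⟨h2, e, he, heU⟩⟩
    · exact Or.inl h1
    · exact Or.inr ⟨h1, Or.inl h2⟩
    · refine Or.inr ⟨h1, Or.inr ⟨h2, ?_⟩⟩
      simp only [mem_insert, mem_singleton] at he
      rcases he with rfl | rfl
      · exact Or.inl heU
      · exact Or.inr heU

/-! ### marginals of product sets -/

lemma sp_fr_fst {α β : Type*} (S : Finset α) (T : Finset β) (Q : α → Prop) :
    fr (S ×ˢ T) (fun t => Q t.1) ≤ fr S Q := by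
  classical
  rw [fr_def, fr_def]
  have h1 : ((S ×ˢ T).filter (fun t => Q t.1)) = (S.filter Q) ×ˢ T := by
    ext t; simp only [mem_filter, mem_product]; tauto
  rw [h1, card_product, card_product]
  rcases T.eq_empty_or_nonempty with h | h
  · rw [h]; simp; positivity
  · have : (T.card : ℝ) ≠ 0 := by exact_mod_cast h.card_pos.ne'
    push_cast
    rw [mul_div_mul_right _ _ this]

lemma sp_fr_left {α β : Type*} [Fintype β] (S : Finset α) (Q : α → β → Prop) :
    fr (S ×ˢ (univ : Finset (β × β))) (fun t => Q t.1 t.2.1)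
      ≤ fr (S ×ˢ (univ : Finset β)) (fun t => Q t.1 t.2) := by
  classical
  have h := sp_fr_fst (S ×ˢ (univ : Finset β)) (univ : Finset β) (fun t => Q t.1 t.2)
  refine le_trans (le_of_eq ?_) h
  rw [fr_def, fr_def]
  congr 1
  · norm_cast
    apply card_bij (fun t _ => ((t.1, t.2.1), t.2.2))
    · intro t ht
      simpa using ht
    · intro a _ b _ hab
      simp only [Prod.mk.injEq] at hab
      exact Prod.ext hab.1.1 (Prod.ext hab.1.2 hab.2)
    · intro b hb
      exact ⟨(b.1.1, (b.1.2, b.2)), by simpa using hb, rfl⟩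
  · simp [card_product, Fintype.card_prod]; ring

lemma sp_fr_right {α β : Type*} [Fintype β] (S : Finset α) (Q : α → β → Prop) :
    fr (S ×ˢ (univ : Finset (β × β))) (fun t => Q t.1 t.2.2)
      ≤ fr (S ×ˢ (univ : Finset β)) (fun t => Q t.1 t.2) := by
  classical
  have h := sp_fr_fst (S ×ˢ (univ : Finset β)) (univ : Finset β) (fun t => Q t.1 t.2)
  refine le_trans (le_of_eq ?_) h
  rw [fr_def, fr_def]
  congr 1
  · norm_cast
    apply card_bij (fun t _ => ((t.1, t.2.2), t.2.1))
    · intro t ht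
      simpa using ht
    · intro a _ b _ hab
      simp only [Prod.mk.injEq] at hab
      exact Prod.ext hab.1.1 (Prod.ext hab.2 hab.1.2)
    · intro b hb
      exact ⟨(b.1.1, (b.2, b.1.2)), by simpa using hb, rfl⟩
  · simp [card_product, Fintype.card_prod]; ring

/-- the smallness condition at the scale `M = 36 (log2 n + 1)` -/
lemma sp_small (K δ : ℝ) (hK : 1 ≤ K) (hδ : 0 < δ) : ∀ᶠ n : ℕ in atTop,
    4 * (n * K ^ (36 * (Nat.log 2 n + 1))) * Real.exp (-(δ * n)) < 1 := by
  obtain ⟨k, hk⟩ : ∃ k : ℕ, K ≤ 2 ^ k := pow_unbounded_of_one_lt K (by norm_num) |>.imp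
    (fun _ h => h.le)
  have h1 := (isLittleO_pow_exp_pos_mul_atTop (36 * k + 1) hδ).comp_tendsto
    tendsto_natCast_atTop_atTop
  have h2 := h1.def (c := 1 / (4 * 2 ^ (36 * k) * 2)) (by positivity)
  filter_upwards [h2, eventually_ge_atTop 1] with n hn hn1
  simp only [Function.comp] at hn
  rw [Real.norm_of_nonneg (by positivity), Real.norm_of_nonneg (by positivity)] at hn
  have hnpos : (0 : ℝ) < n := by exact_mod_cast hn1
  have h3 : K ^ (36 * (Nat.log 2 n + 1)) ≤ 2 ^ (36 * k) * (n : ℝ) ^ (36 * k) := by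
    calc K ^ (36 * (Nat.log 2 n + 1)) ≤ (2 ^ k) ^ (36 * (Nat.log 2 n + 1)) :=
          pow_le_pow_left₀ (by linarith) hk _
      _ = 2 ^ (36 * k) * ((2 : ℝ) ^ (Nat.log 2 n)) ^ (36 * k) := by
          rw [← pow_mul, ← pow_mul, ← pow_add]; congr 1; ring
      _ ≤ 2 ^ (36 * k) * (n : ℝ) ^ (36 * k) := by
          apply mul_le_mul_of_nonneg_left _ (by positivity)
          apply pow_le_pow_left₀ (by positivity)
          exact_mod_cast Nat.pow_log_le_self 2 (by omega)
  have hexp : 0 < Real.exp (δ * n) := Real.exp_pos _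
  rw [Real.exp_neg, ← div_eq_mul_inv, div_lt_one hexp]
  calc 4 * (n * K ^ (36 * (Nat.log 2 n + 1))) ≤ 4 * (n * (2 ^ (36 * k) * (n : ℝ) ^ (36 * k))) := by
        gcongr
    _ = (4 * 2 ^ (36 * k)) * (n : ℝ) ^ (36 * k + 1) := by rw [pow_succ]; ring
    _ ≤ (4 * 2 ^ (36 * k)) * (1 / (4 * 2 ^ (36 * k) * 2) * Real.exp (δ * n)) := by gcongr
    _ = Real.exp (δ * n) / 2 := by field_simp
    _ < Real.exp (δ * n) := by linarith

lemma sp_pow (n : ℕ) : (n : ℝ) < ((52 : ℝ) / 51) ^ (36 * (Nat.log 2 n + 1)) := by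
  rw [pow_mul]
  have h1 : (2 : ℝ) ≤ ((52 : ℝ) / 51) ^ 36 := by norm_num
  have h2 : (n : ℝ) < 2 ^ (Nat.log 2 n + 1) := by
    exact_mod_cast Nat.lt_pow_succ_log_self (by norm_num) n
  exact h2.trans_le (pow_le_pow_left₀ (by norm_num) h1 _)

theorem T_spread (d : ℕ) (hd3 : 3 ≤ d) (z : ℂ) :
    ∃ θ2 : ℝ, 0 < θ2 ∧ ∀ δ : ℝ, 0 < δ → ∀ ε : ℝ, 0 < ε → ∀ᶠ n : ℕ in atTop,
      fr (Reg n d ×ˢ (univ : Finset (Fin n × Fin n))) (fun t => ∃ x : Fin n → ℂ,
        (∑ k, ‖x k‖ ^ 2 = 1) ∧
        (∀ i, i ≠ t.2.1 → i ≠ t.2.2 → ‖L z (toN t.1) x i‖ ≤ Real.exp (-(δ * n))) ∧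
        ((univ.filter (fun k => Real.exp (-(δ * n)) < ‖x k‖)).card : ℝ) ≤ θ2 * n) ≤ ε := by
  classical
  set u0 : ℕ := 25 * (4 + d) with hu0
  have hu0pos : (0 : ℝ) < u0 := by rw [hu0]; positivity
  have hu0ge : (10 : ℝ) ≤ u0 := by
    rw [hu0]; push_cast
    have : (0 : ℝ) ≤ d := Nat.cast_nonneg _
    linarith
  obtain ⟨θ3, hθ3, hsparse⟩ := sparse_whp d (by omega) (1 / u0) (by positivity)
    (by rw [div_le_one hu0pos]; linarith)
  refine ⟨2 * θ3 / (4 + d), by positivity, ?_⟩
  intro δ hδ ε hε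
  have hK1 : (1 : ℝ) ≤ 4 * (d + ‖z‖) + 4 := by
    have h1 : (0 : ℝ) ≤ d := Nat.cast_nonneg _
    have h2 := norm_nonneg z
    linarith
  filter_upwards [hsparse (ε / 3) (by positivity), cycle_whp d (by omega) u0 (ε / 3) (by positivity),
    sp_small _ δ hK1 hδ] with n hn1 hn2 hn3
  have hsub : fr (Reg n d ×ˢ (univ : Finset (Fin n × Fin n))) (fun t => ∃ x : Fin n → ℂ,
        (∑ k, ‖x k‖ ^ 2 = 1) ∧
        (∀ i, i ≠ t.2.1 → i ≠ t.2.2 → ‖L z (toN t.1) x i‖ ≤ Real.exp (-(δ * n))) ∧
        ((univ.filter (fun k => Real.exp (-(δ * n)) < ‖x k‖)).card : ℝ)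
          ≤ 2 * θ3 / (4 + d) * n)
      ≤ fr (Reg n d ×ˢ (univ : Finset (Fin n × Fin n))) (fun t =>
        (∃ U : Finset (Fin n), U.Nonempty ∧ (U.card : ℝ) ≤ θ3 * n ∧
          (1 + 1 / (u0 : ℝ)) * U.card ≤ (eIn t.1 U : ℝ)) ∨
        ((∃ U : Finset (Fin n), t.2.1 ∈ U ∧ U.card ≤ u0 ∧ U.card ≤ eIn t.1 U) ∨
         (∃ U : Finset (Fin n), t.2.2 ∈ U ∧ U.card ≤ u0 ∧ U.card ≤ eIn t.1 U))) := by
    apply fr_mono
    rintro ⟨A, j, j'⟩ hmem ⟨x, hx, hL, hB⟩
    rw [mem_product] at hmem
    obtain ⟨U, hU1, hU2, hU3⟩ := sp_vec hd3 z hmem.1 j j' x hx _ hL _ hB _ (sp_pow n) hn3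
    have hUθ : (U.card : ℝ) ≤ θ3 * n := by
      have h1 : (4 + d : ℝ) * (2 * θ3 / (4 + d) * n) = 2 * (θ3 * n) := by field_simp
      rw [h1] at hU2
      linarith
    have hU0 : (0 : ℝ) ≤ U.card := Nat.cast_nonneg _
    rcases hU3 with h1 | ⟨h1, h2 | ⟨h2, h3 | h3⟩⟩
    · left
      refine ⟨U, hU1, hUθ, ?_⟩
      have h2 : (11 * U.card : ℝ) ≤ 10 * eIn A U := by exact_mod_cast h1
      have h3 : 1 / (u0 : ℝ) ≤ 1 / 10 := one_div_le_one_div_of_le (by norm_num) hu0ge
      have h4 : (1 + 1 / (u0 : ℝ)) * U.card ≤ (1 + 1 / 10) * U.card := by gcongr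
      refine h4.trans ?_
      show (1 + 1 / 10 : ℝ) * U.card ≤ (eIn A U : ℝ)
      linarith
    · left
      refine ⟨U, hU1, hUθ, ?_⟩
      have h3 : (U.card : ℝ) + 1 ≤ eIn A U := by exact_mod_cast h2
      have h4 : (U.card : ℝ) / u0 ≤ 1 := by
        rw [div_le_one hu0pos]; exact_mod_cast h1
      have h5 : (1 + 1 / (u0 : ℝ)) * U.card = U.card + U.card / u0 := by ring
      rw [h5]
      show (U.card : ℝ) + U.card / u0 ≤ (eIn A U : ℝ)
      linarith
    · right; left
      exact ⟨U, h3, h1, h2⟩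
    · right; right
      exact ⟨U, h3, h1, h2⟩
  refine hsub.trans ?_
  refine (fr_or_le _ _ _).trans ?_
  have e1 := (sp_fr_fst (Reg n d) (univ : Finset (Fin n × Fin n)) (fun A =>
    ∃ U : Finset (Fin n), U.Nonempty ∧ (U.card : ℝ) ≤ θ3 * n ∧
          (1 + 1 / (u0 : ℝ)) * U.card ≤ (eIn A U : ℝ))).trans hn1
  have e2 := (fr_or_le (Reg n d ×ˢ (univ : Finset (Fin n × Fin n)))
    (fun t => ∃ U : Finset (Fin n), t.2.1 ∈ U ∧ U.card ≤ u0 ∧ U.card ≤ eIn t.1 U)
    (fun t => ∃ U : Finset (Fin n), t.2.2 ∈ U ∧ U.card ≤ u0 ∧ U.card ≤ eIn t.1 U))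
  have e3 := (sp_fr_left (Reg n d) (fun A j =>
    ∃ U : Finset (Fin n), j ∈ U ∧ U.card ≤ u0 ∧ U.card ≤ eIn A U)).trans hn2
  have e4 := (sp_fr_right (Reg n d) (fun A j =>
    ∃ U : Finset (Fin n), j ∈ U ∧ U.card ≤ u0 ∧ U.card ≤ eIn A U)).trans hn2
  linarith

end Pool.Agent.SMin
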