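import Pool.Agent.SMin.Transfer
import Pool.Agent.SMin.TCfg
import Pool.Agent.SMin.Spread

set_option autoImplicit false
open Finset Filter

namespace Pool.Agent.SMin

/-! ## Module S (SMain.lean) : from transfer, T_cfg, T_spread -/

/-- fibrewise bound over the second factor -/
lemma sm_prod_le {α β : Type*} (S : Finset α) (T : Finset β) (P : α × β → Prop) (c : ℝ) (hc : 0 ≤ c)
    (h : ∀ b ∈ T, fr S (fun a => P (a, b)) ≤ c) : fr (S ×ˢ T) P ≤ c := by
  classical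
  rw [fr_def]
  rcases (S ×ˢ T).eq_empty_or_nonempty with he | he
  · rw [he]; simpa using hc
  have hpos : (0:ℝ) < ((S ×ˢ T).card : ℝ) := by exact_mod_cast he.card_pos
  rw [div_le_iff₀ hpos]
  have h1 : ((S ×ˢ T).filter P).card ≤ ∑ b ∈ T, (S.filter (fun a => P (a, b))).card := by
    have : ((S ×ˢ T).filter P) ⊆ T.biUnion (fun b => (S.filter (fun a => P (a, b))).image (fun a => (a, b))) := by
      rintro ⟨a, b⟩ hab
      simp only [mem_filter, mem_product] at hab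
      simp only [mem_biUnion, mem_image, mem_filter]
      exact ⟨b, hab.1.2, a, ⟨hab.1.1, hab.2⟩, rfl⟩
    refine (card_le_card this).trans (card_biUnion_le.trans ?_)
    exact sum_le_sum fun b _ => card_image_le
  have h2 : ((((S ×ˢ T).filter P).card : ℕ) : ℝ) ≤ ∑ b ∈ T, ((S.filter (fun a => P (a, b))).card : ℝ) := by
    exact_mod_cast h1
  refine h2.trans ?_
  calc ∑ b ∈ T, ((S.filter (fun a => P (a, b))).card : ℝ) ≤ ∑ b ∈ T, c * S.card := by
        apply sum_le_sum; intro b hb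
        rw [card_filter_eq_fr_mul]
        exact mul_le_mul_of_nonneg_right (h b hb) (by positivity)
    _ = c * ((S ×ˢ T).card : ℝ) := by
        rw [sum_const, nsmul_eq_mul, card_product]; push_cast; ring

theorem S_main (d : ℕ) (hd3 : 3 ≤ d) (z : ℂ) (hz0 : z ≠ 0) (hzd : z ≠ d) (θ δ : ℝ) (hθ : 0 < θ)
    (hδ : 0 < δ) (ε : ℝ) (hε : 0 < ε) : ∀ᶠ n : ℕ in atTop,
      fr (Reg n d ×ˢ (univ : Finset (Fin n × Fin n))) (fun t => ∃ x : Fin n → ℂ,
        (∑ k, ‖x k‖ ^ 2 = 1) ∧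
        (∀ i, i ≠ t.2.1 → i ≠ t.2.2 → ‖L z (toN t.1) x i‖ ≤ Real.exp (-(δ * n))) ∧
        ∃ a : ℂ, θ * n ≤ (bc x univ a (Real.exp (-(δ * n))) : ℝ)) ≤ ε := by
  classical
  obtain ⟨θ2, hθ2, hspread⟩ := T_spread d hd3 z
  obtain ⟨δ', hδ', c, hc, hcfg⟩ := T_cfg d hd3 z hz0 hzd θ θ2 δ hθ hθ2 hδ
  have hsp := hspread (min δ δ') (lt_min hδ hδ') (ε / 2) (by positivity)
  have htr := transfer d (by omega) (c / 2) (by positivity)
  have hnum : ∀ᶠ n : ℕ in atTop, 1 * Real.exp (-(c / 2) * n) < ε / 2 :=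
    (ct_exp (-(c / 2)) 1 (by linarith)).eventually_lt_const (by positivity)
  filter_upwards [hcfg, hsp, htr, hnum] with n hcfg hsp htr hnum
  have hn0 : (0:ℝ) ≤ n := by positivity
  have hincl : fr (Reg n d ×ˢ (univ : Finset (Fin n × Fin n))) (fun t => ∃ x : Fin n → ℂ,
        (∑ k, ‖x k‖ ^ 2 = 1) ∧
        (∀ i, i ≠ t.2.1 → i ≠ t.2.2 → ‖L z (toN t.1) x i‖ ≤ Real.exp (-(δ * n))) ∧
        ∃ a : ℂ, θ * n ≤ (bc x univ a (Real.exp (-(δ * n))) : ℝ)) ≤
      fr (Reg n d ×ˢ (univ : Finset (Fin n × Fin n))) (fun t => (∃ x : Fin n → ℂ,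
          Sol z (toN t.1) {t.2.1, t.2.2} (Real.exp (-(δ * n))) x ∧
          (∃ a : ℂ, θ * n ≤ (bc x univ a (Real.exp (-(δ * n))) : ℝ)) ∧
          θ2 * n < ((univ.filter (fun k => Real.exp (-(δ' * n)) < ‖x k‖)).card : ℝ)) ∨
        (∃ x : Fin n → ℂ, (∑ k, ‖x k‖ ^ 2 = 1) ∧
        (∀ i, i ≠ t.2.1 → i ≠ t.2.2 → ‖L z (toN t.1) x i‖ ≤ Real.exp (-(min δ δ' * n))) ∧
        ((univ.filter (fun k => Real.exp (-(min δ δ' * n)) < ‖x k‖)).card : ℝ) ≤ θ2 * n)) := by
    apply fr_mono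
    rintro ⟨A, j, j'⟩ - ⟨x, hx1, hx2, ha⟩
    by_cases h : θ2 * n < ((univ.filter (fun k => Real.exp (-(δ' * n)) < ‖x k‖)).card : ℝ)
    · left
      refine ⟨x, ⟨hx1.le, ?_⟩, ha, h⟩
      intro i hi
      simp only [mem_insert, mem_singleton, not_or] at hi
      exact hx2 i hi.1 hi.2
    · right
      refine ⟨x, hx1, ?_, ?_⟩
      · intro i h1 h2
        refine (hx2 i h1 h2).trans ?_
        rw [Real.exp_le_exp]
        have := mul_le_mul_of_nonneg_right (min_le_left δ δ') hn0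
        linarith
      · refine le_trans ?_ (not_lt.1 h)
        have e2 : (univ.filter (fun k => Real.exp (-(min δ δ' * n)) < ‖x k‖)).card ≤
            (univ.filter (fun k => Real.exp (-(δ' * n)) < ‖x k‖)).card := by
          apply card_le_card
          intro k hk
          rw [mem_filter] at hk ⊢
          refine ⟨hk.1, lt_of_le_of_lt ?_ hk.2⟩
          rw [Real.exp_le_exp]
          have := mul_le_mul_of_nonneg_right (min_le_right δ δ') hn0
          linarith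
        exact_mod_cast e2
  refine hincl.trans ((fr_or_le _ _ _).trans ?_)
  have h1 : fr (Reg n d ×ˢ (univ : Finset (Fin n × Fin n))) (fun t => ∃ x : Fin n → ℂ,
          Sol z (toN t.1) {t.2.1, t.2.2} (Real.exp (-(δ * n))) x ∧
          (∃ a : ℂ, θ * n ≤ (bc x univ a (Real.exp (-(δ * n))) : ℝ)) ∧
          θ2 * n < ((univ.filter (fun k => Real.exp (-(δ' * n)) < ‖x k‖)).card : ℝ)) ≤ ε / 2 := by
    apply sm_prod_le _ _ _ _ (by positivity)
    rintro ⟨j, j'⟩ -
    have h2 := htr.2 (fun m => ∃ x : Fin n → ℂ,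
          Sol z m {j, j'} (Real.exp (-(δ * n))) x ∧
          (∃ a : ℂ, θ * n ≤ (bc x univ a (Real.exp (-(δ * n))) : ℝ)) ∧
          θ2 * n < ((univ.filter (fun k => Real.exp (-(δ' * n)) < ‖x k‖)).card : ℝ))
    refine h2.trans ?_
    have h3 := hcfg {j, j'} card_le_two
    calc _ ≤ Real.exp (c / 2 * n) * Real.exp (-(c * n)) :=
          mul_le_mul_of_nonneg_left h3 (Real.exp_pos _).le
      _ = 1 * Real.exp (-(c / 2) * n) := by rw [← Real.exp_add, one_mul]; congr 1; ring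
      _ ≤ ε / 2 := hnum.le
  linarith

end Pool.Agent.SMin
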