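import Pool.Agent.SMin.Base
import Pool.Agent.SMin.OneStep

set_option autoImplicit false
open Finset Filter

namespace Pool.Agent.SMin

/-! ## Module PST (Strategy.lean) : adaptive exposure -/

/-- out-stubs `(inl i, k)` and in-stubs `(inr j, l)` -/
abbrev PStub (n d : ℕ) := (Fin n ⊕ Fin n) × Fin d

/-- a set of revealed pairs -/
abbrev PState (n d : ℕ) := Finset ((Fin n × Fin d) × (Fin n × Fin d))

section pst
variable {n d : ℕ}

/-- the two stubs of a pair -/
def pstOut (e : (Fin n × Fin d) × (Fin n × Fin d)) : PStub n d := (Sum.inl e.1.1, e.1.2)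
def pstIn (e : (Fin n × Fin d) × (Fin n × Fin d)) : PStub n d := (Sum.inr e.2.1, e.2.2)

/-- the stub `s` is revealed in the state `S` -/
def POcc (S : PState n d) (s : PStub n d) : Prop := ∃ e ∈ S, pstOut e = s ∨ pstIn e = s

/-- the pair of `σ` containing the stub `s` -/
def ppart (σ : Cfg n d) (s : PStub n d) : (Fin n × Fin d) × (Fin n × Fin d) :=
  match s with
  | (Sum.inl i, k) => ((i, k), σ (i, k))
  | (Sum.inr j, l) => (σ.symm (j, l), (j, l))

/-- the configuration is consistent with the state -/
def PCon (σ : Cfg n d) (S : PState n d) : Prop := ∀ e ∈ S, σ e.1 = e.2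

lemma pst_ppart_con (σ : Cfg n d) (s : PStub n d) : σ (ppart σ s).1 = (ppart σ s).2 := by
  rcases s with ⟨i | j, k⟩ <;> simp [ppart]

lemma pst_ppart_mem (σ : Cfg n d) (s : PStub n d) :
    pstOut (ppart σ s) = s ∨ pstIn (ppart σ s) = s := by
  rcases s with ⟨i | j, k⟩ <;> simp [ppart, pstOut, pstIn]

open Classical in
/-- number of unrevealed stubs of the vertex `v` -/
noncomputable def pdeg (S : PState n d) (v : Fin n ⊕ Fin n) : ℕ :=
  (univ.filter (fun k : Fin d => ¬ POcc S (v, k))).card

lemma pst_out_ne_in (e e' : (Fin n × Fin d) × (Fin n × Fin d)) : pstOut e ≠ pstIn e' := by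
  simp [pstOut, pstIn]

lemma pst_out_inj {e e' : (Fin n × Fin d) × (Fin n × Fin d)} (h : pstOut e = pstOut e') :
    e.1 = e'.1 := by
  simp only [pstOut, Prod.mk.injEq, Sum.inl.injEq] at h
  exact Prod.ext h.1 h.2

lemma pst_in_inj {e e' : (Fin n × Fin d) × (Fin n × Fin d)} (h : pstIn e = pstIn e') :
    e.2 = e'.2 := by
  simp only [pstIn, Prod.mk.injEq, Sum.inr.injEq] at h
  exact Prod.ext h.1 h.2

/-- both stubs of the pair of an unrevealed stub are unrevealed -/
lemma pst_unocc {σ : Cfg n d} {S : PState n d} (hc : PCon σ S) {s : PStub n d} (hs : ¬ POcc S s) :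
    ¬ POcc S (pstOut (ppart σ s)) ∧ ¬ POcc S (pstIn (ppart σ s)) := by
  have key : ∀ e ∈ S, pstOut e = pstOut (ppart σ s) ∨ pstIn e = pstIn (ppart σ s) → False := by
    intro e he h
    have h1 := hc e he
    have h2 := pst_ppart_con σ s
    have h3 : e = ppart σ s := by
      rcases h with h | h
      · have h4 := pst_out_inj h
        refine Prod.ext h4 ?_
        rw [← h1, ← h2, h4]
      · have h4 := pst_in_inj h
        refine Prod.ext ?_ h4
        apply σ.injective
        rw [h1, h2, h4]
    apply hs
    refine ⟨e, he, ?_⟩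
    rw [h3]
    exact pst_ppart_mem σ s
  constructor
  · rintro ⟨e, he, h | h⟩
    · exact key e he (Or.inl h)
    · exact pst_out_ne_in _ _ h.symm
  · rintro ⟨e, he, h | h⟩
    · exact pst_out_ne_in _ _ h
    · exact key e he (Or.inr h)

lemma pst_occ_insert (S : PState n d) (e : (Fin n × Fin d) × (Fin n × Fin d)) (s : PStub n d) :
    POcc (insert e S) s ↔ POcc S s ∨ pstOut e = s ∨ pstIn e = s := by
  unfold POcc
  constructor
  · rintro ⟨e', he', h⟩
    rcases mem_insert.1 he' with rfl | h'
    · exact Or.inr h
    · exact Or.inl ⟨e', h', h⟩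
  · rintro (⟨e', he', h⟩ | h)
    · exact ⟨e', mem_insert_of_mem he', h⟩
    · exact ⟨e, mem_insert_self _ _, h⟩

lemma pst_deg_insert (S : PState n d) (e : (Fin n × Fin d) × (Fin n × Fin d))
    (h1 : ¬ POcc S (pstOut e)) (h2 : ¬ POcc S (pstIn e)) (v : Fin n ⊕ Fin n) :
    pdeg (insert e S) v + (if v = (pstOut e).1 ∨ v = (pstIn e).1 then 1 else 0) = pdeg S v := by
  classical
  unfold pdeg
  simp_rw [pst_occ_insert]
  by_cases hv : v = (pstOut e).1
  · subst hv
    rw [if_pos (Or.inl rfl)]
    have : (univ.filter (fun k : Fin d => ¬ POcc S ((pstOut e).1, k))) =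
        insert (pstOut e).2 (univ.filter (fun k : Fin d => ¬ (POcc S ((pstOut e).1, k) ∨
          pstOut e = ((pstOut e).1, k) ∨ pstIn e = ((pstOut e).1, k)))) := by
      ext k
      simp only [mem_filter, mem_univ, true_and, mem_insert]
      constructor
      · intro h
        by_cases hk : k = (pstOut e).2
        · exact Or.inl hk
        · right
          rintro (h' | h' | h')
          · exact h h'
          · exact hk (by rw [h'])
          · simp [pstOut, pstIn] at h'
      · rintro (h | h)
        · rw [h]; exact h1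
        · exact fun h' => h (Or.inl h')
    rw [this, card_insert_of_notMem]
    simp
  · by_cases hv' : v = (pstIn e).1
    · subst hv'
      rw [if_pos (Or.inr rfl)]
      have : (univ.filter (fun k : Fin d => ¬ POcc S ((pstIn e).1, k))) =
          insert (pstIn e).2 (univ.filter (fun k : Fin d => ¬ (POcc S ((pstIn e).1, k) ∨
            pstOut e = ((pstIn e).1, k) ∨ pstIn e = ((pstIn e).1, k)))) := by
        ext k
        simp only [mem_filter, mem_univ, true_and, mem_insert]
        constructor
        · intro h
          by_cases hk : k = (pstIn e).2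
          · exact Or.inl hk
          · right
            rintro (h' | h' | h')
            · exact h h'
            · simp [pstOut, pstIn] at h'
            · exact hk (by rw [h'])
        · rintro (h | h)
          · rw [h]; exact h2
          · exact fun h' => h (Or.inl h')
      rw [this, card_insert_of_notMem]
      simp
    · rw [if_neg (by tauto), add_zero]
      congr 1
      ext k
      simp only [mem_filter, mem_univ, true_and]
      constructor
      · intro h h'; exact h (Or.inl h')
      · rintro h (h' | h' | h')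
        · exact h h'
        · exact hv (by rw [h'])
        · exact hv' (by rw [h'])

lemma pst_deg_empty (v : Fin n ⊕ Fin n) : pdeg (∅ : PState n d) v = d := by
  classical
  unfold pdeg POcc
  simp

open Classical in
/-- the stub with the priority rule: a stub of a vertex of degree one -/
noncomputable def ppv (S : PState n d) : Option (PStub n d) :=
  if h : ∃ s : PStub n d, ¬ POcc S s ∧ pdeg S s.1 = 1 then some h.choose else none

open Classical in
/-- the next stub -/
noncomputable def ppick (S : PState n d) : Option (PStub n d) :=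
  if (∃ s : PStub n d, ¬ POcc S s ∧ pdeg S s.1 = 1) then ppv S
  else if h : ∃ s : PStub n d, ¬ POcc S s then some h.choose else none

lemma pst_ppv_spec {S : PState n d} {s : PStub n d} (h : ppv S = some s) :
    ¬ POcc S s ∧ pdeg S s.1 = 1 := by
  unfold ppv at h
  split_ifs at h with h'
  · have := h'.choose_spec
    rw [Option.some.injEq] at h
    rw [← h]; exact this

lemma pst_ppv_none {S : PState n d} (h : ppv S = none) (v : Fin n ⊕ Fin n) : pdeg S v ≠ 1 := by
  classical
  unfold ppv at h
  split_ifs at h with h'
  push Not at h'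
  intro hv
  have h1 : 0 < (univ.filter (fun k : Fin d => ¬ POcc S (v, k))).card := by
    unfold pdeg at hv; rw [hv]; exact one_pos
  obtain ⟨k, hk⟩ := card_pos.1 h1
  simp only [mem_filter, mem_univ, true_and] at hk
  exact h' (v, k) hk hv

lemma pst_ppick_of_ppv {S : PState n d} {s : PStub n d} (h : ppv S = some s) :
    ppick S = some s := by
  unfold ppick
  rw [if_pos]
  · exact h
  · exact ⟨s, pst_ppv_spec h⟩

lemma pst_ppick_spec {S : PState n d} {s : PStub n d} (h : ppick S = some s) : ¬ POcc S s := by
  unfold ppick at h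
  split_ifs at h with h1 h2
  · exact (pst_ppv_spec h).1
  · rw [Option.some.injEq] at h
    rw [← h]; exact h2.choose_spec

lemma pst_ppick_none {S : PState n d} (h : ppick S = none) (s : PStub n d) : POcc S s := by
  unfold ppick at h
  split_ifs at h with h1 h2
  · unfold ppv at h
    rw [dif_pos h1] at h
    exact absurd h (by simp)
  · push Not at h2
    exact h2 s

/-- the state at time `t` -/
noncomputable def pH (σ : Cfg n d) : ℕ → PState n d
  | 0 => ∅
  | t + 1 => match ppick (pH σ t) with
    | some s => insert (ppart σ s) (pH σ t)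
    | none => pH σ t

lemma pst_H_succ_some {σ : Cfg n d} {t : ℕ} {s : PStub n d} (h : ppick (pH σ t) = some s) :
    pH σ (t + 1) = insert (ppart σ s) (pH σ t) := by
  show (match ppick (pH σ t) with
    | some s => insert (ppart σ s) (pH σ t)
    | none => pH σ t) = _
  rw [h]

lemma pst_H_succ_none {σ : Cfg n d} {t : ℕ} (h : ppick (pH σ t) = none) :
    pH σ (t + 1) = pH σ t := by
  show (match ppick (pH σ t) with
    | some s => insert (ppart σ s) (pH σ t)
    | none => pH σ t) = _
  rw [h]

lemma pst_con (σ : Cfg n d) (t : ℕ) : PCon σ (pH σ t) := by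
  induction t with
  | zero => intro e he; simp [pH] at he
  | succ t ih =>
    rcases h : ppick (pH σ t) with _ | s
    · rw [pst_H_succ_none h]; exact ih
    · rw [pst_H_succ_some h]
      intro e he
      rcases mem_insert.1 he with rfl | he
      · exact pst_ppart_con σ s
      · exact ih e he

lemma pst_H_mono (σ : Cfg n d) (t : ℕ) : pH σ t ⊆ pH σ (t + 1) := by
  rcases h : ppick (pH σ t) with _ | s
  · rw [pst_H_succ_none h]
  · rw [pst_H_succ_some h]; exact subset_insert _ _

lemma pst_H_mono' (σ : Cfg n d) {t t' : ℕ} (h : t ≤ t') : pH σ t ⊆ pH σ t' := by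
  induction t', h using Nat.le_induction with
  | base => exact Subset.refl _
  | succ m _ ih => exact ih.trans (pst_H_mono σ m)

/-- two configurations which agree on the pair of `s` -/
lemma pst_part_eq {σ σ' : Cfg n d} {s : PStub n d} (h : σ' (ppart σ s).1 = (ppart σ s).2) :
    ppart σ' s = ppart σ s := by
  rcases s with ⟨i | j, k⟩
  · simp only [ppart] at h ⊢
    rw [h]
  · simp only [ppart] at h ⊢
    have : σ'.symm (j, k) = σ.symm (j, k) := by
      rw [Equiv.symm_apply_eq]; exact h.symm
    rw [this]

/-- a configuration consistent with the state of `σ` at time `t` has the same state -/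
lemma pst_H_eq {σ σ' : Cfg n d} (t : ℕ) (h : PCon σ' (pH σ t)) : pH σ' t = pH σ t := by
  induction t with
  | zero => rfl
  | succ t ih =>
    have h1 : pH σ' t = pH σ t := ih (fun e he => h e (pst_H_mono σ t he))
    rcases hp : ppick (pH σ t) with _ | s
    · rw [pst_H_succ_none hp, pst_H_succ_none (by rw [h1]; exact hp), h1]
    · rw [pst_H_succ_some hp, pst_H_succ_some (by rw [h1]; exact hp), h1]
      rw [pst_part_eq]
      apply h
      rw [pst_H_succ_some hp]
      exact mem_insert_self _ _

lemma pst_H_eq_iff {σ σ' : Cfg n d} (t : ℕ) : pH σ' t = pH σ t ↔ PCon σ' (pH σ t) := by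
  constructor
  · intro h; rw [← h]; exact pst_con σ' t
  · exact pst_H_eq t

/-- one step of the exposure, with all its data -/
lemma pst_step {σ : Cfg n d} {t : ℕ} {s : PStub n d} (h : ppick (pH σ t) = some s) (v : Fin n ⊕ Fin n) :
    pdeg (pH σ (t + 1)) v + (if v = (pstOut (ppart σ s)).1 ∨ v = (pstIn (ppart σ s)).1 then 1 else 0)
      = pdeg (pH σ t) v := by
  rw [pst_H_succ_some h]
  have := pst_unocc (pst_con σ t) (pst_ppick_spec h)
  exact pst_deg_insert _ _ this.1 this.2 v

lemma pst_sum_deg (σ : Cfg n d) (t : ℕ) (ht : t ≤ n * d) :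
    ∑ v, pdeg (pH σ t) v + 2 * t = 2 * (n * d) ∧ (pH σ t).card = t := by
  induction t with
  | zero =>
    simp only [pH, pst_deg_empty, sum_const, card_univ, Fintype.card_sum, Fintype.card_fin,
      smul_eq_mul, card_empty, and_true]
    ring
  | succ t ih =>
    obtain ⟨ih1, ih2⟩ := ih (by omega)
    rcases hp : ppick (pH σ t) with _ | s
    · exfalso
      have : ∑ v, pdeg (pH σ t) v = 0 := by
        apply sum_eq_zero
        intro v _
        classical
        unfold pdeg
        rw [card_eq_zero, filter_eq_empty_iff]
        intro k _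
        push Not
        exact pst_ppick_none hp (v, k)
      omega
    · have h1 : ∑ v, pdeg (pH σ (t + 1)) v + 2 = ∑ v, pdeg (pH σ t) v := by
        have h2 : ∑ v, (if v = (pstOut (ppart σ s)).1 ∨ v = (pstIn (ppart σ s)).1 then 1 else 0) = 2 := by
          classical
          rw [sum_ite, sum_const_zero, add_zero, sum_const, smul_eq_mul, mul_one]
          have : (univ.filter (fun v : Fin n ⊕ Fin n => v = (pstOut (ppart σ s)).1 ∨
              v = (pstIn (ppart σ s)).1)) = {(pstOut (ppart σ s)).1, (pstIn (ppart σ s)).1} := by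
            ext v; simp
          rw [this, card_pair]
          simp [pstOut, pstIn]
        rw [← h2, ← sum_add_distrib]
        exact sum_congr rfl fun v _ => pst_step hp v
      refine ⟨by omega, ?_⟩
      rw [pst_H_succ_some hp, card_insert_of_notMem, ih2]
      intro hmem
      exact pst_ppick_spec hp ⟨_, hmem, pst_ppart_mem σ s⟩

lemma pst_ppick_isSome (σ : Cfg n d) {t : ℕ} (ht : t < n * d) : ∃ s, ppick (pH σ t) = some s := by
  rcases hp : ppick (pH σ t) with _ | s
  · exfalso
    have h1 := (pst_sum_deg σ t ht.le).1
    have : ∑ v, pdeg (pH σ t) v = 0 := by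
      apply sum_eq_zero
      intro v _
      classical
      unfold pdeg
      rw [card_eq_zero, filter_eq_empty_iff]
      intro k _
      push Not
      exact pst_ppick_none hp (v, k)
    omega
  · exact ⟨s, rfl⟩

lemma pst_vertex_mem (σ : Cfg n d) (s : PStub n d) :
    s.1 = (pstOut (ppart σ s)).1 ∨ s.1 = (pstIn (ppart σ s)).1 := by
  rcases pst_ppart_mem σ s with h | h
  · left; rw [h]
  · right; rw [h]

open Classical in
/-- at most two vertices of degree one -/
lemma pst_deg_one (hd2 : 2 ≤ d) (σ : Cfg n d) (t : ℕ) (ht : t ≤ n * d) :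
    (univ.filter (fun v => pdeg (pH σ t) v = 1)).card ≤ 2 := by
  induction t with
  | zero =>
    have : (univ.filter (fun v : Fin n ⊕ Fin n => pdeg (pH σ 0) v = 1)) = ∅ := by
      rw [filter_eq_empty_iff]
      intro v _
      have : pdeg (pH σ 0) v = d := pst_deg_empty v
      omega
    rw [this]; simp
  | succ t ih =>
    have ih' := ih (by omega)
    obtain ⟨s, hp⟩ := pst_ppick_isSome σ (show t < n * d by omega)
    have hst := pst_step hp
    rcases hv : ppv (pH σ t) with _ | s'
    · -- no vertex of degree one before
      have h1 := pst_ppv_none hv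
      have : (univ.filter (fun v => pdeg (pH σ (t + 1)) v = 1)) ⊆
          {(pstOut (ppart σ s)).1, (pstIn (ppart σ s)).1} := by
        intro v hv'
        simp only [mem_filter, mem_univ, true_and] at hv'
        simp only [mem_insert, mem_singleton]
        by_contra hcon
        have := hst v
        rw [if_neg hcon] at this
        exact h1 v (by omega)
      exact (card_le_card this).trans card_le_two
    · have hs : s = s' := by
        have := pst_ppick_of_ppv hv
        rw [hp] at this
        exact Option.some.inj this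
      subst hs
      have hdeg := (pst_ppv_spec hv).2
      -- the new degree one vertices: old ones except s.1, plus the other endpoint
      have hne : (pstOut (ppart σ s)).1 ≠ (pstIn (ppart σ s)).1 := by simp [pstOut, pstIn]
      obtain ⟨o, ho⟩ : ∃ o : Fin n ⊕ Fin n, ∀ v, (v = (pstOut (ppart σ s)).1 ∨
          v = (pstIn (ppart σ s)).1) ↔ (v = s.1 ∨ v = o) := by
        rcases pst_vertex_mem σ s with h | h
        · exact ⟨(pstIn (ppart σ s)).1, fun v => by rw [← h]⟩
        · exact ⟨(pstOut (ppart σ s)).1, fun v => by rw [← h]; exact or_comm⟩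
      have hsub : (univ.filter (fun v => pdeg (pH σ (t + 1)) v = 1)) ⊆
          insert o ((univ.filter (fun v => pdeg (pH σ t) v = 1)).erase s.1) := by
        intro v hv'
        simp only [mem_filter, mem_univ, true_and] at hv'
        simp only [mem_insert, mem_erase, mem_filter, mem_univ, true_and]
        have h3 := hst v
        by_cases hvo : v = o
        · exact Or.inl hvo
        · right
          by_cases hvs : v = s.1
          · rw [if_pos ((ho v).2 (Or.inl hvs)), hvs, hdeg] at h3
            rw [hvs] at hv'
            omega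
          · rw [if_neg (by rw [ho]; tauto)] at h3
            exact ⟨hvs, by omega⟩
      have hmem : s.1 ∈ (univ.filter (fun v => pdeg (pH σ t) v = 1)) := by
        simp only [mem_filter, mem_univ, true_and]; exact hdeg
      have h4 := card_erase_of_mem hmem
      have h5 := card_le_card hsub
      have h6 := card_insert_le o ((univ.filter (fun v => pdeg (pH σ t) v = 1)).erase s.1)
      omega

/-- a hit: a vertex is completed which was not the processed one -/
def phit (t : ℕ) (σ : Cfg n d) : Prop :=
  ∃ u, pdeg (pH σ t) u = 1 ∧ pdeg (pH σ (t + 1)) u = 0 ∧ ∀ k, ppv (pH σ t) ≠ some (u, k)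

lemma pst_phit_congr {σ σ' : Cfg n d} {t : ℕ} (h : pH σ (t + 1) = pH σ' (t + 1)) :
    pH σ t = pH σ' t := by
  apply pst_H_eq
  intro e he
  have h1 := pst_H_mono σ' t he
  rw [← h] at h1
  exact pst_con σ (t + 1) e h1

open Classical in
/-- unrevealed in-stubs -/
noncomputable def pAvIn (S : PState n d) : Finset (Fin n × Fin d) := univ \ S.image Prod.snd

open Classical in
/-- unrevealed out-stubs -/
noncomputable def pAvOut (S : PState n d) : Finset (Fin n × Fin d) := univ \ S.image Prod.fst

lemma pst_card_AvIn (σ : Cfg n d) {t : ℕ} (ht : t ≤ n * d) : (pAvIn (pH σ t)).card = n * d - t := by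
  classical
  unfold pAvIn
  rw [card_sdiff_of_subset (subset_univ _), card_image_of_injOn, (pst_sum_deg σ t ht).2]
  · simp
  · intro e he e' he' h
    refine Prod.ext ?_ h
    apply σ.injective
    rw [pst_con σ t e (mem_coe.1 he), pst_con σ t e' (mem_coe.1 he')]; exact h

lemma pst_card_AvOut (σ : Cfg n d) {t : ℕ} (ht : t ≤ n * d) : (pAvOut (pH σ t)).card = n * d - t := by
  classical
  unfold pAvOut
  rw [card_sdiff_of_subset (subset_univ _), card_image_of_injOn, (pst_sum_deg σ t ht).2]
  · simp
  · intro e he e' he' h
    refine Prod.ext h ?_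
    rw [← pst_con σ t e (mem_coe.1 he), ← pst_con σ t e' (mem_coe.1 he')]
    exact congrArg σ h

lemma pst_mem_AvIn {S : PState n d} {q : Fin n × Fin d} :
    q ∈ pAvIn S ↔ ¬ POcc S (Sum.inr q.1, q.2) := by
  classical
  unfold pAvIn POcc
  rw [Finset.mem_sdiff, Finset.mem_image]
  simp only [Finset.mem_univ, true_and, not_iff_not]
  constructor
  · rintro ⟨e, he, rfl⟩
    exact ⟨e, he, Or.inr rfl⟩
  · rintro ⟨e, he, h | h⟩
    · simp [pstOut] at h
    · refine ⟨e, he, ?_⟩
      simp only [pstIn, Prod.mk.injEq, Sum.inr.injEq] at h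
      exact Prod.ext h.1 h.2

lemma pst_mem_AvOut {S : PState n d} {q : Fin n × Fin d} :
    q ∈ pAvOut S ↔ ¬ POcc S (Sum.inl q.1, q.2) := by
  classical
  unfold pAvOut POcc
  rw [Finset.mem_sdiff, Finset.mem_image]
  simp only [Finset.mem_univ, true_and, not_iff_not]
  constructor
  · rintro ⟨e, he, rfl⟩
    exact ⟨e, he, Or.inl rfl⟩
  · rintro ⟨e, he, h | h⟩
    · refine ⟨e, he, ?_⟩
      simp only [pstOut, Prod.mk.injEq, Sum.inl.injEq] at h
      exact Prod.ext h.1 h.2
    · simp [pstIn] at h

open Classical in
/-- the partner of an unrevealed out-stub is uniform -/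
lemma pst_unif_out (σ : Cfg n d) {t : ℕ} (ht : t ≤ n * d) (p : Fin n × Fin d)
    (hp : ¬ POcc (pH σ t) (Sum.inl p.1, p.2)) (B : Finset (Fin n × Fin d)) :
    (univ.filter (fun σ' : Cfg n d => pH σ' t = pH σ t ∧ σ' p ∈ B)).card * (n * d - t) ≤
      B.card * (univ.filter (fun σ' : Cfg n d => pH σ' t = pH σ t)).card := by
  have h := one_step (univ.filter (fun σ' : Cfg n d => pH σ' t = pH σ t)) p (pAvIn (pH σ t))
    (by
      intro σ' hσ'
      simp only [mem_filter, mem_univ, true_and] at hσ'
      rw [pst_mem_AvIn]
      have := pst_unocc (pst_con σ' t) (s := (Sum.inl p.1, p.2)) (by rw [hσ']; exact hp)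
      have h2 := this.2
      rw [hσ'] at h2
      simpa [ppart, pstIn] using h2)
    (by
      intro σ' hσ' u hu
      simp only [mem_filter, mem_univ, true_and] at hσ' ⊢
      apply pst_H_eq
      intro e he
      rw [← hσ'] at he hu hp
      have h1 := pst_con σ' t e he
      rw [Equiv.Perm.mul_apply, h1]
      apply Equiv.swap_apply_of_ne_of_ne
      · intro h2
        rw [h2] at h1
        have h3 := σ'.injective h1
        exact hp ⟨e, he, Or.inl (by simp [pstOut, h3])⟩
      · intro h2
        rw [pst_mem_AvIn] at hu
        exact hu ⟨e, he, Or.inr (by simp [pstIn, h2])⟩)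
    B
  rw [pst_card_AvIn σ ht] at h
  rw [filter_filter] at h
  rw [h]
  exact Nat.mul_le_mul_right _ (card_le_card inter_subset_left)

open Classical in
/-- the partner of an unrevealed in-stub is uniform -/
lemma pst_unif_in (σ : Cfg n d) {t : ℕ} (ht : t ≤ n * d) (p : Fin n × Fin d)
    (hp : ¬ POcc (pH σ t) (Sum.inr p.1, p.2)) (B : Finset (Fin n × Fin d)) :
    (univ.filter (fun σ' : Cfg n d => pH σ' t = pH σ t ∧ σ'.symm p ∈ B)).card * (n * d - t) ≤
      B.card * (univ.filter (fun σ' : Cfg n d => pH σ' t = pH σ t)).card := by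
  have h := one_step (univ.filter (fun σ' : Cfg n d => pH σ'.symm t = pH σ t)) p (pAvOut (pH σ t))
    (by
      intro σ' hσ'
      simp only [mem_filter, mem_univ, true_and] at hσ'
      rw [pst_mem_AvOut]
      have := pst_unocc (pst_con σ'.symm t) (s := (Sum.inr p.1, p.2)) (by rw [hσ']; exact hp)
      have h2 := this.1
      rw [hσ'] at h2
      simpa [ppart, pstOut] using h2)
    (by
      intro σ' hσ' u hu
      simp only [mem_filter, mem_univ, true_and] at hσ' ⊢
      apply pst_H_eq
      intro e he
      rw [← hσ'] at he hu hp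
      have h1 := pst_con σ'.symm t e he
      rw [Equiv.symm_apply_eq] at h1
      rw [Equiv.symm_apply_eq, Equiv.Perm.mul_apply, ← h1]
      symm
      apply Equiv.swap_apply_of_ne_of_ne
      · intro h2
        rw [h2] at h1
        have h3 := σ'.injective h1
        exact hp ⟨e, he, Or.inr (by simp [pstIn, h3])⟩
      · intro h2
        rw [pst_mem_AvOut] at hu
        exact hu ⟨e, he, Or.inl (by simp [pstOut, h2])⟩)
    B
  rw [pst_card_AvOut σ ht] at h
  rw [filter_filter] at h
  have h3 : (univ.filter (fun σ' : Cfg n d => pH σ' t = pH σ t ∧ σ'.symm p ∈ B)).card =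
      (univ.filter (fun σ' : Cfg n d => pH σ'.symm t = pH σ t ∧ σ' p ∈ B)).card := by
    apply card_bij (fun σ' _ => σ'.symm)
    · intro σ' h'
      simpa using h'
    · intro σ' _ σ'' _ h'
      simpa using congrArg Equiv.symm h'
    · intro σ' h'
      exact ⟨σ'.symm, by simpa using h', by simp⟩
  have h4 : (univ.filter (fun σ' : Cfg n d => pH σ' t = pH σ t)).card =
      (univ.filter (fun σ' : Cfg n d => pH σ'.symm t = pH σ t)).card := by
    apply card_bij (fun σ' _ => σ'.symm)
    · intro σ' h'
      simpa using h'
    · intro σ' _ σ'' _ h'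
      simpa using congrArg Equiv.symm h'
    · intro σ' h'
      exact ⟨σ'.symm, by simpa using h', by simp⟩
  rw [h3, h4, h]
  exact Nat.mul_le_mul_right _ (card_le_card inter_subset_left)

open Classical in
/-- hits are rare -/
lemma pst_hit_rare (hd2 : 2 ≤ d) (σ : Cfg n d) {t : ℕ} (ht : t < n * d) :
    (univ.filter (fun σ' : Cfg n d => pH σ' t = pH σ t ∧ phit t σ')).card * (n * d - t) ≤
      2 * (univ.filter (fun σ' : Cfg n d => pH σ' t = pH σ t)).card := by
  rcases hv : ppv (pH σ t) with _ | s
  · have : (univ.filter (fun σ' : Cfg n d => pH σ' t = pH σ t ∧ phit t σ')) = ∅ := by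
      rw [filter_eq_empty_iff]
      rintro σ' _ ⟨h1, u, hu, _⟩
      rw [h1] at hu
      exact pst_ppv_none hv u hu
    rw [this]; simp
  · have hocc := (pst_ppv_spec hv).1
    have hdeg := (pst_ppv_spec hv).2
    have hpick := pst_ppick_of_ppv hv
    -- the unrevealed stubs of the degree one vertices: at most two
    set D := univ.filter (fun q : PStub n d => ¬ POcc (pH σ t) q ∧ pdeg (pH σ t) q.1 = 1) with hD
    have hDcard : D.card ≤ 2 := by
      refine le_trans ?_ (pst_deg_one hd2 σ t ht.le)
      apply card_le_card_of_injOn Prod.fst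
      · intro q hq
        have hq' := (mem_filter.1 (mem_coe.1 hq)).2
        exact mem_coe.2 (mem_filter.2 ⟨mem_univ _, hq'.2⟩)
      · intro q hq q' hq' h
        have h1 := (mem_filter.1 (mem_coe.1 hq)).2
        have h2 := (mem_filter.1 (mem_coe.1 hq')).2
        refine Prod.ext h ?_
        have h3 := h1.2
        unfold pdeg at h3
        obtain ⟨a, ha⟩ := card_eq_one.1 h3
        have h4 : q.2 ∈ univ.filter (fun k : Fin d => ¬ POcc (pH σ t) (q.1, k)) := by
          simp only [mem_filter, mem_univ, true_and]; exact h1.1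
        have h5 : q'.2 ∈ univ.filter (fun k : Fin d => ¬ POcc (pH σ t) (q.1, k)) := by
          simp only [mem_filter, mem_univ, true_and]
          have : q.1 = q'.1 := h
          rw [this]; exact h2.1
        rw [ha, mem_singleton] at h4 h5
        rw [h4, h5]
    rcases s with ⟨i | j, k⟩
    · -- a row is processed
      set B := univ.filter (fun q : Fin n × Fin d => (Sum.inr q.1, q.2) ∈ D) with hB
      have hBcard : B.card ≤ 2 := by
        refine le_trans ?_ hDcard
        apply card_le_card_of_injOn (fun q : Fin n × Fin d => ((Sum.inr q.1, q.2) : PStub n d))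
        · intro q hq
          exact mem_coe.2 (mem_filter.1 (mem_coe.1 hq)).2
        · intro q _ q' _ h
          simp only [Prod.mk.injEq, Sum.inr.injEq] at h
          exact Prod.ext h.1 h.2
      refine le_trans (Nat.mul_le_mul_right _ (card_le_card ?_)) ((pst_unif_out σ ht.le (i, k) hocc B).trans
        (Nat.mul_le_mul_right _ hBcard))
      intro σ' hσ'
      simp only [mem_filter, mem_univ, true_and] at hσ' ⊢
      obtain ⟨h1, u, hu1, hu0, hun⟩ := hσ'
      refine ⟨h1, ?_⟩
      rw [hB]
      simp only [mem_filter, mem_univ, true_and]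
      have hp' : ppick (pH σ' t) = some (Sum.inl i, k) := by rw [h1]; exact hpick
      have hst := pst_step hp' u
      have hu : u = Sum.inr (σ' (i, k)).1 := by
        by_contra hcon
        by_cases hui : u = Sum.inl i
        · exact hun k (by rw [h1, hv, hui])
        · rw [if_neg] at hst
          · omega
          · simp only [pstOut, pstIn, ppart]
            tauto
      rw [hD]
      simp only [mem_filter, mem_univ, true_and]
      constructor
      · have := (pst_unocc (pst_con σ' t) (s := (Sum.inl i, k)) (by rw [h1]; exact hocc)).2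
        rw [h1] at this
        simpa [ppart, pstIn] using this
      · rw [← hu, ← h1]; exact hu1
    · -- a column is processed
      set B := univ.filter (fun q : Fin n × Fin d => (Sum.inl q.1, q.2) ∈ D) with hB
      have hBcard : B.card ≤ 2 := by
        refine le_trans ?_ hDcard
        apply card_le_card_of_injOn (fun q : Fin n × Fin d => ((Sum.inl q.1, q.2) : PStub n d))
        · intro q hq
          exact mem_coe.2 (mem_filter.1 (mem_coe.1 hq)).2
        · intro q _ q' _ h
          simp only [Prod.mk.injEq, Sum.inl.injEq] at h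
          exact Prod.ext h.1 h.2
      refine le_trans (Nat.mul_le_mul_right _ (card_le_card ?_)) ((pst_unif_in σ ht.le (j, k) hocc B).trans
        (Nat.mul_le_mul_right _ hBcard))
      intro σ' hσ'
      simp only [mem_filter, mem_univ, true_and] at hσ' ⊢
      obtain ⟨h1, u, hu1, hu0, hun⟩ := hσ'
      refine ⟨h1, ?_⟩
      rw [hB]
      simp only [mem_filter, mem_univ, true_and]
      have hp' : ppick (pH σ' t) = some (Sum.inr j, k) := by rw [h1]; exact hpick
      have hst := pst_step hp' u
      have hu : u = Sum.inl (σ'.symm (j, k)).1 := by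
        by_contra hcon
        by_cases hui : u = Sum.inr j
        · exact hun k (by rw [h1, hv, hui])
        · rw [if_neg] at hst
          · omega
          · simp only [pstOut, pstIn, ppart]
            tauto
      rw [hD]
      simp only [mem_filter, mem_univ, true_and]
      constructor
      · have := (pst_unocc (pst_con σ' t) (s := (Sum.inr j, k)) (by rw [h1]; exact hocc)).1
        rw [h1] at this
        simpa [ppart, pstOut] using this
      · rw [← hu, ← h1]; exact hu1

open Classical in
lemma pst_zero_count (hd2 : 2 ≤ d) (σ : Cfg n d) (T : ℕ) (hT : T ≤ n * d) :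
    (univ.filter (fun v => pdeg (pH σ T) v = 0)).card ≤
      ((range T).filter (fun t => (ppv (pH σ t)).isSome)).card +
        ((range T).filter (fun t => phit t σ)).card := by
  induction T with
  | zero =>
    have : (univ.filter (fun v : Fin n ⊕ Fin n => pdeg (pH σ 0) v = 0)) = ∅ := by
      rw [filter_eq_empty_iff]
      intro v _
      have : pdeg (pH σ 0) v = d := pst_deg_empty v
      omega
    rw [this]; simp
  | succ T ih =>
    have ih' := ih (by omega)
    obtain ⟨s, hp⟩ := pst_ppick_isSome σ (show T < n * d by omega)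
    have hst := pst_step hp
    set C := univ.filter (fun v => pdeg (pH σ T) v = 1 ∧ pdeg (pH σ (T + 1)) v = 0) with hC
    have hsub : (univ.filter (fun v => pdeg (pH σ (T + 1)) v = 0)) ⊆
        (univ.filter (fun v => pdeg (pH σ T) v = 0)) ∪ C := by
      intro v hv
      rw [hC]
      simp only [mem_filter, mem_univ, true_and, mem_union] at hv ⊢
      have := hst v
      split_ifs at this <;> omega
    have h1 : (univ.filter (fun v => pdeg (pH σ (T + 1)) v = 0)).card ≤
        (univ.filter (fun v => pdeg (pH σ T) v = 0)).card + C.card :=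
      (card_le_card hsub).trans (card_union_le _ _)
    have h2 : C.card ≤ (if (ppv (pH σ T)).isSome then 1 else 0) + (if phit T σ then 1 else 0) := by
      rcases hv : ppv (pH σ T) with _ | s'
      · have : C = ∅ := by
          rw [hC, filter_eq_empty_iff]
          rintro v _ ⟨h, _⟩
          exact pst_ppv_none hv v h
        rw [this]; simp
      · have hs : s = s' := by
          have := pst_ppick_of_ppv hv
          rw [hp] at this
          exact Option.some.inj this
        subst hs
        by_cases hhit : phit T σ
        · rw [if_pos hhit]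
          simp only [Option.isSome_some, if_true]
          have : C ⊆ {(pstOut (ppart σ s)).1, (pstIn (ppart σ s)).1} := by
            intro v hv'
            rw [hC] at hv'
            simp only [mem_filter, mem_univ, true_and] at hv'
            simp only [mem_insert, mem_singleton]
            by_contra hcon
            have := hst v
            rw [if_neg hcon] at this
            omega
          exact (card_le_card this).trans card_le_two
        · rw [if_neg hhit]
          simp only [Option.isSome_some, if_true, add_zero]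
          rw [card_le_one]
          have key : ∀ v ∈ C, v = s.1 := by
            intro v hv'
            rw [hC] at hv'
            simp only [mem_filter, mem_univ, true_and] at hv'
            by_contra hcon
            apply hhit
            refine ⟨v, hv'.1, hv'.2, fun k hk => ?_⟩
            rw [hv, Option.some.injEq] at hk
            exact hcon (by rw [hk])
          intro a ha b hb
          rw [key a ha, key b hb]
    have h3 : ((range (T + 1)).filter (fun t => (ppv (pH σ t)).isSome)).card =
        ((range T).filter (fun t => (ppv (pH σ t)).isSome)).card +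
          (if (ppv (pH σ T)).isSome then 1 else 0) := by
      rw [range_add_one, filter_insert]
      split_ifs with h
      · rw [card_insert_of_notMem (by simp)]
      · rfl
    have h4 : ((range (T + 1)).filter (fun t => phit t σ)).card =
        ((range T).filter (fun t => phit t σ)).card + (if phit T σ then 1 else 0) := by
      rw [range_add_one, filter_insert]
      split_ifs with h
      · rw [card_insert_of_notMem (by simp)]
      · rfl
    omega

/-- the degree never increases -/
lemma pst_deg_mono (σ : Cfg n d) {t t' : ℕ} (h : t ≤ t') (v : Fin n ⊕ Fin n) :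
    pdeg (pH σ t') v ≤ pdeg (pH σ t) v := by
  classical
  unfold pdeg
  apply card_le_card
  intro k
  simp only [mem_filter, mem_univ, true_and]
  rintro h1 ⟨e, he, h2⟩
  exact h1 ⟨e, pst_H_mono' σ h he, h2⟩

/-- the processed vertex has degree zero afterwards -/
lemma pst_processed (σ : Cfg n d) {t : ℕ} {s : PStub n d} (hv : ppv (pH σ t) = some s) :
    pdeg (pH σ (t + 1)) s.1 = 0 := by
  have h1 := pst_step (pst_ppick_of_ppv hv) s.1
  rw [if_pos (pst_vertex_mem σ s), (pst_ppv_spec hv).2] at h1
  omega

/-- all the other stubs of the processed vertex are revealed -/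
lemma pst_others (σ : Cfg n d) {t : ℕ} {v : Fin n ⊕ Fin n} {k : Fin d}
    (hv : ppv (pH σ t) = some (v, k)) (k' : Fin d) (hk : k' ≠ k) : POcc (pH σ t) (v, k') := by
  classical
  by_contra hcon
  have h1 := pst_ppv_spec hv
  have h2 : pdeg (pH σ t) v = 1 := h1.2
  unfold pdeg at h2
  obtain ⟨a, ha⟩ := card_eq_one.1 h2
  have h4 : k ∈ univ.filter (fun k : Fin d => ¬ POcc (pH σ t) (v, k)) := by
    simp only [mem_filter, mem_univ, true_and]; exact h1.1
  have h5 : k' ∈ univ.filter (fun k : Fin d => ¬ POcc (pH σ t) (v, k)) := by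
    simp only [mem_filter, mem_univ, true_and]; exact hcon
  rw [ha, mem_singleton] at h4 h5
  exact hk (by rw [h4, h5])

lemma pst_occ_out (σ : Cfg n d) {t : ℕ} {i : Fin n} {k : Fin d}
    (h : POcc (pH σ t) (Sum.inl i, k)) : ((i, k), σ (i, k)) ∈ pH σ t := by
  obtain ⟨e, he, h | h⟩ := h
  · have h1 := pst_con σ t e he
    simp only [pstOut, Prod.mk.injEq, Sum.inl.injEq] at h
    have h2 : e.1 = (i, k) := Prod.ext h.1 h.2
    rw [h2] at h1
    have : e = ((i, k), σ (i, k)) := Prod.ext h2 h1.symm
    rw [← this]; exact he
  · simp [pstIn] at h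

lemma pst_occ_in (σ : Cfg n d) {t : ℕ} {j : Fin n} {l : Fin d}
    (h : POcc (pH σ t) (Sum.inr j, l)) : (σ.symm (j, l), (j, l)) ∈ pH σ t := by
  obtain ⟨e, he, h | h⟩ := h
  · simp [pstOut] at h
  · have h1 := pst_con σ t e he
    simp only [pstIn, Prod.mk.injEq, Sum.inr.injEq] at h
    have h2 : e.2 = (j, l) := Prod.ext h.1 h.2
    rw [h2] at h1
    have : e = (σ.symm (j, l), (j, l)) :=
      Prod.ext (by rw [Equiv.eq_symm_apply]; exact h1) h2
    rw [← this]; exact he

end pst

open Classical in
theorem strategy (n d : ℕ) (hd2 : 2 ≤ d) :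
    ∃ (H : ℕ → Cfg n d → Finset ((Fin n × Fin d) × (Fin n × Fin d)))
      (pv : ℕ → Cfg n d → Option ((Fin n ⊕ Fin n) × Fin d)) (hit : ℕ → Cfg n d → Prop),
      (∀ t < n * d, ∀ σ σ', H (t + 1) σ = H (t + 1) σ' → H t σ = H t σ') ∧
      (∀ t < n * d, ∀ σ σ', H t σ = H t σ' → pv t σ = pv t σ') ∧
      (∀ t ≤ n * d, ∀ σ, ∀ e ∈ H t σ, σ e.1 = e.2) ∧
      (∀ t < n * d, ∀ σ σ', H (t + 1) σ = H (t + 1) σ' → (hit t σ ↔ hit t σ')) ∧
      -- processing a row: all its other stubs are known, the last one has a uniform partner
      (∀ t < n * d, ∀ σ, ∀ i k, pv t σ = some (Sum.inl i, k) →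
        (∀ k', k' ≠ k → ((i, k'), σ (i, k')) ∈ H t σ) ∧ ((i, k), σ (i, k)) ∈ H (t + 1) σ ∧
        ∀ B : Finset (Fin n × Fin d),
          ((univ.filter (fun σ' => H t σ' = H t σ ∧ σ' (i, k) ∈ B)).card : ℝ) * (n * d - t) ≤
            B.card * ((univ.filter (fun σ' => H t σ' = H t σ)).card : ℝ)) ∧
      -- processing a column
      (∀ t < n * d, ∀ σ, ∀ j l, pv t σ = some (Sum.inr j, l) →
        (∀ l', l' ≠ l → (σ.symm (j, l'), (j, l')) ∈ H t σ) ∧
        (σ.symm (j, l), (j, l)) ∈ H (t + 1) σ ∧
        ∀ B : Finset (Fin n × Fin d),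
          ((univ.filter (fun σ' => H t σ' = H t σ ∧ σ'.symm (j, l) ∈ B)).card : ℝ) * (n * d - t) ≤
            B.card * ((univ.filter (fun σ' => H t σ' = H t σ)).card : ℝ)) ∧
      -- hits are rare
      (∀ t < n * d, ∀ σ,
          ((univ.filter (fun σ' => H t σ' = H t σ ∧ hit t σ')).card : ℝ) * (n * d - t) ≤
            2 * ((univ.filter (fun σ' => H t σ' = H t σ)).card : ℝ)) ∧
      -- every completed vertex was processed or hit
      (∀ T ≤ n * d, ∀ σ, 2 * n ≤ ((range T).filter (fun t => (pv t σ).isSome)).card +
        ((range T).filter (fun t => hit t σ)).card + 2 * (n * d - T)) ∧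
      -- every vertex is processed at most once
      (∀ t < n * d, ∀ t' < n * d, ∀ σ v k k', pv t σ = some (v, k) → pv t' σ = some (v, k') →
        t = t') := by
  have hcast : ∀ t : ℕ, t < n * d → ((n : ℝ) * d - t) = ((n * d - t : ℕ) : ℝ) := by
    intro t ht
    rw [Nat.cast_sub ht.le]; push_cast; ring
  refine ⟨fun t σ => pH σ t, fun t σ => ppv (pH σ t), phit, ?_, ?_, ?_, ?_, ?_, ?_, ?_, ?_, ?_⟩
  · intro t _ σ σ' h
    exact pst_phit_congr h
  · intro t _ σ σ' h
    have h' : pH σ t = pH σ' t := h
    show ppv (pH σ t) = ppv (pH σ' t)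
    rw [h']
  · intro t _ σ e he
    exact pst_con σ t e he
  · intro t _ σ σ' h
    have h' : pH σ (t + 1) = pH σ' (t + 1) := h
    have h1 := pst_phit_congr h'
    unfold phit
    rw [h1, h']
  · intro t ht σ i k hpv
    have hpv' : ppv (pH σ t) = some (Sum.inl i, k) := hpv
    refine ⟨fun k' hk' => pst_occ_out σ (pst_others σ hpv' k' hk'), ?_, ?_⟩
    · show ((i, k), σ (i, k)) ∈ pH σ (t + 1)
      rw [pst_H_succ_some (pst_ppick_of_ppv hpv')]
      exact mem_insert_self _ _
    · intro B
      rw [hcast t ht]
      have := pst_unif_out σ ht.le (i, k) (pst_ppv_spec hpv').1 B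
      exact_mod_cast this
  · intro t ht σ j l hpv
    have hpv' : ppv (pH σ t) = some (Sum.inr j, l) := hpv
    refine ⟨fun l' hl' => pst_occ_in σ (pst_others σ hpv' l' hl'), ?_, ?_⟩
    · show (σ.symm (j, l), (j, l)) ∈ pH σ (t + 1)
      rw [pst_H_succ_some (pst_ppick_of_ppv hpv')]
      exact mem_insert_self _ _
    · intro B
      rw [hcast t ht]
      have := pst_unif_in σ ht.le (j, l) (pst_ppv_spec hpv').1 B
      exact_mod_cast this
  · intro t ht σ
    rw [hcast t ht]
    have := pst_hit_rare hd2 σ ht
    exact_mod_cast this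
  · intro T hT σ
    have h1 := pst_zero_count hd2 σ T hT
    have h2 := (pst_sum_deg σ T hT).1
    have h3 : 2 * n ≤ (univ.filter (fun v => pdeg (pH σ T) v = 0)).card + ∑ v, pdeg (pH σ T) v := by
      have h4 : (univ : Finset (Fin n ⊕ Fin n)).card = 2 * n := by
        rw [card_univ, Fintype.card_sum, Fintype.card_fin]; ring
      rw [← h4, ← card_filter_add_card_filter_not (s := univ) (fun v => pdeg (pH σ T) v = 0)]
      have h5 : (univ.filter (fun v => ¬ pdeg (pH σ T) v = 0)).card ≤ ∑ v, pdeg (pH σ T) v := by
        rw [card_filter]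
        apply sum_le_sum
        intro v _
        by_cases h : pdeg (pH σ T) v = 0
        · rw [if_neg (by simpa using h)]; exact Nat.zero_le _
        · rw [if_pos h]; exact Nat.one_le_iff_ne_zero.2 h
      omega
    show 2 * n ≤ ((range T).filter (fun t => (ppv (pH σ t)).isSome)).card +
        ((range T).filter (fun t => phit t σ)).card + 2 * (n * d - T)
    omega
  · intro t _ t' _ σ v k k' h h'
    have key : ∀ t t' : ℕ, t < t' → ∀ k k', ppv (pH σ t) = some (v, k) →
        ppv (pH σ t') = some (v, k') → False := by
      intro t t' htt k k' h h'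
      have h1 := pst_processed σ h
      have h2 := pst_deg_mono σ (show t + 1 ≤ t' from htt) v
      have h3 := (pst_ppv_spec h').2
      simp only at h1 h3
      omega
    rcases lt_trichotomy t t' with h1 | h1 | h1
    · exact absurd (key t t' h1 k k' h h') id
    · exact h1
    · exact absurd (key t' t h1 k' k h' h) id

end Pool.Agent.SMin
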