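import Pool.Agent.SMin.Base

set_option autoImplicit false
open Finset Filter

namespace Pool.Agent.SMin

/-- the switched matrix: rows `i, i'` have the columns `j, j'` exchanged -/
def swt {n : ℕ} (A : Fin n → Fin n → Bool) (i j i' j' : Fin n) : Fin n → Fin n → Bool :=
  fun a b => if a = i ∨ a = i' then A a (Equiv.swap j j' b) else A a b

lemma swt_swt {n : ℕ} (A : Fin n → Fin n → Bool) (i j i' j' : Fin n) :
    swt (swt A i j i' j') i j i' j' = A := by
  funext a b
  unfold swt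
  by_cases h : a = i ∨ a = i' <;> simp [h]

/-- validity of a switching -/
def Vld {n : ℕ} (A : Fin n → Fin n → Bool) (i j i' j' : Fin n) : Prop :=
  A i j = true ∧ A i' j' = true ∧ A i j' = false ∧ A i' j = false

instance {n : ℕ} (A : Fin n → Fin n → Bool) (i j i' j' : Fin n) : Decidable (Vld A i j i' j') := by
  unfold Vld; infer_instance

lemma swt_eq_col {n : ℕ} {A : Fin n → Fin n → Bool} {i j i' j' : Fin n} (h : Vld A i j i' j') :
    swt A i j i' j' = fun a b => if b = j ∨ b = j' then A (Equiv.swap i i' a) b else A a b := by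
  obtain ⟨h1, h2, h3, h4⟩ := h
  have hii : i ≠ i' := by rintro rfl; simp_all
  have hjj : j ≠ j' := by rintro rfl; simp_all
  funext a b
  unfold swt
  by_cases ha : a = i
  · subst ha
    by_cases hb : b = j
    · subst hb; simp [h3, h4]
    · by_cases hb' : b = j'
      · subst hb'; simp [h1, h2]
      · simp [hb, hb', Equiv.swap_apply_of_ne_of_ne hb hb']
  · by_cases ha' : a = i'
    · subst ha'
      by_cases hb : b = j
      · subst hb; simp [h1, h2]
      · by_cases hb' : b = j'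
        · subst hb'; simp [h3, h4]
        · simp [hb, hb', Equiv.swap_apply_of_ne_of_ne hb hb']
    · simp [ha, ha', Equiv.swap_apply_of_ne_of_ne ha ha']

lemma swt_mem_Reg {n d : ℕ} {A : Fin n → Fin n → Bool} {i j i' j' : Fin n} (hA : A ∈ Reg n d)
    (h : Vld A i j i' j') : swt A i j i' j' ∈ Reg n d := by
  rw [mem_Reg] at hA ⊢
  refine ⟨fun a => ?_, fun b => ?_⟩
  · by_cases ha : a = i ∨ a = i'
    · have h1 := hA.1 a
      have : (univ.filter (fun b => swt A i j i' j' a b = true)) =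
          (univ.filter (fun b => A a b = true)).map (Equiv.swap j j').toEmbedding := by
        ext b
        simp only [swt, ha, if_true, mem_filter, mem_univ, true_and, Finset.mem_map, Equiv.coe_toEmbedding]
        constructor
        · intro h; exact ⟨_, h, by simp⟩
        · rintro ⟨c, hc, rfl⟩; simpa using hc
      rw [this, card_map, h1]
    · have h1 := hA.1 a
      simpa [swt, ha] using h1
  · rw [swt_eq_col h]
    by_cases hb : b = j ∨ b = j'
    · have h1 := hA.2 b
      have : (univ.filter (fun a => (if b = j ∨ b = j' then A (Equiv.swap i i' a) b else A a b) = true)) =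
          (univ.filter (fun a => A a b = true)).map (Equiv.swap i i').toEmbedding := by
        ext a
        simp only [hb, if_true, mem_filter, mem_univ, true_and, Finset.mem_map, Equiv.coe_toEmbedding]
        constructor
        · intro h; exact ⟨_, h, by simp⟩
        · rintro ⟨c, hc, rfl⟩; simpa using hc
      rw [this, card_map, h1]
    · have h1 := hA.2 b
      simpa [hb] using h1

lemma card_edges {n d : ℕ} {A : Fin n → Fin n → Bool} (hA : A ∈ Reg n d) :
    (univ.filter (fun e : Fin n × Fin n => A e.1 e.2 = true)).card = n * d := by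
  rw [mem_Reg] at hA
  rw [card_eq_sum_card_fiberwise (f := Prod.fst) (t := univ) (fun _ _ => mem_coe.2 (mem_univ _))]
  have : ∀ i ∈ (univ : Finset (Fin n)),
      ((univ.filter (fun e : Fin n × Fin n => A e.1 e.2 = true)).filter (fun e => e.1 = i)).card = d := by
    intro i _
    rw [← hA.1 i]
    apply card_bij (fun e _ => e.2)
    · intro e he
      simp only [mem_filter, mem_univ, true_and] at he ⊢
      rw [← he.2]; exact he.1
    · intro e he e' he' h
      simp only [mem_filter, mem_univ, true_and] at he he'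
      exact Prod.ext (he.2.trans he'.2.symm) h
    · intro j hj
      simp only [mem_filter, mem_univ, true_and] at hj
      exact ⟨(i, j), by simpa using hj, rfl⟩
  rw [sum_congr rfl this, sum_const, card_univ, Fintype.card_fin, smul_eq_mul]

/-- edges `(i', j')` with `j'` in the row `i`: `d * d` of them -/
lemma card_edges_row {n d : ℕ} {A : Fin n → Fin n → Bool} (hA : A ∈ Reg n d) (i : Fin n) :
    (univ.filter (fun e : Fin n × Fin n => A e.1 e.2 = true ∧ A i e.2 = true)).card = d * d := by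
  rw [mem_Reg] at hA
  rw [card_eq_sum_card_fiberwise (f := Prod.snd) (t := univ.filter (fun j => A i j = true))
    (fun e he => by
      have := (mem_filter.1 (mem_coe.1 he)).2
      exact mem_coe.2 (mem_filter.2 ⟨mem_univ _, this.2⟩))]
  have : ∀ j ∈ (univ.filter (fun j => A i j = true)),
      ((univ.filter (fun e : Fin n × Fin n => A e.1 e.2 = true ∧ A i e.2 = true)).filter
        (fun e => e.2 = j)).card = d := by
    intro j hj
    have hj' := (mem_filter.1 hj).2
    rw [← hA.2 j]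
    apply card_bij (fun e _ => e.1)
    · intro e he
      simp only [mem_filter, mem_univ, true_and] at he ⊢
      rw [← he.2]; exact he.1.1
    · intro e he e' he' h
      simp only [mem_filter, mem_univ, true_and] at he he'
      exact Prod.ext h (he.2.trans he'.2.symm)
    · intro a ha
      simp only [mem_filter, mem_univ, true_and] at ha
      exact ⟨(a, j), by simp [ha, hj'], rfl⟩
  rw [sum_congr rfl this, sum_const, hA.1 i, smul_eq_mul]

lemma card_edges_col {n d : ℕ} {A : Fin n → Fin n → Bool} (hA : A ∈ Reg n d) (j : Fin n) :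
    (univ.filter (fun e : Fin n × Fin n => A e.1 e.2 = true ∧ A e.1 j = true)).card = d * d := by
  rw [mem_Reg] at hA
  rw [card_eq_sum_card_fiberwise (f := Prod.fst) (t := univ.filter (fun i => A i j = true))
    (fun e he => by
      have := (mem_filter.1 (mem_coe.1 he)).2
      exact mem_coe.2 (mem_filter.2 ⟨mem_univ _, this.2⟩))]
  have : ∀ i ∈ (univ.filter (fun i => A i j = true)),
      ((univ.filter (fun e : Fin n × Fin n => A e.1 e.2 = true ∧ A e.1 j = true)).filter
        (fun e => e.1 = i)).card = d := by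
    intro i hi
    have hi' := (mem_filter.1 hi).2
    rw [← hA.1 i]
    apply card_bij (fun e _ => e.2)
    · intro e he
      simp only [mem_filter, mem_univ, true_and] at he ⊢
      rw [← he.2]; exact he.1.1
    · intro e he e' he' h
      simp only [mem_filter, mem_univ, true_and] at he he'
      exact Prod.ext (he.2.trans he'.2.symm) h
    · intro a ha
      simp only [mem_filter, mem_univ, true_and] at ha
      exact ⟨(i, a), by simp [ha, hi'], rfl⟩
  rw [sum_congr rfl this, sum_const, hA.2 j, smul_eq_mul]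

/-- the pairs `(i', j')` with `A i j'` and `A i' j` -/
lemma card_rev {n d : ℕ} {A : Fin n → Fin n → Bool} (hA : A ∈ Reg n d) (i j : Fin n) :
    (univ.filter (fun e : Fin n × Fin n => A i e.2 = true ∧ A e.1 j = true)).card = d * d := by
  rw [mem_Reg] at hA
  have : (univ.filter (fun e : Fin n × Fin n => A i e.2 = true ∧ A e.1 j = true)) =
      (univ.filter (fun a => A a j = true)) ×ˢ (univ.filter (fun b => A i b = true)) := by
    ext e
    simp only [mem_filter, mem_univ, true_and, mem_product]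
    exact and_comm
  rw [this, card_product, hA.1 i, hA.2 j]

/-- lower bound for the number of valid switchings -/
lemma card_valid {n d : ℕ} {A : Fin n → Fin n → Bool} (hA : A ∈ Reg n d) (i j : Fin n)
    (F : Finset (Fin n × Fin n)) (hij : A i j = true) :
    n * d ≤ (univ.filter (fun e : Fin n × Fin n => Vld A i j e.1 e.2 ∧ e ∉ F)).card + F.card
      + 2 * (d * d) := by
  classical
  rw [← card_edges hA]
  have hsub : (univ.filter (fun e : Fin n × Fin n => A e.1 e.2 = true)) ⊆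
      ((univ.filter (fun e : Fin n × Fin n => Vld A i j e.1 e.2 ∧ e ∉ F)) ∪ F) ∪
      ((univ.filter (fun e : Fin n × Fin n => A e.1 e.2 = true ∧ A i e.2 = true)) ∪
      (univ.filter (fun e : Fin n × Fin n => A e.1 e.2 = true ∧ A e.1 j = true))) := by
    intro e he
    have he' : A e.1 e.2 = true := (mem_filter.1 he).2
    rw [mem_union, mem_union, mem_union, mem_filter, mem_filter, mem_filter]
    by_cases h1 : A i e.2 = true
    · right; left; exact ⟨mem_univ _, he', h1⟩
    · by_cases h2 : A e.1 j = true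
      · right; right; exact ⟨mem_univ _, he', h2⟩
      · by_cases h3 : e ∈ F
        · left; right; exact h3
        · left; left
          exact ⟨mem_univ _, ⟨hij, he', by simpa using h1, by simpa using h2⟩, h3⟩
  have h1 := (card_le_card hsub).trans (card_union_le _ _)
  have h2 := card_union_le (univ.filter (fun e : Fin n × Fin n => Vld A i j e.1 e.2 ∧ e ∉ F)) F
  have h3 := card_union_le (univ.filter (fun e : Fin n × Fin n => A e.1 e.2 = true ∧ A i e.2 = true))
    (univ.filter (fun e : Fin n × Fin n => A e.1 e.2 = true ∧ A e.1 j = true))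
  rw [card_edges_row hA, card_edges_col hA] at h3
  omega


/-- one switching step -/
lemma switch_step {n d : ℕ} (F : Finset (Fin n × Fin n)) (i j : Fin n) (hF : (i, j) ∉ F) :
    (n * d - F.card - 2 * (d * d)) *
        ((Reg n d).filter (fun A => ∀ e ∈ insert (i, j) F, A e.1 e.2 = true)).card ≤
      (d * d) * ((Reg n d).filter (fun A => ∀ e ∈ F, A e.1 e.2 = true)).card := by
  classical
  set S1 := (Reg n d).filter (fun A => ∀ e ∈ insert (i, j) F, A e.1 e.2 = true) with hS1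
  set S2 := (Reg n d).filter (fun A => ∀ e ∈ F, A e.1 e.2 = true) with hS2
  set X := S1.sigma (fun A => univ.filter (fun e : Fin n × Fin n => Vld A i j e.1 e.2 ∧ e ∉ F))
    with hX
  set Y := S2.sigma (fun A => univ.filter (fun e : Fin n × Fin n => A i e.2 = true ∧ A e.1 j = true))
    with hY
  have hY' : Y.card = d * d * S2.card := by
    rw [hY, card_sigma]
    rw [sum_congr rfl (fun A hA => card_rev (mem_filter.1 hA).1 i j), sum_const, smul_eq_mul,
      mul_comm]
  have hX' : (n * d - F.card - 2 * (d * d)) * S1.card ≤ X.card := by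
    rw [hX, card_sigma, mul_comm, ← smul_eq_mul, ← sum_const]
    apply sum_le_sum
    intro A hA
    have hA' := mem_filter.1 hA
    have := card_valid hA'.1 i j F (hA'.2 (i, j) (mem_insert_self _ _))
    omega
  have hXY : X.card ≤ Y.card := by
    apply card_le_card_of_injOn
      (fun p => (⟨swt p.1 i j p.2.1 p.2.2, p.2⟩ : Σ _ : Fin n → Fin n → Bool, Fin n × Fin n))
    · rintro ⟨A, i', j'⟩ hp
      have hp' := mem_sigma.1 (mem_coe.1 hp)
      obtain ⟨hA, he⟩ := hp'
      simp only [mem_filter, mem_univ, true_and] at he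
      obtain ⟨hv, heF⟩ := he
      have hA' := mem_filter.1 hA
      apply mem_coe.2
      rw [hY, mem_sigma]
      simp only [mem_filter, mem_univ, true_and, hS2]
      obtain ⟨h1, h2, h3, h4⟩ := hv
      refine ⟨⟨swt_mem_Reg hA'.1 ⟨h1, h2, h3, h4⟩, ?_⟩, ?_, ?_⟩
      · rintro ⟨a, b⟩ he
        have hAe := hA'.2 (a, b) (mem_insert_of_mem he)
        simp only at hAe ⊢
        unfold swt
        by_cases ha : a = i
        · subst ha
          have hb : b ≠ j := by rintro rfl; exact hF he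
          have hb' : b ≠ j' := by rintro rfl; rw [h3] at hAe; exact absurd hAe (by simp)
          simp [Equiv.swap_apply_of_ne_of_ne hb hb', hAe]
        · by_cases ha' : a = i'
          · subst ha'
            have hb : b ≠ j := by rintro rfl; rw [h4] at hAe; exact absurd hAe (by simp)
            have hb' : b ≠ j' := by rintro rfl; exact heF he
            simp [Equiv.swap_apply_of_ne_of_ne hb hb', hAe]
          · simp [ha, ha', hAe]
      · simp [swt, h1]
      · simp [swt, h2]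
    · rintro ⟨A, e⟩ _ ⟨A', e'⟩ _ h
      simp only [Sigma.mk.injEq, heq_eq_eq] at h
      obtain ⟨h1, rfl⟩ := h
      have := congrArg (fun M => swt M i j e.1 e.2) h1
      simp only [swt_swt] at this
      simp [this]
  calc _ ≤ X.card := hX'
    _ ≤ Y.card := hXY
    _ = _ := hY'

theorem switching (d : ℕ) (hd1 : 1 ≤ d) : ∀ᶠ n : ℕ in atTop, ∀ F : Finset (Fin n × Fin n),
    4 * F.card ≤ n →
      fr (Reg n d) (fun A => ∀ e ∈ F, A e.1 e.2 = true) ≤ (2 * d / n : ℝ) ^ F.card := by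
  filter_upwards [eventually_ge_atTop (8 * d * d + 1)] with n hn F
  classical
  have hn0 : 0 < n := by omega
  have hn0' : (0 : ℝ) < n := by exact_mod_cast hn0
  induction F using Finset.induction_on with
  | empty =>
    intro _
    simp only [card_empty, pow_zero]
    exact fr_le_one _ _
  | insert e F he ih =>
    intro hF
    rw [card_insert_of_notMem he] at hF ⊢
    have ih' := ih (by omega)
    obtain ⟨i, j⟩ := e
    have hstep := switch_step (d := d) F i j he
    have hge : (n * d : ℝ) / 2 ≤ ((n * d - F.card - 2 * (d * d) : ℕ) : ℝ) := by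
      have h1 : n * d ≤ 2 * (n * d - F.card - 2 * (d * d)) := by
        have h2 : 2 * F.card + 4 * (d * d) ≤ n * d := by
          have : n ≤ n * d := Nat.le_mul_of_pos_right n hd1
          have h4 : 8 * d * d = 8 * (d * d) := by ring
          omega
        omega
      have : ((n * d : ℕ) : ℝ) ≤ ((2 * (n * d - F.card - 2 * (d * d)) : ℕ) : ℝ) := by
        exact_mod_cast h1
      push_cast at this ⊢
      linarith
    have hstep' : (((n * d - F.card - 2 * (d * d) : ℕ) : ℝ)) *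
        (((Reg n d).filter (fun A => ∀ e ∈ insert (i, j) F, A e.1 e.2 = true)).card : ℝ) ≤
        (d * d) * (((Reg n d).filter (fun A => ∀ e ∈ F, A e.1 e.2 = true)).card : ℝ) := by
      exact_mod_cast hstep
    rw [fr_def] at ih' ⊢
    set a := (((Reg n d).filter (fun A => ∀ e ∈ insert (i, j) F, A e.1 e.2 = true)).card : ℝ)
    set b := (((Reg n d).filter (fun A => ∀ e ∈ F, A e.1 e.2 = true)).card : ℝ)
    have ha : 0 ≤ a := Nat.cast_nonneg _
    have hd0 : (0 : ℝ) < d := by exact_mod_cast hd1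
    have h5 : (n * d : ℝ) / 2 * a ≤ d * d * b := (mul_le_mul_of_nonneg_right hge ha).trans hstep'
    have h6 : a ≤ (2 * d / n : ℝ) * b := by
      have h7 : (n : ℝ) * a ≤ 2 * d * b := by
        have : (d : ℝ) * ((n : ℝ) * a) ≤ d * (2 * d * b) := by nlinarith
        exact le_of_mul_le_mul_left this hd0
      rw [div_mul_eq_mul_div, le_div_iff₀ hn0']
      linarith
    calc a / ((Reg n d).card : ℝ) ≤ ((2 * d / n : ℝ) * b) / ((Reg n d).card : ℝ) := by
          gcongr
      _ = (2 * d / n : ℝ) * (b / ((Reg n d).card : ℝ)) := by ring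
      _ ≤ (2 * d / n : ℝ) * (2 * d / n : ℝ) ^ F.card := by gcongr
      _ = _ := by rw [pow_succ]; ring


/-- number of edges inside `U` -/
def eIn {n : ℕ} (A : Fin n → Fin n → Bool) (U : Finset (Fin n)) : ℕ :=
  ((U ×ˢ U).filter (fun e => A e.1 e.2 = true)).card

lemma fr_prod_and {α β : Type*} (S : Finset α) (T : Finset β) (P : α → Prop) (Q : β → Prop) :
    fr (S ×ˢ T) (fun t => Q t.2 ∧ P t.1) = fr S P * fr T Q := by
  classical
  rw [fr_def, fr_def, fr_def]
  have h : (S ×ˢ T).filter (fun t => Q t.2 ∧ P t.1) = (S.filter P) ×ˢ (T.filter Q) := by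
    ext t
    simp only [mem_filter, mem_product]
    tauto
  rw [h, card_product, card_product]
  push_cast
  rw [mul_div_mul_comm]

theorem cycle_whp (d : ℕ) (hd1 : 1 ≤ d) (u0 : ℕ) (ε : ℝ) (hε : 0 < ε) : ∀ᶠ n : ℕ in atTop,
    fr (Reg n d ×ˢ (univ : Finset (Fin n))) (fun t => ∃ U : Finset (Fin n), t.2 ∈ U ∧
      U.card ≤ u0 ∧ U.card ≤ eIn t.1 U) ≤ ε := by
  classical
  set M : ℝ := 2 ^ (u0 * u0) * u0 * (2 * d) ^ u0 with hM
  have hM0 : 0 ≤ M := by positivity
  have hlarge : ∀ᶠ n : ℕ in atTop, u0 * M / ε ≤ (n : ℝ) :=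
    tendsto_natCast_atTop_atTop.eventually_ge_atTop _
  filter_upwards [switching d hd1, hlarge, eventually_ge_atTop (4 * u0), eventually_ge_atTop 1]
    with n hsw hn h4 hn1
  have hnpos : (0 : ℝ) < n := by exact_mod_cast hn1
  have hd0 : (1 : ℝ) ≤ d := by exact_mod_cast hd1
  set S := Reg n d ×ˢ (univ : Finset (Fin n)) with hS
  -- one U and one F
  have hF : ∀ u ∈ Icc 1 u0, ∀ U ∈ powersetCard u (univ : Finset (Fin n)),
      ∀ F ∈ powersetCard u (U ×ˢ U),
      fr S (fun t => t.2 ∈ U ∧ ∀ e ∈ F, t.1 e.1 e.2 = true) ≤ (u / n : ℝ) * (2 * d / n : ℝ) ^ u := by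
    intro u hu U hU F hF
    have hu' := mem_Icc.1 hu
    have hUc := (mem_powersetCard.1 hU).2
    have hFc := (mem_powersetCard.1 hF).2
    have h1 : fr S (fun t => t.2 ∈ U ∧ ∀ e ∈ F, t.1 e.1 e.2 = true) =
        fr (Reg n d) (fun A => ∀ e ∈ F, A e.1 e.2 = true) *
          fr (univ : Finset (Fin n)) (fun i => i ∈ U) := by
      rw [hS]
      exact fr_prod_and (Reg n d) (univ : Finset (Fin n))
        (fun A => ∀ e ∈ F, A e.1 e.2 = true) (fun i => i ∈ U)
    have h2 : fr (univ : Finset (Fin n)) (fun i => i ∈ U) = (u / n : ℝ) := by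
      rw [fr_def, filter_mem_eq_inter, univ_inter, hUc, card_univ, Fintype.card_fin]
    have h3 := hsw F (by rw [hFc]; omega)
    rw [h1, h2, mul_comm]
    rw [hFc] at h3
    exact mul_le_mul_of_nonneg_left h3 (by positivity)
  have hUb : ∀ u ∈ Icc 1 u0, ∀ U ∈ powersetCard u (univ : Finset (Fin n)),
      fr S (fun t => ∃ F ∈ powersetCard u (U ×ˢ U), t.2 ∈ U ∧ ∀ e ∈ F, t.1 e.1 e.2 = true) ≤
        2 ^ (u * u) * ((u / n : ℝ) * (2 * d / n : ℝ) ^ u) := by
    intro u hu U hU
    refine (fr_exists_le_card S _ _ _ (hF u hu U hU)).trans ?_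
    apply mul_le_mul_of_nonneg_right _ (by positivity)
    rw [card_powersetCard, card_product, (mem_powersetCard.1 hU).2]
    have : (u * u).choose u ≤ 2 ^ (u * u) := Nat.choose_le_two_pow _ _
    exact_mod_cast this
  have hub : ∀ u ∈ Icc 1 u0,
      fr S (fun t => ∃ U ∈ powersetCard u (univ : Finset (Fin n)),
        ∃ F ∈ powersetCard u (U ×ˢ U), t.2 ∈ U ∧ ∀ e ∈ F, t.1 e.1 e.2 = true) ≤ M / n := by
    intro u hu
    have hu' := mem_Icc.1 hu
    refine (fr_exists_le_card S _ _ _ (hUb u hu)).trans ?_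
    rw [card_powersetCard, card_univ, Fintype.card_fin]
    have h1 : ((n.choose u : ℕ) : ℝ) ≤ (n : ℝ) ^ u := by
      have : n.choose u ≤ n ^ u := Nat.choose_le_pow _ _
      exact_mod_cast this
    calc ((n.choose u : ℕ) : ℝ) * (2 ^ (u * u) * ((u / n : ℝ) * (2 * d / n : ℝ) ^ u)) ≤
        (n : ℝ) ^ u * (2 ^ (u * u) * ((u / n : ℝ) * (2 * d / n : ℝ) ^ u)) :=
          mul_le_mul_of_nonneg_right h1 (by positivity)
      _ = 2 ^ (u * u) * u * (2 * d) ^ u / n := by
          rw [div_pow]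
          field_simp
      _ ≤ M / n := by
          apply div_le_div_of_nonneg_right _ hnpos.le
          rw [hM]
          have e1 : (2 : ℝ) ^ (u * u) ≤ 2 ^ (u0 * u0) :=
            pow_le_pow_right₀ (by norm_num) (Nat.mul_le_mul hu'.2 hu'.2)
          have e2 : (u : ℝ) ≤ u0 := by exact_mod_cast hu'.2
          have e3 : (2 * d : ℝ) ^ u ≤ (2 * d) ^ u0 := pow_le_pow_right₀ (by linarith) hu'.2
          exact mul_le_mul (mul_le_mul e1 e2 (by positivity) (by positivity)) e3
            (by positivity) (by positivity)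
  have hall : fr S (fun t => ∃ u ∈ Icc 1 u0, ∃ U ∈ powersetCard u (univ : Finset (Fin n)),
        ∃ F ∈ powersetCard u (U ×ˢ U), t.2 ∈ U ∧ ∀ e ∈ F, t.1 e.1 e.2 = true) ≤ u0 * (M / n) := by
    refine (fr_exists_le_card S _ _ _ hub).trans ?_
    simp
  refine (fr_mono S ?_).trans (hall.trans ?_)
  · rintro t - ⟨U, hU, hUc, hUe⟩
    refine ⟨U.card, mem_Icc.2 ⟨card_pos.2 ⟨_, hU⟩, hUc⟩, U, mem_powersetCard.2 ⟨subset_univ _, rfl⟩, ?_⟩
    obtain ⟨F, hF1, hF2⟩ := exists_subset_card_eq hUe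
    refine ⟨F, mem_powersetCard.2 ⟨hF1.trans (filter_subset _ _), hF2⟩, hU, ?_⟩
    intro e he
    exact (mem_filter.1 (hF1 he)).2
  · rw [div_le_iff₀ hε] at hn
    rw [← mul_div_assoc, div_le_iff₀ hnpos]
    linarith

lemma choose_le_exp (a b : ℕ) (hb : 1 ≤ b) :
    ((a.choose b : ℕ) : ℝ) ≤ (Real.exp 1 * a / b) ^ b := by
  have hb0 : (0 : ℝ) < b := by exact_mod_cast hb
  have h1 : ((a.choose b : ℕ) : ℝ) ≤ (a : ℝ) ^ b / (b.factorial : ℝ) := Nat.choose_le_pow_div b a
  have h2 := Real.pow_div_factorial_le_exp (b : ℝ) hb0.le b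
  have hfac : (0 : ℝ) < b.factorial := by exact_mod_cast b.factorial_pos
  have h3 : (b : ℝ) ^ b ≤ Real.exp 1 ^ b * b.factorial := by
    rw [div_le_iff₀ hfac] at h2
    rw [← Real.exp_nat_mul, mul_one]
    exact h2
  refine h1.trans ?_
  rw [div_pow, mul_pow, div_le_div_iff₀ hfac (by positivity)]
  calc (a : ℝ) ^ b * (b : ℝ) ^ b ≤ (a : ℝ) ^ b * (Real.exp 1 ^ b * b.factorial) := by
        gcongr
    _ = Real.exp 1 ^ b * (a : ℝ) ^ b * b.factorial := by ring

lemma sum_half_pow_le (N : ℕ) : ∑ u ∈ Icc 1 N, (1 / 2 : ℝ) ^ (u - 1) ≤ 2 := by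
  have h : ∀ N : ℕ, ∑ u ∈ Icc 1 N, (1 / 2 : ℝ) ^ (u - 1) = 2 - 2 * (1 / 2 : ℝ) ^ N := by
    intro N
    induction N with
    | zero => simp
    | succ N ih =>
      rw [sum_Icc_succ_top (by omega), ih, Nat.add_sub_cancel, pow_succ]
      ring
  rw [h]
  have : (0 : ℝ) ≤ (1 / 2 : ℝ) ^ N := by positivity
  linarith

/-- one term of the union bound -/
lemma sparse_term (d : ℕ) (hd1 : 1 ≤ d) (ν θ : ℝ) (hν : 0 < ν) (hν1 : ν ≤ 1) (hθ : 0 < θ)
    (hθ1 : 2 * d * Real.exp 1 * θ ≤ 1)
    (hθ2 : 2 * d * Real.exp 1 ^ 2 * (2 * d * Real.exp 1 * θ) ^ ν ≤ 1 / 4)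
    (n u : ℕ) (hn : 1 ≤ n) (hu : 1 ≤ u) (huθ : (u : ℝ) ≤ θ * n) :
    ((n.choose u : ℕ) : ℝ) * (((u * u).choose ⌈(1 + ν) * u⌉₊ : ℕ) : ℝ) *
      (2 * d / n : ℝ) ^ ⌈(1 + ν) * u⌉₊ ≤
      2 * d * Real.exp 1 ^ 2 * (2 * d * Real.exp 1) * (n : ℝ) ^ (-ν) * (1 / 2 : ℝ) ^ (u - 1) := by
  set f : ℕ := ⌈(1 + ν) * u⌉₊ with hf
  have hn0 : (0 : ℝ) < n := by exact_mod_cast hn
  have hu0 : (0 : ℝ) < u := by exact_mod_cast hu
  have hu1 : (1 : ℝ) ≤ u := by exact_mod_cast hu
  have hd0 : (1 : ℝ) ≤ d := by exact_mod_cast hd1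
  have he : (1 : ℝ) ≤ Real.exp 1 := by
    have := Real.add_one_le_exp (1 : ℝ)
    linarith
  have hfge : (1 + ν) * u ≤ f := Nat.le_ceil _
  have hfu : (u : ℝ) ≤ f := by nlinarith
  have hf1 : 1 ≤ f := by
    have : (1 : ℝ) ≤ f := by linarith
    exact_mod_cast this
  have hf0 : (0 : ℝ) < f := by linarith
  set q : ℝ := 2 * d * Real.exp 1 * (u / n) with hq
  have hq0 : 0 < q := by positivity
  have hun : (u : ℝ) / n ≤ θ := by
    rw [div_le_iff₀ hn0]
    exact huθ
  have hqle : q ≤ 2 * d * Real.exp 1 * θ := by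
    rw [hq]
    gcongr
  have hq1 : q ≤ 1 := hqle.trans hθ1
  set C : ℝ := 2 * d * Real.exp 1 ^ 2 with hC
  have hC0 : 0 < C := by positivity
  -- first factor
  have h1 : ((n.choose u : ℕ) : ℝ) ≤ (C / q) ^ u := by
    refine (choose_le_exp n u hu).trans (le_of_eq ?_)
    congr 1
    rw [hC, hq]
    field_simp
  -- second and third factor
  have h2 : (((u * u).choose f : ℕ) : ℝ) * (2 * d / n : ℝ) ^ f ≤ q ^ f := by
    have h3 : (((u * u).choose f : ℕ) : ℝ) ≤ (Real.exp 1 * u) ^ f := by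
      refine (choose_le_exp (u * u) f hf1).trans ?_
      apply pow_le_pow_left₀ (by positivity)
      rw [div_le_iff₀ hf0]
      push_cast
      have : Real.exp 1 * (u * u : ℝ) = Real.exp 1 * u * u := by ring
      rw [this]
      gcongr
    calc (((u * u).choose f : ℕ) : ℝ) * (2 * d / n : ℝ) ^ f
        ≤ (Real.exp 1 * u) ^ f * (2 * d / n : ℝ) ^ f := by gcongr
      _ = q ^ f := by
          rw [← mul_pow, hq]
          congr 1
          ring
  have h4 : q ^ f ≤ (q * q ^ ν) ^ u := by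
    have e1 : (q * q ^ ν) ^ u = q ^ ((1 + ν) * (u : ℝ)) := by
      rw [Real.rpow_mul_natCast hq0.le, Real.rpow_add hq0, Real.rpow_one]
    rw [e1, ← Real.rpow_natCast q f]
    exact Real.rpow_le_rpow_of_exponent_ge hq0 hq1 hfge
  have hqν : 0 < q ^ ν := Real.rpow_pos_of_pos hq0 _
  have h5 : ((n.choose u : ℕ) : ℝ) * (((u * u).choose f : ℕ) : ℝ) * (2 * d / n : ℝ) ^ f ≤
      (C * q ^ ν) ^ u := by
    calc ((n.choose u : ℕ) : ℝ) * (((u * u).choose f : ℕ) : ℝ) * (2 * d / n : ℝ) ^ f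
        = ((n.choose u : ℕ) : ℝ) * ((((u * u).choose f : ℕ) : ℝ) * (2 * d / n : ℝ) ^ f) := by ring
      _ ≤ (C / q) ^ u * (q * q ^ ν) ^ u := by
          apply mul_le_mul h1 (h2.trans h4) (by positivity) (by positivity)
      _ = (C * q ^ ν) ^ u := by
          rw [← mul_pow]
          congr 1
          field_simp
  have h6 : C * q ^ ν ≤ 1 / 4 := by
    refine le_trans ?_ hθ2
    gcongr
  have h7 : (C * q ^ ν) ^ u ≤ (C * q ^ ν) * (1 / 4 : ℝ) ^ (u - 1) := by
    obtain ⟨v, rfl⟩ : ∃ v, u = v + 1 := ⟨u - 1, by omega⟩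
    rw [pow_succ', Nat.add_sub_cancel]
    gcongr
  have h8 : q ^ ν ≤ 2 * d * Real.exp 1 * u * (n : ℝ) ^ (-ν) := by
    have e1 : q = (2 * d * Real.exp 1 * u) * (n : ℝ)⁻¹ := by
      rw [hq]
      field_simp
    rw [e1, Real.mul_rpow (by positivity) (by positivity), Real.inv_rpow hn0.le, ← Real.rpow_neg hn0.le]
    gcongr
    have hge1 : (1 : ℝ) ≤ 2 * d * Real.exp 1 * u := by
      have : (1 : ℝ) ≤ 2 * d := by linarith
      have h9 : (1 : ℝ) ≤ 2 * d * Real.exp 1 := one_le_mul_of_one_le_of_one_le this he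
      exact one_le_mul_of_one_le_of_one_le h9 hu1
    calc (2 * d * Real.exp 1 * u : ℝ) ^ ν ≤ (2 * d * Real.exp 1 * u : ℝ) ^ (1 : ℝ) :=
          Real.rpow_le_rpow_of_exponent_le hge1 hν1
      _ = _ := Real.rpow_one _
  have h9 : (u : ℝ) * (1 / 4 : ℝ) ^ (u - 1) ≤ (1 / 2 : ℝ) ^ (u - 1) := by
    obtain ⟨v, rfl⟩ : ∃ v, u = v + 1 := ⟨u - 1, by omega⟩
    rw [Nat.add_sub_cancel]
    have h10 : ((v + 1 : ℕ) : ℝ) ≤ 2 ^ v := by
      have : v + 1 ≤ 2 ^ v := Nat.lt_two_pow_self
      exact_mod_cast this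
    calc ((v + 1 : ℕ) : ℝ) * (1 / 4 : ℝ) ^ v ≤ 2 ^ v * (1 / 4 : ℝ) ^ v := by gcongr
      _ = (1 / 2 : ℝ) ^ v := by
          rw [← mul_pow]
          norm_num
  calc ((n.choose u : ℕ) : ℝ) * (((u * u).choose f : ℕ) : ℝ) * (2 * d / n : ℝ) ^ f
      ≤ (C * q ^ ν) * (1 / 4 : ℝ) ^ (u - 1) := h5.trans h7
    _ ≤ (C * (2 * d * Real.exp 1 * u * (n : ℝ) ^ (-ν))) * (1 / 4 : ℝ) ^ (u - 1) := by gcongr
    _ = C * (2 * d * Real.exp 1) * (n : ℝ) ^ (-ν) * (u * (1 / 4 : ℝ) ^ (u - 1)) := by ring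
    _ ≤ C * (2 * d * Real.exp 1) * (n : ℝ) ^ (-ν) * (1 / 2 : ℝ) ^ (u - 1) := by gcongr

theorem sparse_whp (d : ℕ) (hd1 : 1 ≤ d) (ν : ℝ) (hν : 0 < ν) (hν1 : ν ≤ 1) :
    ∃ θ3 : ℝ, 0 < θ3 ∧ ∀ ε : ℝ, 0 < ε → ∀ᶠ n : ℕ in atTop,
      fr (Reg n d) (fun A => ∃ U : Finset (Fin n), U.Nonempty ∧ (U.card : ℝ) ≤ θ3 * n ∧
        (1 + ν) * U.card ≤ (eIn A U : ℝ)) ≤ ε := by
  classical
  have hd0 : (1 : ℝ) ≤ d := by exact_mod_cast hd1
  have he : (1 : ℝ) ≤ Real.exp 1 := by
    have := Real.add_one_le_exp (1 : ℝ)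
    linarith
  set C : ℝ := 2 * d * Real.exp 1 ^ 2 with hC
  have hC0 : 0 < C := by positivity
  set D : ℝ := 2 * d * Real.exp 1 with hD
  have hD0 : 0 < D := by positivity
  set a : ℝ := min 1 ((1 / (4 * C)) ^ (1 / ν)) with ha
  have ha0 : 0 < a := lt_min one_pos (Real.rpow_pos_of_pos (by positivity) _)
  set θ : ℝ := min (1 / 12) (a / D) with hθ
  have hθ0 : 0 < θ := lt_min (by norm_num) (by positivity)
  have hθa : D * θ ≤ a := by
    calc D * θ ≤ D * (a / D) := by
          gcongr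
          exact min_le_right _ _
      _ = a := by field_simp
  have hθ1 : D * θ ≤ 1 := hθa.trans (min_le_left _ _)
  have hθ2 : C * (D * θ) ^ ν ≤ 1 / 4 := by
    have h1 : (D * θ) ^ ν ≤ 1 / (4 * C) := by
      calc (D * θ) ^ ν ≤ ((1 / (4 * C)) ^ (1 / ν)) ^ ν := by
            gcongr
            exact hθa.trans (min_le_right _ _)
        _ = 1 / (4 * C) := by
            rw [← Real.rpow_mul (by positivity), one_div_mul_cancel hν.ne', Real.rpow_one]
    calc C * (D * θ) ^ ν ≤ C * (1 / (4 * C)) := by gcongr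
      _ = 1 / 4 := by field_simp
  refine ⟨θ, hθ0, fun ε hε => ?_⟩
  have hlim : Tendsto (fun n : ℕ => C * D * (n : ℝ) ^ (-ν) * 2) atTop (nhds 0) := by
    have h1 : Tendsto (fun n : ℕ => (n : ℝ) ^ (-ν)) atTop (nhds 0) :=
      (tendsto_rpow_neg_atTop hν).comp tendsto_natCast_atTop_atTop
    have h2 := (h1.const_mul (C * D)).mul_const 2
    simpa using h2
  filter_upwards [switching d hd1, eventually_ge_atTop 1, hlim.eventually_le_const hε]
    with n hsw hn hlimn
  have hn0 : (0 : ℝ) < n := by exact_mod_cast hn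
  refine le_trans ?_ hlimn
  set N : ℕ := ⌊θ * n⌋₊ with hN
  -- union bound
  have hmono : fr (Reg n d) (fun A => ∃ U : Finset (Fin n), U.Nonempty ∧ (U.card : ℝ) ≤ θ * n ∧
        (1 + ν) * U.card ≤ (eIn A U : ℝ)) ≤
      fr (Reg n d) (fun A => ∃ u ∈ Icc 1 N, ∃ U ∈ powersetCard u (univ : Finset (Fin n)),
        ∃ F ∈ powersetCard ⌈(1 + ν) * u⌉₊ (U ×ˢ U), ∀ e ∈ F, A e.1 e.2 = true) := by
    apply fr_mono
    rintro A _ ⟨U, hU, hUθ, hUe⟩
    refine ⟨U.card, mem_Icc.2 ⟨hU.card_pos, (Nat.le_floor_iff (by positivity)).2 hUθ⟩, U,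
      mem_powersetCard.2 ⟨subset_univ _, rfl⟩, ?_⟩
    have h1 : ⌈(1 + ν) * U.card⌉₊ ≤ eIn A U := Nat.ceil_le.2 hUe
    obtain ⟨F, hF1, hF2⟩ := exists_subset_card_eq h1
    refine ⟨F, mem_powersetCard.2 ⟨hF1.trans (filter_subset _ _), hF2⟩, ?_⟩
    intro e he
    exact (mem_filter.1 (hF1 he)).2
  refine hmono.trans ((fr_exists_le _ _ _).trans ?_)
  have hterm : ∀ u ∈ Icc 1 N, fr (Reg n d) (fun A =>
      ∃ U ∈ powersetCard u (univ : Finset (Fin n)),
        ∃ F ∈ powersetCard ⌈(1 + ν) * u⌉₊ (U ×ˢ U), ∀ e ∈ F, A e.1 e.2 = true) ≤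
      C * D * (n : ℝ) ^ (-ν) * (1 / 2 : ℝ) ^ (u - 1) := by
    intro u hu
    rw [mem_Icc] at hu
    have huθ : (u : ℝ) ≤ θ * n := (Nat.le_floor_iff (by positivity)).1 hu.2
    have hf4 : 4 * ⌈(1 + ν) * (u : ℝ)⌉₊ ≤ n := by
      have h1 : ⌈(1 + ν) * (u : ℝ)⌉₊ ≤ 3 * u := by
        apply Nat.ceil_le.2
        push_cast
        have : (0 : ℝ) ≤ u := Nat.cast_nonneg _
        nlinarith
      have h2 : (12 * u : ℝ) ≤ n := by
        have h3 : θ ≤ 1 / 12 := min_le_left _ _
        nlinarith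
      have h3 : 12 * u ≤ n := by exact_mod_cast h2
      omega
    have hU : ∀ U ∈ powersetCard u (univ : Finset (Fin n)), fr (Reg n d) (fun A =>
        ∃ F ∈ powersetCard ⌈(1 + ν) * u⌉₊ (U ×ˢ U), ∀ e ∈ F, A e.1 e.2 = true) ≤
        (((u * u).choose ⌈(1 + ν) * u⌉₊ : ℕ) : ℝ) * (2 * d / n : ℝ) ^ ⌈(1 + ν) * (u : ℝ)⌉₊ := by
      intro U hUm
      have hc := (mem_powersetCard.1 hUm).2
      have := fr_exists_le_card (Reg n d) (powersetCard ⌈(1 + ν) * u⌉₊ (U ×ˢ U))
        (fun F A => ∀ e ∈ F, A e.1 e.2 = true) ((2 * d / n : ℝ) ^ ⌈(1 + ν) * (u : ℝ)⌉₊) (by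
          intro F hF
          have hFc := (mem_powersetCard.1 hF).2
          have h := hsw F (by rw [hFc]; exact hf4)
          rw [hFc] at h
          exact h)
      rw [card_powersetCard, card_product, hc] at this
      exact this
    have h1 := fr_exists_le_card (Reg n d) (powersetCard u (univ : Finset (Fin n)))
      (fun U A => ∃ F ∈ powersetCard ⌈(1 + ν) * u⌉₊ (U ×ˢ U), ∀ e ∈ F, A e.1 e.2 = true) _ hU
    refine h1.trans ?_
    rw [card_powersetCard, card_univ, Fintype.card_fin]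
    have := sparse_term d hd1 ν θ hν hν1 hθ0 hθ1 hθ2 n u hn hu.1 huθ
    rw [← mul_assoc]
    exact this
  calc ∑ u ∈ Icc 1 N, fr (Reg n d) (fun A => ∃ U ∈ powersetCard u (univ : Finset (Fin n)),
        ∃ F ∈ powersetCard ⌈(1 + ν) * u⌉₊ (U ×ˢ U), ∀ e ∈ F, A e.1 e.2 = true)
      ≤ ∑ u ∈ Icc 1 N, C * D * (n : ℝ) ^ (-ν) * (1 / 2 : ℝ) ^ (u - 1) := sum_le_sum hterm
    _ = C * D * (n : ℝ) ^ (-ν) * ∑ u ∈ Icc 1 N, (1 / 2 : ℝ) ^ (u - 1) := by rw [mul_sum]
    _ ≤ C * D * (n : ℝ) ^ (-ν) * 2 := by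
        gcongr
        exact sum_half_pow_le N

end Pool.Agent.SMin
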