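import Pool.Agent.SMin.Base

set_option autoImplicit false
open Finset Filter Topology

namespace Pool.Agent.SMin.TPoly
open Pool.Agent.SMin

/-! ## Module TP: polynomial transfer configuration model -> simple model -/

/-! ### the fibres over regular 0/1 matrices -/

section fibre
variable {n d : ℕ} (A : Fin n → Fin n → Bool)

lemma tp_symm_eq (α : ∀ i, Fin d ≃ {j // A i j = true}) {i i' j : Fin n} (h : i' = i)
    (hj : A i' j = true) (k : Fin d) (hk : (α i k).1 = j) : (α i').symm ⟨j, hj⟩ = k := by
  subst h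
  rw [Equiv.symm_apply_eq]
  exact Subtype.ext hk.symm

lemma tp_symm_eq' (β : ∀ j, Fin d ≃ {i // A i j = true}) {i j j' : Fin n} (h : j' = j)
    (hi : A i j' = true) (k : Fin d) (hk : (β j k).1 = i) : (β j').symm ⟨i, hi⟩ = k := by
  subst h
  rw [Equiv.symm_apply_eq]
  exact Subtype.ext hk.symm

/-- the configuration given by labelled rows and columns -/
def tp_mk (α : ∀ i, Fin d ≃ {j // A i j = true}) (β : ∀ j, Fin d ≃ {i // A i j = true}) :
    Cfg n d where
  toFun p := ((α p.1 p.2).1, (β (α p.1 p.2).1).symm ⟨p.1, (α p.1 p.2).2⟩)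
  invFun q := ((β q.1 q.2).1, (α (β q.1 q.2).1).symm ⟨q.1, (β q.1 q.2).2⟩)
  left_inv := by
    rintro ⟨i, k⟩
    have h1 : (β (α i k).1 ((β (α i k).1).symm ⟨i, (α i k).2⟩)).1 = i := by
      rw [Equiv.apply_symm_apply]
    exact Prod.ext h1 (tp_symm_eq A α h1 _ k rfl)
  right_inv := by
    rintro ⟨j, b⟩
    have h1 : (α (β j b).1 ((α (β j b).1).symm ⟨j, (β j b).2⟩)).1 = j := by
      rw [Equiv.apply_symm_apply]
    exact Prod.ext h1 (tp_symm_eq' A β h1 _ b rfl)

lemma tp_mult_mk (α : ∀ i, Fin d ≃ {j // A i j = true}) (β : ∀ j, Fin d ≃ {i // A i j = true}) :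
    mult (tp_mk A α β) = toN A := by
  funext i j
  unfold mult toN
  have h0 : ∀ k, hd (tp_mk A α β) i k = (α i k).1 := fun k => rfl
  simp only [h0]
  split_ifs with h
  · rw [card_eq_one]
    refine ⟨(α i).symm ⟨j, h⟩, ?_⟩
    ext k
    simp only [mem_filter, mem_univ, true_and, mem_singleton]
    constructor
    · intro hk
      rw [Equiv.eq_symm_apply]
      exact Subtype.ext hk
    · intro hk
      rw [hk, Equiv.apply_symm_apply]
  · rw [card_eq_zero, filter_eq_empty_iff]
    intro k _ hk
    apply h
    rw [← hk]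
    exact (α i k).2

lemma tp_exists_row {σ : Cfg n d} (h : mult σ = toN A) (i : Fin n) :
    ∃ e : Fin d ≃ {j // A i j = true}, ∀ k, (e k).1 = (σ (i, k)).1 := by
  classical
  have h1 : ∀ k, A i (σ (i, k)).1 = true := by
    intro k
    have h2 := congrFun (congrFun h i) (σ (i, k)).1
    unfold mult toN at h2
    by_contra hc
    rw [if_neg hc, card_eq_zero, filter_eq_empty_iff] at h2
    exact h2 (mem_univ k) rfl
  refine ⟨Equiv.ofBijective (fun k => ⟨(σ (i, k)).1, h1 k⟩) ⟨?_, ?_⟩, fun k => rfl⟩
  · intro k k' hkk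
    have h3 : (σ (i, k)).1 = (σ (i, k')).1 := congrArg Subtype.val hkk
    have h2 := congrFun (congrFun h i) (σ (i, k)).1
    unfold mult toN at h2
    rw [if_pos (h1 k), card_eq_one] at h2
    obtain ⟨b, hb⟩ := h2
    have hk : k ∈ ({b} : Finset (Fin d)) := by
      rw [← hb]; exact mem_filter.2 ⟨mem_univ _, rfl⟩
    have hk' : k' ∈ ({b} : Finset (Fin d)) := by
      rw [← hb]; exact mem_filter.2 ⟨mem_univ _, h3.symm⟩
    rw [mem_singleton] at hk hk'
    rw [hk, hk']
  · rintro ⟨j, hj⟩
    have h2 := congrFun (congrFun h i) j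
    unfold mult toN at h2
    rw [if_pos hj, card_eq_one] at h2
    obtain ⟨b, hb⟩ := h2
    have hk : b ∈ (univ.filter (fun k : Fin d => hd σ i k = j)) := by
      rw [hb]; exact mem_singleton_self b
    exact ⟨b, Subtype.ext (mem_filter.1 hk).2⟩

lemma tp_exists_col {σ : Cfg n d} (h : mult σ = toN A) (j : Fin n) :
    ∃ e : Fin d ≃ {i // A i j = true}, ∀ b, (e b).1 = (σ.symm (j, b)).1 := by
  have h' : mult σ.symm = toN (fun i j => A j i) := by
    rw [mult_symm, h]
    rfl
  exact tp_exists_row (fun i j => A j i) h' j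

lemma tp_fibre (hA : A ∈ Reg n d) :
    (univ.filter (fun σ : Cfg n d => mult σ = toN A)).card = d.factorial ^ n * d.factorial ^ n := by
  classical
  rw [mem_Reg] at hA
  have hr : ∀ i, Fintype.card (Fin d ≃ {j // A i j = true}) = d.factorial := by
    intro i
    have h1 : Fintype.card (Fin d) = Fintype.card {j // A i j = true} := by
      rw [Fintype.card_subtype, hA.1 i, Fintype.card_fin]
    rw [Fintype.card_equiv (Fintype.equivOfCardEq h1), Fintype.card_fin]
  have hc : ∀ j, Fintype.card (Fin d ≃ {i // A i j = true}) = d.factorial := by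
    intro j
    have h1 : Fintype.card (Fin d) = Fintype.card {i // A i j = true} := by
      rw [Fintype.card_subtype, hA.2 j, Fintype.card_fin]
    rw [Fintype.card_equiv (Fintype.equivOfCardEq h1), Fintype.card_fin]
  have hcard : Fintype.card ((∀ i, Fin d ≃ {j // A i j = true}) ×
      (∀ j, Fin d ≃ {i // A i j = true})) = d.factorial ^ n * d.factorial ^ n := by
    rw [Fintype.card_prod, Fintype.card_pi, Fintype.card_pi]
    simp only [hr, hc, prod_const, card_univ, Fintype.card_fin]
  rw [← hcard, ← card_univ]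
  symm
  apply card_bij (fun p _ => tp_mk A p.1 p.2)
  · intro p _
    exact mem_filter.2 ⟨mem_univ _, tp_mult_mk A p.1 p.2⟩
  · rintro ⟨α, β⟩ _ ⟨α', β'⟩ _ h
    have h1 : ∀ i k, (α i k).1 = (α' i k).1 := by
      intro i k
      have := congrArg (fun σ : Cfg n d => (σ (i, k)).1) h
      exact this
    have h2 : ∀ j b, (β j b).1 = (β' j b).1 := by
      intro j b
      have := congrArg (fun σ : Cfg n d => (σ.symm (j, b)).1) h
      exact this
    have h3 : α = α' := by
      funext i
      exact Equiv.ext fun k => Subtype.ext (h1 i k)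
    have h4 : β = β' := by
      funext j
      exact Equiv.ext fun b => Subtype.ext (h2 j b)
    rw [h3, h4]
  · intro σ hσ
    have hσ' := (mem_filter.1 hσ).2
    choose α hα using tp_exists_row A hσ'
    choose β hβ using tp_exists_col A hσ'
    refine ⟨(α, β), mem_univ _, ?_⟩
    apply Equiv.ext
    rintro ⟨i, k⟩
    have h1 : (tp_mk A α β (i, k)).1 = (σ (i, k)).1 := hα i k
    refine Prod.ext h1 ?_
    change (β (α i k).1).symm ⟨i, (α i k).2⟩ = (σ (i, k)).2
    apply tp_symm_eq' A β (hα i k)
    rw [hβ]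
    simp

end fibre

/-! ### counting simple configurations -/

/-- a row with distinct heads and stubs in `S` -/
def tp_row {n d k : ℕ} (S : Finset (Fin n × Fin d)) (ψ : Fin k → Fin n × Fin d) : Prop :=
  (∀ a, ψ a ∈ S) ∧ ∀ a b, (ψ a).1 = (ψ b).1 → a = b

/-- `m` rows with distinct heads, injective, stubs in `S` -/
def tp_good {n d m : ℕ} (S : Finset (Fin n × Fin d)) (f : Fin m → Fin d → Fin n × Fin d) : Prop :=
  (∀ i k, f i k ∈ S) ∧ (∀ i k i' k', f i k = f i' k' → i = i' ∧ k = k') ∧
    ∀ i k k', (f i k).1 = (f i k').1 → k = k'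

open Classical in
lemma tp_row_card {n d : ℕ} (S : Finset (Fin n × Fin d)) (k : ℕ) :
    ∏ j ∈ range k, (S.card - d * j) ≤
      (univ.filter (fun ψ : Fin k → Fin n × Fin d => tp_row S ψ)).card := by
  induction k with
  | zero =>
    rw [range_zero, prod_empty]
    apply card_pos.2
    refine ⟨fun a => a.elim0, mem_filter.2 ⟨mem_univ _, ?_, ?_⟩⟩
    · intro a; exact a.elim0
    · intro a; exact a.elim0
  | succ k ih =>
    rw [prod_range_succ]
    let T : Finset (Σ _ : Fin k → Fin n × Fin d, Fin n × Fin d) :=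
      (univ.filter (fun ψ : Fin k → Fin n × Fin d => tp_row S ψ)).sigma
        (fun ψ => S.filter (fun x => x.1 ∉ univ.image (fun a => (ψ a).1)))
    have h1 : T.card ≤ (univ.filter (fun ψ : Fin (k + 1) → Fin n × Fin d => tp_row S ψ)).card := by
      apply card_le_card_of_injOn (fun p => Fin.cons p.2 p.1)
      · rintro ⟨ψ, x⟩ hp
        have hp' := mem_sigma.1 (mem_coe.1 hp)
        obtain ⟨h2, h3⟩ := hp'
        obtain ⟨_, h4, h5⟩ := mem_filter.1 h2
        obtain ⟨h6, h7⟩ := mem_filter.1 h3
        simp only at h4 h5 h6 h7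
        have h8 : ∀ a, x.1 ≠ (ψ a).1 := by
          intro a ha
          exact h7 (mem_image.2 ⟨a, mem_univ _, ha.symm⟩)
        refine mem_coe.2 (mem_filter.2 ⟨mem_univ _, ?_, ?_⟩)
        · intro a
          refine Fin.cases ?_ (fun a => ?_) a
          · exact h6
          · exact h4 a
        · intro a b
          refine Fin.cases ?_ (fun a => ?_) a
          · refine Fin.cases ?_ (fun b => ?_) b
            · intro _; rfl
            · intro h
              simp only [Fin.cons_zero, Fin.cons_succ] at h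
              exact absurd h (h8 b)
          · refine Fin.cases ?_ (fun b => ?_) b
            · intro h
              simp only [Fin.cons_zero, Fin.cons_succ] at h
              exact absurd h.symm (h8 a)
            · intro h
              simp only [Fin.cons_succ] at h
              rw [h5 a b h]
      · rintro ⟨ψ, x⟩ _ ⟨ψ', x'⟩ _ h
        simp only [Fin.cons_inj] at h
        rw [h.1, h.2]
    refine le_trans ?_ h1
    rw [card_sigma]
    calc (∏ j ∈ range k, (S.card - d * j)) * (S.card - d * k)
        ≤ (univ.filter (fun ψ : Fin k → Fin n × Fin d => tp_row S ψ)).card *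
            (S.card - d * k) := Nat.mul_le_mul_right _ ih
      _ = ∑ _ψ ∈ univ.filter (fun ψ : Fin k → Fin n × Fin d => tp_row S ψ),
            (S.card - d * k) := by rw [sum_const, smul_eq_mul]
      _ ≤ _ := by
        apply sum_le_sum
        intro ψ _
        have h2 := card_filter_add_card_filter_not
          (fun x : Fin n × Fin d => x.1 ∈ univ.image (fun a => (ψ a).1)) (s := S)
        have h3 : (S.filter (fun x => x.1 ∈ univ.image (fun a => (ψ a).1))).card ≤ d * k := by
          have h4 : S.filter (fun x => x.1 ∈ univ.image (fun a => (ψ a).1)) ⊆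
              (univ.image (fun a => (ψ a).1)) ×ˢ (univ : Finset (Fin d)) := by
            intro x hx
            exact mem_product.2 ⟨(mem_filter.1 hx).2, mem_univ _⟩
          refine (card_le_card h4).trans ?_
          rw [card_product, card_univ, Fintype.card_fin, mul_comm]
          apply Nat.mul_le_mul_left
          refine card_image_le.trans ?_
          simp
        omega

lemma tp_good_cons {n d m : ℕ} [DecidableEq (Fin n × Fin d)] (S : Finset (Fin n × Fin d))
    (ψ : Fin d → Fin n × Fin d)
    (f : Fin m → Fin d → Fin n × Fin d) (h1 : tp_row S ψ) (h2 : tp_good (S \ univ.image ψ) f) :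
    tp_good S (Fin.cons ψ f : Fin (m + 1) → Fin d → Fin n × Fin d) := by
  obtain ⟨h1a, h1b⟩ := h1
  obtain ⟨h2a, h2b, h2c⟩ := h2
  have h3 : ∀ i k a, f i k ≠ ψ a := by
    intro i k a h
    have := (mem_sdiff.1 (h2a i k)).2
    exact this (mem_image.2 ⟨a, mem_univ _, h.symm⟩)
  refine ⟨?_, ?_, ?_⟩
  · intro i
    refine Fin.cases ?_ (fun i => ?_) i
    · exact h1a
    · intro k
      exact (mem_sdiff.1 (h2a i k)).1
  · intro i k i' k'
    refine Fin.cases ?_ (fun i => ?_) i
    · refine Fin.cases ?_ (fun i' => ?_) i'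
      · intro h
        simp only [Fin.cons_zero] at h
        exact ⟨rfl, h1b k k' (congrArg Prod.fst h)⟩
      · intro h
        simp only [Fin.cons_zero, Fin.cons_succ] at h
        exact absurd h.symm (h3 i' k' k)
    · refine Fin.cases ?_ (fun i' => ?_) i'
      · intro h
        simp only [Fin.cons_zero, Fin.cons_succ] at h
        exact absurd h (h3 i k k')
      · intro h
        simp only [Fin.cons_succ] at h
        obtain ⟨h4, h5⟩ := h2b i k i' k' h
        exact ⟨by rw [h4], h5⟩
  · intro i
    refine Fin.cases ?_ (fun i => ?_) i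
    · intro k k' h
      simp only [Fin.cons_zero] at h
      exact h1b k k' h
    · intro k k' h
      simp only [Fin.cons_succ] at h
      exact h2c i k k' h

lemma tp_strictMono {a b : ℕ} (e : Fin a ↪o Fin b) (δ : ℕ) (q q' : Fin a)
    (h : (q' : ℕ) = q + δ) : (e q : ℕ) + δ ≤ e q' := by
  induction δ generalizing q' with
  | zero =>
    have : q' = q := Fin.ext (by omega)
    rw [this]; omega
  | succ δ ih =>
    have h1 := ih ⟨q + δ, by omega⟩ rfl
    have h2 : e ⟨q + δ, by omega⟩ < e q' := e.strictMono (by rw [Fin.lt_def]; simp only; omega)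
    rw [Fin.lt_def] at h2
    omega

/-- the last `d` rows can be completed -/
lemma tp_base {n d : ℕ} (S : Finset (Fin n × Fin d)) (hS : S.card = d * d) :
    ∃ f : Fin d → Fin d → Fin n × Fin d, tp_good S f := by
  classical
  let S' : Finset (Fin (n * d)) := S.map finProdFinEquiv.toEmbedding
  have hS' : S'.card = d * d := by rw [card_map, hS]
  let e : Fin (d * d) ↪o Fin (n * d) := S'.orderEmbOfFin hS'
  have hmem : ∀ q, finProdFinEquiv.symm (e q) ∈ S := by
    intro q
    have h1 : e q ∈ S' := orderEmbOfFin_mem S' hS' q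
    obtain ⟨x, hx, hx'⟩ := mem_map.1 h1
    rw [← hx']
    simpa using hx
  have hfst : ∀ q, ((finProdFinEquiv.symm (e q)).1 : ℕ) = (e q : ℕ) / d := fun q => rfl
  refine ⟨fun i k => finProdFinEquiv.symm (e (finProdFinEquiv (k, i))), ?_, ?_, ?_⟩
  · intro i k
    exact hmem _
  · intro i k i' k' h
    have h1 := finProdFinEquiv.symm.injective h
    have h2 := e.injective h1
    have h3 := finProdFinEquiv.injective h2
    rw [Prod.mk.injEq] at h3
    exact ⟨h3.2, h3.1⟩
  · intro i
    have key : ∀ k k' : Fin d, (k : ℕ) < k' →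
        (finProdFinEquiv.symm (e (finProdFinEquiv (k, i)))).1 ≠
        (finProdFinEquiv.symm (e (finProdFinEquiv (k', i)))).1 := by
      intro k k' hkk h
      have h1 := congrArg Fin.val h
      rw [hfst, hfst] at h1
      obtain ⟨δ, hδ⟩ : ∃ δ, (k' : ℕ) = k + 1 + δ := ⟨k' - (k + 1), by omega⟩
      have h2 := tp_strictMono e (d + d * δ) (finProdFinEquiv (k, i)) (finProdFinEquiv (k', i))
        (by simp only [finProdFinEquiv_apply_val, hδ]; ring)
      have hd : 0 < d := by
        have := k.2; omega
      have h3 : (e (finProdFinEquiv (k, i)) : ℕ) / d + 1 ≤ (e (finProdFinEquiv (k', i)) : ℕ) / d := by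
        rw [← Nat.add_div_right _ hd]
        apply Nat.div_le_div_right
        nlinarith
      omega
    intro k k' h
    by_contra hne
    rcases Nat.lt_or_gt_of_ne (fun h' => hne (Fin.ext h')) with h' | h'
    · exact key k k' h' h
    · exact key k' k h' h.symm

open Classical in
lemma tp_good_card {n d : ℕ} (M : ℕ) (hM : d ≤ M) (S : Finset (Fin n × Fin d))
    (hS : S.card = d * M) :
    ∏ m ∈ Ico d M, ∏ j ∈ range d, (d * (m + 1) - d * j) ≤
      (univ.filter (fun f : Fin M → Fin d → Fin n × Fin d => tp_good S f)).card := by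
  induction M, hM using Nat.le_induction generalizing S with
  | base =>
    rw [Ico_self, prod_empty]
    obtain ⟨f, hf⟩ := tp_base S hS
    exact card_pos.2 ⟨f, mem_filter.2 ⟨mem_univ _, hf⟩⟩
  | succ M hM ih =>
    rw [prod_Ico_succ_top hM]
    let T : Finset (Σ _ : Fin d → Fin n × Fin d, Fin M → Fin d → Fin n × Fin d) :=
      (univ.filter (fun ψ : Fin d → Fin n × Fin d => tp_row S ψ)).sigma
        (fun ψ => univ.filter (fun f : Fin M → Fin d → Fin n × Fin d =>
          tp_good (S \ univ.image ψ) f))
    have h1 : T.card ≤ (univ.filter (fun f : Fin (M + 1) → Fin d → Fin n × Fin d =>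
        tp_good S f)).card := by
      apply card_le_card_of_injOn (fun p => Fin.cons p.1 p.2)
      · rintro ⟨ψ, f⟩ hp
        have hp' := mem_sigma.1 (mem_coe.1 hp)
        exact mem_coe.2 (mem_filter.2 ⟨mem_univ _, tp_good_cons S ψ f (mem_filter.1 hp'.1).2
          (mem_filter.1 hp'.2).2⟩)
      · rintro ⟨ψ, x⟩ _ ⟨ψ', x'⟩ _ h
        simp only [Fin.cons_inj] at h
        rw [h.1, h.2]
    refine le_trans ?_ h1
    rw [card_sigma]
    calc (∏ m ∈ Ico d M, ∏ j ∈ range d, (d * (m + 1) - d * j)) *
          ∏ j ∈ range d, (d * (M + 1) - d * j)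
        ≤ (∏ m ∈ Ico d M, ∏ j ∈ range d, (d * (m + 1) - d * j)) *
            (univ.filter (fun ψ : Fin d → Fin n × Fin d => tp_row S ψ)).card := by
          apply Nat.mul_le_mul_left
          rw [← hS]
          exact tp_row_card S d
      _ = ∑ _ψ ∈ univ.filter (fun ψ : Fin d → Fin n × Fin d => tp_row S ψ),
            (∏ m ∈ Ico d M, ∏ j ∈ range d, (d * (m + 1) - d * j)) := by
          rw [sum_const, smul_eq_mul, mul_comm]
      _ ≤ _ := by
        apply sum_le_sum
        intro ψ hψ
        obtain ⟨h2, h3⟩ := (mem_filter.1 hψ).2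
        apply ih
        have hinj : Function.Injective ψ := fun a b hab => h3 a b (congrArg Prod.fst hab)
        have hsub : univ.image ψ ⊆ S := by
          intro x hx
          obtain ⟨a, _, rfl⟩ := mem_image.1 hx
          exact h2 a
        rw [card_sdiff_of_subset hsub, card_image_of_injective _ hinj, hS, card_univ,
          Fintype.card_fin]
        rw [Nat.mul_succ]; omega

/-- a configuration without multiple edges -/
def tp_simple {n d : ℕ} (σ : Cfg n d) : Prop :=
  ∀ i k k', (σ (i, k)).1 = (σ (i, k')).1 → k = k'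

open Classical in
lemma tp_simple_card {n d : ℕ} (hn : d ≤ n) :
    ∏ m ∈ Ico d n, ∏ j ∈ range d, (d * (m + 1) - d * j) ≤
      (univ.filter (fun σ : Cfg n d => tp_simple σ)).card := by
  refine (tp_good_card n hn (univ : Finset (Fin n × Fin d)) (by simp [mul_comm])).trans ?_
  have hbij : ∀ f : Fin n → Fin d → Fin n × Fin d, tp_good univ f →
      Function.Bijective (fun p : Fin n × Fin d => f p.1 p.2) := by
    intro f hf
    apply Finite.injective_iff_bijective.1
    rintro ⟨i, k⟩ ⟨i', k'⟩ h
    obtain ⟨h1, h2⟩ := hf.2.1 i k i' k' h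
    rw [h1, h2]
  let g : (Fin n → Fin d → Fin n × Fin d) → Cfg n d := fun f =>
    if hf : tp_good univ f then Equiv.ofBijective _ (hbij f hf) else 1
  have hg : ∀ f, tp_good univ f → ∀ i k, g f (i, k) = f i k := by
    intro f hf i k
    have : g f = Equiv.ofBijective _ (hbij f hf) := dif_pos hf
    rw [this]
    rfl
  apply card_le_card_of_injOn g
  · intro f hf
    have hf' := (mem_filter.1 (mem_coe.1 hf)).2
    refine mem_coe.2 (mem_filter.2 ⟨mem_univ _, ?_⟩)
    intro i k k'
    rw [hg f hf', hg f hf']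
    exact hf'.2.2 i k k'
  · intro f hf f' hf' h
    have hf1 := (mem_filter.1 (mem_coe.1 hf)).2
    have hf2 := (mem_filter.1 (mem_coe.1 hf')).2
    funext i k
    rw [← hg f hf1, ← hg f' hf2, h]

lemma tp_fact (d M : ℕ) (hM : d ≤ M) :
    (d * M).factorial ≤ (d * d).factorial *
      (∏ m ∈ Ico d M, ∏ j ∈ range d, (d * (m + 1) - d * j)) *
      ∏ k ∈ range d, M.descFactorial k := by
  induction M, hM using Nat.le_induction with
  | base =>
    rw [Ico_self, prod_empty, mul_one]
    apply Nat.le_mul_of_pos_right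
    apply prod_pos
    intro k hk
    exact Nat.descFactorial_pos.2 (mem_range.1 hk).le
  | succ M hM ih =>
    rw [prod_Ico_succ_top hM]
    have h1 : (d * (M + 1)).factorial ≤ (d * M).factorial * (d * (M + 1)) ^ d := by
      have h2 : d * (M + 1) = d * M + d := by ring
      rw [h2, ← Nat.factorial_mul_ascFactorial]
      apply Nat.mul_le_mul_left
      exact Nat.ascFactorial_le_pow_add _ _
    have h3 : (∏ j ∈ range d, (d * (M + 1) - d * j)) * ∏ k ∈ range d, (M + 1).descFactorial k =
        (d * (M + 1)) ^ d * ∏ k ∈ range d, M.descFactorial k := by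
      rw [← prod_mul_distrib]
      have h4 : ∀ k ∈ range d, (d * (M + 1) - d * k) * (M + 1).descFactorial k =
          (d * (M + 1)) * M.descFactorial k := by
        intro k _
        rw [← Nat.mul_sub, mul_assoc, ← Nat.descFactorial_succ, Nat.succ_descFactorial_succ]
        ring
      rw [prod_congr rfl h4, prod_mul_distrib, prod_const, card_range]
    calc (d * (M + 1)).factorial ≤ (d * M).factorial * (d * (M + 1)) ^ d := h1
      _ ≤ ((d * d).factorial * (∏ m ∈ Ico d M, ∏ j ∈ range d, (d * (m + 1) - d * j)) *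
            ∏ k ∈ range d, M.descFactorial k) * (d * (M + 1)) ^ d := Nat.mul_le_mul_right _ ih
      _ = (d * d).factorial * (∏ m ∈ Ico d M, ∏ j ∈ range d, (d * (m + 1) - d * j)) *
            ((d * (M + 1)) ^ d * ∏ k ∈ range d, M.descFactorial k) := by ring
      _ = _ := by rw [← h3]; ring

lemma tp_fact' (d n : ℕ) (hn : d ≤ n) (hn1 : 1 ≤ n) :
    (d * n).factorial ≤ (d * d).factorial * n ^ (d * d) *
      (∏ m ∈ Ico d n, ∏ j ∈ range d, (d * (m + 1) - d * j)) := by
  refine (tp_fact d n hn).trans ?_
  rw [mul_assoc, mul_assoc, mul_comm (n ^ (d * d))]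
  apply Nat.mul_le_mul_left
  apply Nat.mul_le_mul_left
  calc ∏ k ∈ range d, n.descFactorial k ≤ ∏ _k ∈ range d, n ^ d := by
        apply prod_le_prod' 
        intro k hk
        exact (Nat.descFactorial_le_pow n k).trans (Nat.pow_le_pow_right hn1 (mem_range.1 hk).le)
    _ = n ^ (d * d) := by rw [prod_const, card_range, ← pow_mul]

lemma tp_simple_iff {n d : ℕ} (σ : Cfg n d) :
    tp_simple σ ↔ ∃ A ∈ Reg n d, mult σ = toN A := by
  classical
  constructor
  · intro h
    have hle : ∀ (τ : Cfg n d), tp_simple τ → ∀ i j, mult τ i j ≤ 1 := by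
      intro τ hτ i j
      unfold mult
      rw [card_le_one]
      intro k hk k' hk'
      have h1 := (mem_filter.1 hk).2
      have h2 := (mem_filter.1 hk').2
      exact hτ i k k' (h1.trans h2.symm)
    have hle1 := hle σ h
    have hN : mult σ = toN (fun i j => decide (mult σ i j = 1)) := by
      funext i j
      unfold toN
      by_cases h1 : mult σ i j = 1
      · simp [h1]
      · have := hle1 i j
        have h0 : mult σ i j = 0 := by omega
        simp [h0]
    refine ⟨fun i j => decide (mult σ i j = 1), ?_, hN⟩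
    have hsum : ∀ (τ : Cfg n d) i, ∑ j, mult τ i j = d := by
      intro τ i
      unfold mult
      rw [← card_eq_sum_card_fiberwise (f := fun k => hd τ i k) (fun _ _ => mem_coe.2 (mem_univ _))]
      simp
    rw [mem_Reg]
    constructor
    · intro i
      refine Eq.trans ?_ (hsum σ i)
      rw [card_eq_sum_ones, sum_filter]
      refine sum_congr rfl fun j _ => ?_
      have := hle1 i j
      by_cases h1 : mult σ i j = 1
      · simp [h1]
      · have h0 : mult σ i j = 0 := by omega
        simp [h0]
    · intro j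
      have h3 : ∑ i, mult σ i j = d := by
        refine Eq.trans ?_ (hsum σ.symm j)
        rw [mult_symm]
        rfl
      refine Eq.trans ?_ h3
      rw [card_eq_sum_ones, sum_filter]
      refine sum_congr rfl fun i _ => ?_
      have := hle1 i j
      by_cases h1 : mult σ i j = 1
      · simp [h1]
      · have h0 : mult σ i j = 0 := by omega
        simp [h0]
  · rintro ⟨A, _, hA⟩ i k k' h
    obtain ⟨e, he⟩ := tp_exists_row A hA i
    apply e.injective
    apply Subtype.ext
    rw [he, he, h]

open Classical in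
lemma tp_count {n d : ℕ} (P : (Fin n → Fin n → ℕ) → Prop) :
    (univ.filter (fun σ : Cfg n d => tp_simple σ ∧ P (mult σ))).card =
      ((Reg n d).filter (fun A => P (toN A))).card * (d.factorial ^ n * d.factorial ^ n) := by
  have h1 : (univ.filter (fun σ : Cfg n d => tp_simple σ ∧ P (mult σ))) =
      ((Reg n d).filter (fun A => P (toN A))).biUnion
        (fun A => univ.filter (fun σ : Cfg n d => mult σ = toN A)) := by
    ext σ
    simp only [mem_filter, mem_univ, true_and, mem_biUnion]
    rw [tp_simple_iff]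
    constructor
    · rintro ⟨⟨A, hA, hA2⟩, hP⟩
      exact ⟨A, ⟨hA, hA2 ▸ hP⟩, hA2⟩
    · rintro ⟨A, ⟨hA, hP⟩, hA2⟩
      exact ⟨⟨A, hA, hA2⟩, hA2.symm ▸ hP⟩
  rw [h1, card_biUnion]
  · rw [sum_congr rfl (fun A hA => tp_fibre A (mem_filter.1 hA).1), sum_const, smul_eq_mul]
  · intro A _ B _ hAB
    rw [Function.onFun, disjoint_left]
    intro σ h2 h3
    apply hAB
    have h4 : toN A = toN B := by
      rw [← (mem_filter.1 h2).2, (mem_filter.1 h3).2]
    funext i j
    have h5 := congrFun (congrFun h4 i) j
    unfold toN at h5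
    by_cases ha : A i j = true <;> by_cases hb : B i j = true <;> simp_all

theorem transfer_poly (d : ℕ) (hd1 : 1 ≤ d) : ∃ C : ℕ, ∀ᶠ n : ℕ in atTop,
    (Reg n d).Nonempty ∧ ∀ P : (Fin n → Fin n → ℕ) → Prop,
      fr (Reg n d) (fun A => P (toN A)) ≤
        (n : ℝ) ^ C * fr (univ : Finset (Cfg n d)) (fun σ => P (mult σ)) := by
  classical
  refine ⟨d * d + 1, ?_⟩
  filter_upwards [eventually_ge_atTop (d + (d * d).factorial)] with n hn
  have hnd : d ≤ n := by omega
  have hn1 : 1 ≤ n := by omega
  have hnf : (d * d).factorial ≤ n := by omega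
  -- the number of simple configurations
  have hsimple : (d * n).factorial ≤ n ^ (d * d + 1) *
      (univ.filter (fun σ : Cfg n d => tp_simple σ)).card := by
    calc (d * n).factorial ≤ (d * d).factorial * n ^ (d * d) *
          (∏ m ∈ Ico d n, ∏ j ∈ range d, (d * (m + 1) - d * j)) := tp_fact' d n hnd hn1
      _ ≤ n * n ^ (d * d) * (univ.filter (fun σ : Cfg n d => tp_simple σ)).card :=
        Nat.mul_le_mul (Nat.mul_le_mul_right _ hnf) (tp_simple_card hnd)
      _ = _ := by ring
  have hall : (univ.filter (fun σ : Cfg n d => tp_simple σ)).card =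
      (Reg n d).card * (d.factorial ^ n * d.factorial ^ n) := by
    have := tp_count (n := n) (d := d) (fun _ => True)
    simpa using this
  have hcfg : (univ : Finset (Cfg n d)).card = (d * n).factorial := by
    rw [card_univ, Fintype.card_perm]
    congr 1
    simp [mul_comm]
  have hpos : 0 < (univ.filter (fun σ : Cfg n d => tp_simple σ)).card := by
    by_contra hc
    have h0 : (univ.filter (fun σ : Cfg n d => tp_simple σ)).card = 0 := by omega
    rw [h0, mul_zero] at hsimple
    exact absurd hsimple (not_le.2 (Nat.factorial_pos _))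
  have hf : 0 < d.factorial ^ n * d.factorial ^ n := by positivity
  have hR : 0 < (Reg n d).card := by
    rw [hall] at hpos
    exact Nat.pos_of_mul_pos_right hpos
  refine ⟨card_pos.1 hR, fun P => ?_⟩
  rw [fr_def, fr_def]
  have h1 : ((Reg n d).filter (fun A => P (toN A))).card * (d.factorial ^ n * d.factorial ^ n) ≤
      (univ.filter (fun σ : Cfg n d => P (mult σ))).card := by
    rw [← tp_count P]
    apply card_le_card
    intro σ hσ
    have := (mem_filter.1 hσ).2
    exact mem_filter.2 ⟨mem_univ _, this.2⟩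
  have hR' : (0 : ℝ) < ((Reg n d).card : ℝ) := by exact_mod_cast hR
  have hC' : (0 : ℝ) < ((univ : Finset (Cfg n d)).card : ℝ) := by
    rw [hcfg]; exact_mod_cast Nat.factorial_pos _
  have hf' : (0 : ℝ) < ((d.factorial ^ n * d.factorial ^ n : ℕ) : ℝ) := by exact_mod_cast hf
  have h1' : (((Reg n d).filter (fun A => P (toN A))).card : ℝ) *
      ((d.factorial ^ n * d.factorial ^ n : ℕ) : ℝ) ≤
      ((univ.filter (fun σ : Cfg n d => P (mult σ))).card : ℝ) := by exact_mod_cast h1
  have h2' : (((univ : Finset (Cfg n d)).card : ℕ) : ℝ) ≤ (n : ℝ) ^ (d * d + 1) *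
      (((Reg n d).card : ℝ) * ((d.factorial ^ n * d.factorial ^ n : ℕ) : ℝ)) := by
    rw [hcfg]
    rw [hall] at hsimple
    exact_mod_cast hsimple
  rw [div_le_iff₀ hR']
  set a : ℝ := (((Reg n d).filter (fun A => P (toN A))).card : ℝ) with ha
  set F : ℝ := ((d.factorial ^ n * d.factorial ^ n : ℕ) : ℝ) with hF
  set b : ℝ := ((univ.filter (fun σ : Cfg n d => P (mult σ))).card : ℝ) with hb
  set R : ℝ := ((Reg n d).card : ℝ) with hRR
  set N : ℝ := (((univ : Finset (Cfg n d)).card : ℕ) : ℝ) with hNN
  have ha0 : 0 ≤ a := by positivity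
  have hb0 : 0 ≤ b := by positivity
  -- a F ≤ b, N ≤ n^C R F, want a ≤ n^C (b / N) R
  have h3 : a * N ≤ (n : ℝ) ^ (d * d + 1) * b * R := by
    calc a * N ≤ a * ((n : ℝ) ^ (d * d + 1) * (R * F)) := by gcongr
      _ = (n : ℝ) ^ (d * d + 1) * (a * F) * R := by ring
      _ ≤ (n : ℝ) ^ (d * d + 1) * b * R := by gcongr
  calc a = a * N / N := by field_simp
    _ ≤ ((n : ℝ) ^ (d * d + 1) * b * R) / N := by gcongr
    _ = _ := by ring

end Pool.Agent.SMin.TPoly
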