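import Pool.Agent.SMin.Base
import Pool.Agent.SMin.TransferPoly

set_option autoImplicit false
open Finset Filter

namespace Pool.Agent.SMin

/-! ## Module A (Transfer.lean) -/

theorem transfer (d : ℕ) (hd1 : 1 ≤ d) (ε : ℝ) (hε : 0 < ε) :
    ∀ᶠ n : ℕ in atTop, (Reg n d).Nonempty ∧ ∀ P : (Fin n → Fin n → ℕ) → Prop,
      fr (Reg n d) (fun A => P (toN A)) ≤
        Real.exp (ε * n) * fr (univ : Finset (Cfg n d)) (fun σ => P (mult σ)) := by
  obtain ⟨C, hC⟩ := TPoly.transfer_poly d hd1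
  have h1 : ∀ᶠ n : ℕ in atTop, ((n : ℝ)) ^ C ≤ Real.exp (ε * n) := by
    have h2 : Filter.Tendsto (fun x : ℝ => x ^ C * Real.exp (-ε * x)) atTop (nhds 0) := by
      have := tendsto_rpow_mul_exp_neg_mul_atTop_nhds_zero (C : ℝ) ε hε
      simpa using this
    have h3 := (h2.comp tendsto_natCast_atTop_atTop).eventually (gt_mem_nhds (show (0:ℝ) < 1 by norm_num))
    filter_upwards [h3] with n hn
    simp only [Function.comp] at hn
    have h4 : (n : ℝ) ^ C * Real.exp (-ε * n) * Real.exp (ε * n) ≤ 1 * Real.exp (ε * n) :=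
      mul_le_mul_of_nonneg_right hn.le (Real.exp_pos _).le
    rw [mul_assoc, ← Real.exp_add, one_mul] at h4
    simpa using h4
  filter_upwards [hC, h1] with n hn hn1
  refine ⟨hn.1, fun P => (hn.2 P).trans ?_⟩
  refine mul_le_mul_of_nonneg_right hn1 ?_
  unfold fr
  positivity

end Pool.Agent.SMin
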